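import Mathlib

/-!
# Binomial coefficients near the middle
-/

set_option autoImplicit false

namespace Pool.Agent.T9h47.SE

open Finset

theorem choose_step (n w : ℕ) (hw : (n : ℝ) ≤ 3 * w + 2) (j : ℕ) :
    ((n.choose (w + j) : ℕ) : ℝ) ≤ 2 ^ j * (n.choose w : ℕ) := by
  induction j with
  | zero => simp
  | succ j ih =>
    have h1 : (n.choose (w + j + 1) : ℕ) * (w + j + 1) = n.choose (w + j) * (n - (w + j)) :=
      Nat.choose_succ_right_eq n (w + j)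
    have h2 : ((n.choose (w + j + 1) : ℕ) : ℝ) * ((w : ℝ) + j + 1) ≤
        ((n.choose (w + j) : ℕ) : ℝ) * (2 * ((w : ℝ) + j + 1)) := by
      have h3 : ((n - (w + j) : ℕ) : ℝ) ≤ 2 * ((w : ℝ) + j + 1) := by
        rcases le_total (w + j) n with h | h
        · rw [Nat.cast_sub h]
          push_cast
          have : (0 : ℝ) ≤ j := Nat.cast_nonneg j
          linarith
        · rw [Nat.sub_eq_zero_of_le h, Nat.cast_zero]
          positivity
      have h4 : ((n.choose (w + j + 1) : ℕ) : ℝ) * ((w : ℝ) + j + 1) =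
          ((n.choose (w + j) : ℕ) : ℝ) * ((n - (w + j) : ℕ) : ℝ) := by exact_mod_cast h1
      rw [h4]
      exact mul_le_mul_of_nonneg_left h3 (Nat.cast_nonneg _)
    have hpos : (0 : ℝ) < (w : ℝ) + j + 1 := by positivity
    have h5 : ((n.choose (w + j + 1) : ℕ) : ℝ) ≤ 2 * ((n.choose (w + j) : ℕ) : ℝ) := by
      have h6 : ((n.choose (w + j + 1) : ℕ) : ℝ) * ((w : ℝ) + j + 1) ≤
          (2 * ((n.choose (w + j) : ℕ) : ℝ)) * ((w : ℝ) + j + 1) := by
        calc _ ≤ _ := h2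
          _ = _ := by ring
      exact le_of_mul_le_mul_right h6 hpos
    calc ((n.choose (w + (j + 1)) : ℕ) : ℝ) ≤ 2 * ((n.choose (w + j) : ℕ) : ℝ) := h5
      _ ≤ 2 * (2 ^ j * (n.choose w : ℕ)) := by linarith
      _ = 2 ^ (j + 1) * (n.choose w : ℕ) := by ring

theorem middle (n : ℕ) : (2 : ℝ) ^ n ≤ ((n : ℝ) + 1) * (n.choose (n / 2) : ℕ) := by
  have h1 : 2 ^ n ≤ (n + 1) * n.choose (n / 2) := by
    rw [← Nat.sum_range_choose]
    calc ∑ m ∈ range (n + 1), n.choose m ≤ ∑ _m ∈ range (n + 1), n.choose (n / 2) :=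
          sum_le_sum fun m _ => Nat.choose_le_middle m n
      _ = (n + 1) * n.choose (n / 2) := by rw [sum_const, card_range, smul_eq_mul]
  exact_mod_cast h1

theorem poly_le (c : ℝ) (hc : 0 < c) : ∃ n₁ : ℕ, ∀ n : ℕ, n₁ ≤ n →
    (n : ℝ) + 1 ≤ (2 : ℝ) ^ (c * n) := by
  have hl : 0 < Real.log 2 := Real.log_pos (by norm_num)
  obtain ⟨a, ha⟩ : ∃ a : ℝ, a = c * Real.log 2 := ⟨_, rfl⟩
  have ha0 : 0 < a := by rw [ha]; positivity
  obtain ⟨n₁, hn₁⟩ := exists_nat_ge (8 / a ^ 2 + 1)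
  refine ⟨n₁, fun n hn => ?_⟩
  have hn' : 8 / a ^ 2 + 1 ≤ (n : ℝ) := hn₁.trans (by exact_mod_cast hn)
  have h8 : 8 / a ^ 2 > 0 := by positivity
  have hn1 : 1 ≤ (n : ℝ) := by linarith
  have h1 : (2 : ℝ) ^ (c * n) = Real.exp (a * n) := by
    rw [Real.rpow_def_of_pos (by norm_num), ha]
    congr 1
    ring
  rw [h1]
  have h2 : Real.exp (a * n) = Real.exp (a * n / 2) ^ 2 := by
    rw [← Real.exp_nat_mul]
    congr 1
    push_cast
    ring
  have h3 : a * n / 2 ≤ Real.exp (a * n / 2) := by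
    have := Real.add_one_le_exp (a * n / 2)
    linarith
  have h4 : (a * n / 2) ^ 2 ≤ Real.exp (a * n / 2) ^ 2 :=
    pow_le_pow_left₀ (by positivity) h3 2
  rw [h2]
  refine le_trans ?_ h4
  have h5 : 8 ≤ a ^ 2 * n := by
    have h6 : 8 / a ^ 2 ≤ n := by linarith
    rw [div_le_iff₀ (by positivity)] at h6
    linarith
  have h7 : (a * n / 2) ^ 2 = a ^ 2 * n * n / 4 := by ring
  rw [h7]
  nlinarith

theorem choose_large (ε : ℝ) (hε : 0 < ε) : ∃ δ : ℝ, 0 < δ ∧ ∃ n₁ : ℕ, ∀ n : ℕ, n₁ ≤ n →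
    ∀ w : ℕ, |(w : ℝ) - n / 2| ≤ δ * n → (2 : ℝ) ^ ((1 - ε) * n) ≤ (n.choose w : ℕ) := by
  obtain ⟨δ, hδ⟩ : ∃ δ : ℝ, δ = min (1 / 6) (ε / 2) := ⟨_, rfl⟩
  have hδ1 : δ ≤ 1 / 6 := by rw [hδ]; exact min_le_left _ _
  have hδ2 : δ ≤ ε / 2 := by rw [hδ]; exact min_le_right _ _
  have hδ0 : 0 < δ := by rw [hδ]; exact lt_min (by norm_num) (by linarith)
  obtain ⟨n₁, hn₁⟩ := poly_le (ε / 2) (by linarith)
  refine ⟨δ, hδ0, max n₁ 1, fun n hn => ?_⟩
  have hn1 : n₁ ≤ n := (le_max_left _ _).trans hn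
  have hn2 : 1 ≤ n := (le_max_right _ _).trans hn
  have hnR : (1 : ℝ) ≤ n := by exact_mod_cast hn2
  have hp := hn₁ n hn1
  -- the case of `w` at most one half
  have key : ∀ w : ℕ, 2 * w ≤ n → |(w : ℝ) - n / 2| ≤ δ * n →
      (2 : ℝ) ^ ((1 - ε) * n) ≤ (n.choose w : ℕ) := by
    intro w hw2 hw
    rw [abs_le] at hw
    have hw3 : (n : ℝ) ≤ 3 * w + 2 := by nlinarith [hw.1]
    have h1 := choose_step n w hw3 (n / 2 - w)
    have h2 : w + (n / 2 - w) = n / 2 := by omega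
    rw [h2] at h1
    have h3 := middle n
    have hexp : ((n / 2 - w : ℕ) : ℝ) ≤ δ * n := by
      rw [Nat.cast_sub (by omega)]
      have : ((n / 2 : ℕ) : ℝ) ≤ n / 2 := Nat.cast_div_le
      linarith [hw.1]
    have h4 : (2 : ℝ) ^ (n / 2 - w) ≤ (2 : ℝ) ^ (δ * n) := by
      rw [← Real.rpow_natCast]
      exact Real.rpow_le_rpow_of_exponent_le (by norm_num) hexp
    have h5 : (2 : ℝ) ^ n ≤ (2 : ℝ) ^ (ε / 2 * n) * ((2 : ℝ) ^ (δ * n) * (n.choose w : ℕ)) := by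
      calc (2 : ℝ) ^ n ≤ ((n : ℝ) + 1) * (n.choose (n / 2) : ℕ) := h3
        _ ≤ (2 : ℝ) ^ (ε / 2 * n) * (n.choose (n / 2) : ℕ) :=
            mul_le_mul_of_nonneg_right hp (Nat.cast_nonneg _)
        _ ≤ (2 : ℝ) ^ (ε / 2 * n) * ((2 : ℝ) ^ (n / 2 - w) * (n.choose w : ℕ)) :=
            mul_le_mul_of_nonneg_left h1 (by positivity)
        _ ≤ _ := by
            apply mul_le_mul_of_nonneg_left _ (by positivity)
            exact mul_le_mul_of_nonneg_right h4 (Nat.cast_nonneg _)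
    have h6 : (2 : ℝ) ^ n = (2 : ℝ) ^ (ε / 2 * n) * ((2 : ℝ) ^ (δ * n) *
        (2 : ℝ) ^ ((1 - ε / 2 - δ) * n)) := by
      rw [← Real.rpow_natCast, ← Real.rpow_add (by norm_num), ← Real.rpow_add (by norm_num)]
      congr 1
      ring
    rw [h6] at h5
    have h7 : (2 : ℝ) ^ ((1 - ε / 2 - δ) * n) ≤ (n.choose w : ℕ) := by
      have h8 := le_of_mul_le_mul_left h5 (by positivity)
      exact le_of_mul_le_mul_left h8 (by positivity)
    refine le_trans ?_ h7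
    apply Real.rpow_le_rpow_of_exponent_le (by norm_num)
    nlinarith
  intro w hw
  rcases le_total (2 * w) n with h | h
  · exact key w h hw
  · have hwn : w ≤ n := by
      rw [abs_le] at hw
      have h1 : (w : ℝ) ≤ n := by nlinarith [hw.2]
      exact_mod_cast h1
    rw [← Nat.choose_symm hwn]
    apply key (n - w) (by omega)
    rw [Nat.cast_sub hwn]
    have h2 : ((n : ℝ) - w) - n / 2 = -((w : ℝ) - n / 2) := by ring
    rw [h2, abs_neg]
    exact hw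

end Pool.Agent.T9h47.SE
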