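import Mathlib

/-!
# Linear algebra over the field with two elements
-/

set_option autoImplicit false
set_option linter.unusedSectionVars false

namespace Pool.Agent.T9h47.SE

open Finset

/-- dot product -/
def dot {J : Type} [Fintype J] (u v : J → ZMod 2) : ZMod 2 := ∑ j, u j * v j

section

variable {J : Type} [Fintype J]

theorem dot_comm (u v : J → ZMod 2) : dot u v = dot v u :=
  sum_congr rfl fun _ _ => mul_comm _ _

theorem dot_add (u v w : J → ZMod 2) : dot u (v + w) = dot u v + dot u w := by
  unfold dot
  rw [← sum_add_distrib]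
  exact sum_congr rfl fun j _ => mul_add _ _ _

theorem add_dot (u v w : J → ZMod 2) : dot (u + v) w = dot u w + dot v w := by
  rw [dot_comm, dot_add, dot_comm w u, dot_comm w v]

theorem dot_smul (c : ZMod 2) (u v : J → ZMod 2) : dot u (c • v) = c * dot u v := by
  unfold dot
  rw [mul_sum]
  refine sum_congr rfl fun j _ => ?_
  show u j * (c * v j) = c * (u j * v j)
  ring

theorem z2_cases (a : ZMod 2) : a = 0 ∨ a = 1 := by revert a; decide

theorem z2_self (a : ZMod 2) : a + a = 0 := by revert a; decide

theorem vec_self (v : J → ZMod 2) : v + v = 0 := by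
  funext j
  exact z2_self _

/-- a linear functional is a dot product -/
theorem exists_dot [DecidableEq J] (φ : (J → ZMod 2) →ₗ[ZMod 2] ZMod 2) :
    ∃ y : J → ZMod 2, ∀ w, φ w = dot y w := by
  refine ⟨fun j => φ (Pi.single j 1), fun w => ?_⟩
  have h1 : w = ∑ j, w j • (Pi.single j (1 : ZMod 2) : J → ZMod 2) := by
    funext i
    rw [Finset.sum_apply, Finset.sum_eq_single i]
    · simp
    · intro j _ hj
      rw [Pi.smul_apply, Pi.single_eq_of_ne (Ne.symm hj), smul_zero]
    · intro h; exact absurd (mem_univ _) h
  conv_lhs => rw [h1]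
  rw [map_sum]
  unfold dot
  refine sum_congr rfl fun j _ => ?_
  rw [map_smul, smul_eq_mul, mul_comm]

/-- duality -/
theorem mem_of_dual [DecidableEq J] (S : Submodule (ZMod 2) (J → ZMod 2)) (w : J → ZMod 2)
    (h : ∀ y : J → ZMod 2, (∀ s ∈ S, dot y s = 0) → dot y w = 0) : w ∈ S := by
  by_contra hw
  obtain ⟨φ, hφ1, hφ2⟩ := Submodule.exists_le_ker_of_notMem hw
  obtain ⟨y, hy⟩ := exists_dot φ
  apply hφ1
  rw [hy]
  refine h y fun s hs => ?_
  rw [← hy]
  exact hφ2 hs

/-- the orthogonal complement -/
def perp (S : Submodule (ZMod 2) (J → ZMod 2)) : Submodule (ZMod 2) (J → ZMod 2) where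
  carrier := {y | ∀ s ∈ S, dot y s = 0}
  zero_mem' := by
    intro s _
    exact sum_eq_zero fun j _ => zero_mul _
  add_mem' := by
    intro a b ha hb s hs
    rw [add_dot, ha s hs, hb s hs, add_zero]
  smul_mem' := by
    intro c a ha s hs
    rw [dot_comm, dot_smul, dot_comm, ha s hs, mul_zero]

theorem mem_perp (S : Submodule (ZMod 2) (J → ZMod 2)) (y : J → ZMod 2) :
    y ∈ perp S ↔ ∀ s ∈ S, dot y s = 0 := Iff.rfl

theorem card_perp [DecidableEq J] (S : Submodule (ZMod 2) (J → ZMod 2)) :
    Nat.card (perp S) * Nat.card S ≤ 2 ^ Fintype.card J := by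
  classical
  -- the dot products give an injective map from the complement to the annihilator
  have h0 : Fact (Nat.Prime 2) := ⟨Nat.prime_two⟩
  let e : (J → ZMod 2) →ₗ[ZMod 2] Module.Dual (ZMod 2) (J → ZMod 2) :=
    { toFun := fun u =>
        { toFun := fun v => dot u v
          map_add' := fun v w => dot_add u v w
          map_smul' := fun c v => by rw [dot_smul]; rfl }
      map_add' := fun u v => by
        ext1
        apply LinearMap.ext_ring
        show dot (u + v) _ = dot u _ + dot v _
        exact add_dot _ _ _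
      map_smul' := fun c u => by
        ext1
        apply LinearMap.ext_ring
        show dot (c • u) _ = c * dot u _
        rw [dot_comm, dot_smul, dot_comm] }
  have he : ∀ u v, e u v = dot u v := fun u v => rfl
  have hinj : Function.Injective e := by
    intro u v huv
    funext j
    have h1 : dot u (Pi.single j 1) = dot v (Pi.single j 1) := by
      rw [← he, ← he, huv]
    have h2 : ∀ w : J → ZMod 2, dot w (Pi.single j 1) = w j := by
      intro w
      unfold dot
      rw [sum_eq_single j]
      · rw [Pi.single_eq_same, mul_one]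
      · intro i _ hi
        rw [Pi.single_eq_of_ne hi, mul_zero]
      · intro h; exact absurd (mem_univ _) h
    rwa [h2, h2] at h1
  have hmap : ∀ u ∈ perp S, e u ∈ S.dualAnnihilator := by
    intro u hu
    rw [Submodule.mem_dualAnnihilator]
    intro s hs
    exact hu s hs
  have hfin : Finite S.dualAnnihilator := Module.finite_of_finite (ZMod 2)
  have h1 : Nat.card (perp S) ≤ Nat.card S.dualAnnihilator := by
    refine Nat.card_le_card_of_injective (fun u => (⟨e u, hmap u u.2⟩ : S.dualAnnihilator)) ?_
    intro u v huv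
    exact Subtype.ext (hinj (congrArg Subtype.val huv))
  have h2 : Module.finrank (ZMod 2) S + Module.finrank (ZMod 2) S.dualAnnihilator =
      Module.finrank (ZMod 2) (J → ZMod 2) :=
    Subspace.finrank_add_finrank_dualAnnihilator_eq S
  have h3 : Nat.card (ZMod 2) = 2 := Nat.card_zmod 2
  have h4 : Nat.card S = 2 ^ Module.finrank (ZMod 2) S := by
    rw [Module.natCard_eq_pow_finrank (K := ZMod 2), h3]
  have h5 : Nat.card S.dualAnnihilator = 2 ^ Module.finrank (ZMod 2) S.dualAnnihilator := by
    rw [Module.natCard_eq_pow_finrank (K := ZMod 2), h3]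
  rw [Module.finrank_pi] at h2
  calc Nat.card (perp S) * Nat.card S ≤ Nat.card S.dualAnnihilator * Nat.card S :=
        Nat.mul_le_mul_right _ h1
    _ = 2 ^ Fintype.card J := by
        rw [h4, h5, ← pow_add, ← h2, add_comm]

end

end Pool.Agent.T9h47.SE
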