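import Mathlib
import Pool.Agent.T9h47.SE.Lin

/-!
# Good twists of a linear system
-/

set_option autoImplicit false
set_option linter.unusedSectionVars false

namespace Pool.Agent.T9h47.SE

open Finset

/-- number of nonzero coordinates -/
def wt {J : Type} [Fintype J] (y : J → ZMod 2) : ℕ := (univ.filter (fun j => y j ≠ 0)).card

theorem wt_add {J : Type} [Fintype J] [DecidableEq J] (y z : J → ZMod 2) :
    wt (y + z) ≤ wt y + wt z := by
  unfold wt
  refine (card_le_card ?_).trans (card_union_le _ _)
  intro j hj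
  rw [mem_filter] at hj
  rw [mem_union, mem_filter, mem_filter]
  by_contra hcon
  rw [not_or] at hcon
  apply hj.2
  have h1 : y j = 0 := by
    by_contra h
    exact hcon.1 ⟨mem_univ _, h⟩
  have h2 : z j = 0 := by
    by_contra h
    exact hcon.2 ⟨mem_univ _, h⟩
  show y j + z j = 0
  rw [h1, h2, add_zero]

section

variable {n : ℕ} {V : Type} [Fintype V] [DecidableEq V] (R : V → Finset (Fin n))

/-- the sums of the rows -/
def AA : (Fin n → ZMod 2) →ₗ[ZMod 2] (V → ZMod 2) where
  toFun f j := ∑ i ∈ R j, f i
  map_add' f g := by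
    funext j
    exact sum_add_distrib
  map_smul' c f := by
    funext j
    show ∑ i ∈ R j, c * f i = c * ∑ i ∈ R j, f i
    rw [mul_sum]

theorem AA_apply (f : Fin n → ZMod 2) (j : V) : AA R f j = ∑ i ∈ R j, f i := rfl

/-- the transposed map -/
def tr (y : V → ZMod 2) (i : Fin n) : ZMod 2 := ∑ j, if i ∈ R j then y j else 0

theorem tr_add (y z : V → ZMod 2) : tr R (y + z) = tr R y + tr R z := by
  funext i
  show ∑ j, (if i ∈ R j then y j + z j else 0) = (∑ j, if i ∈ R j then y j else 0) +
    ∑ j, if i ∈ R j then z j else 0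
  rw [← sum_add_distrib]
  refine sum_congr rfl fun j _ => ?_
  split_ifs
  · rfl
  · rw [add_zero]

theorem adj (y : V → ZMod 2) (f : Fin n → ZMod 2) : dot y (AA R f) = dot (tr R y) f := by
  unfold dot tr
  simp only [AA_apply, mul_sum, sum_mul]
  rw [sum_comm]
  have h1 : ∀ j : V, ∑ i ∈ R j, y j * f i = ∑ i, (if i ∈ R j then y j else 0) * f i := by
    intro j
    rw [← sum_filter_add_sum_filter_not univ (fun i => i ∈ R j)]
    have h2 : univ.filter (fun i => i ∈ R j) = R j := by ext i; simp
    rw [h2]
    have h3 : ∑ i ∈ univ.filter (fun i => ¬ i ∈ R j), (if i ∈ R j then y j else 0) * f i = 0 := by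
      refine sum_eq_zero fun i hi => ?_
      rw [mem_filter] at hi
      rw [if_neg hi.2, zero_mul]
    rw [h3, add_zero]
    refine sum_congr rfl fun i hi => ?_
    rw [if_pos hi]
  exact sum_congr rfl (fun j _ => h1 j)

/-- small or large -/
def phi (y : V → ZMod 2) : ZMod 2 := if 2 * wt y ≤ Fintype.card V then 0 else 1

/-- the transposed map takes no vector of medium weight to `W` -/
def Sep (W : Submodule (ZMod 2) (Fin n → ZMod 2)) : Prop :=
  ∀ y : V → ZMod 2, tr R y ∈ W → 4 * wt y < Fintype.card V ∨ 3 * Fintype.card V < 4 * wt y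

/-- good twists -/
def Good (Z : Submodule (ZMod 2) (Fin n → ZMod 2)) (c : V → ZMod 2) : Prop :=
  ∀ y, tr R y ∈ perp Z → dot y c = phi y

theorem phi_add {W : Submodule (ZMod 2) (Fin n → ZMod 2)} (hW : Sep R W) {y z : V → ZMod 2}
    (hy : tr R y ∈ W) (hz : tr R z ∈ W) : phi (y + z) = phi y + phi z := by
  have hyz : tr R (y + z) ∈ W := by rw [tr_add]; exact W.add_mem hy hz
  have h1 := wt_add y z
  have h2 := wt_add (y + z) z
  have h3 := wt_add (y + z) y
  have e2 : y + z + z = y := by rw [add_assoc, vec_self, add_zero]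
  have e3 : y + z + y = z := by rw [add_comm y z, add_assoc, vec_self, add_zero]
  rw [e2] at h2
  rw [e3] at h3
  unfold phi
  rcases hW y hy with h | h <;> rcases hW z hz with h' | h' <;> rcases hW _ hyz with h'' | h''
  · rw [if_pos (by omega), if_pos (by omega), if_pos (by omega), add_zero]
  · omega
  · omega
  · rw [if_neg (by omega), if_pos (by omega), if_neg (by omega), zero_add]
  · omega
  · rw [if_neg (by omega), if_neg (by omega), if_pos (by omega), add_zero]
  · rw [if_pos (by omega), if_neg (by omega), if_neg (by omega)]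
    decide
  · exfalso
    -- both large: the sum is not large
    have hw : ∀ y : V → ZMod 2, wt y ≤ Fintype.card V := fun y => card_le_univ _
    have h4 : wt (y + z) + (wt y + wt z) ≤ 2 * Fintype.card V := by
      unfold wt
      have hs : ∀ y : V → ZMod 2, (univ.filter (fun j => y j ≠ 0)).card =
          ∑ j, if y j ≠ 0 then 1 else 0 := fun y => by rw [card_filter]
      rw [hs, hs, hs, ← sum_add_distrib, ← sum_add_distrib, mul_comm, ← smul_eq_mul,
        ← card_univ, ← sum_const]
      refine sum_le_sum fun j _ => ?_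
      have h5 : ∀ a b : ZMod 2, ((if a + b ≠ 0 then 1 else 0) + ((if a ≠ 0 then 1 else 0) +
        (if b ≠ 0 then 1 else 0)) : ℕ) ≤ 2 := by decide
      exact h5 (y j) (z j)
    omega

theorem exists_good (Z : Submodule (ZMod 2) (Fin n → ZMod 2)) (hZ : Sep R (perp Z)) :
    ∃ c : V → ZMod 2, Good R Z c := by
  let Y : Submodule (ZMod 2) (V → ZMod 2) :=
    { carrier := {y | tr R y ∈ perp Z}
      zero_mem' := by
        have h : tr R (0 : V → ZMod 2) = 0 := by
          funext i
          refine sum_eq_zero fun j _ => ?_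
          split_ifs <;> rfl
        show tr R 0 ∈ perp Z
        rw [h]
        exact Submodule.zero_mem _
      add_mem' := by
        intro a b ha hb
        show tr R (a + b) ∈ perp Z
        rw [tr_add]
        exact Submodule.add_mem _ ha hb
      smul_mem' := by
        intro c a ha
        show tr R (c • a) ∈ perp Z
        rcases z2_cases c with rfl | rfl
        · rw [zero_smul]
          have h : tr R (0 : V → ZMod 2) = 0 := by
            funext i
            refine sum_eq_zero fun j _ => ?_
            split_ifs <;> rfl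
          rw [h]
          exact Submodule.zero_mem _
        · rw [one_smul]; exact ha }
  have hphi0 : phi (0 : V → ZMod 2) = 0 := by
    have h := phi_add R hZ (y := 0) (z := 0) Y.zero_mem' Y.zero_mem'
    rw [add_zero] at h
    rw [h, z2_self]
  let φ : Y →ₗ[ZMod 2] ZMod 2 :=
    { toFun := fun y => phi y.1
      map_add' := fun y z => phi_add R hZ y.2 z.2
      map_smul' := fun c y => by
        show phi (c • y.1) = c * phi y.1
        rcases z2_cases c with rfl | rfl
        · rw [zero_smul, zero_mul]; exact hphi0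
        · rw [one_smul, one_mul] }
  obtain ⟨ψ, hψ⟩ := LinearMap.exists_extend φ
  obtain ⟨c, hc⟩ := exists_dot ψ
  refine ⟨c, fun y hy => ?_⟩
  rw [dot_comm, ← hc]
  have h1 := LinearMap.congr_fun hψ (⟨y, hy⟩ : Y)
  exact h1

theorem good_add {Z : Submodule (ZMod 2) (Fin n → ZMod 2)} {c : V → ZMod 2} (hc : Good R Z c)
    {f : Fin n → ZMod 2} (hf : f ∈ Z) : Good R Z (c + AA R f) := by
  intro y hy
  rw [dot_add, adj, hy f hf, add_zero]
  exact hc y hy

theorem good_inter {Z Z' : Submodule (ZMod 2) (Fin n → ZMod 2)}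
    (hZ' : Sep R (perp Z')) {c : V → ZMod 2} (hc : Good R Z c) :
    ∃ f ∈ Z, Good R Z' (c + AA R f) := by
  obtain ⟨c', hc'⟩ := exists_good R Z' hZ'
  have h1 : c + c' ∈ Z.map (AA R) ⊔ Z'.map (AA R) := by
    apply mem_of_dual
    intro y hy
    have hy1 : tr R y ∈ perp Z := by
      intro f hf
      rw [← adj]
      exact hy _ (Submodule.mem_sup_left (Submodule.mem_map_of_mem hf))
    have hy2 : tr R y ∈ perp Z' := by
      intro f hf
      rw [← adj]
      exact hy _ (Submodule.mem_sup_right (Submodule.mem_map_of_mem hf))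
    rw [dot_add, hc y hy1, hc' y hy2, z2_self]
  rw [Submodule.mem_sup] at h1
  obtain ⟨_, ⟨f, hf, rfl⟩, _, ⟨f', hf', rfl⟩, h2⟩ := h1
  refine ⟨f, hf, ?_⟩
  have h3 : c + AA R f = c' + AA R f' := by
    have h4 : c + c' + (c' + AA R f) = AA R f + AA R f' + (c' + AA R f) := by rw [h2]
    have e1 : c + c' + (c' + AA R f) = c + AA R f := by
      rw [add_assoc, ← add_assoc c' c', vec_self, zero_add]
    have e2 : AA R f + AA R f' + (c' + AA R f) = c' + AA R f' := by
      have : AA R f + AA R f' + (c' + AA R f) = c' + AA R f' + (AA R f + AA R f) := by abel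
      rw [this, vec_self, add_zero]
    rw [e1, e2] at h4
    exact h4
  rw [h3]
  exact good_add R hc' hf'

end

end Pool.Agent.T9h47.SE
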