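import Mathlib
import Pool.Agent.H518R4.UG.WALK
import Pool.Agent.H518R4.UG.GRAPH
import Pool.Agent.H518R4.UG.PSD
import Pool.Agent.H518R4.UG.CEXP
import Pool.Agent.H518R4.UG.BURG
import Pool.Agent.T9h47.SE.Twist

/-!
# Sparse parity samplers from expander walks
-/

set_option autoImplicit false
set_option linter.unusedSectionVars false

namespace Pool.Agent.T9h47.SE

open Finset
open Pool.Agent.H518R4.UG
open Pool.Agent.H518R4.UG.Walk

/-- walks, with the number of walks through a point -/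
theorem walks' (V : Type) [Fintype V] [DecidableEq V] [Nonempty V] (d : ℕ)
    (σ : Fin d → Equiv.Perm V) (M : ℕ) :
    ∃ (W : Type) (_ : Fintype W) (pa : V → W → List V), Fintype.card W = d ^ (2 * M) ∧
    (∀ v w, (pa v w).length = M) ∧
    (∀ x, (univ.filter (fun p : V × W => x ∈ pa p.1 p.2)).card ≤ M * d ^ (2 * M)) ∧
    ∀ (E : Type) [NormedAddCommGroup E] [InnerProductSpace ℂ E] (U : V → (E →ₗ[ℂ] E))
      (x : E) (v : V), (TT d σ U)^[M] (fun _ => x) v =
        ((d : ℂ) ^ (2 * M))⁻¹ • ∑ w, (pa v w).foldr (fun v y => U v y) x := by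
  classical
  induction M with
  | zero =>
    refine ⟨Unit, inferInstance, fun _ _ => [], by simp, by simp, by simp, ?_⟩
    intro E _ _ U x v
    simp
  | succ M ih =>
    obtain ⟨W, hW, pa, hcard, hlen, hcnt, hpa⟩ := ih
    refine ⟨(Fin d × Fin d) × W, inferInstance,
      fun v w => σ w.1.1 v :: pa (σ w.1.2 (σ w.1.1 v)) w.2, ?_, ?_, ?_, ?_⟩
    · rw [Fintype.card_prod, Fintype.card_prod, Fintype.card_fin, hcard]
      ring
    · intro v w
      rw [List.length_cons, hlen]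
    · intro x
      have hsub : (univ.filter (fun p : V × ((Fin d × Fin d) × W) =>
          x ∈ σ p.2.1.1 p.1 :: pa (σ p.2.1.2 (σ p.2.1.1 p.1)) p.2.2)) ⊆
          (univ.filter (fun p : V × ((Fin d × Fin d) × W) => σ p.2.1.1 p.1 = x)) ∪
          (univ.filter (fun p : V × ((Fin d × Fin d) × W) =>
            x ∈ pa (σ p.2.1.2 (σ p.2.1.1 p.1)) p.2.2)) := by
        intro p hp
        rw [mem_filter, List.mem_cons] at hp
        rw [mem_union, mem_filter, mem_filter]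
        rcases hp.2 with h | h
        · exact Or.inl ⟨mem_univ _, h.symm⟩
        · exact Or.inr ⟨mem_univ _, h⟩
      have h1 : (univ.filter (fun p : V × ((Fin d × Fin d) × W) => σ p.2.1.1 p.1 = x)).card ≤
          Fintype.card ((Fin d × Fin d) × W) := by
        rw [← card_univ]
        refine card_le_card_of_injOn (fun p => p.2) (fun _ _ => mem_coe.2 (mem_univ _)) ?_
        rintro ⟨v, w⟩ hp ⟨v', w'⟩ hp' heq
        rw [mem_coe, mem_filter] at hp hp'
        have hw : w = w' := heq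
        subst hw
        have h2 : σ w.1.1 v = σ w.1.1 v' := hp.2.trans hp'.2.symm
        rw [(σ w.1.1).injective h2]
      have h2 : (univ.filter (fun p : V × ((Fin d × Fin d) × W) =>
            x ∈ pa (σ p.2.1.2 (σ p.2.1.1 p.1)) p.2.2)).card ≤
          ((univ : Finset (Fin d × Fin d)) ×ˢ
            (univ.filter (fun p : V × W => x ∈ pa p.1 p.2))).card := by
        refine card_le_card_of_injOn
          (fun p => (p.2.1, (σ p.2.1.2 (σ p.2.1.1 p.1), p.2.2))) ?_ ?_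
        · intro p hp
          rw [mem_coe, mem_filter] at hp
          rw [mem_coe, mem_product, mem_filter]
          exact ⟨mem_univ _, mem_univ _, hp.2⟩
        · rintro ⟨v, ij, w⟩ _ ⟨v', ij', w'⟩ _ heq
          have h3 := Prod.ext_iff.1 heq
          have h4 : ij = ij' := h3.1
          have h5 := Prod.ext_iff.1 h3.2
          have h6 : σ ij.2 (σ ij.1 v) = σ ij'.2 (σ ij'.1 v') := h5.1
          have h7 : w = w' := h5.2
          subst h4 h7
          have h8 := (σ ij.1).injective ((σ ij.2).injective h6)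
          rw [h8]
      refine (card_le_card hsub).trans ((card_union_le _ _).trans ?_)
      have h3 : Fintype.card ((Fin d × Fin d) × W) = d ^ (2 * (M + 1)) := by
        rw [Fintype.card_prod, Fintype.card_prod, Fintype.card_fin, hcard]
        ring
      have h4 : ((univ : Finset (Fin d × Fin d)) ×ˢ
            (univ.filter (fun p : V × W => x ∈ pa p.1 p.2))).card ≤ M * d ^ (2 * (M + 1)) := by
        rw [card_product, card_univ, Fintype.card_prod, Fintype.card_fin]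
        calc d * d * (univ.filter (fun p : V × W => x ∈ pa p.1 p.2)).card ≤
            d * d * (M * d ^ (2 * M)) := Nat.mul_le_mul_left _ (hcnt x)
          _ = M * d ^ (2 * (M + 1)) := by ring
      rw [h3] at h1
      calc _ ≤ d ^ (2 * (M + 1)) + M * d ^ (2 * (M + 1)) := Nat.add_le_add h1 (h2.trans h4)
        _ = (M + 1) * d ^ (2 * (M + 1)) := by ring
    · intro E _ _ U x v
      rw [Function.iterate_succ_apply', TT_apply]
      have h1 : ∀ u, (TT d σ U)^[M] (fun _ => x) u =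
        ((d : ℂ) ^ (2 * M))⁻¹ • ∑ w, (pa u w).foldr (fun v y => U v y) x := hpa E U x
      simp only [h1, map_smul, map_sum]
      simp only [← Finset.smul_sum]
      rw [smul_smul]
      congr 1
      · rw [← mul_inv, ← pow_add]
        congr 2
        ring
      · rw [Fintype.sum_prod_type, Fintype.sum_prod_type]
        rfl

/-- the sign of an element of the field with two elements -/
noncomputable def sgn (a : ZMod 2) : ℂ := if a = 0 then 1 else -1

theorem sgn_add (a b : ZMod 2) : sgn (a + b) = sgn a * sgn b := by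
  unfold sgn
  rcases z2_cases a with rfl | rfl <;> rcases z2_cases b with rfl | rfl <;> simp
  · intro h; exact absurd h (by decide)

theorem norm_sgn (a : ZMod 2) : ‖sgn a‖ = 1 := by
  unfold sgn
  split_ifs <;> simp

theorem sum_sgn {J : Type} [Fintype J] (u : J → ZMod 2) :
    ∑ j, sgn (u j) = ((Fintype.card J : ℝ) - 2 * wt u : ℝ) := by
  have h1 : ∀ j, sgn (u j) = 1 - 2 * (if u j ≠ 0 then 1 else 0) := by
    intro j
    unfold sgn
    by_cases h : u j = 0
    · rw [if_pos h, if_neg (not_not.2 h)]; ring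
    · rw [if_neg h, if_pos h]; ring
  rw [sum_congr rfl (fun j _ => h1 j), sum_sub_distrib, ← mul_sum, sum_const, card_univ,
    sum_boole]
  unfold wt
  push_cast
  simp

theorem foldr_sgn {V : Type} (y : V → ZMod 2) (l : List V) :
    l.foldr (fun v x => ((sgn (y v)) • (LinearMap.id : ℂ →ₗ[ℂ] ℂ)) x) 1 =
      sgn ((l.map y).sum) := by
  induction l with
  | nil => simp [sgn]
  | cons v l ih =>
    rw [List.foldr_cons, ih, List.map_cons, List.sum_cons, sgn_add]
    rfl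

/-- bias of a walk -/
theorem bias (V : Type) [Fintype V] [DecidableEq V] [Nonempty V] (d : ℕ) (p : ℝ)
    (σ : Fin d → Equiv.Perm V) (M : ℕ) (hd : 0 < d) (hp : 0 ≤ p) (hp1 : p < 1)
    (hgap : ∀ F : V → ℂ, ∑ v, F v = 0 →
        ∑ v, ‖((d : ℂ))⁻¹ • ∑ i, F (σ i v)‖ ^ 2 ≤ p ^ 2 * ∑ v, ‖F v‖ ^ 2)
    (W : Type) [Fintype W] (pa : V → W → List V) (hcard : Fintype.card W = d ^ (2 * M))
    (hpa : ∀ (U : V → (ℂ →ₗ[ℂ] ℂ))
      (x : ℂ) (v : V), (TT d σ U)^[M] (fun _ => x) v =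
        ((d : ℂ) ^ (2 * M))⁻¹ • ∑ w, (pa v w).foldr (fun v y => U v y) x)
    (y : V → ZMod 2) (hy1 : Fintype.card V ≤ 4 * wt y) (hy2 : 4 * wt y ≤ 3 * Fintype.card V) :
    |(Fintype.card (V × W) : ℝ) - 2 * wt (fun ω : V × W => ((pa ω.1 ω.2).map y).sum)| ≤
      (1 - (1 - p) ^ 2 * (1 - 1 / 2)) ^ M * Fintype.card (V × W) := by
  classical
  obtain ⟨U, hU⟩ : ∃ U : V → (ℂ →ₗ[ℂ] ℂ), U = fun v => (sgn (y v)) • LinearMap.id := ⟨_, rfl⟩
  have hUn : ∀ v x, ‖U v x‖ = ‖x‖ := by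
    intro v x
    rw [hU]
    show ‖sgn (y v) * x‖ = ‖x‖
    rw [norm_mul, norm_sgn, one_mul]
  have hVpos : (0 : ℝ) < Fintype.card V := by exact_mod_cast Fintype.card_pos
  have hm : ∀ x, ‖((Fintype.card V : ℂ))⁻¹ • ∑ v, U v x‖ ≤ (1 / 2) * ‖x‖ := by
    intro x
    have h1 : ∑ v, U v x = (((Fintype.card V : ℝ) - 2 * wt y : ℝ) : ℂ) * x := by
      rw [hU, ← sum_sgn, sum_mul]
      rfl
    rw [h1, norm_smul, norm_inv, norm_mul, Complex.norm_natCast, Complex.norm_real,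
      Real.norm_eq_abs]
    have h2 : |(Fintype.card V : ℝ) - 2 * wt y| ≤ Fintype.card V / 2 := by
      have h3 : (Fintype.card V : ℝ) ≤ 4 * wt y := by exact_mod_cast hy1
      have h4 : (4 : ℝ) * wt y ≤ 3 * Fintype.card V := by exact_mod_cast hy2
      rw [abs_le]
      constructor <;> linarith
    calc (Fintype.card V : ℝ)⁻¹ * (|(Fintype.card V : ℝ) - 2 * wt y| * ‖x‖) ≤
        (Fintype.card V : ℝ)⁻¹ * (Fintype.card V / 2 * ‖x‖) := by
          apply mul_le_mul_of_nonneg_left _ (by positivity)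
          exact mul_le_mul_of_nonneg_right h2 (norm_nonneg _)
      _ = 1 / 2 * ‖x‖ := by field_simp
  have hs : 0 ≤ 1 - (1 - p) ^ 2 * (1 - (1 / 2 : ℝ)) := by
    have h1 : (1 - p) ^ 2 ≤ 1 := by nlinarith
    nlinarith
  obtain ⟨s, hsdef⟩ : ∃ s, s = 1 - (1 - p) ^ 2 * (1 - (1 / 2 : ℝ)) := ⟨_, rfl⟩
  rw [← hsdef] at hs ⊢
  have hN : (Fintype.card V : ℂ) ≠ 0 := by exact_mod_cast Fintype.card_ne_zero
  have hd' : (d : ℂ) ≠ 0 := by exact_mod_cast hd.ne'
  have hiter : ∀ M, nn ((TT d σ U)^[M] (fun _ => (1 : ℂ))) ≤ s ^ M * nn (fun _ : V => (1 : ℂ)) := by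
    intro M
    induction M with
    | zero => simp
    | succ M ih =>
      rw [Function.iterate_succ_apply']
      have h7 := TT_le d σ U hd hp hp1 (by norm_num : (0 : ℝ) ≤ 1 / 2) hUn hgap hm
        ((TT d σ U)^[M] (fun _ => (1 : ℂ)))
      rw [← hsdef] at h7
      calc _ ≤ s * nn ((TT d σ U)^[M] (fun _ => (1 : ℂ))) := h7
        _ ≤ s * (s ^ M * nn (fun _ : V => (1 : ℂ))) := mul_le_mul_of_nonneg_left ih hs
        _ = s ^ (M + 1) * nn (fun _ : V => (1 : ℂ)) := by ring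
  have hsum : ((Fintype.card (V × W) : ℂ))⁻¹ *
      ∑ ω : V × W, sgn (((pa ω.1 ω.2).map y).sum) =
      mean ((TT d σ U)^[M] (fun _ => (1 : ℂ))) := by
    rw [Fintype.sum_prod_type, mean]
    have h1 : ∀ v, ∑ w, sgn (((pa v w).map y).sum) =
        ((d : ℂ) ^ (2 * M)) • (TT d σ U)^[M] (fun _ => (1 : ℂ)) v := by
      intro v
      rw [hpa U 1 v, smul_smul, mul_inv_cancel₀ (pow_ne_zero _ hd'), one_smul]
      refine sum_congr rfl fun w _ => ?_
      rw [hU]
      exact (foldr_sgn y (pa v w)).symm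
    show ((Fintype.card (V × W) : ℂ))⁻¹ * ∑ v, ∑ w, sgn (((pa v w).map y).sum) = _
    rw [Finset.sum_congr rfl fun v _ => h1 v, ← Finset.smul_sum, smul_eq_mul, smul_eq_mul,
      ← mul_assoc]
    congr 1
    rw [Fintype.card_prod, hcard]
    push_cast
    rw [mul_inv, mul_assoc, inv_mul_cancel₀ (pow_ne_zero _ hd'), mul_one]
  have hJ := nn_JJ_le ((TT d σ U)^[M] (fun _ => (1 : ℂ)))
  have h2 : nn (JJ ((TT d σ U)^[M] (fun _ => (1 : ℂ)))) ^ 2 =
      Fintype.card V * ‖mean ((TT d σ U)^[M] (fun _ => (1 : ℂ)))‖ ^ 2 := nn_const _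
  have h3 : nn (fun _ : V => (1 : ℂ)) ^ 2 = Fintype.card V * ‖(1 : ℂ)‖ ^ 2 := nn_const _
  have h4 : nn (JJ ((TT d σ U)^[M] (fun _ => (1 : ℂ)))) ^ 2 ≤
      (s ^ M * nn (fun _ : V => (1 : ℂ))) ^ 2 :=
    pow_le_pow_left₀ (nn_nonneg _) (hJ.trans (hiter M)) 2
  rw [h2, mul_pow, h3, norm_one, one_pow, mul_one] at h4
  have h5 : ‖mean ((TT d σ U)^[M] (fun _ => (1 : ℂ)))‖ ^ 2 ≤ (s ^ M) ^ 2 := by
    have h6 : (Fintype.card V : ℝ) * ‖mean ((TT d σ U)^[M] (fun _ => (1 : ℂ)))‖ ^ 2 ≤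
        Fintype.card V * (s ^ M) ^ 2 := by
      calc _ ≤ (s ^ M) ^ 2 * (Fintype.card V : ℝ) := h4
        _ = _ := by ring
    exact le_of_mul_le_mul_left h6 hVpos
  have h6 : ‖mean ((TT d σ U)^[M] (fun _ => (1 : ℂ)))‖ ≤ s ^ M :=
    (abs_le_of_sq_le_sq' h5 (pow_nonneg hs M)).2
  rw [← hsum, sum_sgn, norm_mul, norm_inv, Complex.norm_natCast, Complex.norm_real,
    Real.norm_eq_abs] at h6
  have hΩ : (0 : ℝ) < Fintype.card (V × W) := by
    rw [Fintype.card_prod, hcard]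
    have : (0 : ℝ) < (d : ℝ) := by exact_mod_cast hd
    push_cast
    positivity
  rw [inv_mul_le_iff₀ hΩ] at h6
  exact h6.trans (le_of_eq (mul_comm _ _))

theorem sum_count {V : Type} [Fintype V] [DecidableEq V] (y : V → ZMod 2) (l : List V) :
    ∑ j, ((l.count j : ℕ) : ZMod 2) * y j = (l.map y).sum := by
  induction l with
  | nil => simp
  | cons v l ih =>
    rw [List.map_cons, List.sum_cons, ← ih]
    have h1 : ∀ j, (((v :: l).count j : ℕ) : ZMod 2) * y j =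
        ((l.count j : ℕ) : ZMod 2) * y j + (if v = j then y j else 0) := by
      intro j
      rw [List.count_cons]
      by_cases h : v = j
      · subst h
        rw [if_pos rfl]
        simp only [beq_self_eq_true, if_true]
        push_cast
        ring
      · rw [if_neg h]
        have h2 : (v == j) = false := by simpa using h
        rw [h2]
        simp
    rw [sum_congr rfl (fun j _ => h1 j), sum_add_distrib, sum_ite_eq univ v, if_pos (mem_univ _),
      add_comm]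

theorem wt_comp {J : Type} [Fintype J] {n : ℕ} (e : J ↪ Fin n) (u : Fin n → ZMod 2)
    (h : ∀ i, i ∉ Set.range e → u i = 0) : wt u = wt (fun j => u (e j)) := by
  classical
  unfold wt
  rw [← card_map e]
  congr 1
  ext i
  rw [mem_filter, mem_map]
  constructor
  · rintro ⟨_, hi⟩
    by_contra hcon
    apply hi
    apply h
    rintro ⟨j, rfl⟩
    exact hcon ⟨j, mem_filter.2 ⟨mem_univ _, hi⟩, rfl⟩
  · rintro ⟨j, hj, rfl⟩
    rw [mem_filter] at hj
    exact ⟨mem_univ _, hj.2⟩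

/-- the incidence structure of a family of lists -/
theorem code_of {V W : Type} [Fintype V] [DecidableEq V] [Fintype W] {n B M : ℕ}
    (pa : V → W → List V) (hlen : ∀ v w, (pa v w).length = M) (hM : (M : ZMod 2) = 0)
    (hcnt : ∀ x, (univ.filter (fun p : V × W => x ∈ pa p.1 p.2)).card ≤ B)
    (e : V × W ↪ Fin n) : ∃ R : V → Finset (Fin n), (∀ j, (R j).card ≤ B) ∧
      tr R (fun _ => 1) = 0 ∧
      ∀ y : V → ZMod 2, wt (tr R y) = wt (fun ω : V × W => ((pa ω.1 ω.2).map y).sum) := by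
  classical
  obtain ⟨R, hR⟩ : ∃ R : V → Finset (Fin n), R = fun j =>
    (univ.filter (fun ω : V × W =>
      (((pa ω.1 ω.2).count j : ℕ) : ZMod 2) ≠ 0)).map e := ⟨_, rfl⟩
  have hRm : ∀ j ω, e ω ∈ R j ↔ (((pa ω.1 ω.2).count j : ℕ) : ZMod 2) ≠ 0 := by
    intro j ω
    rw [hR]
    simp only [mem_map', mem_filter, mem_univ, true_and]
  have htr : ∀ (y : V → ZMod 2) ω, tr R y (e ω) = ((pa ω.1 ω.2).map y).sum := by
    intro y ω
    rw [← sum_count]
    unfold tr
    refine sum_congr rfl fun j _ => ?_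
    by_cases hc : (((pa ω.1 ω.2).count j : ℕ) : ZMod 2) = 0
    · rw [if_neg (fun h => (hRm j ω).1 h hc), hc, zero_mul]
    · rw [if_pos ((hRm j ω).2 hc)]
      rcases z2_cases (((pa ω.1 ω.2).count j : ℕ) : ZMod 2) with h | h
      · exact absurd h hc
      · rw [h, one_mul]
  have htr0 : ∀ (y : V → ZMod 2) i, i ∉ Set.range e → tr R y i = 0 := by
    intro y i hi
    unfold tr
    refine sum_eq_zero fun j _ => ?_
    rw [if_neg]
    intro h
    rw [hR] at h
    obtain ⟨ω, _, hω⟩ := mem_map.1 h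
    exact hi ⟨ω, hω⟩
  refine ⟨R, ?_, ?_, ?_⟩
  · intro j
    rw [hR, card_map]
    refine (card_le_card ?_).trans (hcnt j)
    intro ω hω
    rw [mem_filter] at hω ⊢
    refine ⟨mem_univ _, ?_⟩
    by_contra h
    apply hω.2
    rw [List.count_eq_zero.2 h, Nat.cast_zero]
  · funext i
    by_cases hi : i ∈ Set.range e
    · obtain ⟨ω, rfl⟩ := hi
      rw [htr, List.map_const', List.sum_replicate, hlen, nsmul_eq_mul, mul_one, hM]
      rfl
    · exact htr0 _ i hi
  · intro y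
    rw [wt_comp e (tr R y) (htr0 y)]
    congr 1
    funext ω
    exact htr y ω

/-- **Sparse parity samplers.** -/
theorem exists_code (δ : ℝ) (hδ : 0 < δ) : ∃ k n₀ : ℕ, ∀ n : ℕ, n₀ ≤ n →
    ∃ (V : Type) (_ : Fintype V) (_ : DecidableEq V) (R : V → Finset (Fin n)),
      2 ≤ Fintype.card V ∧ Fintype.card V ≤ n ∧ (∀ j, (R j).card ≤ k) ∧
      tr R (fun _ => 1) = 0 ∧ ∀ y : V → ZMod 2, Fintype.card V ≤ 4 * wt y → 4 * wt y ≤ 3 * Fintype.card V →
        |((wt (tr R y) : ℕ) : ℝ) - n / 2| ≤ δ * n := by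
  obtain ⟨d, p, hd, hp, hp1, hG⟩ := p_GRAPH (p_CEXP p_BURG) p_PSD
  obtain ⟨s, hs⟩ : ∃ s, s = 1 - (1 - p) ^ 2 * (1 - (1 / 2 : ℝ)) := ⟨_, rfl⟩
  have hs0 : 0 ≤ s := by
    have h1 : (1 - p) ^ 2 ≤ 1 := by nlinarith
    rw [hs]; nlinarith
  have hs1 : s < 1 := by
    have h1 : 0 < (1 - p) ^ 2 := by
      have : 0 < 1 - p := by linarith
      positivity
    rw [hs]; nlinarith
  obtain ⟨M₀, hM₀⟩ := exists_pow_lt_of_lt_one hδ hs1
  obtain ⟨M, hM⟩ : ∃ M, M = 2 * M₀ := ⟨_, rfl⟩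
  have hsM : s ^ M ≤ δ := by
    rw [hM]
    exact (pow_le_pow_of_le_one hs0 hs1.le (by omega)).trans hM₀.le
  obtain ⟨D, hD⟩ : ∃ D, D = d ^ (2 * M) := ⟨_, rfl⟩
  have hDpos : 0 < D := by rw [hD]; positivity
  obtain ⟨Q₀, hQ₀⟩ := exists_nat_ge (3 / δ + 2)
  refine ⟨M * D, Q₀ ^ 2 * D, fun n hn => ?_⟩
  obtain ⟨q, hq⟩ : ∃ q, q = Nat.sqrt (n / D) := ⟨_, rfl⟩
  have hqQ : Q₀ ≤ q := by
    rw [hq, Nat.le_sqrt]
    rw [Nat.le_div_iff_mul_le hDpos]
    calc Q₀ * Q₀ * D = Q₀ ^ 2 * D := by ring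
      _ ≤ n := hn
  have hq2 : q ^ 2 * D ≤ n := by
    have h1 : q * q ≤ n / D := by rw [hq]; exact Nat.sqrt_le _
    have h2 := (Nat.le_div_iff_mul_le hDpos).1 h1
    calc q ^ 2 * D = q * q * D := by ring
      _ ≤ n := h2
  have hq3 : n < (q + 1) ^ 2 * D := by
    have h1 : n / D < (q + 1) * (q + 1) := by rw [hq]; exact Nat.lt_succ_sqrt _
    have h2 := (Nat.div_lt_iff_lt_mul hDpos).1 h1
    calc n < (q + 1) * (q + 1) * D := h2
      _ = (q + 1) ^ 2 * D := by ring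
  have hqR : 3 / δ + 2 ≤ (q : ℝ) := hQ₀.trans (by exact_mod_cast hqQ)
  have h3δ : 0 < 3 / δ := by positivity
  have hq1 : (2 : ℝ) ≤ q := by linarith
  have hq1' : 2 ≤ q := by exact_mod_cast hq1
  have hqδ : 3 ≤ δ * q := by
    have h1 : 3 / δ ≤ (q : ℝ) := by linarith
    rw [div_le_iff₀ hδ] at h1
    linarith
  have : NeZero q := ⟨by omega⟩
  obtain ⟨σ, hσ⟩ := hG q
  obtain ⟨W, hW, pa, hcard, hlen, hcnt, hpa⟩ := walks' (ZMod q × ZMod q) d σ M
  have hVcard : Fintype.card (ZMod q × ZMod q) = q ^ 2 := by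
    rw [Fintype.card_prod, ZMod.card]; ring
  have hΩ : Fintype.card ((ZMod q × ZMod q) × W) = q ^ 2 * D := by
    rw [Fintype.card_prod, hcard, hVcard, hD]
  obtain ⟨e⟩ : Nonempty (((ZMod q × ZMod q) × W) ↪ Fin n) := by
    apply Function.Embedding.nonempty_of_card_le
    rw [hΩ, Fintype.card_fin]
    exact hq2
  have hMz : ((M : ℕ) : ZMod 2) = 0 := by
    rw [hM]
    push_cast
    have : (2 : ZMod 2) = 0 := by decide
    rw [this, zero_mul]
  rw [← hD] at hcnt
  obtain ⟨R, hR1, hR2, hR3⟩ := code_of pa hlen hMz hcnt e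
  refine ⟨ZMod q × ZMod q, inferInstance, inferInstance, R, ?_, ?_, hR1, hR2, ?_⟩
  · rw [hVcard]
    nlinarith
  · rw [hVcard]
    calc q ^ 2 = q ^ 2 * 1 := (mul_one _).symm
      _ ≤ q ^ 2 * D := Nat.mul_le_mul_left _ hDpos
      _ ≤ n := hq2
  · intro y hy1 hy2
    have hb := bias (ZMod q × ZMod q) d p σ M hd hp hp1 (fun F hF => hσ ℂ F hF) W pa hcard
      (fun U x v => hpa ℂ U x v) y hy1 hy2
    rw [← hR3, ← hs, hΩ] at hb
    obtain ⟨w, hw⟩ : ∃ w : ℝ, w = ((wt (tr R y) : ℕ) : ℝ) := ⟨_, rfl⟩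
    obtain ⟨N, hN⟩ : ∃ N : ℝ, N = ((q ^ 2 * D : ℕ) : ℝ) := ⟨_, rfl⟩
    rw [← hw] at hb ⊢
    rw [← hN] at hb
    have hDR : (1 : ℝ) ≤ D := by exact_mod_cast hDpos
    have hN' : N = (q : ℝ) ^ 2 * D := by rw [hN]; push_cast; ring
    have hNn : N ≤ n := by rw [hN]; exact_mod_cast hq2
    have hnN : (n : ℝ) ≤ ((q : ℝ) + 1) ^ 2 * D := by
      have : n ≤ (q + 1) ^ 2 * D := hq3.le
      exact_mod_cast this
    have hgap : (n : ℝ) - N ≤ δ * n := by
      have h1 : (n : ℝ) - N ≤ 3 * q * D := by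
        rw [hN']
        nlinarith
      have h2 : 3 * (q : ℝ) * D ≤ δ * N := by
        rw [hN']
        have h3 : 3 * ((q : ℝ) * D) ≤ (δ * q) * ((q : ℝ) * D) :=
          mul_le_mul_of_nonneg_right hqδ (by positivity)
        calc 3 * (q : ℝ) * D = 3 * ((q : ℝ) * D) := by ring
          _ ≤ (δ * q) * ((q : ℝ) * D) := h3
          _ = δ * ((q : ℝ) ^ 2 * D) := by ring
      have h3 : δ * N ≤ δ * n := mul_le_mul_of_nonneg_left hNn hδ.le
      linarith
    have hN0 : 0 ≤ N := by rw [hN]; positivity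
    have hb2 : |N - 2 * w| ≤ δ * n := by
      refine hb.trans ?_
      calc s ^ M * N ≤ δ * N := mul_le_mul_of_nonneg_right hsM hN0
        _ ≤ δ * n := mul_le_mul_of_nonneg_left hNn hδ.le
    rw [abs_le] at hb2 ⊢
    constructor <;> linarith [hb2.1, hb2.2]

end Pool.Agent.T9h47.SE
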