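import Mathlib
import Pool.Agent.T9h47.SC.Circ

/-!
# A symmetry argument for circuits with arbitrary gates, abstract form
-/

set_option autoImplicit false
set_option linter.unusedSectionVars false

namespace Pool.Agent.T9h47.SE

open Finset
open Pool.Agent.T9h47.SC

/-- **The symmetry argument, abstract form.** Every gate has a type in `D`; for the types there are
good twists `v`. -/
theorem indist_abs {K I V D : Type} (C : Circuit K I) (x₀ : I → K) (x : V → I → K)
    (Δ : C.Gate → D) (Good : D → V → Prop)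
    (h2 : ∀ g v h, Good (Δ g) v → ∃ (v' : V) (π : I → I) (α : Equiv.Perm C.Gate),
      Good (Δ h) v' ∧ C.IsAut π α ∧ α g = g ∧ x v' ∘ π = x v ∧ ∀ h', Δ (α h') = Δ h')
    (h4 : ∀ g i v, C.lab g = Sum.inl i → Good (Δ g) v → x v i = x₀ i) :
    ∀ (n : ℕ) (g : C.Gate), C.rank g < n → ∀ v, Good (Δ g) v → C.val (x v) g = C.val x₀ g := by
  classical
  intro n
  induction n with
  | zero => intro g hg; exact absurd hg (Nat.not_lt_zero _)
  | succ n ih =>
    intro g hg v hv
    cases hl : C.lab g with
    | inl i =>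
      rw [C.val_inl _ g i hl, C.val_inl _ g i hl]
      exact h4 g i v hl hv
    | inr f =>
      rw [C.val_inr _ g f hl, C.val_inr _ g f hl]
      congr 1
      funext s
      have hch : ∀ d : D, ∃ (v' : V) (π : I → I) (α : Equiv.Perm C.Gate), (∃ h, Δ h = d) →
          (Good d v' ∧ C.IsAut π α ∧ α g = g ∧ x v' ∘ π = x v ∧ ∀ h', Δ (α h') = Δ h') := by
        intro d
        by_cases hd : ∃ h, Δ h = d
        · obtain ⟨h, hh⟩ := hd
          obtain ⟨v', π, α, h1⟩ := h2 g v h hv
          rw [hh] at h1
          exact ⟨v', π, α, fun _ => h1⟩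
        · exact ⟨v, id, 1, fun h => absurd h hd⟩
      choose v' π al hal using hch
      have hal' : ∀ h, Good (Δ h) (v' (Δ h)) ∧ C.IsAut (π (Δ h)) (al (Δ h)) ∧ al (Δ h) g = g ∧
          x (v' (Δ h)) ∘ π (Δ h) = x v ∧ ∀ h', Δ (al (Δ h) h') = Δ h' :=
        fun h => hal (Δ h) ⟨h, rfl⟩
      have hkid : ∀ h, (s, h) ∈ C.kids g → (s, al (Δ h) h) ∈ C.kids g := by
        intro h hh
        obtain ⟨_, h3, h4, _⟩ := hal' h
        have h5 := (h3.kids g s h).2 hh
        rwa [h4] at h5
      have hval : ∀ h, (s, h) ∈ C.kids g → C.val (x v) h = C.val x₀ (al (Δ h) h) := by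
        intro h hh
        obtain ⟨h1, h2', h3, h4', h5⟩ := hal' h
        rw [← h4', ← h2'.val (x (v' (Δ h))) (C.rank h + 1) h (Nat.lt_succ_self _)]
        refine ih _ ((C.rank_lt g _ (hkid h hh)).trans_le (Nat.lt_succ_iff.1 hg)) _ ?_
        rw [h5]
        exact h1
      have hinj : ∀ h h', al (Δ h) h = al (Δ h') h' → h = h' := by
        intro h h' heq
        have h1 : Δ h = Δ h' := by
          rw [← (hal' h).2.2.2.2 h, ← (hal' h').2.2.2.2 h', heq]
        rw [h1] at heq
        exact (al (Δ h')).injective heq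
      obtain ⟨S, hS⟩ : ∃ S, S = (C.kids g).filter (fun p => p.1 = s) := ⟨_, rfl⟩
      rw [← hS]
      have hSm : ∀ p, p ∈ S ↔ p ∈ C.kids g ∧ p.1 = s := by intro p; rw [hS, mem_filter]
      have himg : S.image (fun p => (p.1, al (Δ p.2) p.2)) = S := by
        refine eq_of_subset_of_card_le ?_ ?_
        · intro p hp
          rw [mem_image] at hp
          obtain ⟨⟨s', h⟩, hq, rfl⟩ := hp
          rw [hSm] at hq ⊢
          obtain ⟨hq1, hq2⟩ := hq
          have hs : s' = s := hq2
          subst hs
          exact ⟨hkid h hq1, rfl⟩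
        · rw [card_image_of_injective]
          rintro ⟨s1, h1⟩ ⟨s2, h2⟩ heq
          have h3 := Prod.ext_iff.1 heq
          have h4 : s1 = s2 := h3.1
          have h5 : h1 = h2 := hinj h1 h2 h3.2
          rw [h4, h5]
      have hmap : S.val.map (fun p => (p.1, al (Δ p.2) p.2)) = S.val := by
        have h1 := congrArg Finset.val himg
        rw [Finset.image_val, Multiset.dedup_eq_self.2] at h1
        · exact h1
        · refine Multiset.Nodup.map ?_ S.nodup
          rintro ⟨s1, h1⟩ ⟨s2, h2⟩ heq
          have h3 := Prod.ext_iff.1 heq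
          have h4 : s1 = s2 := h3.1
          have h5 : h1 = h2 := hinj h1 h2 h3.2
          rw [h4, h5]
      have hrhs : S.val.map (fun p => C.val x₀ p.2) =
          S.val.map (fun p => C.val x₀ (al (Δ p.2) p.2)) := by
        conv_lhs => rw [← hmap, Multiset.map_map]
        rfl
      rw [hrhs]
      refine Multiset.map_congr rfl ?_
      rintro ⟨s', h⟩ hp
      have hp' := (hSm _).1 hp
      have hs : s' = s := hp'.2
      subst hs
      exact hval h hp'.1

end Pool.Agent.T9h47.SE
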