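import Mathlib
import Pool.Agent.T9h47.SC.CircDef

/-!
# Circuits deciding satisfiability, and their symmetries: definitions
-/

set_option autoImplicit false

namespace Pool.Agent.T9h47.SE

open Finset
open Pool.Agent.T9h47.SC

/-- A literal: the pair `(v, b)` says that the variable `v` has the value `b`. Truth values are the
elements `0` and `1` of `ZMod 2`. -/
abbrev Lit (n : ℕ) : Type := Fin n × ZMod 2

/-- Clauses with at most `k` literals over `n` variables. -/
abbrev Cl (n k : ℕ) : Type := {C : Finset (Lit n) // C.card ≤ k}

/-- A set of clauses is satisfiable: for some assignment each clause has a true literal. -/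
def Satisfiable {n k : ℕ} (φ : Set (Cl n k)) : Prop :=
  ∃ a : Fin n → ZMod 2, ∀ C ∈ φ, ∃ l ∈ C.1, a l.1 = l.2

/-- Rename the variables by `π` and negate those with `f v = 1`. -/
def ren {n k : ℕ} (π : Equiv.Perm (Fin n)) (f : Fin n → ZMod 2) (C : Cl n k) : Cl n k :=
  ⟨C.1.image (fun l => (π l.1, l.2 + f l.1)), card_image_le.trans C.2⟩

/-- The input of the circuit for a set of clauses: `b₁` for the clauses in the set and `b₀` for the
others. -/
noncomputable def inp {K : Type} {n k : ℕ} (b₀ b₁ : K) (φ : Set (Cl n k)) (C : Cl n k) : K :=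
  open Classical in if C ∈ φ then b₁ else b₀

/-- The circuit decides satisfiability for sets of at most `m` clauses: among these it accepts (the
value of the output gate is in `Acc`) exactly the satisfiable ones. -/
def DecidesSat {K : Type} {n k : ℕ} (C : Circuit K (Cl n k)) (b₀ b₁ : K) (Acc : Set K) (m : ℕ) :
    Prop :=
  ∀ φ : Set (Cl n k), φ.ncard ≤ m → (C.val (inp b₀ b₁ φ) C.out ∈ Acc ↔ Satisfiable φ)

/-- The circuit is symmetric under renaming and negating variables. -/
def SymSat {K : Type} {n k : ℕ} (C : Circuit K (Cl n k)) : Prop :=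
  ∀ (π : Equiv.Perm (Fin n)) (f : Fin n → ZMod 2), ∃ α, C.IsAut (ren π f) α

end Pool.Agent.T9h47.SE
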