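import Mathlib
import Pool.Agent.T9h47.SE.Twist
import Pool.Agent.T9h47.SE.Abs
import Pool.Agent.T9h47.SE.SatDef

/-!
# Circuits deciding satisfiability which are symmetric under renaming and negating variables
-/

set_option autoImplicit false
set_option linter.unusedSectionVars false

namespace Pool.Agent.T9h47.SE

open Finset
open Pool.Agent.T9h47.SC

section ren

variable {n k : ℕ}

theorem ren_comp (π π' : Equiv.Perm (Fin n)) (f f' : Fin n → ZMod 2) :
    (ren π f ∘ ren π' f' : Cl n k → Cl n k) = ren (π * π') (fun i => f' i + f (π' i)) := by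
  funext C
  apply Subtype.ext
  show (C.1.image _).image _ = C.1.image _
  rw [image_image]
  refine image_congr ?_
  intro l _
  show (π (π' l.1), l.2 + f' l.1 + f (π' l.1)) = ((π * π') l.1, l.2 + (f' l.1 + f (π' l.1)))
  rw [add_assoc]
  rfl

theorem ren_one : (ren 1 0 : Cl n k → Cl n k) = id := by
  funext C
  apply Subtype.ext
  show C.1.image _ = C.1
  have h : (fun l : Lit n => (((1 : Equiv.Perm (Fin n)) l.1, l.2 + (0 : Fin n → ZMod 2) l.1) :
      Lit n)) = id := by
    funext l
    show (l.1, l.2 + 0) = l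
    rw [add_zero]
  rw [h, image_id]

theorem ren_flip_flip (f f' : Fin n → ZMod 2) :
    (ren 1 f ∘ ren 1 f' : Cl n k → Cl n k) = ren 1 (f + f') := by
  rw [ren_comp, one_mul]
  congr 1
  funext i
  exact add_comm _ _

theorem ren_flip_self (f : Fin n → ZMod 2) : (ren 1 f ∘ ren 1 f : Cl n k → Cl n k) = id := by
  rw [ren_flip_flip, vec_self, ren_one]

/-- permutations and flips -/
theorem ren_conj (π : Equiv.Perm (Fin n)) (f : Fin n → ZMod 2) :
    (ren π⁻¹ 0 ∘ (ren 1 f ∘ ren π 0) : Cl n k → Cl n k) = ren 1 (fun i => f (π i)) := by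
  rw [ren_comp, ren_comp, one_mul, inv_mul_cancel]
  congr 1
  funext i
  show 0 + f (π i) + 0 = f (π i)
  rw [zero_add, add_zero]

theorem ren_inv (π : Equiv.Perm (Fin n)) : (ren π⁻¹ 0 ∘ ren π 0 : Cl n k → Cl n k) = id := by
  rw [ren_comp, inv_mul_cancel]
  have h : (fun i => (0 : Fin n → ZMod 2) i + (0 : Fin n → ZMod 2) (π i)) = 0 := by
    funext i
    exact add_zero _
  rw [h, ren_one]

end ren

section gates

variable {K : Type} {n k : ℕ} (C : Circuit K (Cl n k))

/-- the flips which fix a gate -/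
def Zof (g : C.Gate) : Submodule (ZMod 2) (Fin n → ZMod 2) where
  carrier := {f | ∃ α, C.IsAut (ren 1 f) α ∧ α g = g}
  zero_mem' := ⟨1, by rw [ren_one]; exact Circuit.IsAut.one C, rfl⟩
  add_mem' := by
    rintro f f' ⟨α, h1, h2⟩ ⟨α', h1', h2'⟩
    refine ⟨α * α', ?_, ?_⟩
    · rw [← ren_flip_flip]; exact h1.mul h1'
    · rw [Equiv.Perm.mul_apply, h2', h2]
  smul_mem' := by
    rintro c f ⟨α, h1, h2⟩
    rcases z2_cases c with rfl | rfl
    · rw [zero_smul]
      exact ⟨1, by rw [ren_one]; exact Circuit.IsAut.one C, rfl⟩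
    · rw [one_smul]
      exact ⟨α, h1, h2⟩

theorem mem_Zof {g : C.Gate} {f : Fin n → ZMod 2} :
    f ∈ Zof C g ↔ ∃ α, C.IsAut (ren 1 f) α ∧ α g = g := Iff.rfl

theorem Zof_flip {f : Fin n → ZMod 2} {α : Equiv.Perm C.Gate} (hα : C.IsAut (ren 1 f) α)
    (g : C.Gate) : Zof C (α g) = Zof C g := by
  have key : ∀ {f : Fin n → ZMod 2} {α : Equiv.Perm C.Gate}, C.IsAut (ren 1 f) α → ∀ g,
      Zof C g ≤ Zof C (α g) := by
    intro f α hα g f' hf'
    rw [mem_Zof] at hf' ⊢
    obtain ⟨β, hβ1, hβ2⟩ := hf'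
    refine ⟨α * β * α⁻¹, ?_, ?_⟩
    · have h1 : (ren 1 f' : Cl n k → Cl n k) = (ren 1 f ∘ ren 1 f') ∘ ren 1 f := by
        rw [ren_flip_flip, ren_flip_flip, add_comm f f', add_assoc, vec_self, add_zero]
      rw [h1]
      exact (hα.mul hβ1).mul (hα.inv (ren_flip_self f))
    · rw [Equiv.Perm.mul_apply, Equiv.Perm.mul_apply, pinv_apply, hβ2]
  refine le_antisymm ?_ (key hα g)
  have h2 := key (hα.inv (ren_flip_self f)) (α g)
  rwa [pinv_apply] at h2

theorem Zof_perm {π : Equiv.Perm (Fin n)} {α : Equiv.Perm C.Gate} (hα : C.IsAut (ren π 0) α)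
    (g : C.Gate) (f : Fin n → ZMod 2) (hf : f ∈ Zof C (α g)) : (fun i => f (π i)) ∈ Zof C g := by
  rw [mem_Zof] at hf ⊢
  obtain ⟨β, hβ1, hβ2⟩ := hf
  refine ⟨α⁻¹ * (β * α), ?_, ?_⟩
  · rw [← ren_conj]
    exact (hα.inv (ren_inv π)).mul (hβ1.mul hα)
  · rw [Equiv.Perm.mul_apply, Equiv.Perm.mul_apply, hβ2, pinv_apply]

/-- number of gates of a given kind -/
theorem card_kind (hS : SymSat C) [Fintype C.Gate] [DecidableEq C.Gate] (g : C.Gate) :
    Nat.card (perp (Zof C g)) ≤
      (open Classical in (univ.filter (fun h => Zof C h = Zof C g)).card) := by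
  classical
  choose al hal using fun f => hS 1 f
  have hZpos : 0 < Nat.card (Zof C g) := Nat.card_pos
  have h1 : Fintype.card (Fin n → ZMod 2) ≤
      (univ.filter (fun h => Zof C h = Zof C g)).card * Nat.card (Zof C g) := by
    have h2 := card_le_mul_card_image_of_maps_to (s := (univ : Finset (Fin n → ZMod 2)))
      (t := univ.filter (fun h => Zof C h = Zof C g)) (f := fun f => al f g) (by
        intro f _
        rw [mem_filter]
        exact ⟨mem_univ _, Zof_flip C (hal f) g⟩) (Nat.card (Zof C g)) (by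
        intro h _
        by_cases hne : (univ.filter (fun f => al f g = h)).Nonempty
        · obtain ⟨f₀, hf₀⟩ := hne
          rw [mem_filter] at hf₀
          have h5 : (univ.filter (fun f => al f g = h)).card =
              Nat.card (univ.filter (fun f => al f g = h)) := by
            rw [Nat.card_eq_fintype_card, Fintype.card_coe]
          rw [h5]
          refine Nat.card_le_card_of_injective
            (fun f => (⟨f.1 + f₀, (al f.1)⁻¹ * al f₀, ?_, ?_⟩ : Zof C g)) ?_
          · rw [← ren_flip_flip]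
            exact ((hal f.1).inv (ren_flip_self f.1)).mul (hal f₀)
          · have h6 := (mem_filter.1 f.2).2
            rw [Equiv.Perm.mul_apply, Equiv.Perm.inv_eq_iff_eq, hf₀.2, h6]
          · intro f f' hff
            have h6 : f.1 + f₀ = f'.1 + f₀ := congrArg Subtype.val hff
            exact Subtype.ext (add_right_cancel h6)
        · rw [not_nonempty_iff_eq_empty] at hne
          rw [hne, card_empty]
          exact Nat.zero_le _)
    rw [card_univ] at h2
    rw [mul_comm]
    exact h2
  have h3 := card_perp (Zof C g)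
  have h4 : Fintype.card (Fin n → ZMod 2) = 2 ^ Fintype.card (Fin n) := by
    rw [Fintype.card_fun, ZMod.card]
  rw [← h4] at h3
  exact Nat.le_of_mul_le_mul_right (h3.trans h1) hZpos

/-- all vectors which are orthogonal to the flips of some gate -/
noncomputable def WW : Finset (Fin n → ZMod 2) :=
  open Classical in univ.filter (fun u => ∃ g, u ∈ perp (Zof C g))

theorem mem_WW (u : Fin n → ZMod 2) : u ∈ WW C ↔ ∃ g, u ∈ perp (Zof C g) := by
  unfold WW
  simp only [mem_filter, mem_univ, true_and]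

theorem card_WW (hS : SymSat C) [Fintype C.Gate] : (WW C).card ≤ Fintype.card C.Gate := by
  classical
  have h1 : WW C ⊆ (univ.image (Zof C)).biUnion (fun Z => univ.filter (fun u => u ∈ perp Z)) := by
    intro u hu
    rw [mem_WW] at hu
    obtain ⟨g, hg⟩ := hu
    rw [mem_biUnion]
    exact ⟨Zof C g, mem_image_of_mem _ (mem_univ g), by simpa using hg⟩
  refine (card_le_card h1).trans (card_biUnion_le.trans ?_)
  rw [← card_univ (α := C.Gate), card_eq_sum_card_image (Zof C) univ]
  refine sum_le_sum fun Z hZ => ?_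
  rw [mem_image] at hZ
  obtain ⟨g, _, rfl⟩ := hZ
  have h2 := card_kind C hS g
  have h3 : (univ.filter (fun u => u ∈ perp (Zof C g))).card = Nat.card (perp (Zof C g)) := by
    rw [Nat.card_eq_fintype_card, Fintype.card_subtype]
  rw [h3]
  exact h2

/-- `WW` is closed under permutations. -/
theorem WW_perm (hS : SymSat C) (π : Equiv.Perm (Fin n)) (u : Fin n → ZMod 2) (hu : u ∈ WW C) :
    (fun i => u (π⁻¹ i)) ∈ WW C := by
  rw [mem_WW] at hu ⊢
  obtain ⟨g, hg⟩ := hu
  obtain ⟨α, hα⟩ := hS π 0
  refine ⟨α g, ?_⟩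
  intro f hf
  have h1 := hg _ (Zof_perm C hα g f hf)
  unfold dot at h1 ⊢
  rw [← Equiv.sum_comp π]
  rw [← h1]
  refine sum_congr rfl fun i _ => ?_
  show u (π⁻¹ (π i)) * f (π i) = u i * f (π i)
  rw [pinv_apply]

/-- all vectors of some weight are in `WW` -/
theorem choose_le (hS : SymSat C) [Fintype C.Gate] (u : Fin n → ZMod 2) (hu : u ∈ WW C) :
    n.choose (wt u) ≤ Fintype.card C.Gate := by
  classical
  refine le_trans ?_ (card_WW C hS)
  have h1 : n.choose (wt u) = (powersetCard (wt u) (univ : Finset (Fin n))).card := by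
    rw [card_powersetCard, card_univ, Fintype.card_fin]
  rw [h1]
  refine card_le_card_of_injOn (fun T i => if i ∈ T then 1 else 0) ?_ ?_
  · intro T hT
    have hT' : T.card = wt u := (mem_powersetCard.1 hT).2
    show (fun i => if i ∈ T then (1 : ZMod 2) else 0) ∈ WW C
    obtain ⟨S, hS'⟩ : ∃ S : Finset (Fin n), S = univ.filter (fun i => u i ≠ 0) := ⟨_, rfl⟩
    have hcard : Fintype.card S = Fintype.card T := by
      rw [Fintype.card_coe, Fintype.card_coe, hT', hS']
      rfl
    obtain ⟨e⟩ : Nonempty (S ≃ T) := Fintype.card_eq.1 hcard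
    have h2 := WW_perm C hS (e.extendSubtype) u hu
    have h3 : (fun i => if i ∈ T then (1 : ZMod 2) else 0) =
        fun i => u ((e.extendSubtype)⁻¹ i) := by
      funext i
      obtain ⟨j, hj⟩ : ∃ j, j = (e.extendSubtype)⁻¹ i := ⟨_, rfl⟩
      have hi : e.extendSubtype j = i := by rw [hj, papply_inv]
      rw [← hj]
      by_cases hjS : j ∈ S
      · have h4 : e.extendSubtype j ∈ T := e.extendSubtype_mem j hjS
        rw [hi] at h4
        rw [if_pos h4]
        rw [hS', mem_filter] at hjS
        rcases z2_cases (u j) with h5 | h5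
        · exact absurd h5 hjS.2
        · exact h5.symm
      · have h4 : e.extendSubtype j ∉ T := e.extendSubtype_not_mem j hjS
        rw [hi] at h4
        rw [if_neg h4]
        rw [hS', mem_filter] at hjS
        by_contra h5
        exact hjS ⟨mem_univ _, fun h6 => h5 h6.symm⟩
    rw [h3]
    exact h2
  · intro T _ T' _ hTT
    ext i
    have h2 := congrFun hTT i
    have h3 : (if i ∈ T then (1 : ZMod 2) else 0) = if i ∈ T' then 1 else 0 := h2
    by_cases h4 : i ∈ T
    · by_cases h5 : i ∈ T'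
      · exact ⟨fun _ => h5, fun _ => h4⟩
      · rw [if_pos h4, if_neg h5] at h3
        exact absurd h3 (by decide)
    · by_cases h5 : i ∈ T'
      · rw [if_neg h4, if_pos h5] at h3
        exact absurd h3 (by decide)
      · exact ⟨fun h => absurd h h4, fun h => absurd h h5⟩

end gates

end Pool.Agent.T9h47.SE
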