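import Mathlib
import Pool.Agent.T9h47.SE.Sat

/-!
# The satisfiability problem of a sparse linear system
-/

set_option autoImplicit false
set_option linter.unusedSectionVars false

namespace Pool.Agent.T9h47.SE

open Finset
open Pool.Agent.T9h47.SC

section

variable {n k : ℕ} {V : Type} [Fintype V] [DecidableEq V] (R : V → Finset (Fin n))
  (hR : ∀ j, (R j).card ≤ k)

/-- the clause on the variables of the row `j` which is false exactly for the assignment `a` -/
def cl (j : V) (a : Fin n → ZMod 2) : Cl n k :=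
  ⟨(R j).image (fun v => (v, a v + 1)), card_image_le.trans (hR j)⟩

/-- the set of clauses for the linear system with right hand side `c` -/
def sys (c : V → ZMod 2) : Set (Cl n k) := {C | ∃ j a, C = cl R hR j a ∧ AA R a j ≠ c j}

theorem mem_sys (c : V → ZMod 2) (C : Cl n k) :
    C ∈ sys R hR c ↔ ∃ j a, C = cl R hR j a ∧ AA R a j ≠ c j := Iff.rfl

theorem z2_ne (a : ZMod 2) : a ≠ a + 1 := by revert a; decide

theorem z2_eq (a b : ZMod 2) (h : a ≠ b) : a = b + 1 := by
  revert a b
  decide

theorem sat_sys (c : V → ZMod 2) : Satisfiable (sys R hR c) ↔ ∃ a, AA R a = c := by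
  constructor
  · rintro ⟨x, hx⟩
    refine ⟨x, ?_⟩
    funext j
    by_contra hne
    obtain ⟨l, hl, hxl⟩ := hx (cl R hR j x) ((mem_sys R hR c _).2 ⟨j, x, rfl, hne⟩)
    have hl' : l ∈ (R j).image (fun v => (v, x v + 1)) := hl
    rw [mem_image] at hl'
    obtain ⟨v, _, rfl⟩ := hl'
    exact z2_ne (x v) hxl
  · rintro ⟨x, hx⟩
    refine ⟨x, ?_⟩
    intro C hC
    obtain ⟨j, a, rfl, hne⟩ := (mem_sys R hR c C).1 hC
    have h1 : ∃ v ∈ R j, x v ≠ a v := by
      by_contra hcon
      push Not at hcon
      apply hne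
      rw [← hx, AA_apply, AA_apply]
      exact sum_congr rfl fun v hv => (hcon v hv).symm
    obtain ⟨v, hv, hxa⟩ := h1
    refine ⟨(v, a v + 1), ?_, z2_eq _ _ hxa⟩
    show (v, a v + 1) ∈ (R j).image (fun v => (v, a v + 1))
    exact mem_image_of_mem _ hv

theorem ren_cl (f : Fin n → ZMod 2) (j : V) (a : Fin n → ZMod 2) :
    ren 1 f (cl R hR j a) = cl R hR j (a + f) := by
  apply Subtype.ext
  show ((R j).image _).image _ = (R j).image _
  rw [image_image]
  refine image_congr ?_
  intro v _
  show (((1 : Equiv.Perm (Fin n)) v, a v + 1 + f v) : Lit n) = (v, a v + f v + 1)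
  have h1 : a v + 1 + f v = a v + f v + 1 := by ring
  rw [h1]
  rfl

theorem ren_sys (f : Fin n → ZMod 2) (c : V → ZMod 2) (C : Cl n k) :
    ren 1 f C ∈ sys R hR (c + AA R f) ↔ C ∈ sys R hR c := by
  have key : ∀ (c : V → ZMod 2) (C : Cl n k), C ∈ sys R hR c →
      ren 1 f C ∈ sys R hR (c + AA R f) := by
    intro c C hC
    obtain ⟨j, a, rfl, hne⟩ := (mem_sys R hR c C).1 hC
    rw [mem_sys]
    refine ⟨j, a + f, ren_cl R hR f j a, ?_⟩
    rw [map_add]
    intro h
    apply hne
    have h1 : AA R a j + AA R f j = c j + AA R f j := h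
    exact add_right_cancel h1
  refine ⟨fun h => ?_, key c C⟩
  have h1 := key _ _ h
  have h2 : ren 1 f (ren 1 f C) = C := congrFun (ren_flip_self f) C
  rw [h2, add_assoc, vec_self, add_zero] at h1
  exact h1

theorem cl_inj (f : Fin n → ZMod 2) (j : V) (a : Fin n → ZMod 2)
    (h : ren 1 f (cl R hR j a) = cl R hR j a) : ∀ v ∈ R j, f v = 0 := by
  rw [ren_cl] at h
  intro v hv
  have h1 : (R j).image (fun v => (v, (a + f) v + 1)) = (R j).image (fun v => (v, a v + 1)) :=
    congrArg Subtype.val h
  have h2 : ((v, (a + f) v + 1) : Lit n) ∈ (R j).image (fun v => (v, a v + 1)) := by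
    rw [← h1]
    exact mem_image_of_mem _ hv
  rw [mem_image] at h2
  obtain ⟨w, _, hw⟩ := h2
  have h3 := Prod.ext_iff.1 hw
  have h4 : w = v := h3.1
  subst h4
  have h5 : a w + 1 = a w + f w + 1 := h3.2
  have h6 := add_right_cancel h5
  exact (left_eq_add.1 h6)

theorem tr_single (j : V) : tr R (Pi.single j 1) = fun i => if i ∈ R j then 1 else 0 := by
  funext i
  unfold tr
  rw [sum_eq_single j]
  · rw [Pi.single_eq_same]
  · intro j' _ hj'
    rw [Pi.single_eq_of_ne hj']
    split_ifs <;> rfl
  · intro h; exact absurd (mem_univ _) h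

theorem wt_single (j : V) : wt (Pi.single j 1 : V → ZMod 2) = 1 := by
  unfold wt
  rw [card_eq_one]
  refine ⟨j, ?_⟩
  ext i
  rw [mem_filter, mem_singleton]
  constructor
  · rintro ⟨_, h⟩
    by_contra hij
    exact h (Pi.single_eq_of_ne hij _)
  · rintro rfl
    refine ⟨mem_univ _, ?_⟩
    rw [Pi.single_eq_same]
    decide

theorem dot_single (j : V) (c : V → ZMod 2) : dot (Pi.single j 1) c = c j := by
  unfold dot
  rw [sum_eq_single j]
  · rw [Pi.single_eq_same, one_mul]
  · intro i _ hi
    rw [Pi.single_eq_of_ne hi, zero_mul]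
  · intro h; exact absurd (mem_univ _) h

theorem wt_one : wt (fun _ : V => (1 : ZMod 2)) = Fintype.card V := by
  unfold wt
  rw [filter_true_of_mem, card_univ]
  intro j _
  show (1 : ZMod 2) ≠ 0
  decide

/-- the number of clauses -/
theorem sys_card (k₀ m : ℕ) (hk : ∀ j, (R j).card ≤ k₀) (hm : Fintype.card V * 2 ^ k₀ ≤ m)
    (c : V → ZMod 2) : (sys R hR c).ncard ≤ m := by
  classical
  have hsub : sys R hR c ⊆ ((univ.biUnion (fun j : V => (R j).powerset.image
      (fun T => cl R hR j (fun v => if v ∈ T then 1 else 0))) : Finset (Cl n k)) :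
        Set (Cl n k)) := by
    intro D hD
    obtain ⟨j, a, rfl, _⟩ := (mem_sys R hR c D).1 hD
    rw [mem_coe, mem_biUnion]
    refine ⟨j, mem_univ _, ?_⟩
    rw [mem_image]
    refine ⟨(R j).filter (fun v => a v ≠ 0), ?_, ?_⟩
    · rw [mem_powerset]
      exact filter_subset _ _
    · apply Subtype.ext
      show (R j).image _ = (R j).image _
      refine image_congr ?_
      intro v hv
      show ((v, (if v ∈ (R j).filter (fun v => a v ≠ 0) then (1 : ZMod 2) else 0) + 1) : Lit n) =
        (v, a v + 1)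
      have h1 : (if v ∈ (R j).filter (fun v => a v ≠ 0) then (1 : ZMod 2) else 0) = a v := by
        rcases z2_cases (a v) with h | h
        · rw [if_neg (by rw [mem_filter]; exact fun h' => h'.2 h), h]
        · rw [if_pos (by rw [mem_filter]; exact ⟨hv, by rw [h]; decide⟩), h]
      rw [h1]
  refine (Set.ncard_le_ncard hsub (Finset.finite_toSet _)).trans ?_
  rw [Set.ncard_coe_finset]
  refine le_trans ?_ hm
  refine card_biUnion_le.trans ?_
  calc ∑ j : V, ((R j).powerset.image
      (fun T => cl R hR j (fun v => if v ∈ T then 1 else 0))).card ≤ ∑ _j : V, 2 ^ k₀ := by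
        refine sum_le_sum fun j _ => card_image_le.trans ?_
        rw [card_powerset]
        exact Nat.pow_le_pow_right (by norm_num) (hk j)
    _ = Fintype.card V * 2 ^ k₀ := by rw [sum_const, card_univ, smul_eq_mul]

include hR in
/-- **The main lower bound**, for a code with the separation property. -/
theorem lower {K : Type} (C : Circuit K (Cl n k)) (hS : SymSat C) (b₀ b₁ : K) (Acc : Set K)
    (k₀ m : ℕ) (hk : ∀ j, (R j).card ≤ k₀) (hm : Fintype.card V * 2 ^ k₀ ≤ m)
    (hC : DecidesSat C b₀ b₁ Acc m) (hV : 2 ≤ Fintype.card V)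
    (hone : tr R (fun _ => 1) = 0)
    (hsep : ∀ y : V → ZMod 2, Fintype.card V ≤ 4 * wt y → 4 * wt y ≤ 3 * Fintype.card V →
      @Fintype.card C.Gate C.fin < n.choose (wt (tr R y))) : False := by
  classical
  let _ := C.fin
  have hSep : ∀ g, Sep R (perp (Zof C g)) := by
    intro g y hy
    by_contra hcon
    rw [not_or, not_lt, not_lt] at hcon
    have h1 := hsep y hcon.1 hcon.2
    have h2 := choose_le C hS (tr R y) ((mem_WW C _).2 ⟨g, hy⟩)
    omega
  obtain ⟨x, hx⟩ : ∃ x : (V → ZMod 2) → Cl n k → K, x = fun c => inp b₀ b₁ (sys R hR c) :=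
    ⟨_, rfl⟩
  have hxc : ∀ c, x c = inp b₀ b₁ (sys R hR c) := by intro c; rw [hx]
  have hfl : ∀ (c : V → ZMod 2) (f : Fin n → ZMod 2), x (c + AA R f) ∘ ren 1 f = x c := by
    intro c f
    funext D
    rw [hxc, hxc]
    show inp b₀ b₁ (sys R hR (c + AA R f)) (ren 1 f D) = inp b₀ b₁ (sys R hR c) D
    unfold inp
    simp only [ren_sys R hR f c D]
  have main := indist_abs C (x 0) x (Zof C) (Good R) (by
      intro g c h hg
      obtain ⟨f, hf, hgood⟩ := good_inter R (hSep h) hg
      obtain ⟨α, hα, hαg⟩ := hf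
      exact ⟨c + AA R f, ren 1 f, α, hgood, hα, hαg, hfl c f, fun h' => Zof_flip C hα h'⟩)
    (by
      intro g D c hl hg
      rw [hxc, hxc]
      by_contra hne
      have hj : ∃ j a, D = cl R hR j a ∧ c j ≠ 0 := by
        by_contra hcon
        push Not at hcon
        apply hne
        have hiff : D ∈ sys R hR c ↔ D ∈ sys R hR 0 := by
          rw [mem_sys, mem_sys]
          constructor
          · rintro ⟨j, a, h1, h2⟩
            refine ⟨j, a, h1, ?_⟩
            rw [hcon j a h1] at h2
            exact h2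
          · rintro ⟨j, a, h1, h2⟩
            refine ⟨j, a, h1, ?_⟩
            rw [hcon j a h1]
            exact h2
        unfold inp
        simp only [hiff]
      obtain ⟨j, a, rfl, hcj⟩ := hj
      apply hcj
      have h1 : tr R (Pi.single j 1) ∈ perp (Zof C g) := by
        intro f hf
        obtain ⟨α, hα, hαg⟩ := hf
        have h2 := hα.lab g
        rw [hαg, hl] at h2
        have h3 : cl R hR j a = ren 1 f (cl R hR j a) := Sum.inl.inj h2
        have h4 := cl_inj R hR f j a h3.symm
        rw [tr_single]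
        unfold dot
        refine sum_eq_zero fun i _ => ?_
        by_cases hi : i ∈ R j
        · rw [h4 i hi, mul_zero]
        · show (if i ∈ R j then (1 : ZMod 2) else 0) * f i = 0
          rw [if_neg hi, zero_mul]
      have h2 := hg _ h1
      rw [dot_single] at h2
      rw [h2]
      unfold phi
      rw [wt_single, if_pos (by omega)])
  obtain ⟨c, hc⟩ := exists_good R (Zof C C.out) (hSep C.out)
  have h1 := main (C.rank C.out + 1) C.out (Nat.lt_succ_self _) c hc
  have hc1 : ¬ Satisfiable (sys R hR c) := by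
    rw [sat_sys]
    rintro ⟨a, ha⟩
    have h2 := hc (fun _ => 1) (by rw [hone]; exact Submodule.zero_mem _)
    rw [← ha, adj, hone] at h2
    have h3 : dot (0 : Fin n → ZMod 2) a = 0 := sum_eq_zero fun i _ => zero_mul _
    rw [h3] at h2
    unfold phi at h2
    rw [wt_one, if_neg (by omega)] at h2
    exact absurd h2 (by decide)
  have hc0 : Satisfiable (sys R hR (0 : V → ZMod 2)) := by
    rw [sat_sys]
    exact ⟨0, map_zero _⟩
  apply hc1
  have hs := sys_card R hR k₀ m hk hm
  rw [← hC _ (hs c), ← hxc, h1, hxc, hC _ (hs 0)]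
  exact hc0

end

end Pool.Agent.T9h47.SE
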