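import Mathlib
import Pool.Agent.T9h47.SE.Inst
import Pool.Agent.T9h47.SE.Code
import Pool.Agent.T9h47.SE.Binom

/-!
# Restricting a circuit to some of the variables, and the final bound
-/

set_option autoImplicit false
set_option linter.unusedSectionVars false

namespace Pool.Agent.T9h47.SE

open Finset
open Pool.Agent.T9h47.SC

section restrict

variable {K I J : Type} (ι : J → I) (b : K)

open Classical in
/-- the value of the input of the large circuit -/
noncomputable def ext (x : J → K) (i : I) : K := if h : ∃ j, ι j = i then x h.choose else b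

theorem ext_apply (hι : Function.Injective ι) (x : J → K) (j : J) : ext ι b x (ι j) = x j := by
  unfold ext
  have h : ∃ j', ι j' = ι j := ⟨j, rfl⟩
  rw [dif_pos h]
  congr 1
  exact hι h.choose_spec

theorem ext_not (x : J → K) (i : I) (h : ¬ ∃ j, ι j = i) : ext ι b x i = b := by
  unfold ext
  rw [dif_neg h]

open Classical in
/-- the new label -/
noncomputable def rlab : I ⊕ ((ℕ → Multiset K) → K) → J ⊕ ((ℕ → Multiset K) → K)
  | Sum.inl i => if h : ∃ j, ι j = i then Sum.inl h.choose else Sum.inr (fun _ => b)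
  | Sum.inr f => Sum.inr f

open Classical in
theorem rlab_pos (i : I) (h : ∃ j, ι j = i) : rlab ι b (Sum.inl i) = Sum.inl h.choose := by
  show (if h : ∃ j, ι j = i then Sum.inl h.choose else Sum.inr (fun _ => b) :
    J ⊕ ((ℕ → Multiset K) → K)) = _
  rw [dif_pos h]

open Classical in
theorem rlab_neg (i : I) (h : ¬ ∃ j, ι j = i) : rlab ι b (Sum.inl i) = Sum.inr (fun _ => b) := by
  show (if h : ∃ j, ι j = i then Sum.inl h.choose else Sum.inr (fun _ => b) :
    J ⊕ ((ℕ → Multiset K) → K)) = _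
  rw [dif_neg h]

/-- replace the inputs outside of the range of `ι` by the constant `b` -/
noncomputable def restr (C : Circuit K I) : Circuit K J where
  Gate := C.Gate
  fin := C.fin
  rank := C.rank
  lab g := rlab ι b (C.lab g)
  kids := C.kids
  out := C.out
  rank_lt := C.rank_lt

theorem restr_val (C : Circuit K I) (x : J → K) : ∀ (m : ℕ) (g : C.Gate), C.rank g < m →
    (restr ι b C).val x g = C.val (ext ι b x) g := by
  classical
  intro m
  induction m with
  | zero => intro g hg; exact absurd hg (Nat.not_lt_zero _)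
  | succ m ih =>
    intro g hg
    rcases hl : C.lab g with i | f
    · refine Eq.trans ?_ (C.val_inl _ g i hl).symm
      by_cases h : ∃ j, ι j = i
      · have h1 : (restr ι b C).lab g = Sum.inl h.choose := by
          show rlab ι b (C.lab g) = _
          rw [hl]
          exact rlab_pos ι b i h
        refine ((restr ι b C).val_inl _ g _ h1).trans ?_
        unfold ext
        rw [dif_pos h]
      · have h1 : (restr ι b C).lab g = Sum.inr (fun _ => b) := by
          show rlab ι b (C.lab g) = _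
          rw [hl]
          exact rlab_neg ι b i h
        refine ((restr ι b C).val_inr _ g _ h1).trans ?_
        rw [ext_not _ _ _ _ h]
    · have h1 : (restr ι b C).lab g = Sum.inr f := by
        show rlab ι b (C.lab g) = _
        rw [hl]
        rfl
      refine ((restr ι b C).val_inr _ g f h1).trans (Eq.trans ?_ (C.val_inr _ g f hl).symm)
      congr 1
      funext r
      refine Multiset.map_congr rfl ?_
      intro p hp
      have hp' : (show ℕ × C.Gate from p) ∈ (C.kids g).filter (fun p => p.1 = r) := hp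
      have hp2 : (show ℕ × C.Gate from p) ∈ C.kids g := (mem_filter.1 hp').1
      exact ih p.2 (lt_of_lt_of_le (C.rank_lt g p hp2) (Nat.lt_succ_iff.1 hg))

theorem rlab_map (hι : Function.Injective ι) (π : I → I) (π' : J → J)
    (h1 : ∀ j, π (ι j) = ι (π' j)) (h2 : ∀ i, (∃ j, ι j = π i) → ∃ j, ι j = i)
    (a : I ⊕ ((ℕ → Multiset K) → K)) :
    rlab ι b (Sum.map π id a) = Sum.map π' id (rlab ι b a) := by
  rcases a with i | f
  · show rlab ι b (Sum.inl (π i)) = _
    by_cases h : ∃ j, ι j = i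
    · have h' : ∃ j, ι j = π i := by
        obtain ⟨j, rfl⟩ := h
        exact ⟨π' j, (h1 j).symm⟩
      rw [rlab_pos ι b i h, rlab_pos ι b _ h']
      show Sum.inl h'.choose = Sum.inl (π' h.choose)
      congr 1
      apply hι
      rw [h'.choose_spec, ← h1, h.choose_spec]
    · have h' : ¬ ∃ j, ι j = π i := fun h' => h (h2 i h')
      rw [rlab_neg ι b i h, rlab_neg ι b _ h']
      rfl
  · rfl

theorem restr_aut (C : Circuit K I) (hι : Function.Injective ι) {π : I → I} {π' : J → J}
    {α : Equiv.Perm C.Gate} (hα : C.IsAut π α) (h1 : ∀ j, π (ι j) = ι (π' j))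
    (h2 : ∀ i, (∃ j, ι j = π i) → ∃ j, ι j = i) : (restr ι b C).IsAut π' α where
  out := hα.out
  kids := hα.kids
  lab g := by
    have h3 : rlab ι b (C.lab (α g)) = rlab ι b (Sum.map π id (C.lab g)) :=
      congrArg _ (hα.lab g)
    exact h3.trans (rlab_map ι b hι π π' h1 h2 (C.lab g))

end restrict

section vars

variable {n h k : ℕ} (e : Fin h ↪ Fin n)

/-- the clauses over some of the variables -/
def emb (C : Cl h k) : Cl n k := ⟨C.1.image (fun l => (e l.1, l.2)), card_image_le.trans C.2⟩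

theorem lit_inj : Function.Injective (fun l : Lit h => ((e l.1, l.2) : Lit n)) := by
  rintro ⟨v, b⟩ ⟨v', b'⟩ heq
  have h1 := Prod.ext_iff.1 heq
  exact Prod.ext (e.injective h1.1) h1.2

theorem emb_inj : Function.Injective (emb e : Cl h k → Cl n k) := by
  intro C D heq
  apply Subtype.ext
  exact image_injective (lit_inj e) (congrArg Subtype.val heq)

/-- which clauses are clauses over these variables -/
theorem emb_range (C : Cl n k) : (∃ D, emb e D = C) ↔ ∀ l ∈ C.1, ∃ v, e v = l.1 := by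
  constructor
  · rintro ⟨D, rfl⟩ l hl
    obtain ⟨l', _, rfl⟩ := mem_image.1 hl
    exact ⟨l'.1, rfl⟩
  · intro hC
    refine ⟨⟨C.1.preimage (fun l : Lit h => ((e l.1, l.2) : Lit n)) (lit_inj e).injOn, ?_⟩, ?_⟩
    · refine (card_le_card_of_injOn (fun l : Lit h => ((e l.1, l.2) : Lit n)) ?_
        (lit_inj e).injOn).trans C.2
      intro l hl
      rw [mem_coe, mem_preimage] at hl
      exact hl
    · apply Subtype.ext
      ext l
      show l ∈ (C.1.preimage (fun l : Lit h => ((e l.1, l.2) : Lit n))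
        (lit_inj e).injOn).image (fun l => (e l.1, l.2)) ↔ l ∈ C.1
      rw [mem_image]
      constructor
      · rintro ⟨l', hl', rfl⟩
        rw [mem_preimage] at hl'
        exact hl'
      · intro hl
        obtain ⟨v, hv⟩ := hC l hl
        have heq : ((e v, l.2) : Lit n) = l := Prod.ext hv rfl
        exact ⟨(v, l.2), by rw [mem_preimage, heq]; exact hl, heq⟩

theorem emb_sat (φ : Set (Cl h k)) : Satisfiable (emb e '' φ) ↔ Satisfiable φ := by
  constructor
  · rintro ⟨a, ha⟩
    refine ⟨fun v => a (e v), ?_⟩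
    intro C hC
    obtain ⟨l, hl, hal⟩ := ha _ ⟨C, hC, rfl⟩
    obtain ⟨l', hl', rfl⟩ := mem_image.1 hl
    exact ⟨l', hl', hal⟩
  · rintro ⟨a, ha⟩
    refine ⟨fun i => open Classical in if hi : ∃ v, e v = i then a hi.choose else 0, ?_⟩
    rintro _ ⟨C, hC, rfl⟩
    obtain ⟨l, hl, hal⟩ := ha C hC
    refine ⟨(e l.1, l.2), mem_image_of_mem _ hl, ?_⟩
    show (open Classical in if hi : ∃ v, e v = e l.1 then a hi.choose else 0) = l.2
    have hi : ∃ v, e v = e l.1 := ⟨_, rfl⟩
    rw [dif_pos hi, e.injective hi.choose_spec]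
    exact hal

theorem emb_inp {K : Type} (b₀ b₁ : K) (φ : Set (Cl h k)) :
    ext (emb e) b₀ (inp b₀ b₁ φ) = inp b₀ b₁ (emb e '' φ) := by
  funext C
  by_cases hC : ∃ D, emb e D = C
  · obtain ⟨D, rfl⟩ := hC
    rw [ext_apply _ _ (emb_inj e)]
    unfold inp
    have hiff : emb e D ∈ emb e '' φ ↔ D ∈ φ := (emb_inj e).mem_set_image
    by_cases hD : D ∈ φ
    · rw [if_pos hD, if_pos (hiff.2 hD)]
    · rw [if_neg hD, if_neg (fun h' => hD (hiff.1 h'))]
  · rw [ext_not _ _ _ _ hC]
    unfold inp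
    rw [if_neg]
    rintro ⟨D, _, hD⟩
    exact hC ⟨D, hD⟩

/-- extend a permutation -/
noncomputable def extP (π : Equiv.Perm (Fin h)) : Equiv.Perm (Fin n) :=
  open Classical in π.viaFintypeEmbedding e

theorem extP_apply (π : Equiv.Perm (Fin h)) (v : Fin h) : extP e π (e v) = e (π v) := by
  classical
  exact Equiv.Perm.viaFintypeEmbedding_apply_image π e v

theorem extP_not (π : Equiv.Perm (Fin h)) (i : Fin n) (hi : i ∉ Set.range e) :
    extP e π i = i := by
  classical
  exact Equiv.Perm.viaFintypeEmbedding_apply_notMem_range π e hi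

/-- extend a set of flips -/
noncomputable def extF (f : Fin h → ZMod 2) (i : Fin n) : ZMod 2 :=
  open Classical in if hi : ∃ v, e v = i then f hi.choose else 0

theorem extF_apply (f : Fin h → ZMod 2) (v : Fin h) : extF e f (e v) = f v := by
  unfold extF
  have hi : ∃ w, e w = e v := ⟨_, rfl⟩
  rw [dif_pos hi, e.injective hi.choose_spec]

theorem extF_not (f : Fin h → ZMod 2) (i : Fin n) (hi : i ∉ Set.range e) :
    extF e f i = 0 := by
  unfold extF
  have hi' : ¬ ∃ v, e v = i := hi
  rw [dif_neg hi']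

theorem ren_emb (π : Equiv.Perm (Fin h)) (f : Fin h → ZMod 2) (C : Cl h k) :
    ren (extP e π) (extF e f) (emb e C) = emb e (ren π f C) := by
  apply Subtype.ext
  show (C.1.image _).image _ = (C.1.image _).image _
  rw [image_image, image_image]
  refine image_congr ?_
  intro l _
  show ((extP e π (e l.1), l.2 + extF e f (e l.1)) : Lit n) = (e (π l.1), l.2 + f l.1)
  rw [extP_apply, extF_apply]

end vars

/-- The circuit is symmetric under renaming and negating the variables in `H`. -/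
def SymOn {K : Type} {n k : ℕ} (C : Circuit K (Cl n k)) (H : Finset (Fin n)) : Prop :=
  ∀ (π : Equiv.Perm (Fin n)) (f : Fin n → ZMod 2), (∀ i, i ∉ H → π i = i ∧ f i = 0) →
    ∃ α, C.IsAut (ren π f) α

theorem restr_sym {K : Type} {n k : ℕ} (C : Circuit K (Cl n k)) (H : Finset (Fin n))
    (hC : SymOn C H) (b₀ : K) (e : Fin H.card ↪ Fin n) (he : ∀ v, e v ∈ H) :
    SymSat (restr (emb e) b₀ C) := by
  intro π f
  have hr : ∀ i, i ∉ H → i ∉ Set.range e := by
    rintro i hi ⟨v, rfl⟩
    exact hi (he v)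
  obtain ⟨α, hα⟩ := hC (extP e π) (extF e f) (fun i hi =>
    ⟨extP_not e π i (hr i hi), extF_not e f i (hr i hi)⟩)
  refine ⟨α, restr_aut (emb e) b₀ C (emb_inj e) hα (ren_emb e π f) ?_⟩
  intro D hD
  rw [emb_range] at hD ⊢
  intro l hl
  obtain ⟨v, hv⟩ := hD (extP e π l.1, l.2 + extF e f l.1)
    (mem_image_of_mem (fun l : Lit n => ((extP e π l.1, l.2 + extF e f l.1) : Lit n)) hl)
  by_contra hcon
  have h1 : extP e π l.1 = l.1 := extP_not e π l.1 hcon
  apply hcon
  refine ⟨v, ?_⟩
  rw [hv]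
  exact h1

theorem restr_decides {K : Type} {n k : ℕ} (C : Circuit K (Cl n k)) (b₀ b₁ : K) (Acc : Set K)
    (m : ℕ) (hC : DecidesSat C b₀ b₁ Acc m) {h : ℕ} (e : Fin h ↪ Fin n) :
    DecidesSat (restr (emb e : Cl h k → Cl n k) b₀ C) b₀ b₁ Acc m := by
  intro φ hφ
  have h1 : (restr (emb e) b₀ C).val (inp b₀ b₁ φ) (restr (emb e : Cl h k → Cl n k) b₀ C).out =
      C.val (inp b₀ b₁ (emb e '' φ)) C.out := by
    rw [← emb_inp]
    exact restr_val (emb e) b₀ C _ (C.rank C.out + 1) C.out (Nat.lt_succ_self _)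
  rw [h1, hC _ (by rw [Set.ncard_image_of_injective _ (emb_inj e)]; exact hφ), emb_sat]

/-- **Symmetric circuits and the strong exponential time hypothesis.** -/
theorem seth (ε : ℝ) (hε : 0 < ε) : ∃ k₀ h₀ B : ℕ, ∀ (k n : ℕ) (H : Finset (Fin n)), k₀ ≤ k →
    h₀ ≤ H.card → ∀ (K : Type) (C : Circuit K (Cl n k)) (b₀ b₁ : K) (Acc : Set K),
    SymOn C H → DecidesSat C b₀ b₁ Acc (B * H.card) →
    (2 : ℝ) ^ ((1 - ε) * H.card) ≤ @Fintype.card C.Gate C.fin := by
  obtain ⟨δ, hδ, n₁, hn₁⟩ := choose_large ε hε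
  obtain ⟨k₀, n₀, hcode⟩ := exists_code δ hδ
  refine ⟨k₀, max n₀ n₁, 2 ^ k₀, ?_⟩
  intro k n H hk hH K C b₀ b₁ Acc hS hD
  obtain ⟨h, hh⟩ : ∃ h, h = H.card := ⟨_, rfl⟩
  obtain ⟨V, _, _, R, hV2, hVn, hRk, hone, hw⟩ := hcode H.card ((le_max_left _ _).trans hH)
  obtain ⟨e, he⟩ : ∃ e : Fin H.card ↪ Fin n, ∀ v, e v ∈ H :=
    ⟨(H.orderEmbOfFin rfl).toEmbedding, fun v => H.orderEmbOfFin_mem rfl v⟩
  have hS' := restr_sym C H hS b₀ e he
  have hD' := restr_decides C b₀ b₁ Acc _ hD e
  by_contra hcon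
  rw [not_le] at hcon
  refine lower R (fun j => (hRk j).trans hk) (restr (emb e) b₀ C) hS' b₀ b₁ Acc k₀ _ hRk ?_ hD'
    hV2 hone ?_
  · rw [mul_comm]
    exact Nat.mul_le_mul_left _ hVn
  · intro y hy1 hy2
    have h1 := hn₁ H.card ((le_max_right _ _).trans hH) _ (hw y hy1 hy2)
    have h2 : ((@Fintype.card C.Gate C.fin : ℕ) : ℝ) < ((H.card.choose (wt (tr R y)) : ℕ) : ℝ) :=
      lt_of_lt_of_le hcon h1
    exact_mod_cast h2

end Pool.Agent.T9h47.SE
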