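import Mathlib
import Pool.Agent.T9h47.SE.Restr

/-!
# Circuits which are symmetric only under a group of negations
-/

set_option autoImplicit false
set_option linter.unusedSectionVars false

namespace Pool.Agent.T9h47.SE

open Finset
open Pool.Agent.T9h47.SC

section count

variable {n : ℕ}

theorem exists_rearr (u : Fin n → ZMod 2) (T : Finset (Fin n)) (hT : T.card = wt u) :
    ∃ τ : Equiv.Perm (Fin n), ∀ i, u (τ i) = if i ∈ T then 1 else 0 := by
  classical
  obtain ⟨S, hS'⟩ : ∃ S : Finset (Fin n), S = univ.filter (fun i => u i ≠ 0) := ⟨_, rfl⟩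
  have hcard : Fintype.card T = Fintype.card S := by
    rw [Fintype.card_coe, Fintype.card_coe, hT, hS']
    rfl
  have hSm : ∀ i, i ∈ S ↔ u i ≠ 0 := by intro i; rw [hS', mem_filter]; simp
  obtain ⟨e⟩ : Nonempty (T ≃ S) := Fintype.card_eq.1 hcard
  refine ⟨e.extendSubtype, fun i => ?_⟩
  by_cases hi : i ∈ T
  · have h4 := (hSm _).1 (e.extendSubtype_mem i hi)
    rw [if_pos hi]
    rcases z2_cases (u (e.extendSubtype i)) with h5 | h5
    · exact absurd h5 h4
    · exact h5
  · have h4 := fun h => (e.extendSubtype_not_mem i hi) ((hSm _).2 h)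
    rw [if_neg hi]
    by_contra h5
    exact h4 h5

theorem fiber_le (v u : Fin n → ZMod 2) :
    (univ.filter (fun σ : Equiv.Perm (Fin n) => ∀ i, v (σ i) = u i)).card * n.choose (wt v) ≤
      n.factorial := by
  classical
  obtain ⟨F, hF⟩ : ∃ F, F = univ.filter (fun σ : Equiv.Perm (Fin n) => ∀ i, v (σ i) = u i) :=
    ⟨_, rfl⟩
  have hFm : ∀ σ, σ ∈ F ↔ ∀ i, v (σ i) = u i := by intro σ; rw [hF, mem_filter]; simp
  rw [← hF]
  by_cases hne : F.Nonempty
  · obtain ⟨σ₀, hσ₀⟩ := hne
    rw [hFm] at hσ₀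
    have hw : wt u = wt v := by
      unfold wt
      refine card_bij (fun i _ => σ₀ i) ?_ ?_ ?_
      · intro i hi
        rw [mem_filter] at hi ⊢
        refine ⟨mem_univ _, ?_⟩
        rw [hσ₀]
        exact hi.2
      · intro i _ j _ hij
        exact σ₀.injective hij
      · intro j hj
        rw [mem_filter] at hj
        refine ⟨σ₀⁻¹ j, ?_, papply_inv _ _⟩
        rw [mem_filter]
        refine ⟨mem_univ _, ?_⟩
        rw [← hσ₀, papply_inv]
        exact hj.2
    have hch : ∀ T : Finset (Fin n), ∃ τ : Equiv.Perm (Fin n), T.card = wt u →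
        ∀ i, u (τ i) = if i ∈ T then 1 else 0 := by
      intro T
      by_cases hT : T.card = wt u
      · obtain ⟨τ, hτ⟩ := exists_rearr u T hT
        exact ⟨τ, fun _ => hτ⟩
      · exact ⟨1, fun h => absurd h hT⟩
    choose τ hτ using hch
    have h1 : n.choose (wt v) = (powersetCard (wt v) (univ : Finset (Fin n))).card := by
      rw [card_powersetCard, card_univ, Fintype.card_fin]
    have h2 : n.factorial = (univ : Finset (Equiv.Perm (Fin n))).card := by
      rw [card_univ, Fintype.card_perm, Fintype.card_fin]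
    rw [h1, h2, ← card_product]
    refine card_le_card_of_injOn (fun p => p.1 * τ p.2) (fun _ _ => mem_coe.2 (mem_univ _)) ?_
    rintro ⟨σ, T⟩ hp ⟨σ', T'⟩ hp' heq
    rw [mem_coe, mem_product, mem_powersetCard] at hp hp'
    obtain ⟨hp1, _, hp2⟩ := hp
    obtain ⟨hp1', _, hp2'⟩ := hp'
    have hp1a : ∀ i, v (σ i) = u i := (hFm σ).1 hp1
    have hp1b : ∀ i, v (σ' i) = u i := (hFm σ').1 hp1'
    have hp2a : T.card = wt u := by rw [hw]; exact hp2
    have hp2b : T'.card = wt u := by rw [hw]; exact hp2'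
    have heq' : σ * τ T = σ' * τ T' := heq
    have hTT : T = T' := by
      ext i
      have h3 : v ((σ * τ T) i) = if i ∈ T then 1 else 0 := by
        rw [Equiv.Perm.mul_apply, hp1a, hτ T hp2a]
      have h4 : v ((σ' * τ T') i) = if i ∈ T' then 1 else 0 := by
        rw [Equiv.Perm.mul_apply, hp1b, hτ T' hp2b]
      rw [heq', h4] at h3
      by_cases h5 : i ∈ T
      · by_cases h6 : i ∈ T'
        · exact ⟨fun _ => h6, fun _ => h5⟩
        · rw [if_pos h5, if_neg h6] at h3
          exact absurd h3 (by decide)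
      · by_cases h6 : i ∈ T'
        · rw [if_neg h5, if_pos h6] at h3
          exact absurd h3 (by decide)
        · exact ⟨fun h => absurd h h5, fun h => absurd h h6⟩
    subst hTT
    rw [mul_right_cancel heq']
  · rw [not_nonempty_iff_eq_empty] at hne
    rw [hne, card_empty, zero_mul]
    exact Nat.zero_le _

theorem bad_le (v : Fin n → ZMod 2) (S : Finset (Fin n → ZMod 2)) :
    (univ.filter (fun σ : Equiv.Perm (Fin n) => (fun i => v (σ i)) ∈ S)).card *
      n.choose (wt v) ≤ S.card * n.factorial := by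
  classical
  have h1 : univ.filter (fun σ : Equiv.Perm (Fin n) => (fun i => v (σ i)) ∈ S) ⊆
      S.biUnion (fun u => univ.filter (fun σ : Equiv.Perm (Fin n) => ∀ i, v (σ i) = u i)) := by
    intro σ hσ
    rw [mem_filter] at hσ
    rw [mem_biUnion]
    refine ⟨_, hσ.2, ?_⟩
    rw [mem_filter]
    exact ⟨mem_univ _, fun i => rfl⟩
  calc _ ≤ (∑ u ∈ S, (univ.filter (fun σ : Equiv.Perm (Fin n) => ∀ i, v (σ i) = u i)).card) *
        n.choose (wt v) := Nat.mul_le_mul_right _ ((card_le_card h1).trans card_biUnion_le)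
    _ = ∑ u ∈ S, (univ.filter (fun σ : Equiv.Perm (Fin n) => ∀ i, v (σ i) = u i)).card *
        n.choose (wt v) := by rw [sum_mul]
    _ ≤ ∑ _u ∈ S, n.factorial := sum_le_sum fun u _ => fiber_le v u
    _ = S.card * n.factorial := by rw [sum_const, smul_eq_mul]

/-- a rearrangement which avoids a small set -/
theorem exists_perm_avoid {Y : Type} (Yv : Finset Y) (v : Y → Fin n → ZMod 2)
    (S : Finset (Fin n → ZMod 2))
    (h : ∀ y ∈ Yv, Yv.card * S.card < n.choose (wt (v y))) :
    ∃ σ : Equiv.Perm (Fin n), ∀ y ∈ Yv, (fun i => v y (σ i)) ∉ S := by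
  classical
  by_contra hcon
  push Not at hcon
  obtain ⟨f, hf⟩ : ∃ f : Y → ℕ, ∀ y, f y =
      (univ.filter (fun σ : Equiv.Perm (Fin n) => (fun i => v y (σ i)) ∈ S)).card :=
    ⟨_, fun _ => rfl⟩
  have h1 : n.factorial ≤ ∑ y ∈ Yv, f y := by
    have h2 : (univ : Finset (Equiv.Perm (Fin n))) ⊆ Yv.biUnion (fun y =>
        univ.filter (fun σ : Equiv.Perm (Fin n) => (fun i => v y (σ i)) ∈ S)) := by
      intro σ _
      obtain ⟨y, hy, hyS⟩ := hcon σ
      rw [mem_biUnion]
      exact ⟨y, hy, mem_filter.2 ⟨mem_univ _, hyS⟩⟩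
    have h3 := (card_le_card h2).trans card_biUnion_le
    rw [card_univ, Fintype.card_perm, Fintype.card_fin] at h3
    refine h3.trans (le_of_eq (sum_congr rfl fun y _ => (hf y).symm))
  have hYne : Yv.Nonempty := by
    obtain ⟨y, hy, _⟩ := hcon 1
    exact ⟨y, hy⟩
  have hSpos : 0 < S.card := by
    obtain ⟨y, hy, hyS⟩ := hcon 1
    exact card_pos.2 ⟨_, hyS⟩
  have h4 : ∀ y ∈ Yv, f y * Yv.card < n.factorial := by
    intro y hy
    rcases Nat.eq_zero_or_pos (f y) with h0 | h0
    · rw [h0, zero_mul]; exact Nat.factorial_pos _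
    · have h5 := bad_le (v y) S
      rw [← hf] at h5
      have h6 : f y * (Yv.card * S.card) < f y * n.choose (wt (v y)) :=
        Nat.mul_lt_mul_of_pos_left (h y hy) h0
      have h7 : S.card * (f y * Yv.card) < S.card * n.factorial := by
        calc S.card * (f y * Yv.card) = f y * (Yv.card * S.card) := by ring
          _ < _ := h6
          _ ≤ _ := h5
      exact lt_of_mul_lt_mul_left h7 (Nat.zero_le _)
  have h8 : (∑ y ∈ Yv, f y) * Yv.card < Yv.card * n.factorial := by
    rw [sum_mul]
    calc ∑ y ∈ Yv, f y * Yv.card < ∑ _y ∈ Yv, n.factorial := sum_lt_sum_of_nonempty hYne h4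
      _ = Yv.card * n.factorial := by rw [sum_const, smul_eq_mul]
  have h9 : Yv.card * n.factorial ≤ (∑ y ∈ Yv, f y) * Yv.card := by
    rw [mul_comm]
    exact Nat.mul_le_mul_right _ h1
  omega

end count

section gates

variable {K : Type} {n k : ℕ} (C : Circuit K (Cl n k))

/-- number of gates of a given kind -/
theorem card_kind_neg (hS : ∀ f : Fin n → ZMod 2, ∃ α, C.IsAut (ren 1 f) α) [Fintype C.Gate]
    [DecidableEq C.Gate] (g : C.Gate) :
    Nat.card (perp (Zof C g)) ≤
      (open Classical in (univ.filter (fun h => Zof C h = Zof C g)).card) := by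
  classical
  choose al hal using fun f => hS f
  have hZpos : 0 < Nat.card (Zof C g) := Nat.card_pos
  have h1 : Fintype.card (Fin n → ZMod 2) ≤
      (univ.filter (fun h => Zof C h = Zof C g)).card * Nat.card (Zof C g) := by
    have h2 := card_le_mul_card_image_of_maps_to (s := (univ : Finset (Fin n → ZMod 2)))
      (t := univ.filter (fun h => Zof C h = Zof C g)) (f := fun f => al f g) (by
        intro f _
        rw [mem_filter]
        exact ⟨mem_univ _, Zof_flip C (hal f) g⟩) (Nat.card (Zof C g)) (by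
        intro h _
        by_cases hne : (univ.filter (fun f => al f g = h)).Nonempty
        · obtain ⟨f₀, hf₀⟩ := hne
          rw [mem_filter] at hf₀
          have h5 : (univ.filter (fun f => al f g = h)).card =
              Nat.card (univ.filter (fun f => al f g = h)) := by
            rw [Nat.card_eq_fintype_card, Fintype.card_coe]
          rw [h5]
          refine Nat.card_le_card_of_injective
            (fun f => (⟨f.1 + f₀, (al f.1)⁻¹ * al f₀, ?_, ?_⟩ : Zof C g)) ?_
          · rw [← ren_flip_flip]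
            exact ((hal f.1).inv (ren_flip_self f.1)).mul (hal f₀)
          · have h6 := (mem_filter.1 f.2).2
            rw [Equiv.Perm.mul_apply, Equiv.Perm.inv_eq_iff_eq, hf₀.2, h6]
          · intro f f' hff
            have h6 : f.1 + f₀ = f'.1 + f₀ := congrArg Subtype.val hff
            exact Subtype.ext (add_right_cancel h6)
        · rw [not_nonempty_iff_eq_empty] at hne
          rw [hne, card_empty]
          exact Nat.zero_le _)
    rw [card_univ] at h2
    rw [mul_comm]
    exact h2
  have h3 := card_perp (Zof C g)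
  have h4 : Fintype.card (Fin n → ZMod 2) = 2 ^ Fintype.card (Fin n) := by
    rw [Fintype.card_fun, ZMod.card]
  rw [← h4] at h3
  exact Nat.le_of_mul_le_mul_right (h3.trans h1) hZpos

theorem card_WW_neg (hS : ∀ f : Fin n → ZMod 2, ∃ α, C.IsAut (ren 1 f) α) [Fintype C.Gate] :
    (WW C).card ≤ Fintype.card C.Gate := by
  classical
  have h1 : WW C ⊆ (univ.image (Zof C)).biUnion (fun Z => univ.filter (fun u => u ∈ perp Z)) := by
    intro u hu
    rw [mem_WW] at hu
    obtain ⟨g, hg⟩ := hu
    rw [mem_biUnion]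
    exact ⟨Zof C g, mem_image_of_mem _ (mem_univ g), by simpa using hg⟩
  refine (card_le_card h1).trans (card_biUnion_le.trans ?_)
  rw [← card_univ (α := C.Gate), card_eq_sum_card_image (Zof C) univ]
  refine sum_le_sum fun Z hZ => ?_
  rw [mem_image] at hZ
  obtain ⟨g, _, rfl⟩ := hZ
  have h2 := card_kind_neg C hS g
  have h3 : (univ.filter (fun u => u ∈ perp (Zof C g))).card = Nat.card (perp (Zof C g)) := by
    rw [Nat.card_eq_fintype_card, Fintype.card_subtype]
  rw [h3]
  exact h2

end gates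

section lower

variable {n k : ℕ} {V : Type} [Fintype V] [DecidableEq V] (R : V → Finset (Fin n))
  (hR : ∀ j, (R j).card ≤ k)

include hR in
/-- **The main lower bound**, for a code with the separation property. -/
theorem lower_sep {K : Type} (C : Circuit K (Cl n k)) (b₀ b₁ : K) (Acc : Set K)
    (k₀ m : ℕ) (hk : ∀ j, (R j).card ≤ k₀) (hm : Fintype.card V * 2 ^ k₀ ≤ m)
    (hC : DecidesSat C b₀ b₁ Acc m) (hV : 2 ≤ Fintype.card V)
    (hone : tr R (fun _ => 1) = 0) (hSep : ∀ g, Sep R (perp (Zof C g))) : False := by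
  classical
  let _ := C.fin
  obtain ⟨x, hx⟩ : ∃ x : (V → ZMod 2) → Cl n k → K, x = fun c => inp b₀ b₁ (sys R hR c) :=
    ⟨_, rfl⟩
  have hxc : ∀ c, x c = inp b₀ b₁ (sys R hR c) := by intro c; rw [hx]
  have hfl : ∀ (c : V → ZMod 2) (f : Fin n → ZMod 2), x (c + AA R f) ∘ ren 1 f = x c := by
    intro c f
    funext D
    rw [hxc, hxc]
    show inp b₀ b₁ (sys R hR (c + AA R f)) (ren 1 f D) = inp b₀ b₁ (sys R hR c) D
    unfold inp
    simp only [ren_sys R hR f c D]
  have main := indist_abs C (x 0) x (Zof C) (Good R) (by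
      intro g c h hg
      obtain ⟨f, hf, hgood⟩ := good_inter R (hSep h) hg
      obtain ⟨α, hα, hαg⟩ := hf
      exact ⟨c + AA R f, ren 1 f, α, hgood, hα, hαg, hfl c f, fun h' => Zof_flip C hα h'⟩)
    (by
      intro g D c hl hg
      rw [hxc, hxc]
      by_contra hne
      have hj : ∃ j a, D = cl R hR j a ∧ c j ≠ 0 := by
        by_contra hcon
        push Not at hcon
        apply hne
        have hiff : D ∈ sys R hR c ↔ D ∈ sys R hR 0 := by
          rw [mem_sys, mem_sys]
          constructor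
          · rintro ⟨j, a, h1, h2⟩
            refine ⟨j, a, h1, ?_⟩
            rw [hcon j a h1] at h2
            exact h2
          · rintro ⟨j, a, h1, h2⟩
            refine ⟨j, a, h1, ?_⟩
            rw [hcon j a h1]
            exact h2
        unfold inp
        simp only [hiff]
      obtain ⟨j, a, rfl, hcj⟩ := hj
      apply hcj
      have h1 : tr R (Pi.single j 1) ∈ perp (Zof C g) := by
        intro f hf
        obtain ⟨α, hα, hαg⟩ := hf
        have h2 := hα.lab g
        rw [hαg, hl] at h2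
        have h3 : cl R hR j a = ren 1 f (cl R hR j a) := Sum.inl.inj h2
        have h4 := cl_inj R hR f j a h3.symm
        rw [tr_single]
        unfold dot
        refine sum_eq_zero fun i _ => ?_
        by_cases hi : i ∈ R j
        · rw [h4 i hi, mul_zero]
        · show (if i ∈ R j then (1 : ZMod 2) else 0) * f i = 0
          rw [if_neg hi, zero_mul]
      have h2 := hg _ h1
      rw [dot_single] at h2
      rw [h2]
      unfold phi
      rw [wt_single, if_pos (by omega)])
  obtain ⟨c, hc⟩ := exists_good R (Zof C C.out) (hSep C.out)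
  have h1 := main (C.rank C.out + 1) C.out (Nat.lt_succ_self _) c hc
  have hc1 : ¬ Satisfiable (sys R hR c) := by
    rw [sat_sys]
    rintro ⟨a, ha⟩
    have h2 := hc (fun _ => 1) (by rw [hone]; exact Submodule.zero_mem _)
    rw [← ha, adj, hone] at h2
    have h3 : dot (0 : Fin n → ZMod 2) a = 0 := sum_eq_zero fun i _ => zero_mul _
    rw [h3] at h2
    unfold phi at h2
    rw [wt_one, if_neg (by omega)] at h2
    exact absurd h2 (by decide)
  have hc0 : Satisfiable (sys R hR (0 : V → ZMod 2)) := by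
    rw [sat_sys]
    exact ⟨0, map_zero _⟩
  apply hc1
  have hs := sys_card R hR k₀ m hk hm
  rw [← hC _ (hs c), ← hxc, h1, hxc, hC _ (hs 0)]
  exact hc0

/-- rearranged columns -/
def rearr (σ : Equiv.Perm (Fin n)) (j : V) : Finset (Fin n) := (R j).map σ⁻¹.toEmbedding

theorem mem_rearr (σ : Equiv.Perm (Fin n)) (j : V) (i : Fin n) :
    i ∈ rearr R σ j ↔ σ i ∈ R j := by
  unfold rearr
  rw [mem_map]
  constructor
  · rintro ⟨a, ha, rfl⟩
    show σ (σ⁻¹ a) ∈ R j
    rw [papply_inv]
    exact ha
  · intro h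
    exact ⟨σ i, h, pinv_apply σ i⟩

theorem tr_rearr (σ : Equiv.Perm (Fin n)) (y : V → ZMod 2) :
    tr (rearr R σ) y = fun i => tr R y (σ i) := by
  funext i
  unfold tr
  refine sum_congr rfl fun j _ => ?_
  by_cases h : σ i ∈ R j
  · rw [if_pos h, if_pos ((mem_rearr R σ j i).2 h)]
  · rw [if_neg h, if_neg (fun h' => h ((mem_rearr R σ j i).1 h'))]

theorem card_rearr (σ : Equiv.Perm (Fin n)) (j : V) : (rearr R σ j).card = (R j).card :=
  card_map _

include hR in
theorem lower_neg {K : Type} (C : Circuit K (Cl n k))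
    (hS : ∀ f : Fin n → ZMod 2, ∃ α, C.IsAut (ren 1 f) α) (b₀ b₁ : K) (Acc : Set K)
    (k₀ m : ℕ) (hk : ∀ j, (R j).card ≤ k₀) (hm : Fintype.card V * 2 ^ k₀ ≤ m)
    (hC : DecidesSat C b₀ b₁ Acc m) (hV : 2 ≤ Fintype.card V)
    (hone : tr R (fun _ => 1) = 0)
    (hsep : ∀ y : V → ZMod 2, Fintype.card V ≤ 4 * wt y → 4 * wt y ≤ 3 * Fintype.card V →
      2 ^ Fintype.card V * @Fintype.card C.Gate C.fin < n.choose (wt (tr R y))) : False := by
  classical
  let _ := C.fin
  obtain ⟨Yv, hYv⟩ : ∃ Yv : Finset (V → ZMod 2), Yv = univ.filter (fun y : V → ZMod 2 =>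
      Fintype.card V ≤ 4 * wt y ∧ 4 * wt y ≤ 3 * Fintype.card V) := ⟨_, rfl⟩
  have hYc : Yv.card ≤ 2 ^ Fintype.card V := by
    refine (card_le_univ _).trans ?_
    rw [Fintype.card_fun, ZMod.card]
  obtain ⟨σ, hσ⟩ := exists_perm_avoid Yv (fun y => tr R y) (WW C) (by
    intro y hy
    rw [hYv, mem_filter] at hy
    refine lt_of_le_of_lt ?_ (hsep y hy.2.1 hy.2.2)
    exact Nat.mul_le_mul hYc (card_WW_neg C hS))
  refine lower_sep (rearr R σ) (fun j => by rw [card_rearr]; exact hR j) C b₀ b₁ Acc k₀ m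
    (fun j => by rw [card_rearr]; exact hk j) hm hC hV ?_ ?_
  · rw [tr_rearr, hone]
    rfl
  · intro g y hy
    by_contra hcon
    rw [not_or, not_lt, not_lt] at hcon
    have h1 := hσ y (by rw [hYv, mem_filter]; exact ⟨mem_univ _, hcon⟩)
    apply h1
    rw [mem_WW]
    rw [tr_rearr] at hy
    exact ⟨g, hy⟩

end lower

end Pool.Agent.T9h47.SE
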