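import Mathlib
import Pool.Agent.T9h47.SE.Neg

/-!
# The lower bound for groups of negations
-/

set_option autoImplicit false
set_option linter.unusedSectionVars false

namespace Pool.Agent.T9h47.SE

open Finset
open Pool.Agent.T9h47.SC
open Pool.Agent.H518R4.UG
open Pool.Agent.H518R4.UG.Walk

/-- **Sparse parity samplers** with few rows. -/
theorem exists_code_sp (δ : ℝ) (hδ : 0 < δ) : ∃ k n₀ : ℕ, ∀ n : ℕ, n₀ ≤ n →
    ∃ (V : Type) (_ : Fintype V) (_ : DecidableEq V) (R : V → Finset (Fin n)),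
      2 ≤ Fintype.card V ∧ Fintype.card V ≤ n ∧ (Fintype.card V : ℝ) ≤ δ * n ∧
      (∀ j, (R j).card ≤ k) ∧
      tr R (fun _ => 1) = 0 ∧ ∀ y : V → ZMod 2, Fintype.card V ≤ 4 * wt y → 4 * wt y ≤ 3 * Fintype.card V →
        |((wt (tr R y) : ℕ) : ℝ) - n / 2| ≤ δ * n := by
  obtain ⟨d, p, hd, hp, hp1, hG⟩ := p_GRAPH (p_CEXP p_BURG) p_PSD
  -- the degree is at least two
  have hd2 : 2 ≤ d := by
    by_contra hcon
    have hd1 : d = 1 := by omega
    subst hd1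
    obtain ⟨σ, hσ⟩ := hG 2
    obtain ⟨F, hF⟩ : ∃ F : ZMod 2 × ZMod 2 → ℂ, F = fun v =>
      if v = (0, 0) then 1 else if v = (1, 0) then -1 else 0 := ⟨_, rfl⟩
    have hne : ((1, 0) : ZMod 2 × ZMod 2) ≠ (0, 0) := by decide
    have hF0 : ∑ v, F v = 0 := by
      rw [hF, Fintype.sum_eq_add ((0, 0) : ZMod 2 × ZMod 2) (1, 0) (Ne.symm hne)]
      · rw [if_pos rfl, if_neg hne, if_pos rfl]
        norm_num
      · rintro x ⟨h1, h2⟩
        rw [if_neg h1, if_neg h2]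
    have h1 := hσ ℂ F hF0
    have h2 : ∀ v, ‖((1 : ℕ) : ℂ)⁻¹ • ∑ i : Fin 1, F (σ i v)‖ ^ 2 = ‖F (σ 0 v)‖ ^ 2 := by
      intro v
      simp
    rw [sum_congr rfl fun v _ => h2 v, Equiv.sum_comp (σ 0) (fun v => ‖F v‖ ^ 2)] at h1
    have h3 : 0 < ∑ v, ‖F v‖ ^ 2 := by
      refine sum_pos' (fun v _ => by positivity) ⟨(0, 0), mem_univ _, ?_⟩
      rw [hF]
      simp
    have h4 : p ^ 2 < 1 := by nlinarith
    nlinarith
  obtain ⟨s, hs⟩ : ∃ s, s = 1 - (1 - p) ^ 2 * (1 - (1 / 2 : ℝ)) := ⟨_, rfl⟩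
  have hs0 : 0 ≤ s := by
    have h1 : (1 - p) ^ 2 ≤ 1 := by nlinarith
    rw [hs]; nlinarith
  have hs1 : s < 1 := by
    have h1 : 0 < (1 - p) ^ 2 := by
      have : 0 < 1 - p := by linarith
      positivity
    rw [hs]; nlinarith
  obtain ⟨M₀, hM₀⟩ := exists_pow_lt_of_lt_one hδ hs1
  obtain ⟨L, hL⟩ := exists_nat_ge (1 / δ)
  obtain ⟨M, hM⟩ : ∃ M, M = 2 * (M₀ + L) := ⟨_, rfl⟩
  have hsM : s ^ M ≤ δ := by
    rw [hM]
    exact (pow_le_pow_of_le_one hs0 hs1.le (by omega)).trans hM₀.le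
  obtain ⟨D, hD⟩ : ∃ D, D = d ^ (2 * M) := ⟨_, rfl⟩
  have hDpos : 0 < D := by rw [hD]; positivity
  have hDL : L ≤ D := by
    rw [hD]
    calc L ≤ 2 * M := by omega
      _ ≤ 2 ^ (2 * M) := Nat.lt_two_pow_self.le
      _ ≤ d ^ (2 * M) := Nat.pow_le_pow_left hd2 _
  obtain ⟨Q₀, hQ₀⟩ := exists_nat_ge (3 / δ + 2)
  refine ⟨M * D, Q₀ ^ 2 * D, fun n hn => ?_⟩
  obtain ⟨q, hq⟩ : ∃ q, q = Nat.sqrt (n / D) := ⟨_, rfl⟩
  have hqQ : Q₀ ≤ q := by
    rw [hq, Nat.le_sqrt]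
    rw [Nat.le_div_iff_mul_le hDpos]
    calc Q₀ * Q₀ * D = Q₀ ^ 2 * D := by ring
      _ ≤ n := hn
  have hq2 : q ^ 2 * D ≤ n := by
    have h1 : q * q ≤ n / D := by rw [hq]; exact Nat.sqrt_le _
    have h2 := (Nat.le_div_iff_mul_le hDpos).1 h1
    calc q ^ 2 * D = q * q * D := by ring
      _ ≤ n := h2
  have hq3 : n < (q + 1) ^ 2 * D := by
    have h1 : n / D < (q + 1) * (q + 1) := by rw [hq]; exact Nat.lt_succ_sqrt _
    have h2 := (Nat.div_lt_iff_lt_mul hDpos).1 h1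
    calc n < (q + 1) * (q + 1) * D := h2
      _ = (q + 1) ^ 2 * D := by ring
  have hqR : 3 / δ + 2 ≤ (q : ℝ) := hQ₀.trans (by exact_mod_cast hqQ)
  have h3δ : 0 < 3 / δ := by positivity
  have hq1 : (2 : ℝ) ≤ q := by linarith
  have hq1' : 2 ≤ q := by exact_mod_cast hq1
  have hqδ : 3 ≤ δ * q := by
    have h1 : 3 / δ ≤ (q : ℝ) := by linarith
    rw [div_le_iff₀ hδ] at h1
    linarith
  have : NeZero q := ⟨by omega⟩
  obtain ⟨σ, hσ⟩ := hG q
  obtain ⟨W, hW, pa, hcard, hlen, hcnt, hpa⟩ := walks' (ZMod q × ZMod q) d σ M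
  have hVcard : Fintype.card (ZMod q × ZMod q) = q ^ 2 := by
    rw [Fintype.card_prod, ZMod.card]; ring
  have hΩ : Fintype.card ((ZMod q × ZMod q) × W) = q ^ 2 * D := by
    rw [Fintype.card_prod, hcard, hVcard, hD]
  obtain ⟨e⟩ : Nonempty (((ZMod q × ZMod q) × W) ↪ Fin n) := by
    apply Function.Embedding.nonempty_of_card_le
    rw [hΩ, Fintype.card_fin]
    exact hq2
  have hMz : ((M : ℕ) : ZMod 2) = 0 := by
    rw [hM]
    push_cast
    have : (2 : ZMod 2) = 0 := by decide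
    rw [this, zero_mul]
  rw [← hD] at hcnt
  obtain ⟨R, hR1, hR2, hR3⟩ := code_of pa hlen hMz hcnt e
  refine ⟨ZMod q × ZMod q, inferInstance, inferInstance, R, ?_, ?_, ?_, hR1, hR2, ?_⟩
  · rw [hVcard]
    nlinarith
  · rw [hVcard]
    calc q ^ 2 = q ^ 2 * 1 := (mul_one _).symm
      _ ≤ q ^ 2 * D := Nat.mul_le_mul_left _ hDpos
      _ ≤ n := hq2
  · rw [hVcard]
    have h1 : ((q ^ 2 : ℕ) : ℝ) * D ≤ n := by exact_mod_cast hq2
    have h2 : 1 ≤ δ * D := by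
      have h3 : 1 / δ ≤ (D : ℝ) := hL.trans (by exact_mod_cast hDL)
      rw [div_le_iff₀ hδ] at h3
      linarith
    have h4 : (0 : ℝ) ≤ ((q ^ 2 : ℕ) : ℝ) := Nat.cast_nonneg _
    calc ((q ^ 2 : ℕ) : ℝ) = ((q ^ 2 : ℕ) : ℝ) * 1 := (mul_one _).symm
      _ ≤ ((q ^ 2 : ℕ) : ℝ) * (δ * D) := mul_le_mul_of_nonneg_left h2 h4
      _ = δ * (((q ^ 2 : ℕ) : ℝ) * D) := by ring
      _ ≤ δ * n := mul_le_mul_of_nonneg_left h1 hδ.le
  · intro y hy1 hy2
    have hb := bias (ZMod q × ZMod q) d p σ M hd hp hp1 (fun F hF => hσ ℂ F hF) W pa hcard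
      (fun U x v => hpa ℂ U x v) y hy1 hy2
    rw [← hR3, ← hs, hΩ] at hb
    obtain ⟨w, hw⟩ : ∃ w : ℝ, w = ((wt (tr R y) : ℕ) : ℝ) := ⟨_, rfl⟩
    obtain ⟨N, hN⟩ : ∃ N : ℝ, N = ((q ^ 2 * D : ℕ) : ℝ) := ⟨_, rfl⟩
    rw [← hw] at hb ⊢
    rw [← hN] at hb
    have hDR : (1 : ℝ) ≤ D := by exact_mod_cast hDpos
    have hN' : N = (q : ℝ) ^ 2 * D := by rw [hN]; push_cast; ring
    have hNn : N ≤ n := by rw [hN]; exact_mod_cast hq2
    have hnN : (n : ℝ) ≤ ((q : ℝ) + 1) ^ 2 * D := by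
      have : n ≤ (q + 1) ^ 2 * D := hq3.le
      exact_mod_cast this
    have hgap : (n : ℝ) - N ≤ δ * n := by
      have h1 : (n : ℝ) - N ≤ 3 * q * D := by
        rw [hN']
        nlinarith
      have h2 : 3 * (q : ℝ) * D ≤ δ * N := by
        rw [hN']
        have h3 : 3 * ((q : ℝ) * D) ≤ (δ * q) * ((q : ℝ) * D) :=
          mul_le_mul_of_nonneg_right hqδ (by positivity)
        calc 3 * (q : ℝ) * D = 3 * ((q : ℝ) * D) := by ring
          _ ≤ (δ * q) * ((q : ℝ) * D) := h3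
          _ = δ * ((q : ℝ) ^ 2 * D) := by ring
      have h3 : δ * N ≤ δ * n := mul_le_mul_of_nonneg_left hNn hδ.le
      linarith
    have hN0 : 0 ≤ N := by rw [hN]; positivity
    have hb2 : |N - 2 * w| ≤ δ * n := by
      refine hb.trans ?_
      calc s ^ M * N ≤ δ * N := mul_le_mul_of_nonneg_right hsM hN0
        _ ≤ δ * n := mul_le_mul_of_nonneg_left hNn hδ.le
    rw [abs_le] at hb2 ⊢
    constructor <;> linarith [hb2.1, hb2.2]


/-- Negate the variables with `f v = 1`. -/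
def neg {n k : ℕ} (f : Fin n → ZMod 2) (C : Cl n k) : Cl n k :=
  ⟨C.1.image (fun l => (l.1, l.2 + f l.1)), card_image_le.trans C.2⟩

theorem neg_eq {n k : ℕ} (f : Fin n → ZMod 2) : (neg f : Cl n k → Cl n k) = ren 1 f := rfl

/-- The circuit is symmetric under the group `G` of negations of variables. -/
def SymNeg {K : Type} {n k : ℕ} (C : Circuit K (Cl n k)) (G : AddSubgroup (Fin n → ZMod 2)) :
    Prop :=
  ∀ f ∈ G, ∃ α, C.IsAut (neg f) α

/-- an information set -/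
theorem info_set {n : ℕ} (G : AddSubgroup (Fin n → ZMod 2)) : ∃ H : Finset (Fin n),
    Nat.card G = 2 ^ H.card ∧ ∀ t : Fin n → ZMod 2, ∃ f ∈ G, ∀ i ∈ H, f i = t i := by
  classical
  obtain ⟨P, hP⟩ : ∃ P : Finset (Fin n) → Prop, P = fun H =>
      ∀ t : Fin n → ZMod 2, ∃ f ∈ G, ∀ i ∈ H, f i = t i := ⟨_, rfl⟩
  have hPi : ∀ H, P H ↔ ∀ t : Fin n → ZMod 2, ∃ f ∈ G, ∀ i ∈ H, f i = t i := by
    intro H; rw [hP]
  have hne : (univ.filter P).Nonempty := by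
    refine ⟨∅, ?_⟩
    rw [mem_filter, hPi]
    exact ⟨mem_univ _, fun t => ⟨0, G.zero_mem, fun i hi => absurd hi (notMem_empty _)⟩⟩
  obtain ⟨H, hH, hmax⟩ := exists_max_image (univ.filter P) card hne
  rw [mem_filter, hPi] at hH
  refine ⟨H, ?_, hH.2⟩
  have hinj : ∀ f ∈ G, (∀ i ∈ H, f i = 0) → f = 0 := by
    intro f hf hf0
    by_contra hne0
    obtain ⟨i, hi⟩ : ∃ i, f i ≠ 0 := by
      by_contra hcon
      push Not at hcon
      exact hne0 (funext hcon)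
    have hi1 : f i = 1 := by
      rcases z2_cases (f i) with h | h
      · exact absurd h hi
      · exact h
    have hiH : i ∉ H := fun h => hi (hf0 i h)
    have h1 : insert i H ∈ univ.filter P := by
      rw [mem_filter, hPi]
      refine ⟨mem_univ _, fun t => ?_⟩
      obtain ⟨g, hg, hgt⟩ := hH.2 t
      by_cases h2 : g i = t i
      · refine ⟨g, hg, fun j hj => ?_⟩
        rw [mem_insert] at hj
        rcases hj with rfl | hj
        · exact h2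
        · exact hgt j hj
      · refine ⟨g + f, G.add_mem hg hf, fun j hj => ?_⟩
        rw [mem_insert] at hj
        rcases hj with rfl | hj
        · show g j + f j = t j
          rw [hi1]
          exact (z2_eq _ _ (Ne.symm h2)).symm
        · show g j + f j = t j
          rw [hf0 j hj, add_zero]
          exact hgt j hj
    have h2 := hmax _ h1
    rw [card_insert_of_notMem hiH] at h2
    omega
  have h1 : Nat.card G = Nat.card (H → ZMod 2) := by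
    refine Nat.card_congr (Equiv.ofBijective (fun f i => f.1 i.1) ⟨?_, ?_⟩)
    · intro f g hfg
      apply Subtype.ext
      have h2 := hinj (f.1 + g.1) (G.add_mem f.2 g.2) (fun i hi => by
        have h3 := congrFun hfg ⟨i, hi⟩
        have h4 : f.1 i = g.1 i := h3
        show f.1 i + g.1 i = 0
        rw [h4]
        exact z2_self _)
      have h3 : f.1 + g.1 + g.1 = 0 + g.1 := by rw [h2]
      rw [add_assoc, vec_self, add_zero, zero_add] at h3
      exact h3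
    · intro t
      obtain ⟨f, hf, hft⟩ := hH.2 (fun i => if hi : i ∈ H then t ⟨i, hi⟩ else 0)
      refine ⟨⟨f, hf⟩, ?_⟩
      funext i
      show f i.1 = t i
      rw [hft i.1 i.2, dif_pos i.2]
  rw [h1, Nat.card_eq_fintype_card, Fintype.card_fun, ZMod.card, Fintype.card_coe]

theorem restr_neg {K : Type} {n k h : ℕ} (C : Circuit K (Cl n k))
    (G : AddSubgroup (Fin n → ZMod 2)) (hC : SymNeg C G) (b₀ : K) (e : Fin h ↪ Fin n)
    (he : ∀ t : Fin h → ZMod 2, ∃ f ∈ G, ∀ v, f (e v) = t v) (f' : Fin h → ZMod 2) :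
    ∃ α, (restr (emb e : Cl h k → Cl n k) b₀ C).IsAut (ren 1 f') α := by
  obtain ⟨f, hf, hff⟩ := he f'
  obtain ⟨α, hα⟩ := hC f hf
  refine ⟨α, restr_aut (emb e) b₀ C (emb_inj e) hα ?_ ?_⟩
  · intro D
    apply Subtype.ext
    show (D.1.image _).image _ = (D.1.image _).image _
    rw [image_image, image_image]
    refine image_congr ?_
    intro l _
    show ((e l.1, l.2 + f (e l.1)) : Lit n) = (e l.1, l.2 + f' l.1)
    rw [hff]
  · intro D hD
    rw [emb_range] at hD ⊢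
    intro l hl
    exact hD (l.1, l.2 + f l.1)
      (mem_image_of_mem (fun l : Lit n => ((l.1, l.2 + f l.1) : Lit n)) hl)

/-- **Circuits which are symmetric under a group of negations.** -/
theorem seth_neg (ε : ℝ) (hε : 0 < ε) : ∃ k₀ g₀ B : ℕ, ∀ (k n : ℕ)
    (G : AddSubgroup (Fin n → ZMod 2)), k₀ ≤ k → g₀ ≤ Nat.card G →
    ∀ (K : Type) (C : Circuit K (Cl n k)) (b₀ b₁ : K) (Acc : Set K),
    SymNeg C G → DecidesSat C b₀ b₁ Acc (B * Nat.log 2 (Nat.card G)) →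
    ((Nat.card G : ℕ) : ℝ) ^ (1 - ε) ≤ @Fintype.card C.Gate C.fin := by
  obtain ⟨δ₀, hδ₀, n₁, hn₁⟩ := choose_large (ε / 2) (by linarith)
  obtain ⟨δ, hδ⟩ : ∃ δ, δ = min δ₀ (ε / 2) := ⟨_, rfl⟩
  have hδ0 : 0 < δ := by rw [hδ]; exact lt_min hδ₀ (by linarith)
  have hδ1 : δ ≤ δ₀ := by rw [hδ]; exact min_le_left _ _
  have hδ2 : δ ≤ ε / 2 := by rw [hδ]; exact min_le_right _ _
  obtain ⟨k₀, n₀, hcode⟩ := exists_code_sp δ hδ0
  refine ⟨k₀, 2 ^ max n₀ n₁, 2 ^ k₀, ?_⟩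
  intro k n G hk hG K C b₀ b₁ Acc hS hD
  obtain ⟨H, hH1, hH2⟩ := info_set G
  obtain ⟨h, hh⟩ : ∃ h, h = H.card := ⟨_, rfl⟩
  rw [hH1, ← hh] at hG hD ⊢
  rw [Nat.log_pow (by norm_num)] at hD
  have hh0 : max n₀ n₁ ≤ h := (Nat.pow_le_pow_iff_right (by norm_num)).1 hG
  obtain ⟨e, he⟩ : ∃ e : Fin h ↪ Fin n, ∀ v, e v ∈ H :=
    ⟨(H.orderEmbOfFin hh.symm).toEmbedding, fun v => H.orderEmbOfFin_mem hh.symm v⟩
  obtain ⟨V, _, _, R, hV2, hVn, hVd, hRk, hone, hw⟩ := hcode h ((le_max_left _ _).trans hh0)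
  have hS' := restr_neg C G hS b₀ e (by
    intro t
    obtain ⟨f, hf, hft⟩ := hH2 (extF e t)
    exact ⟨f, hf, fun v => by rw [hft _ (he v), extF_apply]⟩)
  have hD' := restr_decides C b₀ b₁ Acc _ hD e
  by_contra hcon
  rw [not_le] at hcon
  refine lower_neg R (fun j => (hRk j).trans hk) (restr (emb e) b₀ C) hS' b₀ b₁ Acc k₀ _ hRk ?_ hD'
    hV2 hone ?_
  · rw [mul_comm]
    exact Nat.mul_le_mul_left _ hVn
  · intro y hy1 hy2
    have h0 : |((wt (tr R y) : ℕ) : ℝ) - h / 2| ≤ δ₀ * h :=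
      (hw y hy1 hy2).trans (mul_le_mul_of_nonneg_right hδ1 (Nat.cast_nonneg _))
    have h1 := hn₁ h ((le_max_right _ _).trans hh0) _ h0
    have h2 : (((2 : ℕ) ^ Fintype.card V * @Fintype.card C.Gate C.fin : ℕ) : ℝ) <
        ((h.choose (wt (tr R y)) : ℕ) : ℝ) := by
      refine lt_of_lt_of_le ?_ h1
      push_cast
      have h3 : (2 : ℝ) ^ Fintype.card V ≤ (2 : ℝ) ^ (ε / 2 * h) := by
        rw [← Real.rpow_natCast]
        exact Real.rpow_le_rpow_of_exponent_le (by norm_num)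
          (hVd.trans (mul_le_mul_of_nonneg_right hδ2 (Nat.cast_nonneg _)))
      have h4 : (((2 ^ h : ℕ) : ℝ)) ^ (1 - ε) = (2 : ℝ) ^ ((1 - ε) * h) := by
        push_cast
        rw [← Real.rpow_natCast, ← Real.rpow_mul (by norm_num), mul_comm]
      rw [h4] at hcon
      calc (2 : ℝ) ^ Fintype.card V * (@Fintype.card C.Gate C.fin : ℝ)
          ≤ (2 : ℝ) ^ (ε / 2 * h) * (@Fintype.card C.Gate C.fin : ℝ) :=
            mul_le_mul_of_nonneg_right h3 (Nat.cast_nonneg _)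
        _ < (2 : ℝ) ^ (ε / 2 * h) * (2 : ℝ) ^ ((1 - ε) * h) :=
            mul_lt_mul_of_pos_left hcon (by positivity)
        _ = (2 : ℝ) ^ ((1 - ε / 2) * h) := by
            rw [← Real.rpow_add (by norm_num)]
            congr 1
            ring
    exact_mod_cast h2

end Pool.Agent.T9h47.SE
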