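import Mathlib
import Pool.Agent.T9h47.SE.Neg2

/-!
# Average case hardness for circuits which are symmetric under a group of negations
-/

set_option autoImplicit false
set_option linter.unusedSectionVars false

namespace Pool.Agent.T9h47.SE

open Finset
open Pool.Agent.T9h47.SC

section

variable {n k : ℕ} {V : Type} [Fintype V] [DecidableEq V] (R : V → Finset (Fin n))
  (hR : ∀ j, (R j).card ≤ k)

theorem Zof_out {K : Type} (C : Circuit K (Cl n k))
    (hS : ∀ f : Fin n → ZMod 2, ∃ α, C.IsAut (ren 1 f) α) : Zof C C.out = ⊤ := by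
  rw [eq_top_iff]
  intro f _
  obtain ⟨α, hα⟩ := hS f
  exact ⟨α, hα, hα.out⟩

theorem same_val {K : Type} (C : Circuit K (Cl n k))
    (hS : ∀ f : Fin n → ZMod 2, ∃ α, C.IsAut (ren 1 f) α) (b₀ b₁ : K) (hV : 2 ≤ Fintype.card V)
    (hSep : ∀ g, Sep R (perp (Zof C g))) (c : V → ZMod 2) (hc : Good R ⊤ c) :
    C.val (inp b₀ b₁ (sys R hR c)) C.out = C.val (inp b₀ b₁ (sys R hR 0)) C.out := by
  classical
  let _ := C.fin
  obtain ⟨x, hx⟩ : ∃ x : (V → ZMod 2) → Cl n k → K, x = fun c => inp b₀ b₁ (sys R hR c) :=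
    ⟨_, rfl⟩
  have hxc : ∀ c, x c = inp b₀ b₁ (sys R hR c) := by intro c; rw [hx]
  have hfl : ∀ (c : V → ZMod 2) (f : Fin n → ZMod 2), x (c + AA R f) ∘ ren 1 f = x c := by
    intro c f
    funext D
    rw [hxc, hxc]
    show inp b₀ b₁ (sys R hR (c + AA R f)) (ren 1 f D) = inp b₀ b₁ (sys R hR c) D
    unfold inp
    simp only [ren_sys R hR f c D]
  have main := indist_abs C (x 0) x (Zof C) (Good R) (by
      intro g c h hg
      obtain ⟨f, hf, hgood⟩ := good_inter R (hSep h) hg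
      obtain ⟨α, hα, hαg⟩ := hf
      exact ⟨c + AA R f, ren 1 f, α, hgood, hα, hαg, hfl c f, fun h' => Zof_flip C hα h'⟩)
    (by
      intro g D c hl hg
      rw [hxc, hxc]
      by_contra hne
      have hj : ∃ j a, D = cl R hR j a ∧ c j ≠ 0 := by
        by_contra hcon
        push Not at hcon
        apply hne
        have hiff : D ∈ sys R hR c ↔ D ∈ sys R hR 0 := by
          rw [mem_sys, mem_sys]
          constructor
          · rintro ⟨j, a, h1, h2⟩
            refine ⟨j, a, h1, ?_⟩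
            rw [hcon j a h1] at h2
            exact h2
          · rintro ⟨j, a, h1, h2⟩
            refine ⟨j, a, h1, ?_⟩
            rw [hcon j a h1]
            exact h2
        unfold inp
        simp only [hiff]
      obtain ⟨j, a, rfl, hcj⟩ := hj
      apply hcj
      have h1 : tr R (Pi.single j 1) ∈ perp (Zof C g) := by
        intro f hf
        obtain ⟨α, hα, hαg⟩ := hf
        have h2 := hα.lab g
        rw [hαg, hl] at h2
        have h3 : cl R hR j a = ren 1 f (cl R hR j a) := Sum.inl.inj h2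
        have h4 := cl_inj R hR f j a h3.symm
        rw [tr_single]
        unfold dot
        refine sum_eq_zero fun i _ => ?_
        by_cases hi : i ∈ R j
        · rw [h4 i hi, mul_zero]
        · show (if i ∈ R j then (1 : ZMod 2) else 0) * f i = 0
          rw [if_neg hi, zero_mul]
      have h2 := hg _ h1
      rw [dot_single] at h2
      rw [h2]
      unfold phi
      rw [wt_single, if_pos (by omega)])
  have h1 := main (C.rank C.out + 1) C.out (Nat.lt_succ_self _) c (by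
    rw [Zof_out C hS]
    exact hc)
  rw [hxc, hxc] at h1
  exact h1

theorem perp_top : ∀ u ∈ perp (⊤ : Submodule (ZMod 2) (Fin n → ZMod 2)), u = 0 := by
  intro u hu
  funext i
  have h1 := hu (Pi.single i 1) (Submodule.mem_top)
  rw [dot_comm, dot_single] at h1
  exact h1

/-- a right hand side without solution -/
theorem exists_twist (hsep : ∀ y : V → ZMod 2, Fintype.card V ≤ 4 * wt y →
    4 * wt y ≤ 3 * Fintype.card V → tr R y ≠ 0) (hV : 2 ≤ Fintype.card V)
    (hone : tr R (fun _ => 1) = 0) :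
    ∃ c : V → ZMod 2, Good R ⊤ c ∧ ∀ (σ : Equiv.Perm (Fin n)),
      Good (rearr R σ) ⊤ c ∧ ¬ ∃ a, AA (rearr R σ) a = c := by
  obtain ⟨c, hc⟩ := exists_good R ⊤ (by
    intro y hy
    by_contra hcon
    rw [not_or, not_lt, not_lt] at hcon
    exact hsep y hcon.1 hcon.2 (perp_top _ hy))
  refine ⟨c, hc, fun σ => ⟨?_, ?_⟩⟩
  · intro y hy
    apply hc
    have h1 := perp_top _ hy
    rw [tr_rearr] at h1
    have h2 : tr R y = 0 := by
      funext i
      have h3 := congrFun h1 (σ⁻¹ i)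
      have h4 : tr R y (σ (σ⁻¹ i)) = 0 := h3
      rw [papply_inv] at h4
      exact h4
    rw [h2]
    exact Submodule.zero_mem _
  · rintro ⟨a, ha⟩
    have h2 := hc (fun _ => 1) (by rw [hone]; exact Submodule.zero_mem _)
    have hone' : tr (rearr R σ) (fun _ => 1) = 0 := by
      rw [tr_rearr, hone]
      rfl
    rw [← ha, adj, hone'] at h2
    have h3 : dot (0 : Fin n → ZMod 2) a = 0 := sum_eq_zero fun i _ => zero_mul _
    rw [h3] at h2
    unfold phi at h2
    rw [wt_one, if_neg (by omega)] at h2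
    exact absurd h2 (by decide)

theorem bad_count {Y : Type} (Yv : Finset Y) (v : Y → Fin n → ZMod 2)
    (S : Finset (Fin n → ZMod 2)) (m : ℝ)
    (h : ∀ y ∈ Yv, m ≤ ((n.choose (wt (v y)) : ℕ) : ℝ)) :
    (open Classical in
      ((univ.filter (fun σ : Equiv.Perm (Fin n) => ∃ y ∈ Yv, (fun i => v y (σ i)) ∈ S)).card : ℝ)) *
      m ≤ Yv.card * (S.card * n.factorial) := by
  classical
  obtain ⟨f, hf⟩ : ∃ f : Y → ℕ, ∀ y, f y =
      (univ.filter (fun σ : Equiv.Perm (Fin n) => (fun i => v y (σ i)) ∈ S)).card :=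
    ⟨_, fun _ => rfl⟩
  obtain ⟨b, hb⟩ : ∃ b : ℕ, b = (univ.filter
      (fun σ : Equiv.Perm (Fin n) => ∃ y ∈ Yv, (fun i => v y (σ i)) ∈ S)).card := ⟨_, rfl⟩
  have h1 : b ≤ ∑ y ∈ Yv, f y := by
    have h2 : (univ.filter
      (fun σ : Equiv.Perm (Fin n) => ∃ y ∈ Yv, (fun i => v y (σ i)) ∈ S)) ⊆ Yv.biUnion (fun y =>
        univ.filter (fun σ : Equiv.Perm (Fin n) => (fun i => v y (σ i)) ∈ S)) := by
      intro σ hσ
      rw [mem_filter] at hσ
      obtain ⟨_, y, hy, hyS⟩ := hσ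
      rw [mem_biUnion]
      exact ⟨y, hy, mem_filter.2 ⟨mem_univ _, hyS⟩⟩
    rw [hb]
    have h3 := (card_le_card h2).trans card_biUnion_le
    exact h3.trans (le_of_eq (sum_congr rfl fun y _ => (hf y).symm))
  have h4 : ∀ y ∈ Yv, (f y : ℝ) * m ≤ S.card * n.factorial := by
    intro y hy
    have h5 := bad_le (v y) S
    rw [← hf] at h5
    have h6 : (f y : ℝ) * ((n.choose (wt (v y)) : ℕ) : ℝ) ≤ S.card * n.factorial := by
      exact_mod_cast h5
    exact (mul_le_mul_of_nonneg_left (h y hy) (Nat.cast_nonneg _)).trans h6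
  have hcb : (univ.filter
      (fun σ : Equiv.Perm (Fin n) => ∃ y ∈ Yv, (fun i => v y (σ i)) ∈ S)).card = b := hb.symm
  rw [hcb]
  by_cases hm : 0 ≤ m
  · calc (b : ℝ) * m ≤ (((∑ y ∈ Yv, f y : ℕ)) : ℝ) * m :=
          mul_le_mul_of_nonneg_right (by exact_mod_cast h1) hm
      _ = ∑ y ∈ Yv, (f y : ℝ) * m := by push_cast; rw [sum_mul]
      _ ≤ ∑ _y ∈ Yv, ((S.card : ℝ) * n.factorial) := sum_le_sum h4
      _ = _ := by rw [sum_const, nsmul_eq_mul]
  · rw [not_le] at hm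
    have h5 : (b : ℝ) * m ≤ 0 := mul_nonpos_of_nonneg_of_nonpos (Nat.cast_nonneg _) hm.le
    refine h5.trans (by positivity)

include hR in
theorem count_neg {K : Type} (C : Circuit K (Cl n k))
    (hS : ∀ f : Fin n → ZMod 2, ∃ α, C.IsAut (ren 1 f) α) (b₀ b₁ : K)
    (hV : 2 ≤ Fintype.card V) (c : V → ZMod 2)
    (hc : ∀ σ, Good (rearr R σ) ⊤ c) (m : ℝ) (hm : 0 < m)
    (hsep : ∀ y : V → ZMod 2, Fintype.card V ≤ 4 * wt y → 4 * wt y ≤ 3 * Fintype.card V →
      m ≤ ((n.choose (wt (tr R y)) : ℕ) : ℝ)) :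
    (Nat.card {σ : Equiv.Perm (Fin n) //
        C.val (inp b₀ b₁ (sys (rearr R σ) (fun j => by rw [card_rearr]; exact hR j) 0)) C.out ≠
        C.val (inp b₀ b₁ (sys (rearr R σ) (fun j => by rw [card_rearr]; exact hR j) c)) C.out} : ℝ) ≤
      (2 ^ Fintype.card V * @Fintype.card C.Gate C.fin / m) * n.factorial := by
  classical
  let _ := C.fin
  obtain ⟨Yv, hYv⟩ : ∃ Yv : Finset (V → ZMod 2), Yv = univ.filter (fun y : V → ZMod 2 =>
      Fintype.card V ≤ 4 * wt y ∧ 4 * wt y ≤ 3 * Fintype.card V) := ⟨_, rfl⟩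
  have hYc : Yv.card ≤ 2 ^ Fintype.card V := by
    refine (card_le_univ _).trans ?_
    rw [Fintype.card_fun, ZMod.card]
  have hb := bad_count Yv (fun y => tr R y) (WW C) m (by
    intro y hy
    rw [hYv, mem_filter] at hy
    exact hsep y hy.2.1 hy.2.2)
  have hsub : Nat.card {σ : Equiv.Perm (Fin n) //
        C.val (inp b₀ b₁ (sys (rearr R σ) (fun j => by rw [card_rearr]; exact hR j) 0)) C.out ≠
        C.val (inp b₀ b₁ (sys (rearr R σ) (fun j => by rw [card_rearr]; exact hR j) c)) C.out} ≤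
      (univ.filter (fun σ : Equiv.Perm (Fin n) =>
        ∃ y ∈ Yv, (fun i => tr R y (σ i)) ∈ WW C)).card := by
    have h0 : (univ.filter (fun σ : Equiv.Perm (Fin n) =>
        ∃ y ∈ Yv, (fun i => tr R y (σ i)) ∈ WW C)).card =
        Nat.card {σ : Equiv.Perm (Fin n) // ∃ y ∈ Yv, (fun i => tr R y (σ i)) ∈ WW C} := by
      rw [Nat.card_eq_fintype_card, Fintype.card_subtype]
    rw [h0]
    refine Nat.card_le_card_of_injective (fun σ => ⟨σ.1, ?_⟩) ?_
    · by_contra hcon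
      apply σ.2
      refine (same_val (rearr R σ.1) _ C hS b₀ b₁ hV ?_ c (hc σ.1)).symm
      intro g y hy
      by_contra hcon2
      rw [not_or, not_lt, not_lt] at hcon2
      apply hcon
      refine ⟨y, by rw [hYv, mem_filter]; exact ⟨mem_univ _, hcon2⟩, ?_⟩
      rw [mem_WW]
      rw [tr_rearr] at hy
      exact ⟨g, hy⟩
    · intro σ σ' hσ
      exact Subtype.ext (congrArg (fun z => z.1) hσ)
  have h1 : ((univ.filter (fun σ : Equiv.Perm (Fin n) =>
        ∃ y ∈ Yv, (fun i => tr R y (σ i)) ∈ WW C)).card : ℝ) ≤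
      (2 ^ Fintype.card V * @Fintype.card C.Gate C.fin / m) * n.factorial := by
    have h2 : ((Yv.card : ℕ) : ℝ) * ((((WW C).card : ℕ) : ℝ) * n.factorial) ≤
        2 ^ Fintype.card V * @Fintype.card C.Gate C.fin * n.factorial := by
      have h3 : ((Yv.card : ℕ) : ℝ) ≤ 2 ^ Fintype.card V := by exact_mod_cast hYc
      have h4 : (((WW C).card : ℕ) : ℝ) ≤ @Fintype.card C.Gate C.fin := by
        exact_mod_cast card_WW_neg C hS
      calc ((Yv.card : ℕ) : ℝ) * ((((WW C).card : ℕ) : ℝ) * n.factorial)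
          ≤ 2 ^ Fintype.card V * ((@Fintype.card C.Gate C.fin : ℝ) * n.factorial) := by
            refine mul_le_mul h3 (mul_le_mul_of_nonneg_right h4 (by positivity)) (by positivity)
              (by positivity)
        _ = _ := by ring
    rw [div_mul_eq_mul_div, le_div_iff₀ hm]
    exact hb.trans h2
  exact (Nat.cast_le.2 hsub).trans h1

end

/-- **Average case hardness.** -/
theorem seth_avg (ε : ℝ) (hε : 0 < ε) : ∃ k₀ g₀ B : ℕ, ∀ (k n : ℕ)
    (G : AddSubgroup (Fin n → ZMod 2)), k₀ ≤ k → g₀ ≤ Nat.card G →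
    ∃ (Ω : Type) (_ : Fintype Ω) (_ : Nonempty Ω) (φ₀ φ₁ : Ω → Set (Cl n k)),
      (∀ ω, Satisfiable (φ₀ ω) ∧ ¬ Satisfiable (φ₁ ω) ∧
        (φ₀ ω).ncard ≤ B * Nat.log 2 (Nat.card G) ∧ (φ₁ ω).ncard ≤ B * Nat.log 2 (Nat.card G)) ∧
      ∀ (K : Type) (C : Circuit K (Cl n k)) (b₀ b₁ : K), SymNeg C G →
        (Nat.card {ω // C.val (inp b₀ b₁ (φ₀ ω)) C.out ≠ C.val (inp b₀ b₁ (φ₁ ω)) C.out} : ℝ) ≤
          @Fintype.card C.Gate C.fin / ((Nat.card G : ℕ) : ℝ) ^ (1 - ε) * Fintype.card Ω := by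
  obtain ⟨δ₀, hδ₀, n₁, hn₁⟩ := choose_large (ε / 2) (by linarith)
  obtain ⟨δ, hδ⟩ : ∃ δ, δ = min (min δ₀ (ε / 2)) (1 / 4) := ⟨_, rfl⟩
  have hδ0 : 0 < δ := by rw [hδ]; exact lt_min (lt_min hδ₀ (by linarith)) (by norm_num)
  have hδ1 : δ ≤ δ₀ := by rw [hδ]; exact (min_le_left _ _).trans (min_le_left _ _)
  have hδ2 : δ ≤ ε / 2 := by rw [hδ]; exact (min_le_left _ _).trans (min_le_right _ _)
  have hδ3 : δ ≤ 1 / 4 := by rw [hδ]; exact min_le_right _ _
  obtain ⟨k₀, n₀, hcode⟩ := exists_code_sp δ hδ0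
  refine ⟨k₀, 2 ^ (max n₀ n₁ + 1), 2 ^ k₀, ?_⟩
  intro k n G hk hG
  obtain ⟨H, hH1, hH2⟩ := info_set G
  obtain ⟨h, hh⟩ : ∃ h, h = H.card := ⟨_, rfl⟩
  rw [hH1, ← hh] at hG ⊢
  rw [Nat.log_pow (by norm_num)]
  have hh0 : max n₀ n₁ + 1 ≤ h := (Nat.pow_le_pow_iff_right (by norm_num)).1 hG
  have hhn₀ : n₀ ≤ h := (le_max_left n₀ n₁).trans (by omega)
  have hhn₁ : n₁ ≤ h := (le_max_right n₀ n₁).trans (by omega)
  have hhpos : (0 : ℝ) < h := by exact_mod_cast (show 0 < h by omega)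
  obtain ⟨e, he⟩ : ∃ e : Fin h ↪ Fin n, ∀ v, e v ∈ H :=
    ⟨(H.orderEmbOfFin hh.symm).toEmbedding, fun v => H.orderEmbOfFin_mem hh.symm v⟩
  obtain ⟨V, _, _, R, hV2, hVn, hVd, hRk, hone, hw⟩ := hcode h hhn₀
  have hR : ∀ j, (R j).card ≤ k := fun j => (hRk j).trans hk
  have hR' : ∀ σ j, (rearr R σ j).card ≤ k := fun σ j => by rw [card_rearr]; exact hR j
  obtain ⟨c, _, hc⟩ := exists_twist R (by
    intro y hy1 hy2 h0
    have h1 := hw y hy1 hy2
    rw [h0] at h1
    have h2 : wt (0 : Fin h → ZMod 2) = 0 := by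
      unfold wt
      rw [card_eq_zero, filter_eq_empty_iff]
      intro i _ hne
      exact hne rfl
    rw [h2, abs_le] at h1
    have h3 := h1.1
    push_cast at h3
    nlinarith) hV2 hone
  have hval : ∀ (K : Type) (C : Circuit K (Cl n k)) (b₀ b₁ : K) (φ : Set (Cl h k)),
      C.val (inp b₀ b₁ (emb e '' φ)) C.out =
        (restr (emb e) b₀ C).val (inp b₀ b₁ φ) (restr (emb e : Cl h k → Cl n k) b₀ C).out := by
    intro K C b₀ b₁ φ
    rw [← emb_inp]
    exact (restr_val (emb e) b₀ C _ (C.rank C.out + 1) C.out (Nat.lt_succ_self _)).symm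
  have hcard : ∀ (σ : Equiv.Perm (Fin h)) (c : V → ZMod 2),
      (emb e '' (sys (rearr R σ) (hR' σ) c) : Set (Cl n k)).ncard ≤ 2 ^ k₀ * h := by
    intro σ c
    rw [Set.ncard_image_of_injective _ (emb_inj e)]
    refine sys_card (rearr R σ) (hR' σ) k₀ _ (fun j => by rw [card_rearr]; exact hRk j) ?_ c
    rw [mul_comm]
    exact Nat.mul_le_mul_left _ hVn
  refine ⟨Equiv.Perm (Fin h), inferInstance, inferInstance,
    fun σ => emb e '' sys (rearr R σ) (hR' σ) 0, fun σ => emb e '' sys (rearr R σ) (hR' σ) c,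
    fun σ => ⟨?_, ?_, hcard σ 0, hcard σ c⟩, ?_⟩
  · rw [emb_sat, sat_sys]
    exact ⟨0, map_zero _⟩
  · rw [emb_sat, sat_sys]
    exact (hc σ).2
  · intro K C b₀ b₁ hS
    have hS' := restr_neg C G hS b₀ e (by
      intro t
      obtain ⟨f, hf, hft⟩ := hH2 (extF e t)
      exact ⟨f, hf, fun v => by rw [hft _ (he v), extF_apply]⟩)
    have h1 := count_neg R hR (restr (emb e) b₀ C) hS' b₀ b₁ hV2 c (fun σ => (hc σ).1)
      ((2 : ℝ) ^ ((1 - ε / 2) * h)) (by positivity) (by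
        intro y hy1 hy2
        exact hn₁ h hhn₁ _
          ((hw y hy1 hy2).trans (mul_le_mul_of_nonneg_right hδ1 (Nat.cast_nonneg _))))
    have h2 : (Nat.card {σ : Equiv.Perm (Fin h) //
        C.val (inp b₀ b₁ (emb e '' sys (rearr R σ) (hR' σ) 0)) C.out ≠
        C.val (inp b₀ b₁ (emb e '' sys (rearr R σ) (hR' σ) c)) C.out}) =
        Nat.card {σ : Equiv.Perm (Fin h) //
        (restr (emb e : Cl h k → Cl n k) b₀ C).val
          (inp b₀ b₁ (sys (rearr R σ) (hR' σ) 0)) (restr (emb e : Cl h k → Cl n k) b₀ C).out ≠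
        (restr (emb e : Cl h k → Cl n k) b₀ C).val
          (inp b₀ b₁ (sys (rearr R σ) (hR' σ) c)) (restr (emb e : Cl h k → Cl n k) b₀ C).out} := by
      simp only [hval]
    rw [h2]
    refine h1.trans ?_
    rw [Fintype.card_perm, Fintype.card_fin]
    apply mul_le_mul_of_nonneg_right _ (Nat.cast_nonneg _)
    have h3 : (2 : ℝ) ^ Fintype.card V ≤ (2 : ℝ) ^ (ε / 2 * h) := by
      rw [← Real.rpow_natCast]
      exact Real.rpow_le_rpow_of_exponent_le (by norm_num)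
        (hVd.trans (mul_le_mul_of_nonneg_right hδ2 (Nat.cast_nonneg _)))
    have h4 : (((2 ^ h : ℕ) : ℝ)) ^ (1 - ε) = (2 : ℝ) ^ ((1 - ε) * h) := by
      push_cast
      rw [← Real.rpow_natCast, ← Real.rpow_mul (by norm_num), mul_comm]
    rw [h4, div_le_div_iff₀ (by positivity) (by positivity)]
    have h5 : (2 : ℝ) ^ ((1 - ε / 2) * h) = (2 : ℝ) ^ (ε / 2 * h) * (2 : ℝ) ^ ((1 - ε) * h) := by
      rw [← Real.rpow_add (by norm_num)]
      congr 1
      ring
    rw [h5]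
    have h6 : (0 : ℝ) ≤ (@Fintype.card C.Gate C.fin : ℝ) := Nat.cast_nonneg _
    calc 2 ^ Fintype.card V * (@Fintype.card C.Gate C.fin : ℝ) * (2 : ℝ) ^ ((1 - ε) * h)
        ≤ (2 : ℝ) ^ (ε / 2 * h) * (@Fintype.card C.Gate C.fin : ℝ) * (2 : ℝ) ^ ((1 - ε) * h) := by
          apply mul_le_mul_of_nonneg_right _ (by positivity)
          exact mul_le_mul_of_nonneg_right h3 h6
      _ = (@Fintype.card C.Gate C.fin : ℝ) *
          ((2 : ℝ) ^ (ε / 2 * h) * (2 : ℝ) ^ ((1 - ε) * h)) := by ring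

end Pool.Agent.T9h47.SE
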