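import Mathlib
import Pool.Agent.T9h47.SE.Neg3

/-!
# Commutative symmetry groups, abstract form
-/

set_option autoImplicit false
set_option linter.unusedSectionVars false

namespace Pool.Agent.T9h47.SE

open Finset
open Pool.Agent.T9h47.SC

section gates

variable {K I : Type} {h : ℕ} (C : Circuit K I) (ρ : (Fin h → ZMod 2) → I → I)
  (h0 : ρ 0 = id) (hadd : ∀ f f', ρ (f + f') = ρ f ∘ ρ f')

include h0 hadd in
theorem gau_self (f : Fin h → ZMod 2) : ρ f ∘ ρ f = id := by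
  rw [← hadd, vec_self, h0]

/-- the elements which fix a gate -/
def Zg (g : C.Gate) : Submodule (ZMod 2) (Fin h → ZMod 2) where
  carrier := {f | ∃ α, C.IsAut (ρ f) α ∧ α g = g}
  zero_mem' := ⟨1, by rw [h0]; exact Circuit.IsAut.one C, rfl⟩
  add_mem' := by
    rintro f f' ⟨α, h1, h2⟩ ⟨α', h1', h2'⟩
    refine ⟨α * α', ?_, ?_⟩
    · rw [hadd]; exact h1.mul h1'
    · rw [Equiv.Perm.mul_apply, h2', h2]
  smul_mem' := by
    rintro c f ⟨α, h1, h2⟩
    rcases z2_cases c with rfl | rfl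
    · rw [zero_smul]
      exact ⟨1, by rw [h0]; exact Circuit.IsAut.one C, rfl⟩
    · rw [one_smul]
      exact ⟨α, h1, h2⟩

theorem mem_Zg {g : C.Gate} {f : Fin h → ZMod 2} :
    f ∈ Zg C ρ h0 hadd g ↔ ∃ α, C.IsAut (ρ f) α ∧ α g = g := Iff.rfl

theorem Zg_flip {f : Fin h → ZMod 2} {α : Equiv.Perm C.Gate} (hα : C.IsAut (ρ f) α)
    (g : C.Gate) : Zg C ρ h0 hadd (α g) = Zg C ρ h0 hadd g := by
  have key : ∀ {f : Fin h → ZMod 2} {α : Equiv.Perm C.Gate}, C.IsAut (ρ f) α → ∀ g,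
      Zg C ρ h0 hadd g ≤ Zg C ρ h0 hadd (α g) := by
    intro f α hα g f' hf'
    rw [mem_Zg] at hf' ⊢
    obtain ⟨β, hβ1, hβ2⟩ := hf'
    refine ⟨α * β * α⁻¹, ?_, ?_⟩
    · have h1 : ρ f' = (ρ f ∘ ρ f') ∘ ρ f := by
        rw [← hadd, ← hadd, add_comm f f', add_assoc, vec_self, add_zero]
      rw [h1]
      exact (hα.mul hβ1).mul (hα.inv (gau_self ρ h0 hadd f))
    · rw [Equiv.Perm.mul_apply, Equiv.Perm.mul_apply, pinv_apply, hβ2]
  refine le_antisymm ?_ (key hα g)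
  have h2 := key (hα.inv (gau_self ρ h0 hadd f)) (α g)
  rwa [pinv_apply] at h2

theorem card_kind_gau (hS : ∀ f : Fin h → ZMod 2, ∃ α, C.IsAut (ρ f) α) [Fintype C.Gate]
    [DecidableEq C.Gate] (g : C.Gate) :
    Nat.card (perp (Zg C ρ h0 hadd g)) ≤ (open Classical in
      (univ.filter (fun g' => Zg C ρ h0 hadd g' = Zg C ρ h0 hadd g)).card) := by
  classical
  choose al hal using fun f => hS f
  have hZpos : 0 < Nat.card (Zg C ρ h0 hadd g) := Nat.card_pos
  have h1 : Fintype.card (Fin h → ZMod 2) ≤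
      (univ.filter (fun g' => Zg C ρ h0 hadd g' = Zg C ρ h0 hadd g)).card *
        Nat.card (Zg C ρ h0 hadd g) := by
    have h2 := card_le_mul_card_image_of_maps_to (s := (univ : Finset (Fin h → ZMod 2)))
      (t := univ.filter (fun g' => Zg C ρ h0 hadd g' = Zg C ρ h0 hadd g))
      (f := fun f => al f g) (by
        intro f _
        rw [mem_filter]
        exact ⟨mem_univ _, Zg_flip C ρ h0 hadd (hal f) g⟩) (Nat.card (Zg C ρ h0 hadd g)) (by
        intro g' _
        by_cases hne : (univ.filter (fun f => al f g = g')).Nonempty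
        · obtain ⟨f₀, hf₀⟩ := hne
          rw [mem_filter] at hf₀
          have h5 : (univ.filter (fun f => al f g = g')).card =
              Nat.card (univ.filter (fun f => al f g = g')) := by
            rw [Nat.card_eq_fintype_card, Fintype.card_coe]
          rw [h5]
          refine Nat.card_le_card_of_injective
            (fun f => (⟨f.1 + f₀, (al f.1)⁻¹ * al f₀, ?_, ?_⟩ : Zg C ρ h0 hadd g)) ?_
          · rw [hadd]
            exact ((hal f.1).inv (gau_self ρ h0 hadd f.1)).mul (hal f₀)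
          · have h6 := (mem_filter.1 f.2).2
            rw [Equiv.Perm.mul_apply, Equiv.Perm.inv_eq_iff_eq, hf₀.2, h6]
          · intro f f' hff
            have h6 : f.1 + f₀ = f'.1 + f₀ := congrArg Subtype.val hff
            exact Subtype.ext (add_right_cancel h6)
        · rw [not_nonempty_iff_eq_empty] at hne
          rw [hne, card_empty]
          exact Nat.zero_le _)
    rw [card_univ] at h2
    rw [mul_comm]
    exact h2
  have h3 := card_perp (Zg C ρ h0 hadd g)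
  have h4 : Fintype.card (Fin h → ZMod 2) = 2 ^ Fintype.card (Fin h) := by
    rw [Fintype.card_fun, ZMod.card]
  rw [← h4] at h3
  exact Nat.le_of_mul_le_mul_right (h3.trans h1) hZpos

/-- all vectors which are orthogonal to the elements fixing some gate -/
noncomputable def Wg : Finset (Fin h → ZMod 2) :=
  open Classical in univ.filter (fun u => ∃ g, u ∈ perp (Zg C ρ h0 hadd g))

theorem mem_Wg (u : Fin h → ZMod 2) : u ∈ Wg C ρ h0 hadd ↔ ∃ g, u ∈ perp (Zg C ρ h0 hadd g) := by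
  unfold Wg
  simp only [mem_filter, mem_univ, true_and]

theorem card_Wg (hS : ∀ f : Fin h → ZMod 2, ∃ α, C.IsAut (ρ f) α) [Fintype C.Gate] :
    (Wg C ρ h0 hadd).card ≤ Fintype.card C.Gate := by
  classical
  have h1 : Wg C ρ h0 hadd ⊆ (univ.image (Zg C ρ h0 hadd)).biUnion
      (fun Z => univ.filter (fun u => u ∈ perp Z)) := by
    intro u hu
    rw [mem_Wg] at hu
    obtain ⟨g, hg⟩ := hu
    rw [mem_biUnion]
    exact ⟨Zg C ρ h0 hadd g, mem_image_of_mem _ (mem_univ g), by simpa using hg⟩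
  refine (card_le_card h1).trans (card_biUnion_le.trans ?_)
  rw [← card_univ (α := C.Gate), card_eq_sum_card_image (Zg C ρ h0 hadd) univ]
  refine sum_le_sum fun Z hZ => ?_
  rw [mem_image] at hZ
  obtain ⟨g, _, rfl⟩ := hZ
  have h2 := card_kind_gau C ρ h0 hadd hS g
  have h3 : (univ.filter (fun u => u ∈ perp (Zg C ρ h0 hadd g))).card =
      Nat.card (perp (Zg C ρ h0 hadd g)) := by
    rw [Nat.card_eq_fintype_card, Fintype.card_subtype]
  rw [h3]
  exact h2

theorem Zg_out (hS : ∀ f : Fin h → ZMod 2, ∃ α, C.IsAut (ρ f) α) :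
    Zg C ρ h0 hadd C.out = ⊤ := by
  rw [eq_top_iff]
  intro f _
  obtain ⟨α, hα⟩ := hS f
  exact ⟨α, hα, hα.out⟩

variable {V : Type} [Fintype V] [DecidableEq V] (R : V → Finset (Fin h))

/-- the inputs for the right hand sides `c` -/
structure Gauge (x : (V → ZMod 2) → I → K) : Prop where
  /-- equivariance -/
  flip : ∀ c f, x (c + AA R f) ∘ ρ f = x c
  /-- locality -/
  loc : ∀ c i, x c i ≠ x 0 i → ∃ j, c j ≠ 0 ∧ ∀ f, ρ f i = i → ∑ v ∈ R j, f v = 0

theorem same_val_gau (hS : ∀ f : Fin h → ZMod 2, ∃ α, C.IsAut (ρ f) α)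
    (x : (V → ZMod 2) → I → K) (hx : Gauge ρ R x) (hV : 2 ≤ Fintype.card V)
    (hSep : ∀ g, Sep R (perp (Zg C ρ h0 hadd g))) (c : V → ZMod 2) (hc : Good R ⊤ c) :
    C.val (x c) C.out = C.val (x 0) C.out := by
  classical
  let _ := C.fin
  have main := indist_abs C (x 0) x (Zg C ρ h0 hadd) (Good R) (by
      intro g c g' hg
      obtain ⟨f, hf, hgood⟩ := good_inter R (hSep g') hg
      obtain ⟨α, hα, hαg⟩ := hf
      exact ⟨c + AA R f, ρ f, α, hgood, hα, hαg, hx.flip c f,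
        fun h' => Zg_flip C ρ h0 hadd hα h'⟩)
    (by
      intro g i c hl hg
      by_contra hne
      obtain ⟨j, hcj, hj⟩ := hx.loc c i hne
      apply hcj
      have h1 : tr R (Pi.single j 1) ∈ perp (Zg C ρ h0 hadd g) := by
        intro f hf
        obtain ⟨α, hα, hαg⟩ := hf
        have h2 := hα.lab g
        rw [hαg, hl] at h2
        have h3 : i = ρ f i := Sum.inl.inj h2
        rw [← adj, dot_single, AA_apply]
        exact hj f h3.symm
      have h2 := hg _ h1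
      rw [dot_single] at h2
      rw [h2]
      unfold phi
      rw [wt_single, if_pos (by omega)])
  exact main (C.rank C.out + 1) C.out (Nat.lt_succ_self _) c (by
    rw [Zg_out C ρ h0 hadd hS]
    exact hc)

include h0 hadd in
theorem count_gau (hS : ∀ f : Fin h → ZMod 2, ∃ α, C.IsAut (ρ f) α)
    (hV : 2 ≤ Fintype.card V) (c : V → ZMod 2)
    (hc : ∀ σ, Good (rearr R σ) ⊤ c)
    (x : Equiv.Perm (Fin h) → (V → ZMod 2) → I → K) (hx : ∀ σ, Gauge ρ (rearr R σ) (x σ))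
    (m : ℝ) (hm : 0 < m)
    (hsep : ∀ y : V → ZMod 2, Fintype.card V ≤ 4 * wt y → 4 * wt y ≤ 3 * Fintype.card V →
      m ≤ ((h.choose (wt (tr R y)) : ℕ) : ℝ)) :
    (Nat.card {σ : Equiv.Perm (Fin h) // C.val (x σ 0) C.out ≠ C.val (x σ c) C.out} : ℝ) ≤
      (2 ^ Fintype.card V * @Fintype.card C.Gate C.fin / m) * h.factorial := by
  classical
  let _ := C.fin
  obtain ⟨Yv, hYv⟩ : ∃ Yv : Finset (V → ZMod 2), Yv = univ.filter (fun y : V → ZMod 2 =>
      Fintype.card V ≤ 4 * wt y ∧ 4 * wt y ≤ 3 * Fintype.card V) := ⟨_, rfl⟩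
  have hYc : Yv.card ≤ 2 ^ Fintype.card V := by
    refine (card_le_univ _).trans ?_
    rw [Fintype.card_fun, ZMod.card]
  have hb := bad_count Yv (fun y => tr R y) (Wg C ρ h0 hadd) m (by
    intro y hy
    rw [hYv, mem_filter] at hy
    exact hsep y hy.2.1 hy.2.2)
  have hsub : Nat.card {σ : Equiv.Perm (Fin h) // C.val (x σ 0) C.out ≠ C.val (x σ c) C.out} ≤
      (univ.filter (fun σ : Equiv.Perm (Fin h) =>
        ∃ y ∈ Yv, (fun i => tr R y (σ i)) ∈ Wg C ρ h0 hadd)).card := by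
    have h0' : (univ.filter (fun σ : Equiv.Perm (Fin h) =>
        ∃ y ∈ Yv, (fun i => tr R y (σ i)) ∈ Wg C ρ h0 hadd)).card =
        Nat.card {σ : Equiv.Perm (Fin h) //
          ∃ y ∈ Yv, (fun i => tr R y (σ i)) ∈ Wg C ρ h0 hadd} := by
      rw [Nat.card_eq_fintype_card, Fintype.card_subtype]
    rw [h0']
    refine Nat.card_le_card_of_injective (fun σ => ⟨σ.1, ?_⟩) ?_
    · by_contra hcon
      apply σ.2
      refine (same_val_gau C ρ h0 hadd (rearr R σ.1) hS (x σ.1) (hx σ.1) hV ?_ c (hc σ.1)).symm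
      intro g y hy
      by_contra hcon2
      rw [not_or, not_lt, not_lt] at hcon2
      apply hcon
      refine ⟨y, by rw [hYv, mem_filter]; exact ⟨mem_univ _, hcon2⟩, ?_⟩
      rw [mem_Wg]
      rw [tr_rearr] at hy
      exact ⟨g, hy⟩
    · intro σ σ' hσ
      exact Subtype.ext (congrArg (fun z => z.1) hσ)
  have h1 : ((univ.filter (fun σ : Equiv.Perm (Fin h) =>
        ∃ y ∈ Yv, (fun i => tr R y (σ i)) ∈ Wg C ρ h0 hadd)).card : ℝ) ≤
      (2 ^ Fintype.card V * @Fintype.card C.Gate C.fin / m) * h.factorial := by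
    have h2 : ((Yv.card : ℕ) : ℝ) * ((((Wg C ρ h0 hadd).card : ℕ) : ℝ) * h.factorial) ≤
        2 ^ Fintype.card V * @Fintype.card C.Gate C.fin * h.factorial := by
      have h3 : ((Yv.card : ℕ) : ℝ) ≤ 2 ^ Fintype.card V := by exact_mod_cast hYc
      have h4 : (((Wg C ρ h0 hadd).card : ℕ) : ℝ) ≤ @Fintype.card C.Gate C.fin := by
        exact_mod_cast card_Wg C ρ h0 hadd hS
      calc ((Yv.card : ℕ) : ℝ) * ((((Wg C ρ h0 hadd).card : ℕ) : ℝ) * h.factorial)
          ≤ 2 ^ Fintype.card V * ((@Fintype.card C.Gate C.fin : ℝ) * h.factorial) := by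
            refine mul_le_mul h3 (mul_le_mul_of_nonneg_right h4 (by positivity)) (by positivity)
              (by positivity)
        _ = _ := by ring
    rw [div_mul_eq_mul_div, le_div_iff₀ hm]
    exact hb.trans h2
  exact (Nat.cast_le.2 hsub).trans h1

end gates

/-- **Circuits and commutative symmetry groups**, abstract form. -/
theorem gauge_avg (ε : ℝ) (hε : 0 < ε) : ∃ k₀ n₀ : ℕ, ∀ h : ℕ, n₀ ≤ h →
    ∃ (V : Type) (_ : Fintype V) (_ : DecidableEq V) (R : V → Finset (Fin h)) (c : V → ZMod 2),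
      2 ≤ Fintype.card V ∧ Fintype.card V ≤ h ∧ (∀ j, (R j).card ≤ k₀) ∧
      (∀ σ, ¬ ∃ a, AA (rearr R σ) a = c) ∧
      ∀ (K I : Type) (C : Circuit K I) (ρ : (Fin h → ZMod 2) → I → I), ρ 0 = id →
        (∀ f f', ρ (f + f') = ρ f ∘ ρ f') → (∀ f, ∃ α, C.IsAut (ρ f) α) →
        ∀ (x : Equiv.Perm (Fin h) → (V → ZMod 2) → I → K),
          (∀ σ, Gauge ρ (rearr R σ) (x σ)) →
          (Nat.card {σ : Equiv.Perm (Fin h) // C.val (x σ 0) C.out ≠ C.val (x σ c) C.out} : ℝ) ≤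
            @Fintype.card C.Gate C.fin / (2 : ℝ) ^ ((1 - ε) * h) * h.factorial := by
  obtain ⟨δ₀, hδ₀, n₁, hn₁⟩ := choose_large (ε / 2) (by linarith)
  obtain ⟨δ, hδ⟩ : ∃ δ, δ = min (min δ₀ (ε / 2)) (1 / 4) := ⟨_, rfl⟩
  have hδ0 : 0 < δ := by rw [hδ]; exact lt_min (lt_min hδ₀ (by linarith)) (by norm_num)
  have hδ1 : δ ≤ δ₀ := by rw [hδ]; exact (min_le_left _ _).trans (min_le_left _ _)
  have hδ2 : δ ≤ ε / 2 := by rw [hδ]; exact (min_le_left _ _).trans (min_le_right _ _)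
  have hδ3 : δ ≤ 1 / 4 := by rw [hδ]; exact min_le_right _ _
  obtain ⟨k₀, n₀, hcode⟩ := exists_code_sp δ hδ0
  refine ⟨k₀, max n₀ n₁ + 1, ?_⟩
  intro h hh0
  have hhn₀ : n₀ ≤ h := (le_max_left n₀ n₁).trans (by omega)
  have hhn₁ : n₁ ≤ h := (le_max_right n₀ n₁).trans (by omega)
  have hhpos : (0 : ℝ) < h := by exact_mod_cast (show 0 < h by omega)
  obtain ⟨V, i1, i2, R, hV2, hVn, hVd, hRk, hone, hw⟩ := hcode h hhn₀
  obtain ⟨c, _, hc⟩ := exists_twist R (by
    intro y hy1 hy2 h0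
    have h1 := hw y hy1 hy2
    rw [h0] at h1
    have h2 : wt (0 : Fin h → ZMod 2) = 0 := by
      unfold wt
      rw [card_eq_zero, filter_eq_empty_iff]
      intro i _ hne
      exact hne rfl
    rw [h2, abs_le] at h1
    have h3 := h1.1
    push_cast at h3
    nlinarith) hV2 hone
  refine ⟨V, i1, i2, R, c, hV2, hVn, hRk, fun σ => (hc σ).2, ?_⟩
  intro K I C ρ h0 hadd hS x hx
  have h1 := count_gau C ρ h0 hadd R hS hV2 c (fun σ => (hc σ).1) x hx
    ((2 : ℝ) ^ ((1 - ε / 2) * h)) (by positivity) (by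
      intro y hy1 hy2
      exact hn₁ h hhn₁ _
        ((hw y hy1 hy2).trans (mul_le_mul_of_nonneg_right hδ1 (Nat.cast_nonneg _))))
  refine h1.trans ?_
  apply mul_le_mul_of_nonneg_right _ (Nat.cast_nonneg _)
  have h3 : (2 : ℝ) ^ Fintype.card V ≤ (2 : ℝ) ^ (ε / 2 * h) := by
    rw [← Real.rpow_natCast]
    exact Real.rpow_le_rpow_of_exponent_le (by norm_num)
      (hVd.trans (mul_le_mul_of_nonneg_right hδ2 (Nat.cast_nonneg _)))
  rw [div_le_div_iff₀ (by positivity) (by positivity)]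
  have h5 : (2 : ℝ) ^ ((1 - ε / 2) * h) = (2 : ℝ) ^ (ε / 2 * h) * (2 : ℝ) ^ ((1 - ε) * h) := by
    rw [← Real.rpow_add (by norm_num)]
    congr 1
    ring
  rw [h5]
  have h6 : (0 : ℝ) ≤ (@Fintype.card C.Gate C.fin : ℝ) := Nat.cast_nonneg _
  calc 2 ^ Fintype.card V * (@Fintype.card C.Gate C.fin : ℝ) * (2 : ℝ) ^ ((1 - ε) * h)
      ≤ (2 : ℝ) ^ (ε / 2 * h) * (@Fintype.card C.Gate C.fin : ℝ) * (2 : ℝ) ^ ((1 - ε) * h) := by
        apply mul_le_mul_of_nonneg_right _ (by positivity)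
        exact mul_le_mul_of_nonneg_right h3 h6
    _ = (@Fintype.card C.Gate C.fin : ℝ) *
        ((2 : ℝ) ^ (ε / 2 * h) * (2 : ℝ) ^ ((1 - ε) * h)) := by ring

end Pool.Agent.T9h47.SE
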