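import Mathlib
import Pool.Agent.T9h47.SC.CircDef

/-!
# Circuits for systems of polynomial equations, and their symmetries: definitions
-/

set_option autoImplicit false

namespace Pool.Agent.T9h47.SE

open Finset
open Pool.Agent.T9h47.SC

/-- The sign of an element of `ZMod 2`: `1` for `0` and `-1` for `1`. -/
def sg (K : Type) [Ring K] (s : ZMod 2) : K := if s = 0 then 1 else -1

/-- The coordinates of the input of a circuit for `M` polynomials in `N` unknowns: an equation, a
monomial (the exponents of the unknowns) and a sign. -/
abbrev Coord (M N : ℕ) : Type := Fin M × (Fin N →₀ ℕ) × ZMod 2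

/-- The input of the circuit for the polynomials `P`: the coefficients and their negatives. -/
noncomputable def coefs {K : Type} [Field K] {M N : ℕ} (P : Fin M → MvPolynomial (Fin N) K)
    (i : Coord M N) : K :=
  sg K i.2.2 * (P i.1).coeff i.2.1

/-- The effect on the coordinates of changing the signs of the unknowns `z v` with `f v = 1`. -/
def signs {M N : ℕ} (f : Fin N → ZMod 2) (i : Coord M N) : Coord M N :=
  (i.1, i.2.1, i.2.2 + ∑ v, (i.2.1 v : ZMod 2) * f v)

/-- The circuit is symmetric under the group `G` of sign changes of the unknowns. -/
def SymSign {K : Type} {M N : ℕ} (C : Circuit K (Coord M N)) (G : AddSubgroup (Fin N → ZMod 2)) :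
    Prop :=
  ∀ f ∈ G, ∃ α, C.IsAut (signs f) α

end Pool.Agent.T9h47.SE
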