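import Mathlib
import Pool.Agent.T9h47.SE.Gauge
import Pool.Agent.T9h47.SE.HNDef

/-!
# Systems of polynomial equations and sign changes of the unknowns
-/

set_option autoImplicit false
set_option linter.unusedSectionVars false

namespace Pool.Agent.T9h47.SE

open Finset
open Pool.Agent.T9h47.SC

section sg

variable {K : Type} [Ring K]

theorem sg_zero : sg K 0 = 1 := if_pos rfl

theorem sg_one : sg K 1 = -1 := if_neg (by decide)

theorem sg_add (a b : ZMod 2) : sg K (a + b) = sg K a * sg K b := by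
  rcases z2_cases a with rfl | rfl
  · rw [zero_add, sg_zero, one_mul]
  · rcases z2_cases b with rfl | rfl
    · rw [add_zero, sg_zero, mul_one]
    · rw [z2_self, sg_zero, sg_one]
      simp

end sg

theorem signs_zero {M N : ℕ} : (signs 0 : Coord M N → Coord M N) = id := by
  funext i
  rcases i with ⟨q, m, s⟩
  show (q, m, s + ∑ v, (m v : ZMod 2) * 0) = (q, m, s)
  simp

theorem signs_add {M N : ℕ} (f f' : Fin N → ZMod 2) :
    (signs (f + f') : Coord M N → Coord M N) = signs f ∘ signs f' := by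
  funext i
  rcases i with ⟨q, m, s⟩
  show (q, m, s + ∑ v, (m v : ZMod 2) * (f v + f' v)) =
    (q, m, s + ∑ v, (m v : ZMod 2) * f' v + ∑ v, (m v : ZMod 2) * f v)
  have h1 : ∑ v, (m v : ZMod 2) * (f v + f' v) =
      ∑ v, (m v : ZMod 2) * f' v + ∑ v, (m v : ZMod 2) * f v := by
    rw [← sum_add_distrib]
    exact sum_congr rfl fun v _ => by ring
  rw [h1, add_assoc]

section system

variable {K : Type} [Field K] {M N h : ℕ} (e : Fin h ↪ Fin N) {V : Type} [Fintype V]
  [DecidableEq V] (ι : V ⊕ Fin h ↪ Fin M) (R : V → Finset (Fin h))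

/-- the product of the unknowns in a row -/
noncomputable def rowm (j : V) : Fin N →₀ ℕ := ∑ v ∈ R j, Finsupp.single (e v) 1

open MvPolynomial in
/-- the equations -/
noncomputable def eqn (c : V → ZMod 2) : V ⊕ Fin h → MvPolynomial (Fin N) K
  | Sum.inl j => monomial (rowm e R j) (sg K (c j)) - 1
  | Sum.inr v => monomial (Finsupp.single (e v) 2) 1 - 1

/-- the system -/
noncomputable def psys (c : V → ZMod 2) (q : Fin M) : MvPolynomial (Fin N) K :=
  open Classical in if hq : ∃ p, ι p = q then eqn e R c hq.choose else 0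

theorem psys_apply (c : V → ZMod 2) (p : V ⊕ Fin h) :
    psys (K := K) e ι R c (ι p) = eqn e R c p := by
  unfold psys
  have hq : ∃ p', ι p' = ι p := ⟨p, rfl⟩
  rw [dif_pos hq, ι.injective hq.choose_spec]

theorem psys_not (c : V → ZMod 2) (q : Fin M) (hq : ¬ ∃ p, ι p = q) :
    psys (K := K) e ι R c q = 0 := by
  unfold psys
  rw [dif_neg hq]

theorem rowm_dot (j : V) (f : Fin N → ZMod 2) :
    ∑ v, ((rowm e R j v : ℕ) : ZMod 2) * f v = ∑ v ∈ R j, f (e v) := by
  unfold rowm
  have h1 : ∀ w, (((∑ v ∈ R j, Finsupp.single (e v) 1 : Fin N →₀ ℕ) w : ℕ) : ZMod 2) =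
      ∑ v ∈ R j, if e v = w then 1 else 0 := by
    intro w
    rw [Finsupp.finsetSum_apply]
    push_cast
    refine sum_congr rfl fun v _ => ?_
    rw [Finsupp.single_apply]
    split_ifs <;> rfl
  simp only [h1, sum_mul]
  rw [sum_comm]
  refine sum_congr rfl fun v _ => ?_
  rw [sum_eq_single (e v)]
  · rw [if_pos rfl, one_mul]
  · intro w _ hw
    rw [if_neg (Ne.symm hw), zero_mul]
  · intro h; exact absurd (mem_univ _) h

theorem sq_dot (v : Fin h) (f : Fin N → ZMod 2) :
    ∑ w, ((Finsupp.single (e v) 2 w : ℕ) : ZMod 2) * f w = 0 := by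
  refine sum_eq_zero fun w _ => ?_
  rw [Finsupp.single_apply]
  split_ifs
  · have : ((2 : ℕ) : ZMod 2) = 0 := by decide
    rw [this, zero_mul]
  · rw [Nat.cast_zero, zero_mul]

/-- coefficients of a polynomial in the system after a sign change -/
theorem eqn_flip (c : V → ZMod 2) (f : Fin N → ZMod 2) (p : V ⊕ Fin h) (m : Fin N →₀ ℕ) :
    sg K (∑ v, ((m v : ℕ) : ZMod 2) * f v) *
      (eqn (K := K) e R (c + AA R (fun v => f (e v))) p).coeff m = (eqn (K := K) e R c p).coeff m := by
  have hz : m = 0 → ∑ v, ((m v : ℕ) : ZMod 2) * f v = 0 := by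
    rintro rfl
    refine sum_eq_zero fun v _ => ?_
    rw [Finsupp.zero_apply, Nat.cast_zero, zero_mul]
  have hone : (MvPolynomial.coeff m (1 : MvPolynomial (Fin N) K)) = if m = 0 then 1 else 0 := by
    rw [MvPolynomial.coeff_one]
    by_cases hm : m = 0
    · rw [if_pos hm.symm, if_pos hm]
    · rw [if_neg (Ne.symm hm), if_neg hm]
  rcases p with j | v
  · show sg K _ * (MvPolynomial.coeff m (MvPolynomial.monomial (rowm e R j)
      (sg K ((c + AA R (fun v => f (e v))) j)) - 1)) =
      (MvPolynomial.coeff m (MvPolynomial.monomial (rowm e R j) (sg K (c j)) - 1))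
    rw [MvPolynomial.coeff_sub, MvPolynomial.coeff_sub, MvPolynomial.coeff_monomial,
      MvPolynomial.coeff_monomial, hone, mul_sub]
    have h1 : sg K (∑ v, ((m v : ℕ) : ZMod 2) * f v) * (if m = 0 then (1 : K) else 0) =
        if m = 0 then 1 else 0 := by
      by_cases hm : m = 0
      · rw [if_pos hm, hz hm, sg_zero, one_mul]
      · rw [if_neg hm, mul_zero]
    rw [h1]
    congr 1
    by_cases hm : rowm e R j = m
    · rw [if_pos hm, if_pos hm, ← hm, rowm_dot, ← sg_add]
      congr 1
      show ∑ v ∈ R j, f (e v) + (c j + ∑ v ∈ R j, f (e v)) = c j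
      rw [add_comm, add_assoc, z2_self, add_zero]
    · rw [if_neg hm, if_neg hm, mul_zero]
  · show sg K _ * (MvPolynomial.coeff m (MvPolynomial.monomial (Finsupp.single (e v) 2) 1 - 1)) =
      (MvPolynomial.coeff m (MvPolynomial.monomial (Finsupp.single (e v) 2) 1 - 1))
    rw [MvPolynomial.coeff_sub, MvPolynomial.coeff_monomial, hone]
    by_cases hm : Finsupp.single (e v) 2 = m
    · have h2 : ∑ w, ((m w : ℕ) : ZMod 2) * f w = 0 := by
        rw [← hm]; exact sq_dot e v f
      rw [h2, sg_zero, one_mul]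
    · rw [if_neg hm]
      by_cases hm0 : m = 0
      · rw [hz hm0, sg_zero, one_mul]
      · rw [if_neg hm0, sub_zero, mul_zero]

/-- the gauge structure -/
theorem gauge_psys (ℓ : (Fin h → ZMod 2) → (Fin N → ZMod 2)) (hℓ : ∀ f v, ℓ f (e v) = f v) :
    Gauge (fun f => (signs (ℓ f) : Coord M N → Coord M N)) R
      (fun c => coefs (psys (K := K) e ι R c)) where
  flip c f := by
    funext i
    rcases i with ⟨q, m, s⟩
    show sg K (s + ∑ v, ((m v : ℕ) : ZMod 2) * ℓ f v) * (psys e ι R (c + AA R f) q).coeff m =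
      sg K s * (psys e ι R c q).coeff m
    rw [sg_add, mul_assoc]
    congr 1
    by_cases hq : ∃ p, ι p = q
    · obtain ⟨p, rfl⟩ := hq
      rw [psys_apply, psys_apply]
      have h1 := eqn_flip (K := K) e R c (ℓ f) p m
      have h2 : (fun v => ℓ f (e v)) = f := funext fun v => hℓ f v
      rw [h2] at h1
      exact h1
    · rw [psys_not e ι R _ q hq, psys_not e ι R _ q hq, MvPolynomial.coeff_zero, mul_zero]
  loc c i hne := by
    rcases i with ⟨q, m, s⟩
    have hne' : sg K s * (psys e ι R c q).coeff m ≠ sg K s * (psys e ι R 0 q).coeff m := hne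
    have hne2 : (psys (K := K) e ι R c q).coeff m ≠ (psys (K := K) e ι R 0 q).coeff m := by
      intro h
      exact hne' (by rw [h])
    by_cases hq : ∃ p, ι p = q
    · obtain ⟨p, rfl⟩ := hq
      rw [psys_apply, psys_apply] at hne2
      rcases p with j | v
      · have hcm : c j ≠ 0 ∧ rowm e R j = m := by
          constructor
          · intro hc
            apply hne2
            show MvPolynomial.coeff m (MvPolynomial.monomial (rowm e R j) (sg K (c j)) - 1) =
              MvPolynomial.coeff m (MvPolynomial.monomial (rowm e R j)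
                (sg K ((0 : V → ZMod 2) j)) - 1)
            rw [hc]
            rfl
          · by_contra hm
            apply hne2
            show MvPolynomial.coeff m (MvPolynomial.monomial (rowm e R j) (sg K (c j)) - 1) =
              MvPolynomial.coeff m (MvPolynomial.monomial (rowm e R j)
                (sg K ((0 : V → ZMod 2) j)) - 1)
            rw [MvPolynomial.coeff_sub, MvPolynomial.coeff_sub, MvPolynomial.coeff_monomial,
              MvPolynomial.coeff_monomial, if_neg hm, if_neg hm]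
        refine ⟨j, hcm.1, fun f hf => ?_⟩
        have h1 : s + ∑ v, ((m v : ℕ) : ZMod 2) * ℓ f v = s :=
          congrArg (fun i : Coord M N => i.2.2) hf
        rw [← hcm.2, rowm_dot] at h1
        have h2 := add_eq_left.1 h1
        rw [← h2]
        exact sum_congr rfl fun v _ => (hℓ f v).symm
      · exact absurd rfl hne2
    · exact absurd (by rw [psys_not e ι R _ q hq, psys_not e ι R _ q hq]) hne2

/-- products over the coordinates equal to one -/
noncomputable def Wp {A : Type} [CommRing A] (w : Fin h → A) (u : Fin h → ZMod 2) : A :=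
  ∏ v, if u v = 0 then 1 else w v

theorem Wp_add {A : Type} [CommRing A] (w : Fin h → A) (hw : ∀ v, w v * w v = 1)
    (u u' : Fin h → ZMod 2) : Wp w (u + u') = Wp w u * Wp w u' := by
  unfold Wp
  rw [← prod_mul_distrib]
  refine prod_congr rfl fun v _ => ?_
  show (if u v + u' v = 0 then 1 else w v) = _
  rcases z2_cases (u v) with h1 | h1 <;> rcases z2_cases (u' v) with h2 | h2 <;> rw [h1, h2]
  · rw [add_zero, if_pos rfl, one_mul]
  · rw [zero_add, if_neg (by decide), if_pos rfl, one_mul]
  · rw [add_zero, if_neg (by decide), if_pos rfl, mul_one]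
  · rw [z2_self, if_pos rfl, if_neg (by decide), hw]

theorem Wp_zero {A : Type} [CommRing A] (w : Fin h → A) : Wp w 0 = 1 := by
  unfold Wp
  exact prod_eq_one fun v _ => if_pos rfl

theorem Wp_sum {A : Type} [CommRing A] (w : Fin h → A) (hw : ∀ v, w v * w v = 1)
    (s : Finset V) (u : V → Fin h → ZMod 2) :
    Wp w (∑ j ∈ s, u j) = ∏ j ∈ s, Wp w (u j) := by
  classical
  induction s using Finset.induction_on with
  | empty => rw [sum_empty, prod_empty, Wp_zero]
  | insert j s hj ih => rw [sum_insert hj, prod_insert hj, Wp_add w hw, ih]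

theorem sg_sum {A : Type} [CommRing A] (s : Finset V) (u : V → ZMod 2) :
    sg A (∑ j ∈ s, u j) = ∏ j ∈ s, sg A (u j) := by
  classical
  induction s using Finset.induction_on with
  | empty => rw [sum_empty, prod_empty, sg_zero]
  | insert j s hj ih => rw [sum_insert hj, prod_insert hj, sg_add, ih]

theorem map_sg {A : Type} [CommRing A] [Algebra K A] (s : ZMod 2) :
    algebraMap K A (sg K s) = sg A s := by
  rcases z2_cases s with rfl | rfl
  · rw [sg_zero, sg_zero, map_one]
  · rw [sg_one, sg_one, map_neg, map_one]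

/-- the system has no solution if the linear system has none -/
theorem psys_unsat (h2 : (2 : K) ≠ 0) (c : V → ZMod 2) (hc : ¬ ∃ a, AA R a = c) {A : Type}
    [CommRing A] [Algebra K A] [Nontrivial A] (z : Fin N → A)
    (hz : ∀ q, MvPolynomial.aeval z (psys (K := K) e ι R c q) = 0) : False := by
  classical
  obtain ⟨w, hw⟩ : ∃ w : Fin h → A, w = fun v => z (e v) := ⟨_, rfl⟩
  have hwv : ∀ v, w v = z (e v) := by intro v; rw [hw]
  have hsq : ∀ v, w v * w v = 1 := by
    intro v
    have h1 := hz (ι (Sum.inr v))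
    rw [psys_apply] at h1
    have h3 : MvPolynomial.aeval z (MvPolynomial.monomial (Finsupp.single (e v) 2) (1 : K) - 1) =
      0 := h1
    rw [map_sub, MvPolynomial.aeval_monomial, map_one, map_one, one_mul,
      Finsupp.prod_single_index (by rw [pow_zero])] at h3
    have h4 := sub_eq_zero.1 h3
    rw [hwv, ← pow_two]
    exact h4
  have hrow : ∀ j, sg A (c j) * Wp w (fun i => if i ∈ R j then 1 else 0) = 1 := by
    intro j
    have h1 := hz (ι (Sum.inl j))
    rw [psys_apply] at h1
    have h3 : MvPolynomial.aeval z (MvPolynomial.monomial (rowm e R j) (sg K (c j)) - 1) =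
      0 := h1
    rw [map_sub, map_one, MvPolynomial.aeval_monomial, map_sg] at h3
    have h4 := sub_eq_zero.1 h3
    have h5 : ((rowm e R j).prod fun i k => z i ^ k) =
        Wp w (fun i => if i ∈ R j then 1 else 0) := by
      unfold rowm Wp
      rw [← Finsupp.prod_finsetSum_index (fun a => pow_zero _) (fun a b₁ b₂ => pow_add _ _ _)]
      have h6 : ∀ v, ((Finsupp.single (e v) 1 : Fin N →₀ ℕ).prod fun i k => z i ^ k) = w v := by
        intro v
        rw [Finsupp.prod_single_index (by rw [pow_zero]), pow_one, hwv]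
      simp only [h6]
      rw [← prod_filter_mul_prod_filter_not univ (fun v => v ∈ R j)]
      have h7 : ∏ v ∈ univ.filter (fun v => ¬ v ∈ R j),
          (if (if v ∈ R j then (1 : ZMod 2) else 0) = 0 then 1 else w v) = 1 := by
        refine prod_eq_one fun v hv => ?_
        rw [if_neg (mem_filter.1 hv).2, if_pos rfl]
      have h8 : univ.filter (fun v => v ∈ R j) = R j := by ext i; simp
      rw [h7, mul_one, h8]
      refine prod_congr rfl fun v hv => ?_
      have h9 : ¬ ((if v ∈ R j then (1 : ZMod 2) else 0) = 0) := by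
        rw [if_pos hv]
        decide
      exact (if_neg h9).symm
    rw [← h5]
    exact h4
  -- a dependency
  obtain ⟨y, hy1, hy2⟩ : ∃ y : V → ZMod 2, tr R y = 0 ∧ dot y c = 1 := by
    by_contra hcon
    push Not at hcon
    apply hc
    have h1 : c ∈ LinearMap.range (AA R) := by
      apply mem_of_dual
      intro y hy
      have htr : tr R y = 0 := by
        apply perp_top
        intro f _
        rw [← adj]
        exact hy _ ⟨f, rfl⟩
      rcases z2_cases (dot y c) with h | h
      · exact h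
      · exact absurd h (hcon y htr)
    exact h1
  obtain ⟨s, hs⟩ : ∃ s : Finset V, s = univ.filter (fun j => y j ≠ 0) := ⟨_, rfl⟩
  have hsm : ∀ j, j ∈ s ↔ y j ≠ 0 := by intro j; rw [hs, mem_filter]; simp
  have hy1' : ∀ j, y j ≠ 0 → y j = 1 := by
    intro j hj
    rcases z2_cases (y j) with h | h
    · exact absurd h hj
    · exact h
  have h3 : ∑ j ∈ s, (fun i => if i ∈ R j then (1 : ZMod 2) else 0) = (0 : Fin h → ZMod 2) := by
    rw [← hy1]
    funext i
    rw [Finset.sum_apply]
    unfold tr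
    rw [hs, sum_filter]
    refine sum_congr rfl fun j _ => ?_
    by_cases hj : y j = 0
    · rw [if_neg (not_not.2 hj), hj]
      split_ifs <;> rfl
    · rw [if_pos hj, hy1' j hj]
  have h4 : ∑ j ∈ s, c j = 1 := by
    rw [← hy2]
    unfold dot
    rw [hs, sum_filter]
    refine sum_congr rfl fun j _ => ?_
    by_cases hj : y j = 0
    · rw [if_neg (not_not.2 hj), hj, zero_mul]
    · rw [if_pos hj, hy1' j hj, one_mul]
  have h5 : ∏ j ∈ s, (sg A (c j) * Wp w (fun i => if i ∈ R j then 1 else 0)) = 1 :=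
    prod_eq_one fun j _ => hrow j
  rw [prod_mul_distrib, ← sg_sum, ← Wp_sum w hsq, h3, h4, Wp_zero, sg_one, mul_one] at h5
  have h6 : (2 : A) = 0 := by
    have h7 : (1 : A) + 1 = 0 := by
      nth_rewrite 1 [← h5]
      exact neg_add_cancel 1
    rw [← one_add_one_eq_two]
    exact h7
  have h7 : algebraMap K A (2⁻¹ * 2) = 0 := by
    rw [map_mul, map_ofNat, h6, mul_zero]
  rw [inv_mul_cancel₀ h2, map_one] at h7
  exact one_ne_zero h7

theorem psys_sat : ∀ q, MvPolynomial.eval (fun _ => (1 : K)) (psys (K := K) e ι R 0 q) = 0 := by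
  intro q
  by_cases hq : ∃ p, ι p = q
  · obtain ⟨p, rfl⟩ := hq
    rw [psys_apply]
    rcases p with j | v
    · show MvPolynomial.eval (fun _ => (1 : K)) (MvPolynomial.monomial (rowm e R j)
        (sg K ((0 : V → ZMod 2) j)) - 1) = 0
      rw [map_sub, map_one, MvPolynomial.eval_monomial]
      have h1 : sg K ((0 : V → ZMod 2) j) = 1 := sg_zero
      rw [h1, one_mul]
      have h2 : ((rowm e R j).prod fun _ k => (1 : K) ^ k) = 1 :=
        Finset.prod_eq_one fun i _ => one_pow _
      rw [h2, sub_self]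
    · show MvPolynomial.eval (fun _ => (1 : K)) (MvPolynomial.monomial (Finsupp.single (e v) 2)
        1 - 1) = 0
      rw [map_sub, MvPolynomial.eval_monomial, map_one, one_mul]
      have h2 : ((Finsupp.single (e v) 2 : Fin N →₀ ℕ).prod fun _ k => (1 : K) ^ k) = 1 :=
        Finset.prod_eq_one fun i _ => one_pow _
      rw [h2, sub_self]
  · rw [psys_not e ι R _ q hq, map_zero]

theorem psys_degree (c : V → ZMod 2) (k : ℕ) (hk : ∀ j, (R j).card ≤ k) (q : Fin M) :
    (psys (K := K) e ι R c q).totalDegree ≤ max k 2 := by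
  by_cases hq : ∃ p, ι p = q
  · obtain ⟨p, rfl⟩ := hq
    rw [psys_apply]
    rcases p with j | v
    · refine (MvPolynomial.totalDegree_sub _ _).trans (max_le ?_ ?_)
      · refine (MvPolynomial.totalDegree_monomial_le _ _).trans ?_
        refine le_trans ?_ (le_max_left k 2)
        refine le_trans ?_ (hk j)
        have h1 : (rowm e R j).sum (fun _ k => k) = (R j).card := by
          unfold rowm
          rw [← Finsupp.sum_finsetSum_index (fun a => rfl) (fun a b₁ b₂ => rfl)]
          have h6 : ∀ v, ((Finsupp.single (e v) 1 : Fin N →₀ ℕ).sum fun _ k => k) = 1 := by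
            intro v
            rw [Finsupp.sum_single_index rfl]
          simp only [h6]
          rw [sum_const, smul_eq_mul, mul_one]
        exact h1.le
      · rw [MvPolynomial.totalDegree_one]; exact Nat.zero_le _
    · refine (MvPolynomial.totalDegree_sub _ _).trans (max_le ?_ ?_)
      · refine (MvPolynomial.totalDegree_monomial_le _ _).trans ?_
        refine le_trans ?_ (le_max_right k 2)
        have h1 : ((Finsupp.single (e v) 2 : Fin N →₀ ℕ).sum fun _ k => k) = 2 :=
          Finsupp.sum_single_index rfl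
        exact h1.le
      · rw [MvPolynomial.totalDegree_one]; exact Nat.zero_le _
  · rw [psys_not e ι R _ q hq, MvPolynomial.totalDegree_zero]
    exact Nat.zero_le _

end system

/-- a linear section of the restriction to an information set -/
theorem exists_section {N : ℕ} (G : AddSubgroup (Fin N → ZMod 2)) :
    ∃ (h : ℕ) (e : Fin h ↪ Fin N) (ℓ : (Fin h → ZMod 2) → (Fin N → ZMod 2)),
      Nat.card G = 2 ^ h ∧ (∀ f, ℓ f ∈ G) ∧ (∀ f v, ℓ f (e v) = f v) ∧ ℓ 0 = 0 ∧
      ∀ f f', ℓ (f + f') = ℓ f + ℓ f' := by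
  classical
  obtain ⟨H, hH1, hH2⟩ := info_set G
  obtain ⟨e, he, hsurj⟩ : ∃ e : Fin H.card ↪ Fin N, (∀ v, e v ∈ H) ∧ ∀ i ∈ H, ∃ v, e v = i := by
    refine ⟨(H.orderEmbOfFin rfl).toEmbedding, fun v => H.orderEmbOfFin_mem rfl v, ?_⟩
    intro i hi
    have h1 : i ∈ Set.range (H.orderEmbOfFin rfl) := by
      rw [H.range_orderEmbOfFin rfl]
      exact hi
    obtain ⟨v, hv⟩ := h1
    exact ⟨v, hv⟩
  have hex : ∀ t : Fin H.card → ZMod 2, ∃ f ∈ G, ∀ v, f (e v) = t v := by
    intro t
    obtain ⟨f, hf, hft⟩ := hH2 (extF e t)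
    exact ⟨f, hf, fun v => by rw [hft _ (he v), extF_apply]⟩
  choose ℓ hℓ1 hℓ2 using hex
  have hinj : ∀ f ∈ G, (∀ v, f (e v) = 0) → f = 0 := by
    have hb : Function.Bijective (fun f : G => (fun v => f.1 (e v) : Fin H.card → ZMod 2)) := by
      have hf1 : Nat.card G = Nat.card (Fin H.card → ZMod 2) := by
        rw [hH1, Nat.card_eq_fintype_card, Fintype.card_fun, ZMod.card, Fintype.card_fin]
      refine (Nat.bijective_iff_surjective_and_card _).2 ⟨?_, hf1⟩
      intro t
      exact ⟨⟨ℓ t, hℓ1 t⟩, funext fun v => hℓ2 t v⟩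
    intro f hf hf0
    have h1 : (⟨f, hf⟩ : G) = ⟨0, G.zero_mem⟩ := by
      apply hb.1
      funext v
      exact hf0 v
    exact congrArg Subtype.val h1
  have huniq : ∀ f ∈ G, ∀ g ∈ G, (∀ v, f (e v) = g (e v)) → f = g := by
    intro f hf g hg hfg
    have h1 := hinj (f + g) (G.add_mem hf hg) (fun v => by
      show f (e v) + g (e v) = 0
      rw [hfg v]
      exact z2_self _)
    have h3 : f + g + g = 0 + g := by rw [h1]
    rw [add_assoc, vec_self, add_zero, zero_add] at h3
    exact h3
  refine ⟨H.card, e, ℓ, hH1, hℓ1, hℓ2, ?_, ?_⟩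
  · exact huniq _ (hℓ1 0) _ G.zero_mem (fun v => hℓ2 0 v)
  · intro f f'
    refine huniq _ (hℓ1 _) _ (G.add_mem (hℓ1 f) (hℓ1 f')) (fun v => ?_)
    show ℓ (f + f') (e v) = ℓ f (e v) + ℓ f' (e v)
    rw [hℓ2, hℓ2, hℓ2]
    rfl

/-- **Systems of equations and sign changes.** -/
theorem hn_avg (K : Type) [Field K] (hK : (2 : K) ≠ 0) (ε : ℝ) (hε : 0 < ε) : ∃ d g₀ : ℕ,
    ∀ (M N : ℕ) (G : AddSubgroup (Fin N → ZMod 2)), g₀ ≤ Nat.card G →
      2 * Nat.log 2 (Nat.card G) ≤ M →
      ∃ (Ω : Type) (_ : Fintype Ω) (_ : Nonempty Ω)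
        (P₀ P₁ : Ω → Fin M → MvPolynomial (Fin N) K),
        (∀ ω q, (P₀ ω q).totalDegree ≤ d ∧ (P₁ ω q).totalDegree ≤ d) ∧
        (∀ ω q, MvPolynomial.eval (fun _ => (1 : K)) (P₀ ω q) = 0) ∧
        (∀ (ω : Ω) (A : Type) [CommRing A] [Algebra K A] [Nontrivial A] (z : Fin N → A),
          ∃ q, MvPolynomial.aeval z (P₁ ω q) ≠ 0) ∧
        ∀ C : Circuit K (Coord M N), SymSign C G →
          (Nat.card {ω // C.val (coefs (P₀ ω)) C.out ≠ C.val (coefs (P₁ ω)) C.out} : ℝ) ≤
            @Fintype.card C.Gate C.fin / ((Nat.card G : ℕ) : ℝ) ^ (1 - ε) * Fintype.card Ω := by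
  obtain ⟨k₀, n₀, hmain⟩ := gauge_avg ε hε
  refine ⟨max k₀ 2, 2 ^ n₀, ?_⟩
  intro M N G hG hM
  obtain ⟨h, e, ℓ, hcard, hℓ1, hℓ2, hℓ3, hℓ4⟩ := exists_section G
  rw [hcard] at hG hM ⊢
  rw [Nat.log_pow (by norm_num)] at hM
  have hh : n₀ ≤ h := (Nat.pow_le_pow_iff_right (by norm_num)).1 hG
  obtain ⟨V, _, _, R, c, hV2, hVh, hRk, hc, hC⟩ := hmain h hh
  obtain ⟨ι⟩ : Nonempty (V ⊕ Fin h ↪ Fin M) := Function.Embedding.nonempty_of_card_le (by
    rw [Fintype.card_sum, Fintype.card_fin, Fintype.card_fin]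
    omega)
  refine ⟨Equiv.Perm (Fin h), inferInstance, inferInstance,
    fun σ => psys e ι (rearr R σ) 0, fun σ => psys e ι (rearr R σ) c,
    fun σ q => ⟨?_, ?_⟩, fun σ q => ?_, fun σ A _ _ _ z => ?_, fun C hS => ?_⟩
  · exact psys_degree e ι _ _ k₀ (fun j => by rw [card_rearr]; exact hRk j) q
  · exact psys_degree e ι _ _ k₀ (fun j => by rw [card_rearr]; exact hRk j) q
  · exact psys_sat e ι _ q
  · by_contra hcon
    push Not at hcon
    exact psys_unsat e ι _ hK c (hc σ) z hcon
  · have h1 := hC K (Coord M N) C (fun f => signs (ℓ f)) (by rw [hℓ3]; exact signs_zero)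
      (fun f f' => by rw [hℓ4]; exact signs_add _ _) (fun f => hS _ (hℓ1 f))
      (fun σ c => coefs (psys e ι (rearr R σ) c))
      (fun σ => gauge_psys e ι (rearr R σ) ℓ hℓ2)
    rw [Fintype.card_perm, Fintype.card_fin]
    have h4 : (((2 ^ h : ℕ) : ℝ)) ^ (1 - ε) = (2 : ℝ) ^ ((1 - ε) * h) := by
      push_cast
      rw [← Real.rpow_natCast, ← Real.rpow_mul (by norm_num), mul_comm]
    rw [h4]
    exact h1

end Pool.Agent.T9h47.SE
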