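import Mathlib
import Pool.Agent.T9h47.SE.Gauge

/-!
# Random arrangements and random functions
-/

set_option autoImplicit false
set_option linter.unusedSectionVars false

namespace Pool.Agent.T9h47.SE

open Finset

section compare

theorem fact_lower (n : ℕ) : (n : ℝ) ^ n ≤ Real.exp n * n.factorial := by
  have h := Real.pow_div_factorial_le_exp (n : ℝ) (Nat.cast_nonneg n) n
  rwa [div_le_iff₀ (by positivity)] at h

theorem exp_step (n : ℕ) : Real.exp 1 * (n : ℝ) ^ (n + 1) ≤ ((n : ℝ) + 1) ^ (n + 1) := by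
  have hn : (0 : ℝ) < (n : ℝ) + 1 := by positivity
  have h1 : (n : ℝ) ≤ ((n : ℝ) + 1) * Real.exp (-(1 / ((n : ℝ) + 1))) := by
    have h2 := Real.add_one_le_exp (-(1 / ((n : ℝ) + 1)))
    have h3 := mul_le_mul_of_nonneg_left h2 hn.le
    have h4 : ((n : ℝ) + 1) * (-(1 / ((n : ℝ) + 1)) + 1) = n := by field_simp; ring
    rw [h4] at h3
    exact h3
  have h2 : (n : ℝ) ^ (n + 1) ≤ (((n : ℝ) + 1) * Real.exp (-(1 / ((n : ℝ) + 1)))) ^ (n + 1) :=
    pow_le_pow_left₀ (Nat.cast_nonneg n) h1 _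
  have h3 : Real.exp (-(1 / ((n : ℝ) + 1))) ^ (n + 1) = Real.exp (-1) := by
    rw [← Real.exp_nat_mul]
    congr 1
    push_cast
    field_simp
  rw [mul_pow, h3] at h2
  calc Real.exp 1 * (n : ℝ) ^ (n + 1) ≤ Real.exp 1 * (((n : ℝ) + 1) ^ (n + 1) * Real.exp (-1)) :=
        mul_le_mul_of_nonneg_left h2 (Real.exp_pos _).le
    _ = ((n : ℝ) + 1) ^ (n + 1) * (Real.exp 1 * Real.exp (-1)) := by ring
    _ = ((n : ℝ) + 1) ^ (n + 1) := by
        rw [← Real.exp_add, add_neg_cancel, Real.exp_zero, mul_one]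

theorem fact_upper (n : ℕ) :
    Real.exp n * n.factorial ≤ Real.exp 1 * ((n : ℝ) + 1) * (n : ℝ) ^ n := by
  have key : ∀ n : ℕ, Real.exp ((n + 1 : ℕ) : ℝ) * (n + 1).factorial ≤
      Real.exp 1 * ((n : ℝ) + 1) * ((n + 1 : ℕ) : ℝ) ^ (n + 1) := by
    intro n
    induction n with
    | zero => simp
    | succ n ih =>
      have h1 := exp_step (n + 1)
      have h2 : Real.exp ((n + 1 + 1 : ℕ) : ℝ) = Real.exp 1 * Real.exp ((n + 1 : ℕ) : ℝ) := by
        rw [← Real.exp_add]
        congr 1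
        push_cast
        ring
      have h3 : (((n + 1 + 1).factorial : ℕ) : ℝ) =
          ((n : ℝ) + 1 + 1) * (((n + 1).factorial : ℕ) : ℝ) := by
        rw [Nat.factorial_succ]
        push_cast
        ring
      rw [h2, h3]
      have he : (0 : ℝ) < Real.exp 1 := Real.exp_pos 1
      have hn : (0 : ℝ) ≤ (n : ℝ) + 1 + 1 := by positivity
      calc Real.exp 1 * Real.exp ((n + 1 : ℕ) : ℝ) *
            (((n : ℝ) + 1 + 1) * (((n + 1).factorial : ℕ) : ℝ))
          = Real.exp 1 * ((n : ℝ) + 1 + 1) *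
            (Real.exp ((n + 1 : ℕ) : ℝ) * (((n + 1).factorial : ℕ) : ℝ)) := by ring
        _ ≤ Real.exp 1 * ((n : ℝ) + 1 + 1) *
            (Real.exp 1 * ((n : ℝ) + 1) * ((n + 1 : ℕ) : ℝ) ^ (n + 1)) :=
            mul_le_mul_of_nonneg_left ih (by positivity)
        _ = Real.exp 1 * ((n : ℝ) + 1 + 1) *
            (Real.exp 1 * ((n + 1 : ℕ) : ℝ) ^ (n + 1 + 1)) := by
            push_cast
            ring
        _ ≤ Real.exp 1 * ((n : ℝ) + 1 + 1) * (((n + 1 : ℕ) : ℝ) + 1) ^ (n + 1 + 1) :=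
            mul_le_mul_of_nonneg_left h1 (by positivity)
        _ = _ := by push_cast; ring
  rcases n with _ | n
  · simp
  · refine (key n).trans ?_
    apply mul_le_mul_of_nonneg_right _ (by positivity)
    apply mul_le_mul_of_nonneg_left _ (Real.exp_pos _).le
    push_cast
    linarith

variable {ι A : Type} [Fintype ι] [DecidableEq ι] [Fintype A] [DecidableEq A]

/-- the size of a fibre -/
def nf (T : ι → A) (a : A) : ℕ := (univ.filter (fun x => T x = a)).card

theorem sum_nf (T : ι → A) : ∑ a, nf T a = Fintype.card ι := by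
  unfold nf
  rw [← card_univ]
  exact (card_eq_sum_card_fiberwise (fun x _ => mem_coe.2 (mem_univ (T x)))).symm

theorem perm_fiber (T X : ι → A) :
    ((univ.filter (fun π : Equiv.Perm ι => T ∘ π = X)).card : ℝ) *
      (Fintype.card ι : ℝ) ^ Fintype.card ι ≤
    (Real.exp 1 * ((Fintype.card ι : ℝ) + 1)) ^ Fintype.card A * (Fintype.card ι).factorial *
      ∏ x, (nf T (X x) : ℝ) := by
  by_cases hne : (univ.filter (fun π : Equiv.Perm ι => T ∘ π = X)).Nonempty
  · obtain ⟨π₀, hπ₀⟩ := hne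
    rw [mem_filter] at hπ₀
    have hX := hπ₀.2
    have h1 : (univ.filter (fun π : Equiv.Perm ι => T ∘ π = X)).card ≤
        ∏ a, (nf T a).factorial := by
      have h2 := DomMulAct.stabilizer_card T
      have h3 : ∏ a, (nf T a).factorial = ∏ a, (Fintype.card {x // T x = a}).factorial := by
        refine prod_congr rfl fun a _ => ?_
        rw [Fintype.card_subtype]
        rfl
      rw [h3, ← h2, Fintype.card_subtype]
      refine card_le_card_of_injOn (fun π => π * π₀⁻¹) ?_ ?_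
      · intro π hπ
        rw [mem_coe, mem_filter] at hπ
        rw [mem_coe, mem_filter]
        refine ⟨mem_univ _, ?_⟩
        funext x
        have h4 : T (π (π₀⁻¹ x)) = X (π₀⁻¹ x) := congrFun hπ.2 _
        have h5 : T (π₀ (π₀⁻¹ x)) = X (π₀⁻¹ x) := congrFun hX _
        show T ((π * π₀⁻¹) x) = T x
        rw [Equiv.Perm.mul_apply, h4, ← h5, Pool.Agent.T9h47.SC.papply_inv]
      · intro π _ π' _ h
        exact mul_right_cancel h
    have h2 : ∏ x, (nf T (X x) : ℝ) = ∏ a, ((nf T a : ℕ) : ℝ) ^ nf T a := by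
      have h3 : ∏ x, (nf T (X x) : ℝ) = ∏ x, (nf T (T (π₀ x)) : ℝ) := by
        rw [← hX]
        rfl
      rw [h3, Equiv.prod_comp π₀ (fun x => (nf T (T x) : ℝ))]
      rw [← prod_fiberwise_of_maps_to (g := T) (fun x _ => mem_univ (T x))]
      refine prod_congr rfl fun a _ => ?_
      rw [prod_congr rfl (g := fun _ => ((nf T a : ℕ) : ℝ)) (by
        intro x hx
        rw [mem_filter] at hx
        rw [hx.2]), prod_const]
      rfl
    rw [h2]
    have h3 : ((univ.filter (fun π : Equiv.Perm ι => T ∘ π = X)).card : ℝ) ≤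
        ∏ a, ((nf T a).factorial : ℝ) := by exact_mod_cast h1
    have h4 : Real.exp (Fintype.card ι) = ∏ a, Real.exp (nf T a) := by
      rw [← Real.exp_sum]
      congr 1
      rw [← sum_nf T]
      push_cast
      rfl
    have h5 : (∏ a, ((nf T a).factorial : ℝ)) * Real.exp (Fintype.card ι) ≤
        (Real.exp 1 * ((Fintype.card ι : ℝ) + 1)) ^ Fintype.card A *
          ∏ a, ((nf T a : ℕ) : ℝ) ^ nf T a := by
      rw [h4, ← prod_mul_distrib, ← card_univ (α := A), ← prod_const, ← prod_mul_distrib]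
      refine prod_le_prod (fun a _ => by positivity) fun a _ => ?_
      have h6 := fact_upper (nf T a)
      have h7 : (nf T a : ℝ) ≤ Fintype.card ι := by exact_mod_cast card_le_univ _
      calc ((nf T a).factorial : ℝ) * Real.exp (nf T a) = Real.exp (nf T a) * (nf T a).factorial :=
            mul_comm _ _
        _ ≤ _ := h6
        _ ≤ _ := by
          apply mul_le_mul_of_nonneg_right _ (by positivity)
          apply mul_le_mul_of_nonneg_left _ (Real.exp_pos _).le
          linarith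
    calc ((univ.filter (fun π : Equiv.Perm ι => T ∘ π = X)).card : ℝ) *
          (Fintype.card ι : ℝ) ^ Fintype.card ι
        ≤ (∏ a, ((nf T a).factorial : ℝ)) *
          (Real.exp (Fintype.card ι) * (Fintype.card ι).factorial) :=
          mul_le_mul h3 (fact_lower _) (by positivity) (by positivity)
      _ = ((∏ a, ((nf T a).factorial : ℝ)) * Real.exp (Fintype.card ι)) *
          (Fintype.card ι).factorial := by ring
      _ ≤ ((Real.exp 1 * ((Fintype.card ι : ℝ) + 1)) ^ Fintype.card A *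
          ∏ a, ((nf T a : ℕ) : ℝ) ^ nf T a) * (Fintype.card ι).factorial :=
          mul_le_mul_of_nonneg_right h5 (by positivity)
      _ = _ := by ring
  · rw [not_nonempty_iff_eq_empty] at hne
    rw [hne, card_empty, Nat.cast_zero, zero_mul]
    positivity

theorem perm_count (T : ι → A) (S : Finset (ι → A)) :
    ((univ.filter (fun π : Equiv.Perm ι => T ∘ π ∈ S)).card : ℝ) *
      (Fintype.card ι : ℝ) ^ Fintype.card ι ≤
    (Real.exp 1 * ((Fintype.card ι : ℝ) + 1)) ^ Fintype.card A * (Fintype.card ι).factorial *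
      ∑ X ∈ S, ∏ x, (nf T (X x) : ℝ) := by
  have h1 : (univ.filter (fun π : Equiv.Perm ι => T ∘ π ∈ S)).card =
      ∑ X ∈ S, (univ.filter (fun π : Equiv.Perm ι => T ∘ π = X)).card := by
    rw [card_eq_sum_card_fiberwise (f := fun π : Equiv.Perm ι => T ∘ π) (t := S) (by
      intro π hπ
      rw [mem_coe, mem_filter] at hπ
      exact mem_coe.2 hπ.2)]
    refine sum_congr rfl fun X hX => ?_
    congr 1
    ext π
    rw [mem_filter, mem_filter, mem_filter]
    constructor
    · rintro ⟨⟨h1, _⟩, h2⟩; exact ⟨h1, h2⟩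
    · rintro ⟨h1, h2⟩; exact ⟨⟨h1, by rw [h2]; exact hX⟩, h2⟩
  rw [h1]
  push_cast
  rw [sum_mul, mul_sum]
  exact sum_le_sum fun X _ => perm_fiber T X

end compare

section pivot

variable {A P : Type} [Fintype A] [DecidableEq A] [Fintype P] [DecidableEq P] {N : ℕ}

/-- words determined by some of their coordinates -/
theorem pivot (ν : P → ℝ) (hν : ∀ p, 0 ≤ ν p) (q : P → A) (Q : ℝ) (hQ0 : 0 ≤ Q)
    (hQ : ∀ a, ∑ p ∈ univ.filter (fun p => q p = a), ν p ≤ Q) (S : Finset (Fin N → A))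
    (J : Finset (Fin N)) (hJ : ∀ X ∈ S, ∀ Y ∈ S, (∀ i ∈ J, X i = Y i) → X = Y) :
    ∑ G ∈ univ.filter (fun G : Fin N → P => q ∘ G ∈ S), ∏ i, ν (G i) ≤
      (∑ p, ν p) ^ J.card * Q ^ (N - J.card) := by
  obtain ⟨κ, hκ⟩ : ∃ κ : A → ℝ, κ = fun a => ∑ p ∈ univ.filter (fun p => q p = a), ν p :=
    ⟨_, rfl⟩
  have hκ0 : ∀ a, 0 ≤ κ a := by
    intro a
    rw [hκ]
    exact sum_nonneg fun p _ => hν p
  have hκQ : ∀ a, κ a ≤ Q := by
    intro a
    rw [hκ]
    exact hQ a
  have hκs : ∑ a, κ a = ∑ p, ν p := by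
    rw [hκ]
    exact sum_fiberwise_of_maps_to (fun p _ => mem_univ (q p)) ν
  have h1 : ∑ G ∈ univ.filter (fun G : Fin N → P => q ∘ G ∈ S), ∏ i, ν (G i) =
      ∑ X ∈ S, ∏ i, κ (X i) := by
    rw [← sum_fiberwise_of_maps_to (g := fun G : Fin N → P => q ∘ G) (t := S) (by
      intro G hG
      rw [mem_filter] at hG
      exact hG.2)]
    refine sum_congr rfl fun X hX => ?_
    rw [hκ]
    rw [prod_univ_sum]
    refine sum_congr ?_ fun _ _ => rfl
    ext G
    rw [mem_filter, mem_filter, Fintype.mem_piFinset]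
    constructor
    · rintro ⟨_, h2⟩ i
      rw [mem_filter]
      exact ⟨mem_univ _, congrFun h2 i⟩
    · intro h2
      have h3 : q ∘ G = X := by
        funext i
        exact (mem_filter.1 (h2 i)).2
      exact ⟨⟨mem_univ _, by rw [h3]; exact hX⟩, h3⟩
  rw [h1, ← hκs]
  have h2 : ∀ X : Fin N → A, ∏ i, κ (X i) ≤ (∏ i : J, κ (X i)) * Q ^ (N - J.card) := by
    intro X
    have h3 : ∏ i, κ (X i) = (∏ i ∈ J, κ (X i)) * ∏ i ∈ Jᶜ, κ (X i) :=
      (prod_mul_prod_compl J _).symm
    rw [h3, prod_coe_sort J (fun i => κ (X i))]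
    apply mul_le_mul_of_nonneg_left _ (prod_nonneg fun i _ => hκ0 _)
    have h4 : (Jᶜ).card = N - J.card := by rw [card_compl, Fintype.card_fin]
    rw [← h4, ← prod_const]
    exact prod_le_prod (fun i _ => hκ0 _) (fun i _ => hκQ _)
  calc ∑ X ∈ S, ∏ i, κ (X i) ≤ ∑ X ∈ S, (∏ i : J, κ (X i)) * Q ^ (N - J.card) :=
        sum_le_sum fun X _ => h2 X
    _ = (∑ X ∈ S, ∏ i : J, κ (X i)) * Q ^ (N - J.card) := (sum_mul _ _ _).symm
    _ ≤ (∑ Y : J → A, ∏ i, κ (Y i)) * Q ^ (N - J.card) := by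
        apply mul_le_mul_of_nonneg_right _ (pow_nonneg hQ0 _)
        obtain ⟨F, hF⟩ : ∃ F : (J → A) → ℝ, F = fun Y => ∏ i, κ (Y i) := ⟨_, rfl⟩
        obtain ⟨ρ, hρ⟩ : ∃ ρ : (Fin N → A) → (J → A), ρ = fun X i => X i := ⟨_, rfl⟩
        have h5 : ∑ X ∈ S, ∏ i : J, κ (X i) = ∑ X ∈ S, F (ρ X) := by
          rw [hF, hρ]
        have h6 : ∑ X ∈ S, F (ρ X) = ∑ Y ∈ S.image ρ, F Y := by
          rw [sum_image]
          intro X hX Y hY hXY
          refine hJ X hX Y hY fun i hi => ?_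
          rw [hρ] at hXY
          exact congrFun hXY ⟨i, hi⟩
        rw [h5, h6, hF]
        exact sum_le_sum_of_subset_of_nonneg (subset_univ _)
          (fun Y _ _ => prod_nonneg fun i _ => hκ0 _)
    _ = _ := by
        have h7 : ∑ Y : J → A, ∏ i, κ (Y i) = (∑ a, κ a) ^ J.card := by
          have h8 : (∑ a, κ a) ^ J.card = ∏ _i : J, ∑ a, κ a := by
            rw [prod_const, card_univ, Fintype.card_coe]
          rw [h8, prod_univ_sum, Fintype.piFinset_univ]
        rw [h7]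

end pivot

end Pool.Agent.T9h47.SE
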