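import Mathlib
import Pool.Agent.T9h47.SE.Pair1

/-!
# Random regular graphs and pairs of sets of vertices
-/

set_option autoImplicit false
set_option linter.unusedSectionVars false

namespace Pool.Agent.T9h47.SE

open Finset
open Pool.Agent.T9h47.SC

section graph

variable {N : ℕ} {V : Type} [Fintype V] [DecidableEq V] (blk : Fin N × Bool → V)

/-- the edges between `j` and other vertices, where `π` puts the half edges in order -/
def RG (π : Equiv.Perm (Fin N × Bool)) (j : V) : Finset (Fin N) :=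
  univ.filter (fun i => ¬ (blk (π (i, false)) = j ↔ blk (π (i, true)) = j))

theorem tr_RG (π : Equiv.Perm (Fin N × Bool)) (y : V → ZMod 2) (i : Fin N) :
    tr (RG blk π) y i = y (blk (π (i, false))) + y (blk (π (i, true))) := by
  unfold tr
  have h1 : ∀ j, (if i ∈ RG blk π j then y j else 0) =
      (if j = blk (π (i, false)) then y j else 0) + (if j = blk (π (i, true)) then y j else 0) := by
    intro j
    have h2 : i ∈ RG blk π j ↔ ¬ (blk (π (i, false)) = j ↔ blk (π (i, true)) = j) := by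
      unfold RG
      rw [mem_filter]
      exact ⟨fun h => h.2, fun h => ⟨mem_univ _, h⟩⟩
    by_cases ha : j = blk (π (i, false))
    · by_cases hb : j = blk (π (i, true))
      · rw [if_neg (by rw [h2, not_not]; exact ⟨fun _ => hb.symm, fun _ => ha.symm⟩), if_pos ha,
          if_pos hb, z2_self]
      · rw [if_pos (by rw [h2]; exact fun h => hb (h.1 ha.symm).symm), if_pos ha, if_neg hb,
          add_zero]
    · by_cases hb : j = blk (π (i, true))
      · rw [if_pos (by rw [h2]; exact fun h => ha (h.2 hb.symm).symm), if_neg ha, if_pos hb,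
          zero_add]
      · rw [if_neg (by
          rw [h2, not_not]
          exact ⟨fun h => absurd h.symm ha, fun h => absurd h.symm hb⟩), if_neg ha, if_neg hb,
          add_zero]
  rw [sum_congr rfl fun j _ => h1 j, sum_add_distrib]
  simp

theorem tr_RG_one (π : Equiv.Perm (Fin N × Bool)) : tr (RG blk π) (fun _ => 1) = 0 := by
  funext i
  rw [tr_RG]
  exact z2_self _

theorem card_RG (π : Equiv.Perm (Fin N × Bool)) (j : V) (k : ℕ)
    (hk : (univ.filter (fun x => blk x = j)).card ≤ k) : (RG blk π j).card ≤ k := by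
  refine le_trans ?_ hk
  have h1 : RG blk π j ⊆ ((univ.filter (fun x => blk x = j)).image (fun x => (π⁻¹ x).1)) := by
    intro i hi
    unfold RG at hi
    rw [mem_filter] at hi
    rw [mem_image]
    by_cases h : blk (π (i, false)) = j
    · exact ⟨π (i, false), mem_filter.2 ⟨mem_univ _, h⟩, by rw [pinv_apply]⟩
    · have h2 : blk (π (i, true)) = j := by
        by_contra h3
        exact hi.2 ⟨fun h4 => absurd h4 h, fun h4 => absurd h4 h3⟩
      exact ⟨π (i, true), mem_filter.2 ⟨mem_univ _, h2⟩, by rw [pinv_apply]⟩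
  exact (card_le_card h1).trans card_image_le

end graph

section types

/-- the pair of sets `y`, `z` is bad: none of `y`, `z` and the complement of `y + z` is large -/
def BadP {V : Type} [Fintype V] (y z : V → ZMod 2) : Prop :=
  2 * wt y ≤ Fintype.card V ∧ 2 * wt z ≤ Fintype.card V ∧ Fintype.card V ≤ 2 * wt (y + z)

theorem four (f : ZMod 2 × ZMod 2 → ℝ) : ∑ b, f b = f (0, 0) + f (0, 1) + f (1, 0) + f (1, 1) := by
  rw [Fintype.sum_prod_type]
  have h1 : ∀ g : ZMod 2 → ℝ, ∑ a, g a = g 0 + g 1 := fun g => Fin.sum_univ_two g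
  rw [h1, h1, h1]
  ring

theorem bad_sq (a b c d m : ℝ) (hd : 0 ≤ d)
    (hm : a + b + c + d = m) (h1 : 2 * (c + d) ≤ m) (h2 : 2 * (b + d) ≤ m)
    (h3 : m ≤ 2 * (b + c)) : 2 * (a ^ 2 + b ^ 2 + c ^ 2 + d ^ 2) ≤ m ^ 2 := by
  obtain ⟨u, hu⟩ : ∃ u, u = m - 2 * (c + d) := ⟨_, rfl⟩
  obtain ⟨v, hv⟩ : ∃ v, v = m - 2 * (b + d) := ⟨_, rfl⟩
  obtain ⟨w, hw⟩ : ∃ w, w = 2 * (b + c) - m := ⟨_, rfl⟩
  have hu0 : 0 ≤ u := by linarith
  have hv0 : 0 ≤ v := by linarith
  have hw0 : 0 ≤ w := by linarith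
  have hs : u + v + w ≤ m := by linarith
  have h4 : m ^ 2 + u ^ 2 + v ^ 2 + w ^ 2 = 4 * (a ^ 2 + b ^ 2 + c ^ 2 + d ^ 2) := by
    rw [hu, hv, hw, ← hm]
    ring
  have h5 : u ^ 2 + v ^ 2 + w ^ 2 ≤ (u + v + w) ^ 2 := by nlinarith [mul_nonneg hu0 hv0, mul_nonneg hv0 hw0, mul_nonneg hu0 hw0]
  have h6 : (u + v + w) ^ 2 ≤ m ^ 2 := pow_le_pow_left₀ (by linarith) hs 2
  linarith

variable {V : Type} [Fintype V] [DecidableEq V]

/-- the number of vertices of a type -/
def mf (y z : V → ZMod 2) (b : ZMod 2 × ZMod 2) : ℕ :=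
  (univ.filter (fun v => (y v, z v) = b)).card

theorem mf_sum (y z : V → ZMod 2) : mf y z (0, 0) + mf y z (0, 1) + mf y z (1, 0) +
    mf y z (1, 1) = Fintype.card V := by
  have h1 := card_eq_sum_card_fiberwise (s := (univ : Finset V))
    (t := (univ : Finset (ZMod 2 × ZMod 2))) (f := fun v => (y v, z v))
    (fun x _ => mem_coe.2 (mem_univ _))
  have h2 : ∀ f : ZMod 2 × ZMod 2 → ℕ, ∑ b, f b = f (0, 0) + f (0, 1) + f (1, 0) + f (1, 1) := by
    intro f
    rw [Fintype.sum_prod_type]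
    have h1 : ∀ g : ZMod 2 → ℕ, ∑ a, g a = g 0 + g 1 := fun g => Fin.sum_univ_two g
    rw [h1, h1, h1]
    ring
  rw [card_univ, h2] at h1
  exact h1.symm

theorem mf_y (y z : V → ZMod 2) : wt y = mf y z (1, 0) + mf y z (1, 1) := by
  unfold wt mf
  rw [← card_union_of_disjoint]
  · congr 1
    ext v
    rw [mem_union, mem_filter, mem_filter, mem_filter]
    rcases z2_cases (y v) with h | h <;> rcases z2_cases (z v) with h' | h' <;> simp [h, h']
  · rw [disjoint_filter]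
    intro v _ h1 h2
    rw [h1] at h2
    exact absurd h2 (by decide)

theorem mf_z (y z : V → ZMod 2) : wt z = mf y z (0, 1) + mf y z (1, 1) := by
  unfold wt mf
  rw [← card_union_of_disjoint]
  · congr 1
    ext v
    rw [mem_union, mem_filter, mem_filter, mem_filter]
    rcases z2_cases (y v) with h | h <;> rcases z2_cases (z v) with h' | h' <;> simp [h, h']
  · rw [disjoint_filter]
    intro v _ h1 h2
    rw [h1] at h2
    exact absurd h2 (by decide)

theorem mf_yz (y z : V → ZMod 2) : wt (y + z) = mf y z (0, 1) + mf y z (1, 0) := by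
  unfold wt mf
  rw [← card_union_of_disjoint]
  · congr 1
    ext v
    rw [mem_union, mem_filter, mem_filter, mem_filter]
    show (v ∈ univ ∧ y v + z v ≠ 0) ↔ _
    rcases z2_cases (y v) with h | h <;> rcases z2_cases (z v) with h' | h' <;> rw [h, h'] <;>
      simp
    decide
  · rw [disjoint_filter]
    intro v _ h1 h2
    rw [h1] at h2
    exact absurd h2 (by decide)

/-- twice the probability that two random vertices have the same type -/
noncomputable def th (y z : V → ZMod 2) : ℝ :=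
  2 * (∑ b, (mf y z b : ℝ) ^ 2) / (Fintype.card V : ℝ) ^ 2

theorem th_nonneg (y z : V → ZMod 2) : 0 ≤ th y z := by unfold th; positivity

theorem th_aux (x y z : ℝ) (hy : 0 ≤ y) (hz : 0 ≤ z) (hs : x + y + z ≤ 1)
    (hx : 1 / 2 ≤ x) : (1 + x ^ 2 + y ^ 2 + z ^ 2) / 2 ≤ Real.exp (-((1 - x) / 2)) := by
  have h1 : y ^ 2 + z ^ 2 ≤ (1 - x) ^ 2 := by nlinarith [mul_nonneg hy hz]
  have h2 : x ≤ 1 := by linarith
  have h3 : (1 - x) / 2 ≤ x * (1 - x) := by nlinarith
  have h4 := Real.add_one_le_exp (-((1 - x) / 2))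
  nlinarith

/-- bad pairs have few pairs of vertices of the same type -/
theorem th_le (y z : V → ZMod 2) (h : BadP y z) (hV : 0 < Fintype.card V) :
    th y z ≤ 3 / 4 ∨ th y z ≤ Real.exp (-((wt y : ℝ) / Fintype.card V)) ∨
    th y z ≤ Real.exp (-((wt z : ℝ) / Fintype.card V)) ∨
    th y z ≤ Real.exp (-(((Fintype.card V : ℝ) - wt (y + z)) / Fintype.card V)) := by
  obtain ⟨h1, h2, h3⟩ := h
  obtain ⟨m, hm⟩ : ∃ m : ℝ, m = Fintype.card V := ⟨_, rfl⟩
  have hm0 : 0 < m := by rw [hm]; exact_mod_cast hV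
  obtain ⟨a, ha⟩ : ∃ a : ℝ, a = mf y z (0, 0) := ⟨_, rfl⟩
  obtain ⟨b, hb⟩ : ∃ b : ℝ, b = mf y z (0, 1) := ⟨_, rfl⟩
  obtain ⟨c, hc⟩ : ∃ c : ℝ, c = mf y z (1, 0) := ⟨_, rfl⟩
  obtain ⟨d, hd⟩ : ∃ d : ℝ, d = mf y z (1, 1) := ⟨_, rfl⟩
  have hd0 : 0 ≤ d := by rw [hd]; exact Nat.cast_nonneg _
  have hsum : a + b + c + d = m := by
    rw [ha, hb, hc, hd, hm]
    exact_mod_cast mf_sum y z
  have hwy : (wt y : ℝ) = c + d := by
    rw [hc, hd, mf_y y z]; push_cast; ring
  have hwz : (wt z : ℝ) = b + d := by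
    rw [hb, hd, mf_z y z]; push_cast; ring
  have hwt : (wt (y + z) : ℝ) = b + c := by
    rw [hb, hc, mf_yz y z]; push_cast; ring
  have h1' : 2 * (c + d) ≤ m := by rw [← hwy, hm]; exact_mod_cast h1
  have h2' : 2 * (b + d) ≤ m := by rw [← hwz, hm]; exact_mod_cast h2
  have h3' : m ≤ 2 * (b + c) := by rw [← hwt, hm]; exact_mod_cast h3
  obtain ⟨u, hu⟩ : ∃ u, u = 1 - 2 * (c + d) / m := ⟨_, rfl⟩
  obtain ⟨v, hv⟩ : ∃ v, v = 1 - 2 * (b + d) / m := ⟨_, rfl⟩
  obtain ⟨w, hw⟩ : ∃ w, w = 2 * (b + c) / m - 1 := ⟨_, rfl⟩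
  have hu0 : 0 ≤ u := by
    rw [hu, sub_nonneg, div_le_one hm0]; exact h1'
  have hv0 : 0 ≤ v := by
    rw [hv, sub_nonneg, div_le_one hm0]; exact h2'
  have hw0 : 0 ≤ w := by
    rw [hw, sub_nonneg, one_le_div hm0]; exact h3'
  have hs : u + v + w = 1 - 4 * d / m := by
    rw [hu, hv, hw]
    field_simp
    ring
  have hs1 : u + v + w ≤ 1 := by
    rw [hs]
    have : 0 ≤ 4 * d / m := by positivity
    linarith
  have hth : th y z = (1 + u ^ 2 + v ^ 2 + w ^ 2) / 2 := by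
    unfold th
    rw [four, ← ha, ← hb, ← hc, ← hd, ← hm, hu, hv, hw]
    have ham : a = m - b - c - d := by linarith
    rw [ham]
    field_simp
    ring
  rw [hth, ← hm]
  by_cases c1 : 1 / 2 ≤ u
  · right; left
    have h4 := th_aux u v w hv0 hw0 hs1 c1
    have h5 : (1 - u) / 2 = (wt y : ℝ) / m := by rw [hu, hwy]; field_simp; ring
    rwa [h5] at h4
  · by_cases c2 : 1 / 2 ≤ v
    · right; right; left
      have h4 := th_aux v u w hu0 hw0 (by linarith) c2
      have h5 : (1 - v) / 2 = (wt z : ℝ) / m := by rw [hv, hwz]; field_simp; ring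
      rw [h5] at h4
      linarith
    · by_cases c3 : 1 / 2 ≤ w
      · right; right; right
        have h4 := th_aux w u v hu0 hv0 (by linarith) c3
        have h5 : (1 - w) / 2 = (m - wt (y + z)) / m := by rw [hw, hwt]; field_simp; ring
        rw [h5] at h4
        linarith
      · left
        rw [not_le] at c1 c2 c3
        nlinarith

theorem th_one (y z : V → ZMod 2) (h : BadP y z) (hV : 0 < Fintype.card V) : th y z ≤ 1 := by
  have hm : (0 : ℝ) < Fintype.card V := by exact_mod_cast hV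
  rcases th_le y z h hV with h1 | h1 | h1 | h1
  · linarith
  · refine h1.trans (Real.exp_le_one_iff.2 ?_)
    rw [neg_nonpos]; positivity
  · refine h1.trans (Real.exp_le_one_iff.2 ?_)
    rw [neg_nonpos]; positivity
  · refine h1.trans (Real.exp_le_one_iff.2 ?_)
    rw [neg_nonpos]
    have h2 : (wt (y + z) : ℝ) ≤ Fintype.card V := by exact_mod_cast card_le_univ _
    exact div_nonneg (by linarith) hm.le

theorem sum_wt (a : ℝ) : ∑ y : V → ZMod 2, a ^ wt y = (1 + a) ^ Fintype.card V := by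
  have h1 : ∀ y : V → ZMod 2, a ^ wt y = ∏ v, (if y v ≠ 0 then a else 1) := by
    intro y
    rw [prod_ite, prod_const, prod_const_one, mul_one]
    rfl
  rw [sum_congr rfl fun y _ => h1 y]
  have h2 : ∏ _v : V, ∑ b : ZMod 2, (if b ≠ 0 then a else 1) =
      ∑ y ∈ Fintype.piFinset (fun _ : V => (univ : Finset (ZMod 2))),
        ∏ v, (if y v ≠ 0 then a else 1) :=
    prod_univ_sum (fun _ => univ) (fun _ b => if b ≠ 0 then a else 1)
  rw [Fintype.piFinset_univ] at h2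
  rw [← h2, prod_const, card_univ]
  congr 1
  have h3 : ∀ g : ZMod 2 → ℝ, ∑ a, g a = g 0 + g 1 := fun g => Fin.sum_univ_two g
  rw [h3]
  simp

theorem exp_four : (4 : ℝ) ≤ Real.exp (29 / 20) := by
  have h1 : (29 : ℝ) / 20 = 1 + 9 / 20 := by norm_num
  rw [h1, Real.exp_add]
  have h2 := Real.exp_one_gt_d9
  have h3 : 1 + (9 : ℝ) / 20 + (9 / 20) ^ 2 / 2 ≤ Real.exp (9 / 20) :=
    Real.quadratic_le_exp_of_nonneg (by norm_num)
  nlinarith [Real.exp_pos (9 / 20 : ℝ)]

theorem num_a : (3 / 4 : ℝ) ^ (29 / 10 : ℝ) * 16 ≤ (2 : ℝ) ^ (29 / 10 : ℝ) := by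
  have h1 : ((3 / 4 : ℝ) ^ (29 / 10 : ℝ) * 16) ^ 10 ≤ ((2 : ℝ) ^ (29 / 10 : ℝ)) ^ 10 := by
    rw [mul_pow, ← Real.rpow_natCast ((3 / 4 : ℝ) ^ (29 / 10 : ℝ)),
      ← Real.rpow_natCast ((2 : ℝ) ^ (29 / 10 : ℝ)), ← Real.rpow_mul (by norm_num),
      ← Real.rpow_mul (by norm_num)]
    have h2 : (29 / 10 : ℝ) * ((10 : ℕ) : ℝ) = ((29 : ℕ) : ℝ) := by norm_num
    rw [h2, Real.rpow_natCast, Real.rpow_natCast]
    norm_num
  exact le_of_pow_le_pow_left₀ (by norm_num) (by positivity) h1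

theorem num_b : (25 / 4 : ℝ) ≤ (2 : ℝ) ^ (29 / 10 : ℝ) := by
  have h1 : (25 / 4 : ℝ) ^ 10 ≤ ((2 : ℝ) ^ (29 / 10 : ℝ)) ^ 10 := by
    rw [← Real.rpow_natCast ((2 : ℝ) ^ (29 / 10 : ℝ)), ← Real.rpow_mul (by norm_num)]
    have h2 : (29 / 10 : ℝ) * ((10 : ℕ) : ℝ) = ((29 : ℕ) : ℝ) := by norm_num
    rw [h2, Real.rpow_natCast]
    norm_num
  exact le_of_pow_le_pow_left₀ (by norm_num) (by positivity) h1

theorem wt_compl (y : V → ZMod 2) : wt y + wt (y + fun _ => 1) = Fintype.card V := by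
  unfold wt
  rw [← card_univ]
  have h1 := card_filter_add_card_filter_not (s := (univ : Finset V)) (fun j => y j ≠ 0)
  rw [← h1]
  congr 2
  ext j
  rw [mem_filter, mem_filter]
  show (j ∈ univ ∧ y j + 1 ≠ 0) ↔ _
  rcases z2_cases (y j) with h | h
  · rw [h]; simp
  · rw [h]
    have h2 : (1 : ZMod 2) + 1 = 0 := by decide
    rw [h2]
    simp

/-- the sum over all bad pairs -/
theorem sum_th (μ : ℕ) (hμ : 0 < μ) (hV : Fintype.card V = 2 * μ)
    (P : Finset ((V → ZMod 2) × (V → ZMod 2))) (hP : ∀ p ∈ P, BadP p.1 p.2) :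
    ∑ p ∈ P, th p.1 p.2 ^ (29 / 10 * μ : ℝ) ≤ 4 * (2 : ℝ) ^ (29 / 10 * μ : ℝ) := by
  have hV0 : 0 < Fintype.card V := by omega
  have hμR : (0 : ℝ) < μ := by exact_mod_cast hμ
  have hVR : (Fintype.card V : ℝ) = 2 * μ := by exact_mod_cast hV
  have hE : ∀ (t : ℝ) (w : ℝ), 0 ≤ t → 0 ≤ w → t ≤ Real.exp (-(w / Fintype.card V)) →
      t ^ (29 / 10 * μ : ℝ) ≤ Real.exp (-(29 / 20)) ^ w := by
    intro t w ht _ h
    calc t ^ (29 / 10 * μ : ℝ) ≤ Real.exp (-(w / Fintype.card V)) ^ (29 / 10 * μ : ℝ) :=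
          Real.rpow_le_rpow ht h (by positivity)
      _ = Real.exp (-(29 / 20)) ^ w := by
          rw [← Real.exp_mul, ← Real.exp_mul, hVR]
          congr 1
          field_simp
          ring
  have hE2 : ∀ (t : ℝ) (w : ℕ), 0 ≤ t → t ≤ Real.exp (-((w : ℝ) / Fintype.card V)) →
      t ^ (29 / 10 * μ : ℝ) ≤ (1 / 4) ^ w := by
    intro t w ht h
    refine (hE t w ht (Nat.cast_nonneg _) h).trans ?_
    rw [Real.rpow_natCast]
    refine pow_le_pow_left₀ (Real.exp_pos _).le ?_ _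
    rw [Real.exp_neg, one_div]
    exact inv_anti₀ (by norm_num) exp_four
  obtain ⟨A, hA⟩ : ∃ A : ℝ, A = (3 / 4 : ℝ) ^ (29 / 10 * μ : ℝ) := ⟨_, rfl⟩
  have hA0 : 0 ≤ A := by rw [hA]; positivity
  have h1 : ∀ p ∈ P, th p.1 p.2 ^ (29 / 10 * μ : ℝ) ≤
      A + (1 / 4) ^ wt p.1 + (1 / 4) ^ wt p.2 + (1 / 4) ^ wt (p.1 + p.2 + fun _ => 1) := by
    intro p hp
    have h0 := th_nonneg p.1 p.2
    have hp1 : (0 : ℝ) ≤ (1 / 4) ^ wt p.1 := by positivity
    have hp2 : (0 : ℝ) ≤ (1 / 4) ^ wt p.2 := by positivity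
    have hp3 : (0 : ℝ) ≤ (1 / 4) ^ wt (p.1 + p.2 + fun _ => 1) := by positivity
    rcases th_le p.1 p.2 (hP p hp) hV0 with h | h | h | h
    · have h2 : th p.1 p.2 ^ (29 / 10 * μ : ℝ) ≤ A := by
        rw [hA]
        exact Real.rpow_le_rpow h0 h (by positivity)
      linarith
    · have h2 := hE2 _ _ h0 h
      linarith
    · have h2 := hE2 _ _ h0 h
      linarith
    · have h3 := wt_compl (p.1 + p.2)
      have h4 : (Fintype.card V : ℝ) - wt (p.1 + p.2) = (wt (p.1 + p.2 + fun _ => 1) : ℕ) := by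
        rw [← h3]
        push_cast
        ring
      rw [h4] at h
      have h2 := hE2 _ _ h0 h
      linarith
  have h2 : ∑ p ∈ P, th p.1 p.2 ^ (29 / 10 * μ : ℝ) ≤
      ∑ p : (V → ZMod 2) × (V → ZMod 2),
        (A + (1 / 4) ^ wt p.1 + (1 / 4) ^ wt p.2 + (1 / 4) ^ wt (p.1 + p.2 + fun _ => 1)) :=
    (sum_le_sum h1).trans (sum_le_sum_of_subset_of_nonneg (subset_univ _)
      (fun p _ _ => by positivity))
  refine h2.trans ?_
  have hcard : (Fintype.card (V → ZMod 2) : ℝ) = 2 ^ Fintype.card V := by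
    rw [Fintype.card_fun, ZMod.card]
    push_cast
    rfl
  have hs1 : ∑ p : (V → ZMod 2) × (V → ZMod 2), (1 / 4 : ℝ) ^ wt p.1 =
      2 ^ Fintype.card V * (5 / 4) ^ Fintype.card V := by
    rw [Fintype.sum_prod_type]
    simp only [sum_const, nsmul_eq_mul, card_univ, hcard]
    rw [← mul_sum, sum_wt]
    norm_num
  have hs2 : ∑ p : (V → ZMod 2) × (V → ZMod 2), (1 / 4 : ℝ) ^ wt p.2 =
      2 ^ Fintype.card V * (5 / 4) ^ Fintype.card V := by
    rw [Fintype.sum_prod_type]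
    simp only [sum_wt, sum_const, nsmul_eq_mul, card_univ, hcard]
    norm_num
  have hs3 : ∑ p : (V → ZMod 2) × (V → ZMod 2), (1 / 4 : ℝ) ^ wt (p.1 + p.2 + fun _ => 1) =
      2 ^ Fintype.card V * (5 / 4) ^ Fintype.card V := by
    rw [Fintype.sum_prod_type]
    have h3 : ∀ y : V → ZMod 2, ∑ z : V → ZMod 2, (1 / 4 : ℝ) ^ wt (y + z + fun _ => 1) =
        (5 / 4) ^ Fintype.card V := by
      intro y
      have h4 : ∀ z : V → ZMod 2, y + z + (fun _ => 1) = z + (y + fun _ => 1) := by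
        intro z
        rw [add_comm y z, add_assoc]
      simp only [h4]
      refine (Equiv.sum_comp (Equiv.addRight (y + fun _ => (1 : ZMod 2)))
        (fun z => (1 / 4 : ℝ) ^ wt z)).trans ?_
      rw [sum_wt]
      norm_num
    simp only [h3, sum_const, nsmul_eq_mul, card_univ, hcard]
  have hs0 : ∑ _p : (V → ZMod 2) × (V → ZMod 2), A = 2 ^ Fintype.card V * 2 ^ Fintype.card V * A := by
    rw [sum_const, nsmul_eq_mul, card_univ, Fintype.card_prod]
    push_cast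
    rw [hcard]
  rw [sum_add_distrib, sum_add_distrib, sum_add_distrib, hs0, hs1, hs2, hs3, hV]
  have e1 : (2 : ℝ) ^ (2 * μ) * 2 ^ (2 * μ) * A ≤ (2 : ℝ) ^ (29 / 10 * μ : ℝ) := by
    rw [hA, Real.rpow_mul (by norm_num), Real.rpow_mul (by norm_num), Real.rpow_natCast,
      Real.rpow_natCast]
    calc (2 : ℝ) ^ (2 * μ) * 2 ^ (2 * μ) * ((3 / 4 : ℝ) ^ (29 / 10 : ℝ)) ^ μ
        = ((3 / 4 : ℝ) ^ (29 / 10 : ℝ) * 16) ^ μ := by
          rw [mul_pow, ← pow_add, ← two_mul, ← mul_assoc, pow_mul]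
          norm_num
          ring
      _ ≤ ((2 : ℝ) ^ (29 / 10 : ℝ)) ^ μ := pow_le_pow_left₀ (by positivity) num_a _
  have e2 : (2 : ℝ) ^ (2 * μ) * (5 / 4) ^ (2 * μ) ≤ (2 : ℝ) ^ (29 / 10 * μ : ℝ) := by
    rw [Real.rpow_mul (by norm_num), Real.rpow_natCast]
    calc (2 : ℝ) ^ (2 * μ) * (5 / 4) ^ (2 * μ) = (25 / 4) ^ μ := by
          rw [← mul_pow, pow_mul]
          norm_num
      _ ≤ ((2 : ℝ) ^ (29 / 10 : ℝ)) ^ μ := pow_le_pow_left₀ (by norm_num) num_b _
  linarith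

end types

section count

variable {N k : ℕ} {V : Type} [Fintype V] [DecidableEq V] (blk : Fin N × Bool → V)

theorem info_sub (W : Submodule (ZMod 2) (Fin N → ZMod 2)) : ∃ J : Finset (Fin N),
    Nat.card W = 2 ^ J.card ∧ ∀ u ∈ W, ∀ v ∈ W, (∀ i ∈ J, u i = v i) → u = v := by
  classical
  obtain ⟨J, hJ1, hJ2⟩ := info_set W.toAddSubgroup
  have hJ1' : Nat.card W = 2 ^ J.card := hJ1
  refine ⟨J, hJ1', ?_⟩
  obtain ⟨F, hF⟩ : ∃ F : W → (J → ZMod 2), F = fun u i => u.1 i.1 := ⟨_, rfl⟩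
  have hsurj : Function.Surjective F := by
    intro t
    obtain ⟨f, hf, hft⟩ := hJ2 (fun i => if hi : i ∈ J then t ⟨i, hi⟩ else 0)
    refine ⟨⟨f, hf⟩, ?_⟩
    rw [hF]
    funext i
    show f i.1 = t i
    rw [hft i.1 i.2, dif_pos i.2]
  have hcard : Nat.card W ≤ Nat.card (J → ZMod 2) := by
    rw [hJ1', Nat.card_eq_fintype_card, Fintype.card_fun, ZMod.card, Fintype.card_coe]
  have hbij := hsurj.bijective_of_nat_card_le hcard
  intro u hu v hv huv
  have h1 : F ⟨u, hu⟩ = F ⟨v, hv⟩ := by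
    rw [hF]
    funext i
    exact huv i.1 i.2
  exact congrArg Subtype.val (hbij.1 h1)

/-- **Pairs of sets of vertices** in a random regular graph. -/
theorem pair_count (hblk : ∀ v, (univ.filter (fun x => blk x = v)).card = k)
    (y z : V → ZMod 2) (hV0 : 0 < Fintype.card V) (W : Submodule (ZMod 2) (Fin N → ZMod 2)) :
    ∃ J : ℕ, J ≤ N ∧ Nat.card W = 2 ^ J ∧
    (open Classical in
      ((univ.filter (fun π : Equiv.Perm (Fin N × Bool) =>
        tr (RG blk π) y ∈ W ∧ tr (RG blk π) z ∈ W)).card : ℝ)) * 2 ^ N ≤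
    (Real.exp 1 * (2 * (N : ℝ) + 1)) ^ 4 * (2 * N).factorial * (Nat.card W : ℕ) *
      th y z ^ (N - J) := by
  classical
  obtain ⟨T, hT⟩ : ∃ T : Fin N × Bool → ZMod 2 × ZMod 2, T = fun x => (y (blk x), z (blk x)) :=
    ⟨_, rfl⟩
  obtain ⟨J, hJ1, hJ2⟩ := info_sub W
  have hcι : Fintype.card (Fin N × Bool) = 2 * N := by
    rw [Fintype.card_prod, Fintype.card_fin, Fintype.card_bool, mul_comm]
  have hnf : ∀ b, nf T b = k * mf y z b := by
    intro b
    have h1 : nf T b = ∑ v ∈ univ.filter (fun v => (y v, z v) = b),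
        (univ.filter (fun x => blk x = v)).card := by
      unfold nf
      rw [card_eq_sum_card_fiberwise (f := blk) (t := univ.filter (fun v => (y v, z v) = b)) (by
        intro x hx
        rw [mem_coe, mem_filter] at hx
        rw [mem_coe, mem_filter]
        refine ⟨mem_univ _, ?_⟩
        rw [hT] at hx
        exact hx.2)]
      refine sum_congr rfl fun v hv => ?_
      congr 1
      ext x
      rw [mem_filter] at hv
      rw [mem_filter, mem_filter, mem_filter]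
      constructor
      · rintro ⟨_, h2⟩; exact ⟨mem_univ _, h2⟩
      · rintro ⟨_, h2⟩
        refine ⟨⟨mem_univ _, ?_⟩, h2⟩
        rw [hT]
        show (y (blk x), z (blk x)) = b
        rw [h2]
        exact hv.2
    rw [h1, sum_congr rfl (fun v _ => hblk v), sum_const, smul_eq_mul, mul_comm]
    rfl
  have hkV : k * Fintype.card V = 2 * N := by
    have h1 := sum_nf T
    rw [sum_congr rfl (fun b _ => hnf b), ← mul_sum, hcι] at h1
    have h2 : ∑ b, mf y z b = Fintype.card V := by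
      have h3 := card_eq_sum_card_fiberwise (s := (univ : Finset V))
        (t := (univ : Finset (ZMod 2 × ZMod 2))) (f := fun v => (y v, z v))
        (fun x _ => mem_coe.2 (mem_univ _))
      rw [card_univ] at h3
      exact h3.symm
    rw [h2] at h1
    exact h1
  -- the weights
  obtain ⟨ν, hν⟩ : ∃ ν : (ZMod 2 × ZMod 2) × (ZMod 2 × ZMod 2) → ℝ,
    ν = fun p => (nf T p.1 : ℝ) * nf T p.2 := ⟨_, rfl⟩
  obtain ⟨q, hq⟩ : ∃ q : (ZMod 2 × ZMod 2) × (ZMod 2 × ZMod 2) → ZMod 2 × ZMod 2,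
    q = fun p => p.1 + p.2 := ⟨_, rfl⟩
  obtain ⟨S, hS⟩ : ∃ S : Finset (Fin N → ZMod 2 × ZMod 2), S = univ.filter (fun X =>
    (fun i => (X i).1) ∈ W ∧ (fun i => (X i).2) ∈ W) := ⟨_, rfl⟩
  have hνs : ∑ p, ν p = (2 * (N : ℝ)) ^ 2 := by
    rw [hν, Fintype.sum_prod_type]
    have h1 : ∀ a : ZMod 2 × ZMod 2, ∑ b, ((nf T a : ℝ) * nf T b) = nf T a * (2 * (N : ℝ)) := by
      intro a
      rw [← mul_sum]
      congr 1
      have h2 := sum_nf T
      rw [hcι] at h2
      exact_mod_cast h2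
    rw [sum_congr rfl fun a _ => h1 a, ← sum_mul]
    have h2 := sum_nf T
    rw [hcι] at h2
    have h3 : ∑ a, (nf T a : ℝ) = 2 * (N : ℝ) := by exact_mod_cast h2
    rw [h3]
    ring
  obtain ⟨θ, hθ⟩ : ∃ θ, θ = th y z := ⟨_, rfl⟩
  have hθ0 : 0 ≤ θ := by rw [hθ]; exact th_nonneg y z
  have hQ : ∀ a, ∑ p ∈ univ.filter (fun p => q p = a), ν p ≤ 2 * (N : ℝ) ^ 2 * θ := by
    intro a
    have h1 : ∑ p ∈ univ.filter (fun p => q p = a), ν p =
        ∑ b, (nf T b : ℝ) * nf T (b + a) := by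
      rw [hν, hq]
      refine sum_bij' (fun p _ => p.1) (fun b _ => (b, b + a)) ?_ ?_ ?_ ?_ ?_
      · intro p _; exact mem_univ _
      · intro b _
        rw [mem_filter]
        refine ⟨mem_univ _, ?_⟩
        show b + (b + a) = a
        rw [← add_assoc]
        have : b + b = 0 := by
          have h5 : ∀ b : ZMod 2 × ZMod 2, b + b = 0 := by decide
          exact h5 b
        rw [this, zero_add]
      · intro p hp
        rw [mem_filter] at hp
        have h6 : p.1 + p.2 = a := hp.2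
        have h5 : ∀ b : ZMod 2 × ZMod 2, b + b = 0 := by decide
        show (p.1, p.1 + a) = p
        rw [← h6, ← add_assoc, h5, zero_add]
      · intro b _; rfl
      · intro p hp
        rw [mem_filter] at hp
        have h6 : p.1 + p.2 = a := hp.2
        have h5 : ∀ b : ZMod 2 × ZMod 2, b + b = 0 := by decide
        show (nf T p.1 : ℝ) * nf T p.2 = nf T p.1 * nf T (p.1 + a)
        rw [← h6, ← add_assoc, h5, zero_add]
    have h2 : ∑ b, (nf T b : ℝ) * nf T (b + a) ≤ ∑ b, (nf T b : ℝ) ^ 2 := by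
      have h3 : ∑ b, (nf T b : ℝ) * nf T (b + a) ≤
          ∑ b, (((nf T b : ℝ) ^ 2 + (nf T (b + a) : ℝ) ^ 2) / 2) := by
        refine sum_le_sum fun b _ => ?_
        nlinarith [sq_nonneg ((nf T b : ℝ) - nf T (b + a))]
      refine h3.trans (le_of_eq ?_)
      rw [← sum_div, sum_add_distrib]
      have h4 : ∑ b, (nf T (b + a) : ℝ) ^ 2 = ∑ b, (nf T b : ℝ) ^ 2 :=
        Equiv.sum_comp (Equiv.addRight a) (fun b => (nf T b : ℝ) ^ 2)
      rw [h4]
      ring
    have h3 : ∑ b, (nf T b : ℝ) ^ 2 = (k : ℝ) ^ 2 * ∑ b, (mf y z b : ℝ) ^ 2 := by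
      rw [mul_sum]
      refine sum_congr rfl fun b _ => ?_
      rw [hnf]
      push_cast
      ring
    have h5 : ((k : ℝ) * Fintype.card V) = 2 * N := by exact_mod_cast hkV
    have hVR : (0 : ℝ) < Fintype.card V := by exact_mod_cast hV0
    have h4 : 2 * ∑ b, (mf y z b : ℝ) ^ 2 = θ * (Fintype.card V : ℝ) ^ 2 := by
      rw [hθ]
      unfold th
      field_simp
    rw [h1]
    refine h2.trans ?_
    rw [h3]
    have h7 : (k : ℝ) ^ 2 * (Fintype.card V : ℝ) ^ 2 = 4 * (N : ℝ) ^ 2 := by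
      rw [← mul_pow, h5]; ring
    have h8 : 2 * ((k : ℝ) ^ 2 * ∑ b, (mf y z b : ℝ) ^ 2) =
        θ * ((k : ℝ) ^ 2 * (Fintype.card V : ℝ) ^ 2) := by
      calc _ = (k : ℝ) ^ 2 * (2 * ∑ b, (mf y z b : ℝ) ^ 2) := by ring
        _ = _ := by rw [h4]; ring
    rw [h7] at h8
    linarith
  have hpiv := pivot ν (by intro p; rw [hν]; positivity) q (2 * (N : ℝ) ^ 2 * θ) (by positivity)
    hQ S J (by
    intro X hX Y hY hXY
    rw [hS, mem_filter] at hX hY
    have h1 := hJ2 _ hX.2.1 _ hY.2.1 (fun i hi => by rw [hXY i hi])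
    have h2 := hJ2 _ hX.2.2 _ hY.2.2 (fun i hi => by rw [hXY i hi])
    funext i
    exact Prod.ext (congrFun h1 i) (congrFun h2 i))
  rw [hνs] at hpiv
  -- permutations
  obtain ⟨S', hS'⟩ : ∃ S' : Finset (Fin N × Bool → ZMod 2 × ZMod 2), S' = univ.filter (fun X =>
    (fun i => X (i, false) + X (i, true)) ∈ S) := ⟨_, rfl⟩
  have hperm := perm_count T S'
  have hsum : ∑ X ∈ S', ∏ x, (nf T (X x) : ℝ) =
      ∑ G ∈ univ.filter (fun G : Fin N → (ZMod 2 × ZMod 2) × (ZMod 2 × ZMod 2) => q ∘ G ∈ S),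
        ∏ i, ν (G i) := by
    rw [hS', hν, hq]
    refine sum_bij' (fun X _ => fun i => (X (i, false), X (i, true)))
      (fun G _ => fun x => if x.2 = true then (G x.1).2 else (G x.1).1) ?_ ?_ ?_ ?_ ?_
    · intro X hX
      rw [mem_filter] at hX ⊢
      exact ⟨mem_univ _, hX.2⟩
    · intro G hG
      rw [mem_filter] at hG ⊢
      refine ⟨mem_univ _, ?_⟩
      have h1 : (fun i : Fin N => (if ((i, false) : Fin N × Bool).2 = true then
        (G ((i, false) : Fin N × Bool).1).2 else (G ((i, false) : Fin N × Bool).1).1) +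
        (if ((i, true) : Fin N × Bool).2 = true then
        (G ((i, true) : Fin N × Bool).1).2 else (G ((i, true) : Fin N × Bool).1).1)) =
        (fun p : (ZMod 2 × ZMod 2) × (ZMod 2 × ZMod 2) => p.1 + p.2) ∘ G := by
        funext i
        rw [if_neg (by simp), if_pos rfl]
        rfl
      rw [h1]
      exact hG.2
    · intro X _
      funext x
      obtain ⟨i, b⟩ := x
      cases b
      · rw [if_neg (by simp)]
      · rw [if_pos rfl]
    · intro G _
      funext i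
      show ((if ((i, false) : Fin N × Bool).2 = true then
        (G ((i, false) : Fin N × Bool).1).2 else (G ((i, false) : Fin N × Bool).1).1),
        (if ((i, true) : Fin N × Bool).2 = true then
        (G ((i, true) : Fin N × Bool).1).2 else (G ((i, true) : Fin N × Bool).1).1)) = G i
      rw [if_neg (by simp), if_pos rfl]
    · intro X _
      rw [Fintype.prod_prod_type]
      refine prod_congr rfl fun i _ => ?_
      rw [Fintype.prod_bool]
      exact mul_comm _ _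
  rw [hsum] at hperm
  have hset : univ.filter (fun π : Equiv.Perm (Fin N × Bool) =>
        tr (RG blk π) y ∈ W ∧ tr (RG blk π) z ∈ W) =
      univ.filter (fun π : Equiv.Perm (Fin N × Bool) => T ∘ π ∈ S') := by
    ext π
    rw [mem_filter, mem_filter, hS', mem_filter, hS, mem_filter]
    have h1 : tr (RG blk π) y = fun i => ((T ∘ π) (i, false) + (T ∘ π) (i, true)).1 := by
      funext i
      rw [tr_RG, hT]
      rfl
    have h2 : tr (RG blk π) z = fun i => ((T ∘ π) (i, false) + (T ∘ π) (i, true)).2 := by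
      funext i
      rw [tr_RG, hT]
      rfl
    rw [h1, h2]
    exact ⟨fun h => ⟨h.1, mem_univ _, mem_univ _, h.2⟩, fun h => ⟨h.1, h.2.2.2⟩⟩
  rw [hset]
  have hAcard : Fintype.card (ZMod 2 × ZMod 2) = 4 := by decide
  rw [hcι, hAcard] at hperm
  rw [hJ1]
  have hJN : J.card ≤ N := by
    have := card_le_univ J
    rwa [Fintype.card_fin] at this
  obtain ⟨b, hb⟩ : ∃ b : ℝ, b = ((univ.filter (fun π : Equiv.Perm (Fin N × Bool) =>
    T ∘ π ∈ S')).card : ℝ) := ⟨_, rfl⟩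
  rw [← hb] at hperm ⊢
  obtain ⟨Cc, hCc⟩ : ∃ Cc : ℝ, Cc = (Real.exp 1 * (2 * (N : ℝ) + 1)) ^ 4 * (2 * N).factorial :=
    ⟨_, rfl⟩
  have hCc0 : 0 ≤ Cc := by rw [hCc]; positivity
  have hperm' : b * (2 * (N : ℝ)) ^ (2 * N) ≤ Cc * ((2 * (N : ℝ)) ^ 2) ^ J.card *
      (2 * (N : ℝ) ^ 2) ^ (N - J.card) * θ ^ (N - J.card) := by
    have h1 := hperm.trans (mul_le_mul_of_nonneg_left hpiv (by positivity))
    push_cast at h1
    rw [hCc]
    calc _ ≤ _ := h1
      _ = _ := by rw [mul_pow (2 * (N : ℝ) ^ 2) θ]; ring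
  refine ⟨J.card, hJN, rfl, ?_⟩
  rw [← hθ]
  rcases Nat.eq_zero_or_pos N with h0 | h0
  · subst h0
    have hJ0 : J.card = 0 := by omega
    rw [hJ0] at hperm' ⊢
    simp only [Nat.cast_zero, mul_zero, pow_zero, mul_one, Nat.sub_zero] at hperm'
    rw [← hCc]
    simpa using hperm'
  · have hNR : (0 : ℝ) < N := by exact_mod_cast h0
    have h2 : (2 * (N : ℝ)) ^ (2 * N) = ((2 * (N : ℝ)) ^ 2) ^ J.card *
        (2 * (N : ℝ) ^ 2) ^ (N - J.card) * 2 ^ (N - J.card) := by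
      have h3 : (2 * (N : ℝ)) ^ 2 = 2 * (2 * (N : ℝ) ^ 2) := by ring
      rw [mul_assoc, ← mul_pow, mul_comm (2 * (N : ℝ) ^ 2) 2, ← h3, ← pow_add,
        Nat.add_sub_cancel' hJN, ← pow_mul]
    rw [h2] at hperm'
    have hpos : (0 : ℝ) < ((2 * (N : ℝ)) ^ 2) ^ J.card * (2 * (N : ℝ) ^ 2) ^ (N - J.card) := by
      positivity
    have h4 : b * 2 ^ (N - J.card) ≤ Cc * θ ^ (N - J.card) := by
      have h5 : (((2 * (N : ℝ)) ^ 2) ^ J.card * (2 * (N : ℝ) ^ 2) ^ (N - J.card)) *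
          (b * 2 ^ (N - J.card)) ≤
          (((2 * (N : ℝ)) ^ 2) ^ J.card * (2 * (N : ℝ) ^ 2) ^ (N - J.card)) *
            (Cc * θ ^ (N - J.card)) := by
        calc _ = b * (((2 * (N : ℝ)) ^ 2) ^ J.card *
            (2 * (N : ℝ) ^ 2) ^ (N - J.card) * 2 ^ (N - J.card)) := by ring
          _ ≤ _ := hperm'
          _ = _ := by ring
      exact le_of_mul_le_mul_left h5 hpos
    rw [← hCc]
    have h6 : (2 : ℝ) ^ N = 2 ^ (N - J.card) * 2 ^ J.card := by
      rw [← pow_add, Nat.sub_add_cancel hJN]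
    rw [h6]
    push_cast
    calc b * (2 ^ (N - J.card) * 2 ^ J.card) = (b * 2 ^ (N - J.card)) * 2 ^ J.card := by ring
      _ ≤ (Cc * θ ^ (N - J.card)) * 2 ^ J.card := mul_le_mul_of_nonneg_right h4 (by positivity)
      _ = Cc * 2 ^ J.card * θ ^ (N - J.card) := by ring

end count

end Pool.Agent.T9h47.SE
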