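import Mathlib
import Pool.Agent.T9h47.SE.Pair2

/-!
# The lower bound with an explicit rate
-/

set_option autoImplicit false
set_option linter.unusedSectionVars false

namespace Pool.Agent.T9h47.SE

open Finset
open Pool.Agent.T9h47.SC

section good

variable {n : ℕ} {V : Type} [Fintype V] [DecidableEq V] (R : V → Finset (Fin n))

/-- the transposed map takes no bad pair to `W` -/
def Sep2 (W : Submodule (ZMod 2) (Fin n → ZMod 2)) : Prop :=
  ∀ y z : V → ZMod 2, tr R y ∈ W → tr R z ∈ W → ¬ BadP y z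

theorem phi_zero {y : V → ZMod 2} (h : 2 * wt y ≤ Fintype.card V) : phi y = 0 := if_pos h

theorem phi_one {y : V → ZMod 2} (h : ¬ 2 * wt y ≤ Fintype.card V) : phi y = 1 := if_neg h

theorem phi_add2 {W : Submodule (ZMod 2) (Fin n → ZMod 2)} (hone : tr R (fun _ => 1) = 0)
    (hW : Sep2 R W) {y z : V → ZMod 2}
    (hy : tr R y ∈ W) (hz : tr R z ∈ W) : phi (y + z) = phi y + phi z := by
  have h1W : ∀ y : V → ZMod 2, tr R y ∈ W → tr R (y + fun _ => 1) ∈ W := by
    intro y hy
    rw [tr_add, hone, add_zero]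
    exact hy
  have hcc : ∀ y : V → ZMod 2, y + (fun _ => 1) + (fun _ => 1) = y := by
    intro y
    rw [add_assoc, vec_self, add_zero]
  -- two small vectors
  have key : ∀ y z : V → ZMod 2, tr R y ∈ W → tr R z ∈ W → 2 * wt y ≤ Fintype.card V →
      2 * wt z ≤ Fintype.card V → 2 * wt (y + z) ≤ Fintype.card V := by
    intro y z hy hz h1 h2
    by_contra h3
    exact hW y z hy hz ⟨h1, h2, by omega⟩
  -- no vector is exactly half
  have half : ∀ y : V → ZMod 2, tr R y ∈ W → 2 * wt y ≠ Fintype.card V := by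
    intro y hy h
    refine hW y (y + fun _ => 1) hy (h1W y hy) ⟨by omega, ?_, ?_⟩
    · have := wt_compl y
      omega
    · have h2 : y + (y + fun _ => 1) = fun _ => 1 := by rw [← add_assoc, vec_self, zero_add]
      rw [h2, wt_one]
      omega
  have comp : ∀ y : V → ZMod 2, tr R y ∈ W → phi (y + fun _ => 1) = phi y + 1 := by
    intro y hy
    have h1 := wt_compl y
    have h2 := half y hy
    by_cases h3 : 2 * wt y ≤ Fintype.card V
    · rw [phi_zero h3, phi_one (by omega), zero_add]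
    · rw [phi_one h3, phi_zero (by omega)]
      decide
  have hyz : tr R (y + z) ∈ W := by rw [tr_add]; exact W.add_mem hy hz
  have small : ∀ y z : V → ZMod 2, tr R y ∈ W → tr R z ∈ W → 2 * wt y ≤ Fintype.card V →
      phi (y + z) = phi y + phi z := by
    intro y z hy hz h1
    have hyz : tr R (y + z) ∈ W := by rw [tr_add]; exact W.add_mem hy hz
    by_cases h2 : 2 * wt z ≤ Fintype.card V
    · rw [phi_zero h1, phi_zero h2, phi_zero (key y z hy hz h1 h2), add_zero]
    · have h3 : 2 * wt (z + fun _ => 1) ≤ Fintype.card V := by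
        have := wt_compl z
        omega
      have h4 := key y (z + fun _ => 1) hy (h1W z hz) h1 h3
      rw [← add_assoc] at h4
      have h5 := comp (y + z) hyz
      rw [phi_zero h4] at h5
      rw [phi_zero h1, phi_one h2, zero_add]
      have h6 : phi (y + z) + 1 + 1 = 0 + 1 := by rw [← h5]
      rw [add_assoc, z2_self, add_zero, zero_add] at h6
      exact h6
  by_cases h1 : 2 * wt y ≤ Fintype.card V
  · exact small y z hy hz h1
  · have h2 : 2 * wt (y + fun _ => 1) ≤ Fintype.card V := by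
      have := wt_compl y
      omega
    have h3 := small (y + fun _ => 1) z (h1W y hy) hz h2
    have h4 : y + (fun _ => 1) + z = (y + z) + fun _ => 1 := by
      rw [add_assoc, add_comm (fun _ => 1) z, ← add_assoc]
    rw [h4, comp _ hyz, comp _ hy] at h3
    have h5 : phi (y + z) + 1 + 1 = phi y + 1 + phi z + 1 := by rw [h3]
    rw [add_assoc, z2_self, add_zero] at h5
    rw [h5]
    have h6 : phi y + 1 + phi z + 1 = phi y + phi z + (1 + 1) := by ring
    rw [h6, z2_self, add_zero]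

theorem exists_good2 (hone : tr R (fun _ => 1) = 0) (Z : Submodule (ZMod 2) (Fin n → ZMod 2))
    (hZ : Sep2 R (perp Z)) : ∃ c : V → ZMod 2, Good R Z c := by
  let Y : Submodule (ZMod 2) (V → ZMod 2) :=
    { carrier := {y | tr R y ∈ perp Z}
      zero_mem' := by
        have h : tr R (0 : V → ZMod 2) = 0 := by
          funext i
          refine sum_eq_zero fun j _ => ?_
          split_ifs <;> rfl
        show tr R 0 ∈ perp Z
        rw [h]
        exact Submodule.zero_mem _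
      add_mem' := by
        intro a b ha hb
        show tr R (a + b) ∈ perp Z
        rw [tr_add]
        exact Submodule.add_mem _ ha hb
      smul_mem' := by
        intro c a ha
        show tr R (c • a) ∈ perp Z
        rcases z2_cases c with rfl | rfl
        · rw [zero_smul]
          have h : tr R (0 : V → ZMod 2) = 0 := by
            funext i
            refine sum_eq_zero fun j _ => ?_
            split_ifs <;> rfl
          rw [h]
          exact Submodule.zero_mem _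
        · rw [one_smul]; exact ha }
  have hphi0 : phi (0 : V → ZMod 2) = 0 := by
    have h := phi_add2 R hone hZ (y := 0) (z := 0) Y.zero_mem' Y.zero_mem'
    rw [add_zero] at h
    rw [h, z2_self]
  let φ : Y →ₗ[ZMod 2] ZMod 2 :=
    { toFun := fun y => phi y.1
      map_add' := fun y z => phi_add2 R hone hZ y.2 z.2
      map_smul' := fun c y => by
        show phi (c • y.1) = c * phi y.1
        rcases z2_cases c with rfl | rfl
        · rw [zero_smul, zero_mul]; exact hphi0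
        · rw [one_smul, one_mul] }
  obtain ⟨ψ, hψ⟩ := LinearMap.exists_extend φ
  obtain ⟨c, hc⟩ := exists_dot ψ
  refine ⟨c, fun y hy => ?_⟩
  rw [dot_comm, ← hc]
  have h1 := LinearMap.congr_fun hψ (⟨y, hy⟩ : Y)
  exact h1

theorem good_inter2 (hone : tr R (fun _ => 1) = 0) {Z Z' : Submodule (ZMod 2) (Fin n → ZMod 2)}
    (hZ' : Sep2 R (perp Z')) {c : V → ZMod 2} (hc : Good R Z c) :
    ∃ f ∈ Z, Good R Z' (c + AA R f) := by
  obtain ⟨c', hc'⟩ := exists_good2 R hone Z' hZ'
  have h1 : c + c' ∈ Z.map (AA R) ⊔ Z'.map (AA R) := by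
    apply mem_of_dual
    intro y hy
    have hy1 : tr R y ∈ perp Z := by
      intro f hf
      rw [← adj]
      exact hy _ (Submodule.mem_sup_left (Submodule.mem_map_of_mem hf))
    have hy2 : tr R y ∈ perp Z' := by
      intro f hf
      rw [← adj]
      exact hy _ (Submodule.mem_sup_right (Submodule.mem_map_of_mem hf))
    rw [dot_add, hc y hy1, hc' y hy2, z2_self]
  rw [Submodule.mem_sup] at h1
  obtain ⟨_, ⟨f, hf, rfl⟩, _, ⟨f', hf', rfl⟩, h2⟩ := h1
  refine ⟨f, hf, ?_⟩
  have h3 : c + AA R f = c' + AA R f' := by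
    have h4 : c + c' + (c' + AA R f) = AA R f + AA R f' + (c' + AA R f) := by rw [h2]
    have e1 : c + c' + (c' + AA R f) = c + AA R f := by
      rw [add_assoc, ← add_assoc c' c', vec_self, zero_add]
    have e2 : AA R f + AA R f' + (c' + AA R f) = c' + AA R f' := by
      have : AA R f + AA R f' + (c' + AA R f) = c' + AA R f' + (AA R f + AA R f) := by abel
      rw [this, vec_self, add_zero]
    rw [e1, e2] at h4
    exact h4
  rw [h3]
  exact good_add R hc' hf'

end good

section gates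

variable {K I : Type} {h : ℕ} (C : Circuit K I) (ρ : (Fin h → ZMod 2) → I → I)
  (h0 : ρ 0 = id) (hadd : ∀ f f', ρ (f + f') = ρ f ∘ ρ f')

theorem sum_perp (hS : ∀ f : Fin h → ZMod 2, ∃ α, C.IsAut (ρ f) α) [Fintype C.Gate] :
    (open Classical in (∑ Z ∈ univ.image (Zg C ρ h0 hadd), Nat.card (perp Z))) ≤
      Fintype.card C.Gate := by
  classical
  rw [← card_univ (α := C.Gate), card_eq_sum_card_image (Zg C ρ h0 hadd) univ]
  refine sum_le_sum fun Z hZ => ?_
  rw [mem_image] at hZ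
  obtain ⟨g, _, rfl⟩ := hZ
  exact card_kind_gau C ρ h0 hadd hS g

variable {V : Type} [Fintype V] [DecidableEq V]

theorem same_val_gau2 (R : V → Finset (Fin h)) (hone : tr R (fun _ => 1) = 0)
    (hS : ∀ f : Fin h → ZMod 2, ∃ α, C.IsAut (ρ f) α)
    (x : (V → ZMod 2) → I → K) (hx : Gauge ρ R x) (hV : 2 ≤ Fintype.card V)
    (hSep : ∀ g, Sep2 R (perp (Zg C ρ h0 hadd g))) (c : V → ZMod 2) (hc : Good R ⊤ c) :
    C.val (x c) C.out = C.val (x 0) C.out := by
  classical
  let _ := C.fin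
  have main := indist_abs C (x 0) x (Zg C ρ h0 hadd) (Good R) (by
      intro g c g' hg
      obtain ⟨f, hf, hgood⟩ := good_inter2 R hone (hSep g') hg
      obtain ⟨α, hα, hαg⟩ := hf
      exact ⟨c + AA R f, ρ f, α, hgood, hα, hαg, hx.flip c f,
        fun h' => Zg_flip C ρ h0 hadd hα h'⟩)
    (by
      intro g i c hl hg
      by_contra hne
      obtain ⟨j, hcj, hj⟩ := hx.loc c i hne
      apply hcj
      have h1 : tr R (Pi.single j 1) ∈ perp (Zg C ρ h0 hadd g) := by
        intro f hf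
        obtain ⟨α, hα, hαg⟩ := hf
        have h2 := hα.lab g
        rw [hαg, hl] at h2
        have h3 : i = ρ f i := Sum.inl.inj h2
        rw [← adj, dot_single, AA_apply]
        exact hj f h3.symm
      have h2 := hg _ h1
      rw [dot_single] at h2
      rw [h2]
      unfold phi
      rw [wt_single, if_pos (by omega)])
  exact main (C.rank C.out + 1) C.out (Nat.lt_succ_self _) c (by
    rw [Zg_out C ρ h0 hadd hS]
    exact hc)

end gates

section rate

variable {N k : ℕ} {V : Type} [Fintype V] [DecidableEq V] (blk : Fin N × Bool → V)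

/-- the right hand side without solution -/
noncomputable def cRG (j₀ : V) (π : Equiv.Perm (Fin N × Bool)) : V → ZMod 2 :=
  open Classical in
  if hc : ∃ c, Good (RG blk π) ⊤ c then hc.choose else Pi.single j₀ 1

theorem cRG_good (j₀ : V) (π : Equiv.Perm (Fin N × Bool)) (hc : ∃ c, Good (RG blk π) ⊤ c) :
    Good (RG blk π) ⊤ (cRG blk j₀ π) := by
  unfold cRG
  rw [dif_pos hc]
  exact hc.choose_spec

theorem cRG_unsat (j₀ : V) (hV : 2 ≤ Fintype.card V) (π : Equiv.Perm (Fin N × Bool)) :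
    ¬ ∃ a, AA (RG blk π) a = cRG blk j₀ π := by
  rintro ⟨a, ha⟩
  have h1 : dot (fun _ => 1) (cRG blk j₀ π) = 1 := by
    by_cases hc : ∃ c, Good (RG blk π) ⊤ c
    · have h2 := cRG_good blk j₀ π hc (fun _ => 1) (by
        rw [tr_RG_one]; exact Submodule.zero_mem _)
      rw [h2]
      unfold phi
      rw [wt_one, if_neg (by omega)]
    · unfold cRG
      rw [dif_neg hc, dot_comm, dot_single]
  rw [← ha, adj, tr_RG_one] at h1
  have h3 : dot (0 : Fin N → ZMod 2) a = 0 := sum_eq_zero fun i _ => zero_mul _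
  rw [h3] at h1
  exact absurd h1 (by decide)

theorem card_kind_le {K I : Type} (C : Circuit K I) (ρ : (Fin N → ZMod 2) → I → I)
    (h0 : ρ 0 = id) (hadd : ∀ f f', ρ (f + f') = ρ f ∘ ρ f')
    (hS : ∀ f : Fin N → ZMod 2, ∃ α, C.IsAut (ρ f) α) (g : C.Gate) :
    Nat.card (perp (Zg C ρ h0 hadd g)) ≤ @Fintype.card C.Gate C.fin := by
  classical
  let _ := C.fin
  exact (card_kind_gau C ρ h0 hadd hS g).trans (card_le_univ _)

theorem count_RG (hblk : ∀ v, (univ.filter (fun x => blk x = v)).card = k)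
    (μ : ℕ) (hμ : 0 < μ) (hVμ : Fintype.card V = 2 * μ) (j₀ : V)
    {K I : Type} (C : Circuit K I) (ρ : (Fin N → ZMod 2) → I → I)
    (h0 : ρ 0 = id) (hadd : ∀ f f', ρ (f + f') = ρ f ∘ ρ f')
    (hS : ∀ f : Fin N → ZMod 2, ∃ α, C.IsAut (ρ f) α)
    (x : Equiv.Perm (Fin N × Bool) → (V → ZMod 2) → I → K)
    (hx : ∀ π, Gauge ρ (RG blk π) (x π)) :
    (Nat.card {π : Equiv.Perm (Fin N × Bool) //
      C.val (x π 0) C.out ≠ C.val (x π (cRG blk j₀ π)) C.out} : ℝ) * 2 ^ N ≤
      4 * (2 : ℝ) ^ (29 / 10 * μ : ℝ) * (Real.exp 1 * (2 * (N : ℝ) + 1)) ^ 4 *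
        (2 * N).factorial * @Fintype.card C.Gate C.fin := by
  classical
  let _ := C.fin
  have hV : 2 ≤ Fintype.card V := by omega
  have hV0 : 0 < Fintype.card V := by omega
  obtain ⟨P, hP⟩ : ∃ P : Finset ((V → ZMod 2) × (V → ZMod 2)),
      P = univ.filter (fun p => BadP p.1 p.2) := ⟨_, rfl⟩
  obtain ⟨Im, hIm⟩ : ∃ Im : Finset (Submodule (ZMod 2) (Fin N → ZMod 2)),
      Im = univ.image (Zg C ρ h0 hadd) := ⟨_, rfl⟩
  obtain ⟨E, hE⟩ : ∃ E : (V → ZMod 2) × (V → ZMod 2) → Submodule (ZMod 2) (Fin N → ZMod 2) →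
      Finset (Equiv.Perm (Fin N × Bool)), E = fun p Z => univ.filter (fun π =>
        tr (RG blk π) p.1 ∈ perp Z ∧ tr (RG blk π) p.2 ∈ perp Z) := ⟨_, rfl⟩
  obtain ⟨c₀, hc₀⟩ : ∃ c₀ : ℝ, c₀ = (Real.exp 1 * (2 * (N : ℝ) + 1)) ^ 4 * (2 * N).factorial :=
    ⟨_, rfl⟩
  have hc₀0 : 0 ≤ c₀ := by rw [hc₀]; positivity
  obtain ⟨s, hs⟩ : ∃ s : ℝ, s = @Fintype.card C.Gate C.fin := ⟨_, rfl⟩
  have hs0 : 0 ≤ s := by rw [hs]; exact Nat.cast_nonneg _
  obtain ⟨t, ht⟩ : ∃ t : ℝ, t = 29 / 10 * μ := ⟨_, rfl⟩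
  have ht0 : 0 ≤ t := by rw [ht]; positivity
  have hgoal : 4 * (2 : ℝ) ^ (29 / 10 * μ : ℝ) * (Real.exp 1 * (2 * (N : ℝ) + 1)) ^ 4 *
        (2 * N).factorial * @Fintype.card C.Gate C.fin = 4 * (2 : ℝ) ^ t * c₀ * s := by
    rw [hc₀, hs, ht]; ring
  rw [hgoal]
  obtain ⟨B, hB⟩ : ∃ B : ℕ, B = Nat.card {π : Equiv.Perm (Fin N × Bool) //
      C.val (x π 0) C.out ≠ C.val (x π (cRG blk j₀ π)) C.out} := ⟨_, rfl⟩
  rw [← hB]
  by_cases hsz : (2 : ℝ) ^ ((N : ℝ) - t) ≤ s
  · -- trivial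
    have hBle : (B : ℝ) ≤ (2 * N).factorial := by
      have h1 : B ≤ (2 * N).factorial := by
        rw [hB, Nat.card_eq_fintype_card, Fintype.card_subtype]
        refine (card_le_univ _).trans ?_
        rw [Fintype.card_perm, Fintype.card_prod, Fintype.card_fin, Fintype.card_bool, mul_comm]
      exact_mod_cast h1
    have hone : (1 : ℝ) ≤ (Real.exp 1 * (2 * (N : ℝ) + 1)) ^ 4 := by
      apply one_le_pow₀
      have h2 : (1 : ℝ) ≤ Real.exp 1 := by
        have := Real.add_one_le_exp (1 : ℝ)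
        linarith
      have h3 : (1 : ℝ) ≤ 2 * (N : ℝ) + 1 := by
        have : (0 : ℝ) ≤ N := Nat.cast_nonneg N
        linarith
      nlinarith
    have hc₀1 : ((2 * N).factorial : ℝ) ≤ c₀ := by
      rw [hc₀]
      have : (0 : ℝ) ≤ ((2 * N).factorial : ℝ) := Nat.cast_nonneg _
      nlinarith
    have h5 : (2 : ℝ) ^ N ≤ (2 : ℝ) ^ t * s := by
      calc (2 : ℝ) ^ N = (2 : ℝ) ^ (N : ℝ) := (Real.rpow_natCast _ _).symm
        _ = (2 : ℝ) ^ t * (2 : ℝ) ^ ((N : ℝ) - t) := by
            rw [← Real.rpow_add (by norm_num)]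
            congr 1
            ring
        _ ≤ _ := mul_le_mul_of_nonneg_left hsz (by positivity)
    calc (B : ℝ) * 2 ^ N ≤ c₀ * ((2 : ℝ) ^ t * s) :=
          mul_le_mul (hBle.trans hc₀1) h5 (by positivity) hc₀0
      _ ≤ 4 * (c₀ * ((2 : ℝ) ^ t * s)) := by
          have : 0 ≤ c₀ * ((2 : ℝ) ^ t * s) := by positivity
          linarith
      _ = _ := by ring
  rw [not_le] at hsz
  have hsub : B ≤ (P.biUnion (fun p => Im.biUnion (fun Z => E p Z))).card := by
    rw [hB, Nat.card_eq_fintype_card, Fintype.card_subtype]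
    refine card_le_card fun π hπ => ?_
    rw [mem_filter] at hπ
    by_contra hcon
    apply hπ.2
    have hSep : ∀ g, Sep2 (RG blk π) (perp (Zg C ρ h0 hadd g)) := by
      intro g y z hy hz hbad
      apply hcon
      rw [mem_biUnion]
      refine ⟨(y, z), by rw [hP, mem_filter]; exact ⟨mem_univ _, hbad⟩, ?_⟩
      rw [mem_biUnion]
      refine ⟨Zg C ρ h0 hadd g, by rw [hIm]; exact mem_image_of_mem _ (mem_univ g), ?_⟩
      rw [hE, mem_filter]
      exact ⟨mem_univ _, hy, hz⟩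
    have hgood : ∃ c, Good (RG blk π) ⊤ c := by
      apply exists_good2 _ (tr_RG_one blk π)
      have h1 := hSep C.out
      rw [Zg_out C ρ h0 hadd hS] at h1
      exact h1
    exact (same_val_gau2 C ρ h0 hadd (RG blk π) (tr_RG_one blk π) hS (x π) (hx π) hV hSep _
      (cRG_good blk j₀ π hgood)).symm
  have hEc : ∀ p ∈ P, ∀ Z ∈ Im, ((E p Z).card : ℝ) * 2 ^ N ≤
      c₀ * (Nat.card (perp Z) : ℕ) * th p.1 p.2 ^ t := by
    intro p hp Z hZ
    rw [hP, mem_filter] at hp
    obtain ⟨J, hJN, hJ, h1⟩ := pair_count blk hblk p.1 p.2 hV0 (perp Z)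
    rw [← hc₀] at h1
    rw [hE]
    refine h1.trans ?_
    apply mul_le_mul_of_nonneg_left _ (by positivity)
    rw [hIm, mem_image] at hZ
    obtain ⟨g, _, rfl⟩ := hZ
    have h2 := card_kind_le C ρ h0 hadd hS g
    rw [hJ] at h2
    have h3 : (2 : ℝ) ^ (J : ℝ) ≤ s := by
      rw [Real.rpow_natCast, hs]
      exact_mod_cast h2
    have h4 : (J : ℝ) < N - t := (Real.rpow_lt_rpow_left_iff (by norm_num : (1 : ℝ) < 2)).1
      (h3.trans_lt hsz)
    have h5 : t ≤ ((N - J : ℕ) : ℝ) := by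
      rw [Nat.cast_sub hJN]
      linarith
    rw [← Real.rpow_natCast]
    rcases (th_nonneg p.1 p.2).eq_or_lt with h6 | h6
    · rw [← h6]
      rcases Nat.eq_zero_or_pos (N - J) with h7 | h7
      · have h8 : t = 0 := by
          rw [h7, Nat.cast_zero] at h5
          linarith
        rw [h7, h8, Nat.cast_zero]
      · rw [Real.zero_rpow (by exact_mod_cast h7.ne')]
        positivity
    · exact Real.rpow_le_rpow_of_exponent_ge h6 (th_one p.1 p.2 hp.2 hV0) h5
  have hsum : ((∑ Z ∈ Im, Nat.card (perp Z) : ℕ) : ℝ) ≤ s := by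
    rw [hIm, hs]
    exact_mod_cast sum_perp C ρ h0 hadd hS
  have hth := sum_th μ hμ hVμ P (fun p hp => by rw [hP, mem_filter] at hp; exact hp.2)
  rw [← ht] at hth
  have h1 : ((P.biUnion (fun p => Im.biUnion (fun Z => E p Z))).card : ℝ) ≤
      ∑ p ∈ P, ∑ Z ∈ Im, ((E p Z).card : ℝ) := by
    have h2 : (P.biUnion (fun p => Im.biUnion (fun Z => E p Z))).card ≤
        ∑ p ∈ P, ∑ Z ∈ Im, (E p Z).card :=
      card_biUnion_le.trans (sum_le_sum fun p _ => card_biUnion_le)
    exact_mod_cast h2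
  calc (B : ℝ) * 2 ^ N ≤ ((P.biUnion (fun p => Im.biUnion (fun Z => E p Z))).card : ℝ) * 2 ^ N :=
        mul_le_mul_of_nonneg_right (by exact_mod_cast hsub) (by positivity)
    _ ≤ (∑ p ∈ P, ∑ Z ∈ Im, ((E p Z).card : ℝ)) * 2 ^ N :=
        mul_le_mul_of_nonneg_right h1 (by positivity)
    _ = ∑ p ∈ P, ∑ Z ∈ Im, ((E p Z).card : ℝ) * 2 ^ N := by
        rw [sum_mul]
        exact sum_congr rfl fun p _ => sum_mul _ _ _
    _ ≤ ∑ p ∈ P, ∑ Z ∈ Im, c₀ * (Nat.card (perp Z) : ℕ) * th p.1 p.2 ^ t :=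
        sum_le_sum fun p hp => sum_le_sum fun Z hZ => hEc p hp Z hZ
    _ = ∑ p ∈ P, (c₀ * ((∑ Z ∈ Im, Nat.card (perp Z) : ℕ) : ℝ)) * th p.1 p.2 ^ t := by
        refine sum_congr rfl fun p _ => ?_
        rw [← sum_mul, ← mul_sum]
        push_cast
        rfl
    _ = (c₀ * ((∑ Z ∈ Im, Nat.card (perp Z) : ℕ) : ℝ)) * ∑ p ∈ P, th p.1 p.2 ^ t :=
        (mul_sum _ _ _).symm
    _ ≤ (c₀ * s) * (4 * (2 : ℝ) ^ t) := by
        apply mul_le_mul (mul_le_mul_of_nonneg_left hsum hc₀0) hth _ (by positivity)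
        exact sum_nonneg fun p _ => Real.rpow_nonneg (th_nonneg _ _) _
    _ = _ := by ring

end rate

end Pool.Agent.T9h47.SE
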