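import Mathlib
import Pool.Agent.T9h47.SE.Pair3

/-!
# The lower bound with an explicit rate: satisfiability
-/

set_option autoImplicit false
set_option linter.unusedSectionVars false

namespace Pool.Agent.T9h47.SE

open Finset
open Pool.Agent.T9h47.SC

/-- half edges -/
theorem exists_blk (μ k : ℕ) : ∃ blk : Fin (μ * k) × Bool → Fin (2 * μ),
    ∀ v, (univ.filter (fun x => blk x = v)).card = k := by
  have hc : Fintype.card (Fin (μ * k) × Bool) = Fintype.card (Fin (2 * μ) × Fin k) := by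
    rw [Fintype.card_prod, Fintype.card_prod, Fintype.card_fin, Fintype.card_fin, Fintype.card_fin,
      Fintype.card_bool]
    ring
  obtain ⟨e⟩ := Fintype.card_eq.1 hc
  refine ⟨fun x => (e x).1, fun v => ?_⟩
  have h1 : (univ.filter (fun x => (e x).1 = v)).card = (univ : Finset (Fin k)).card := by
    refine card_bij' (fun x _ => (e x).2) (fun j _ => e.symm (v, j)) ?_ ?_ ?_ ?_
    · intro x _; exact mem_univ _
    · intro j _
      rw [mem_filter]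
      exact ⟨mem_univ _, by rw [Equiv.apply_symm_apply]⟩
    · intro x hx
      rw [mem_filter] at hx
      have h2 : (v, (e x).2) = e x := Prod.ext hx.2.symm rfl
      rw [h2, Equiv.symm_apply_apply]
    · intro j _
      rw [Equiv.apply_symm_apply]
  rw [h1, card_univ, Fintype.card_fin]

/-- **Circuits and commutative symmetry groups** with an explicit rate, abstract form. -/
theorem gauge_rate (k μ : ℕ) (hμ : 0 < μ) :
    ∃ (R : Equiv.Perm (Fin (μ * k) × Bool) → Fin (2 * μ) → Finset (Fin (μ * k)))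
      (c : Equiv.Perm (Fin (μ * k) × Bool) → Fin (2 * μ) → ZMod 2),
      (∀ π j, (R π j).card ≤ k) ∧ (∀ π, ¬ ∃ a, AA (R π) a = c π) ∧
      ∀ (K I : Type) (C : Circuit K I) (ρ : (Fin (μ * k) → ZMod 2) → I → I), ρ 0 = id →
        (∀ f f', ρ (f + f') = ρ f ∘ ρ f') → (∀ f, ∃ α, C.IsAut (ρ f) α) →
        ∀ (x : Equiv.Perm (Fin (μ * k) × Bool) → (Fin (2 * μ) → ZMod 2) → I → K),
          (∀ π, Gauge ρ (R π) (x π)) →
          (Nat.card {π : Equiv.Perm (Fin (μ * k) × Bool) //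
            C.val (x π 0) C.out ≠ C.val (x π (c π)) C.out} : ℝ) * 2 ^ (μ * k) ≤
          4 * (2 : ℝ) ^ (29 / 10 * μ : ℝ) * (Real.exp 1 * (2 * ((μ * k : ℕ) : ℝ) + 1)) ^ 4 *
            (2 * (μ * k)).factorial * @Fintype.card C.Gate C.fin := by
  obtain ⟨blk, hblk⟩ := exists_blk μ k
  have hVμ : Fintype.card (Fin (2 * μ)) = 2 * μ := Fintype.card_fin _
  have j₀ : Fin (2 * μ) := ⟨0, by omega⟩
  refine ⟨RG blk, cRG blk j₀, fun π j => card_RG blk π j k (hblk j).le,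
    fun π => cRG_unsat blk j₀ (by rw [hVμ]; omega) π, ?_⟩
  intro K I C ρ h0 hadd hS x hx
  exact count_RG blk hblk μ hμ hVμ j₀ C ρ h0 hadd hS x hx

theorem rate_num (k h : ℕ) (hk : 1 ≤ k) (s F B : ℝ) (hs : 0 ≤ s) (hF : 0 ≤ F)
    (hB : B * 2 ^ (h / k * k) ≤ 4 * (2 : ℝ) ^ (29 / 10 * (h / k : ℕ) : ℝ) *
      (Real.exp 1 * (2 * ((h / k * k : ℕ) : ℝ) + 1)) ^ 4 * F * s) :
    B ≤ s * (2 ^ (k + 2) * (6 * (h : ℝ) + 3) ^ 4) /
      (2 : ℝ) ^ ((1 - 29 / (10 * k) : ℝ) * h) * F := by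
  obtain ⟨μ, hμ⟩ : ∃ μ : ℕ, μ = h / k := ⟨_, rfl⟩
  have h1 : μ * k ≤ h := by rw [hμ]; exact Nat.div_mul_le_self h k
  have h2 : h < μ * k + k := by
    rw [hμ]
    have := Nat.lt_div_mul_add (a := h) (b := k) (by omega)
    exact this
  rw [← hμ] at hB
  have hkR : (0 : ℝ) < k := by exact_mod_cast hk
  have h3 : (2 : ℝ) ^ h ≤ 2 ^ (μ * k) * 2 ^ k := by
    rw [← pow_add]
    exact pow_le_pow_right₀ (by norm_num) h2.le
  have h4 : (2 : ℝ) ^ (29 / 10 * μ : ℝ) ≤ (2 : ℝ) ^ (29 / (10 * k) * h : ℝ) := by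
    apply Real.rpow_le_rpow_of_exponent_le (by norm_num)
    have h5 : (μ : ℝ) * k ≤ h := by exact_mod_cast h1
    have h6 : (29 : ℝ) / (10 * k) * h = 29 / 10 * (h / k) := by field_simp
    rw [h6]
    apply mul_le_mul_of_nonneg_left _ (by norm_num)
    rw [le_div_iff₀ hkR]
    exact h5
  have h5 : (Real.exp 1 * (2 * ((μ * k : ℕ) : ℝ) + 1)) ^ 4 ≤ (6 * (h : ℝ) + 3) ^ 4 := by
    apply pow_le_pow_left₀ (by positivity)
    have h6 : ((μ * k : ℕ) : ℝ) ≤ h := by exact_mod_cast h1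
    have h7 : Real.exp 1 ≤ 3 := by
      have := Real.exp_one_lt_d9
      linarith
    have h8 : (0 : ℝ) ≤ ((μ * k : ℕ) : ℝ) := Nat.cast_nonneg _
    calc Real.exp 1 * (2 * ((μ * k : ℕ) : ℝ) + 1) ≤ 3 * (2 * ((μ * k : ℕ) : ℝ) + 1) :=
          mul_le_mul_of_nonneg_right h7 (by linarith)
      _ ≤ _ := by linarith
  have h6 : (2 : ℝ) ^ ((1 - 29 / (10 * k) : ℝ) * h) * (2 : ℝ) ^ (29 / (10 * k) * h : ℝ) = 2 ^ h := by
    rw [← Real.rpow_add (by norm_num), ← Real.rpow_natCast]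
    congr 1
    ring
  obtain ⟨D, hD⟩ : ∃ D : ℝ, D = (2 : ℝ) ^ ((1 - 29 / (10 * k) : ℝ) * h) := ⟨_, rfl⟩
  obtain ⟨E, hE⟩ : ∃ E : ℝ, E = (2 : ℝ) ^ (29 / (10 * k) * h : ℝ) := ⟨_, rfl⟩
  have hD0 : 0 < D := by rw [hD]; positivity
  have hE0 : 0 < E := by rw [hE]; positivity
  rw [← hD] at h6 ⊢
  rw [← hE] at h6 h4
  obtain ⟨Q, hQ⟩ : ∃ Q : ℝ, Q = (6 * (h : ℝ) + 3) ^ 4 := ⟨_, rfl⟩
  have hQ0 : 0 ≤ Q := by rw [hQ]; positivity
  rw [← hQ] at h5 ⊢
  have h7 : B * 2 ^ (μ * k) ≤ 4 * E * Q * F * s := by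
    refine hB.trans ?_
    apply mul_le_mul_of_nonneg_right _ hs
    apply mul_le_mul_of_nonneg_right _ hF
    exact mul_le_mul (mul_le_mul_of_nonneg_left h4 (by norm_num)) h5 (by positivity) (by positivity)
  -- D * E = 2 ^ h ≤ 2 ^ (μ k) * 2 ^ k
  have h8 : (B * D) * (2 ^ (μ * k) * E) ≤ (s * (2 ^ (k + 2) * Q) * F) * (2 ^ (μ * k) * E) := by
    calc (B * D) * (2 ^ (μ * k) * E) = (B * 2 ^ (μ * k)) * (D * E) := by ring
      _ ≤ (4 * E * Q * F * s) * (D * E) := mul_le_mul_of_nonneg_right h7 (by positivity)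
      _ = (4 * E * Q * F * s) * 2 ^ h := by rw [h6]
      _ ≤ (4 * E * Q * F * s) * (2 ^ (μ * k) * 2 ^ k) :=
          mul_le_mul_of_nonneg_left h3 (by positivity)
      _ = _ := by ring
  have h9 := le_of_mul_le_mul_right h8 (by positivity)
  rw [div_mul_eq_mul_div, le_div_iff₀ hD0]
  exact h9

section sat

variable {n k : ℕ} {V : Type} [Fintype V] [DecidableEq V]

theorem sat_gauge (R : V → Finset (Fin n)) (hR : ∀ j, (R j).card ≤ k) {K : Type} (b₀ b₁ : K) :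
    Gauge (fun f => (ren 1 f : Cl n k → Cl n k)) R (fun c => inp b₀ b₁ (sys R hR c)) where
  flip := by
    intro c f
    funext D
    show inp b₀ b₁ (sys R hR (c + AA R f)) (ren 1 f D) = inp b₀ b₁ (sys R hR c) D
    have h := ren_sys R hR f c D
    unfold inp
    by_cases h1 : D ∈ sys R hR c
    · rw [if_pos h1, if_pos (h.2 h1)]
    · rw [if_neg h1, if_neg (fun h' => h1 (h.1 h'))]
  loc := by
    intro c D hne
    have hj : ∃ j a, D = cl R hR j a ∧ c j ≠ 0 := by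
      by_contra hcon
      push Not at hcon
      apply hne
      have hiff : D ∈ sys R hR c ↔ D ∈ sys R hR 0 := by
        rw [mem_sys, mem_sys]
        constructor
        · rintro ⟨j, a, h1, h2⟩
          refine ⟨j, a, h1, ?_⟩
          rw [hcon j a h1] at h2
          exact h2
        · rintro ⟨j, a, h1, h2⟩
          refine ⟨j, a, h1, ?_⟩
          rw [hcon j a h1]
          exact h2
      show inp b₀ b₁ (sys R hR c) D = inp b₀ b₁ (sys R hR 0) D
      unfold inp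
      by_cases h1 : D ∈ sys R hR 0
      · rw [if_pos h1, if_pos (hiff.2 h1)]
      · rw [if_neg h1, if_neg (fun h' => h1 (hiff.1 h'))]
    obtain ⟨j, a, rfl, hcj⟩ := hj
    refine ⟨j, hcj, fun f hf => ?_⟩
    exact sum_eq_zero fun i hi => cl_inj R hR f j a hf i hi

end sat

/-- **Average case hardness** with an explicit rate. -/
theorem seth_rate (k n : ℕ) (G : AddSubgroup (Fin n → ZMod 2)) (hk : 1 ≤ k)
    (hG : 2 ^ k ≤ Nat.card G) :
    ∃ (Ω : Type) (_ : Fintype Ω) (_ : Nonempty Ω) (φ₀ φ₁ : Ω → Set (Cl n k)),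
      (∀ ω, Satisfiable (φ₀ ω) ∧ ¬ Satisfiable (φ₁ ω) ∧
        (φ₀ ω).ncard ≤ 2 ^ (k + 1) * Nat.log 2 (Nat.card G) ∧
        (φ₁ ω).ncard ≤ 2 ^ (k + 1) * Nat.log 2 (Nat.card G)) ∧
      ∀ (K : Type) (C : Circuit K (Cl n k)) (b₀ b₁ : K), SymNeg C G →
        (Nat.card {ω // C.val (inp b₀ b₁ (φ₀ ω)) C.out ≠ C.val (inp b₀ b₁ (φ₁ ω)) C.out} : ℝ) ≤
          @Fintype.card C.Gate C.fin * (2 ^ (k + 2) * (6 * (Nat.log 2 (Nat.card G) : ℝ) + 3) ^ 4) /
            ((Nat.card G : ℕ) : ℝ) ^ (1 - 29 / (10 * k) : ℝ) * Fintype.card Ω := by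
  obtain ⟨H, hH1, hH2⟩ := info_set G
  obtain ⟨h, hh⟩ : ∃ h, h = H.card := ⟨_, rfl⟩
  rw [hH1, ← hh] at hG ⊢
  rw [Nat.log_pow (by norm_num)]
  have hkh : k ≤ h := (Nat.pow_le_pow_iff_right (by norm_num)).1 hG
  obtain ⟨μ, hμ⟩ : ∃ μ, μ = h / k := ⟨_, rfl⟩
  have hμ0 : 0 < μ := by rw [hμ]; exact Nat.div_pos hkh (by omega)
  have hNh : μ * k ≤ h := by rw [hμ]; exact Nat.div_mul_le_self h k
  have hμh : μ ≤ h := (Nat.le_mul_of_pos_right μ (by omega)).trans hNh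
  obtain ⟨e, he⟩ : ∃ e : Fin (μ * k) ↪ Fin n, ∀ v, e v ∈ H :=
    ⟨(Fin.castLEEmb hNh).trans (H.orderEmbOfFin hh.symm).toEmbedding,
      fun v => H.orderEmbOfFin_mem hh.symm _⟩
  obtain ⟨R, c, hR, hc, hmain⟩ := gauge_rate k μ hμ0
  have hval : ∀ (K : Type) (C : Circuit K (Cl n k)) (b₀ b₁ : K) (φ : Set (Cl (μ * k) k)),
      C.val (inp b₀ b₁ (emb e '' φ)) C.out =
        (restr (emb e) b₀ C).val (inp b₀ b₁ φ)
          (restr (emb e : Cl (μ * k) k → Cl n k) b₀ C).out := by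
    intro K C b₀ b₁ φ
    rw [← emb_inp]
    exact (restr_val (emb e) b₀ C _ (C.rank C.out + 1) C.out (Nat.lt_succ_self _)).symm
  have hcard : ∀ (π : Equiv.Perm (Fin (μ * k) × Bool)) (c : Fin (2 * μ) → ZMod 2),
      (emb e '' (sys (R π) (hR π) c) : Set (Cl n k)).ncard ≤ 2 ^ (k + 1) * h := by
    intro π c
    rw [Set.ncard_image_of_injective _ (emb_inj e)]
    refine sys_card (R π) (hR π) k _ (hR π) ?_ c
    rw [Fintype.card_fin]
    calc 2 * μ * 2 ^ k = 2 ^ (k + 1) * μ := by ring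
      _ ≤ _ := Nat.mul_le_mul_left _ hμh
  refine ⟨Equiv.Perm (Fin (μ * k) × Bool), inferInstance, inferInstance,
    fun π => emb e '' sys (R π) (hR π) 0, fun π => emb e '' sys (R π) (hR π) (c π),
    fun π => ⟨?_, ?_, hcard π 0, hcard π (c π)⟩, ?_⟩
  · rw [emb_sat, sat_sys]
    exact ⟨0, map_zero _⟩
  · rw [emb_sat, sat_sys]
    exact hc π
  · intro K C b₀ b₁ hS
    have hS' := restr_neg C G hS b₀ e (by
      intro t
      obtain ⟨f, hf, hft⟩ := hH2 (extF e t)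
      exact ⟨f, hf, fun v => by rw [hft _ (he v), extF_apply]⟩)
    have h1 := hmain K (Cl (μ * k) k) (restr (emb e) b₀ C) (fun f => ren 1 f) ren_one
      (fun f f' => (ren_flip_flip f f').symm) hS'
      (fun π c => inp b₀ b₁ (sys (R π) (hR π) c)) (fun π => sat_gauge (R π) (hR π) b₀ b₁)
    have h2 : (Nat.card {π : Equiv.Perm (Fin (μ * k) × Bool) //
        C.val (inp b₀ b₁ (emb e '' sys (R π) (hR π) 0)) C.out ≠
        C.val (inp b₀ b₁ (emb e '' sys (R π) (hR π) (c π))) C.out}) =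
        Nat.card {π : Equiv.Perm (Fin (μ * k) × Bool) //
        (restr (emb e : Cl (μ * k) k → Cl n k) b₀ C).val
          (inp b₀ b₁ (sys (R π) (hR π) 0)) (restr (emb e : Cl (μ * k) k → Cl n k) b₀ C).out ≠
        (restr (emb e : Cl (μ * k) k → Cl n k) b₀ C).val
          (inp b₀ b₁ (sys (R π) (hR π) (c π)))
          (restr (emb e : Cl (μ * k) k → Cl n k) b₀ C).out} := by
      simp only [hval]
    rw [h2]
    have h3 : Fintype.card (Equiv.Perm (Fin (μ * k) × Bool)) = (2 * (μ * k)).factorial := by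
      rw [Fintype.card_perm, Fintype.card_prod, Fintype.card_fin, Fintype.card_bool, mul_comm]
    have h4 : (((2 ^ h : ℕ) : ℝ)) ^ (1 - 29 / (10 * k) : ℝ) =
        (2 : ℝ) ^ ((1 - 29 / (10 * k) : ℝ) * h) := by
      push_cast
      rw [← Real.rpow_natCast, ← Real.rpow_mul (by norm_num), mul_comm]
    rw [h3, h4]
    apply rate_num k h hk _ _ _ (Nat.cast_nonneg _) (Nat.cast_nonneg _)
    rw [← hμ]
    exact h1

end Pool.Agent.T9h47.SE
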