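import Mathlib
import Pool.Agent.T9h47.SE.Sat

/-!
# The symmetric brute force circuit
-/

set_option autoImplicit false
set_option linter.unusedSectionVars false

namespace Pool.Agent.T9h47.SE

open Finset
open Pool.Agent.T9h47.SC

/-- the gates of the brute force circuit: one gate per clause, one per assignment, and the output
gate -/
abbrev BG (n k : ℕ) : Type := Cl n k ⊕ ((Fin n → ZMod 2) ⊕ Unit)

noncomputable local instance (n k : ℕ) : DecidableEq (BG n k) := Classical.decEq _

section

variable {n k : ℕ}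

/-- clause gate -/
abbrev bC (C : Cl n k) : BG n k := Sum.inl C
/-- assignment gate -/
abbrev bA (a : Fin n → ZMod 2) : BG n k := Sum.inr (Sum.inl a)
/-- output gate -/
abbrev bO : BG n k := Sum.inr (Sum.inr ())

/-- the assignment `a` makes every literal of the clause false -/
def Fals (a : Fin n → ZMod 2) (C : Cl n k) : Prop := ∀ l ∈ C.1, a l.1 ≠ l.2

/-- NOR -/
noncomputable def norOp (m : ℕ → Multiset Bool) : Bool :=
  open Classical in decide (true ∉ m 0)

/-- OR -/
noncomputable def orOp (m : ℕ → Multiset Bool) : Bool :=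
  open Classical in decide (true ∈ m 0)

/-- children -/
noncomputable def bkids : BG n k → Finset (ℕ × BG n k)
  | Sum.inl _ => ∅
  | Sum.inr (Sum.inl a) => open Classical in (univ.filter (fun C : Cl n k => Fals a C)).image
      (fun C => (0, bC C))
  | Sum.inr (Sum.inr _) => univ.image (fun a => (0, bA a))

theorem mem_bkids_C (C : Cl n k) (p : ℕ × BG n k) : p ∈ bkids (bC C) ↔ False := by
  show p ∈ (∅ : Finset _) ↔ _
  simp only [notMem_empty]

theorem mem_bkids_A (a : Fin n → ZMod 2) (p : ℕ × BG n k) :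
    p ∈ bkids (bA a) ↔ ∃ C, Fals a C ∧ p = (0, bC C) := by
  classical
  show p ∈ (univ.filter (fun C : Cl n k => Fals a C)).image (fun C => ((0 : ℕ), (bC C : BG n k)))
    ↔ _
  rw [mem_image]
  simp only [mem_filter, mem_univ, true_and, eq_comm (b := p)]

theorem mem_bkids_O (p : ℕ × BG n k) : p ∈ bkids (bO : BG n k) ↔ ∃ a, p = (0, bA a) := by
  show p ∈ univ.image (fun a => ((0 : ℕ), (bA a : BG n k))) ↔ _
  rw [mem_image]
  simp only [mem_univ, true_and, eq_comm (b := p)]

/-- rank -/
def brank : BG n k → ℕ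
  | Sum.inl _ => 0
  | Sum.inr (Sum.inl _) => 1
  | Sum.inr (Sum.inr _) => 2

/-- labels -/
noncomputable def blab : BG n k → Cl n k ⊕ ((ℕ → Multiset Bool) → Bool)
  | Sum.inl C => Sum.inl C
  | Sum.inr (Sum.inl _) => Sum.inr norOp
  | Sum.inr (Sum.inr _) => Sum.inr orOp

variable (n k)

/-- the brute force circuit -/
noncomputable def brute : Circuit Bool (Cl n k) where
  Gate := BG n k
  fin := inferInstance
  rank := brank
  lab := blab
  kids := bkids
  out := bO
  rank_lt := by
    intro g p hp
    rcases g with C | a | u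
    · rw [mem_bkids_C] at hp
      exact absurd hp id
    · obtain ⟨C, _, rfl⟩ := (mem_bkids_A a p).1 hp
      exact Nat.zero_lt_one
    · obtain ⟨a, rfl⟩ := (mem_bkids_O p).1 hp
      exact Nat.one_lt_two

variable {n k}

theorem brute_decides (m : ℕ) : DecidesSat (brute n k) false true {true} m := by
  classical
  intro φ _
  rw [Set.mem_singleton_iff]
  obtain ⟨V, hV⟩ : ∃ V : BG n k → Bool, V = (brute n k).val (inp false true φ) := ⟨_, rfl⟩
  have hVC : ∀ C, V (bC C) = true ↔ C ∈ φ := by
    intro C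
    rw [hV]
    have h1 : (brute n k).val (inp false true φ) (bC C : BG n k) = inp false true φ C :=
      (brute n k).val_inl _ _ C rfl
    refine (Eq.congr_left h1).trans ?_
    unfold inp
    by_cases h : C ∈ φ
    · rw [if_pos h]; exact ⟨fun _ => h, fun _ => rfl⟩
    · rw [if_neg h]; exact ⟨fun h' => Bool.noConfusion h', fun h' => absurd h' h⟩
  have hVA : ∀ a, V (bA a) = true ↔ ∀ C ∈ φ, ∃ l ∈ C.1, a l.1 = l.2 := by
    intro a
    have h1 : V (bA a) = norOp fun r => ((bkids (bA a : BG n k)).filter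
        (fun p => p.1 = r)).val.map (fun p => V p.2) := by
      rw [hV]
      exact (brute n k).val_inr _ (bA a : BG n k) norOp rfl
    rw [h1]
    unfold norOp
    rw [decide_eq_true_iff, Multiset.mem_map]
    constructor
    · intro h C hC
      by_contra hcon
      push Not at hcon
      apply h
      refine ⟨(0, bC C), ?_, (hVC C).2 hC⟩
      rw [mem_val, mem_filter]
      exact ⟨(mem_bkids_A a _).2 ⟨C, hcon, rfl⟩, rfl⟩
    · rintro h ⟨p, hp, hv⟩
      rw [mem_val, mem_filter] at hp
      obtain ⟨C, hC, rfl⟩ := (mem_bkids_A a p).1 hp.1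
      obtain ⟨l, hl, hal⟩ := h C ((hVC C).1 hv)
      exact hC l hl hal
  have hVO : V bO = true ↔ ∃ a, V (bA a) = true := by
    have h1 : V bO = orOp fun r => ((bkids (bO : BG n k)).filter
        (fun p => p.1 = r)).val.map (fun p => V p.2) := by
      rw [hV]
      exact (brute n k).val_inr _ (bO : BG n k) orOp rfl
    rw [h1]
    unfold orOp
    rw [decide_eq_true_iff, Multiset.mem_map]
    constructor
    · rintro ⟨p, hp, hv⟩
      rw [mem_val, mem_filter] at hp
      obtain ⟨a, rfl⟩ := (mem_bkids_O p).1 hp.1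
      exact ⟨a, hv⟩
    · rintro ⟨a, ha⟩
      refine ⟨(0, bA a), ?_, ha⟩
      rw [mem_val, mem_filter]
      exact ⟨(mem_bkids_O _).2 ⟨a, rfl⟩, rfl⟩
  have h2 : (brute n k).val (inp false true φ) (brute n k).out = V bO := by rw [hV]; rfl
  rw [h2, hVO]
  unfold Satisfiable
  simp only [hVA]

/-- rename the variables of an assignment by `π` and negate those with `f v = 1` -/
def actA (π : Equiv.Perm (Fin n)) (f : Fin n → ZMod 2) : Equiv.Perm (Fin n → ZMod 2) where
  toFun a := fun i => a (π⁻¹ i) + f (π⁻¹ i)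
  invFun a := fun i => a (π i) + f i
  left_inv a := by
    funext i
    show a (π⁻¹ (π i)) + f (π⁻¹ (π i)) + f i = a i
    rw [pinv_apply, add_assoc, z2_self, add_zero]
  right_inv a := by
    funext i
    show a (π (π⁻¹ i)) + f (π⁻¹ i) + f (π⁻¹ i) = a i
    rw [papply_inv, add_assoc, z2_self, add_zero]

theorem ren_ren_inv (π : Equiv.Perm (Fin n)) (f : Fin n → ZMod 2) (C : Cl n k) :
    ren π f (ren π⁻¹ (fun i => f (π⁻¹ i)) C) = C := by
  have h := congrFun (ren_comp (k := k) π π⁻¹ f (fun i => f (π⁻¹ i))) C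
  have h2 : (fun i => (fun i => f (π⁻¹ i)) i + f (π⁻¹ i)) = (0 : Fin n → ZMod 2) := by
    funext i
    exact z2_self _
  rw [h2, mul_inv_cancel, ren_one] at h
  exact h

theorem ren_inv_ren (π : Equiv.Perm (Fin n)) (f : Fin n → ZMod 2) (C : Cl n k) :
    ren π⁻¹ (fun i => f (π⁻¹ i)) (ren π f C) = C := by
  have h := congrFun (ren_comp (k := k) π⁻¹ π (fun i => f (π⁻¹ i)) f) C
  have h2 : (fun i => f i + (fun i => f (π⁻¹ i)) (π i)) = (0 : Fin n → ZMod 2) := by
    funext i
    show f i + f (π⁻¹ (π i)) = 0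
    rw [pinv_apply]
    exact z2_self _
  rw [h2, inv_mul_cancel, ren_one] at h
  exact h

/-- renaming and negating as a permutation of the clauses -/
def actC (π : Equiv.Perm (Fin n)) (f : Fin n → ZMod 2) : Equiv.Perm (Cl n k) where
  toFun := ren π f
  invFun := ren π⁻¹ (fun i => f (π⁻¹ i))
  left_inv C := ren_inv_ren π f C
  right_inv C := ren_ren_inv π f C

theorem fals_act (π : Equiv.Perm (Fin n)) (f : Fin n → ZMod 2) (a : Fin n → ZMod 2) (C : Cl n k) :
    Fals (actA π f a) (ren π f C) ↔ Fals a C := by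
  unfold Fals
  have key : ∀ l : Lit n, actA π f a (π l.1) = l.2 + f l.1 ↔ a l.1 = l.2 := by
    intro l
    show a (π⁻¹ (π l.1)) + f (π⁻¹ (π l.1)) = l.2 + f l.1 ↔ _
    rw [pinv_apply, add_left_inj]
  constructor
  · intro h l hl heq
    exact h (π l.1, l.2 + f l.1) (mem_image_of_mem (fun l : Lit n => (π l.1, l.2 + f l.1)) hl)
      ((key l).2 heq)
  · intro h l hl heq
    obtain ⟨l', hl', rfl⟩ := mem_image.1 hl
    exact h l' hl' ((key l').1 heq)

/-- the automorphism of the brute force circuit -/
def baut (π : Equiv.Perm (Fin n)) (f : Fin n → ZMod 2) : Equiv.Perm (BG n k) :=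
  Equiv.sumCongr (actC π f) (Equiv.sumCongr (actA π f) (Equiv.refl Unit))

theorem baut_kids (π : Equiv.Perm (Fin n)) (f : Fin n → ZMod 2) (g h : BG n k) (r : ℕ) :
    (r, baut π f h) ∈ bkids (baut π f g) ↔ (r, h) ∈ bkids g := by
  rcases g with C | a | u
  · show _ ∈ bkids (bC (ren π f C)) ↔ _
    rw [mem_bkids_C, mem_bkids_C]
  · show _ ∈ bkids (bA (actA π f a)) ↔ _
    rw [mem_bkids_A, mem_bkids_A]
    constructor
    · rintro ⟨E, hE, heq⟩
      have h1 := Prod.ext_iff.1 heq
      have hr : r = 0 := h1.1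
      have h2 : baut π f h = bC E := h1.2
      rcases h with D | b | v
      · have h3 : ren π f D = E := Sum.inl.inj h2
        subst h3
        exact ⟨D, (fals_act π f a D).1 hE, by rw [hr]⟩
      · cases h2
      · cases h2
    · rintro ⟨E, hE, heq⟩
      have h1 := Prod.ext_iff.1 heq
      have hr : r = 0 := h1.1
      have h2 : h = bC E := h1.2
      subst hr h2
      exact ⟨ren π f E, (fals_act π f a E).2 hE, rfl⟩
  · show _ ∈ bkids (bO : BG n k) ↔ _ ∈ bkids (bO : BG n k)
    rw [mem_bkids_O, mem_bkids_O]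
    constructor
    · rintro ⟨b, heq⟩
      have h1 := Prod.ext_iff.1 heq
      have hr : r = 0 := h1.1
      have h2 : baut π f h = bA b := h1.2
      rcases h with D | b' | v
      · cases h2
      · exact ⟨b', by rw [hr]⟩
      · cases h2
    · rintro ⟨b, heq⟩
      have h1 := Prod.ext_iff.1 heq
      have hr : r = 0 := h1.1
      have h2 : h = bA b := h1.2
      subst hr h2
      exact ⟨actA π f b, rfl⟩

theorem brute_sym : SymSat (brute n k) := by
  intro π f
  refine ⟨baut π f, rfl, ?_, fun g r h => baut_kids π f g h r⟩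
  rintro (C | a | u) <;> rfl

theorem card_sub {α : Type} [Fintype α] [DecidableEq α] (k : ℕ) :
    Fintype.card {C : Finset α // C.card ≤ k} ≤ (Fintype.card α + 1) ^ k := by
  have h1 : Fintype.card (Fin k → Option α) = (Fintype.card α + 1) ^ k := by
    rw [Fintype.card_fun, Fintype.card_option, Fintype.card_fin]
  rw [← h1]
  have hc : ∀ F : Fin k → Option α, (univ.biUnion (fun i => (F i).toFinset)).card ≤ k := by
    intro F
    refine card_biUnion_le.trans ?_
    calc ∑ i : Fin k, ((F i).toFinset).card ≤ ∑ _i : Fin k, 1 :=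
          sum_le_sum fun i _ => by cases F i <;> simp
      _ = k := by simp
  refine Fintype.card_le_of_surjective (fun F : Fin k → Option α =>
    (⟨univ.biUnion (fun i => (F i).toFinset), hc F⟩ : {C : Finset α // C.card ≤ k})) ?_
  rintro ⟨s, hs⟩
  refine ⟨fun i => s.toList[(i : ℕ)]?, ?_⟩
  apply Subtype.ext
  show univ.biUnion (fun i : Fin k => (s.toList[(i : ℕ)]?).toFinset) = s
  ext x
  rw [mem_biUnion]
  constructor
  · rintro ⟨i, _, hi⟩
    rw [Option.mem_toFinset] at hi
    have h2 : x ∈ s.toList := List.mem_of_getElem? hi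
    rwa [mem_toList] at h2
  · intro hx
    rw [← mem_toList] at hx
    obtain ⟨i, hi, rfl⟩ := List.mem_iff_getElem.1 hx
    have hi' : i < k := by
      rw [length_toList] at hi
      omega
    refine ⟨⟨i, hi'⟩, mem_univ _, ?_⟩
    rw [Option.mem_toFinset]
    exact List.getElem?_eq_getElem hi

theorem brute_card : @Fintype.card (brute n k).Gate (brute n k).fin ≤
    2 ^ n + (2 * n + 1) ^ k + 1 := by
  have h0 : @Fintype.card (brute n k).Gate (brute n k).fin = Fintype.card (BG n k) := rfl
  rw [h0, Fintype.card_sum, Fintype.card_sum, Fintype.card_fun, ZMod.card, Fintype.card_fin,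
    Fintype.card_unit]
  have h1 : Fintype.card (Cl n k) ≤ (Fintype.card (Lit n) + 1) ^ k := card_sub k
  have h2 : Fintype.card (Lit n) = 2 * n := by
    rw [Fintype.card_prod, Fintype.card_fin, ZMod.card, mul_comm]
  rw [h2] at h1
  omega

end

end Pool.Agent.T9h47.SE
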