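import Mathlib
import Pool.Agent.T9h47.SE.Twist
import Pool.Agent.T9h47.SC.Circ

/-!
# Circuits symmetric under an action of the signed permutations
-/

set_option autoImplicit false
set_option linter.unusedSectionVars false

namespace Pool.Agent.T9h47.SE

open Finset
open Pool.Agent.T9h47.SC

/-- an action of the signed permutations -/
structure Act (h : ℕ) (I : Type) where
  /-- the action -/
  r : Equiv.Perm (Fin h) → (Fin h → ZMod 2) → I → I
  /-- the composition -/
  comp : ∀ π π' f f', r π f ∘ r π' f' = r (π * π') (fun i => f' i + f (π' i))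
  /-- the identity -/
  one : r 1 0 = id

namespace Act

variable {h : ℕ} {I : Type} (A : Act h I)

theorem flip_flip (f f' : Fin h → ZMod 2) : A.r 1 f ∘ A.r 1 f' = A.r 1 (f + f') := by
  rw [A.comp, one_mul]
  congr 1
  funext i
  exact add_comm _ _

theorem flip_self (f : Fin h → ZMod 2) : A.r 1 f ∘ A.r 1 f = id := by
  rw [A.flip_flip, vec_self, A.one]

theorem conj (π : Equiv.Perm (Fin h)) (f : Fin h → ZMod 2) :
    A.r π⁻¹ 0 ∘ (A.r 1 f ∘ A.r π 0) = A.r 1 (fun i => f (π i)) := by
  rw [A.comp, A.comp, one_mul, inv_mul_cancel]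
  congr 1
  funext i
  show 0 + f (π i) + 0 = f (π i)
  rw [zero_add, add_zero]

theorem inv (π : Equiv.Perm (Fin h)) : A.r π⁻¹ 0 ∘ A.r π 0 = id := by
  rw [A.comp, inv_mul_cancel]
  have h1 : (fun i => (0 : Fin h → ZMod 2) i + (0 : Fin h → ZMod 2) (π i)) = 0 := by
    funext i
    exact add_zero _
  rw [h1, A.one]

variable {K : Type} (C : Circuit K I) {r : ℕ} (col : Fin h → Fin r)

/-- the circuit is symmetric under the signed permutations which preserve the colours -/
def Sym : Prop := ∀ (π : Equiv.Perm (Fin h)) (f : Fin h → ZMod 2), (∀ i, col (π i) = col i) →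
  ∃ α, C.IsAut (A.r π f) α

/-- the flips which fix a gate -/
def ZZ (g : C.Gate) : Submodule (ZMod 2) (Fin h → ZMod 2) where
  carrier := {f | ∃ α, C.IsAut (A.r 1 f) α ∧ α g = g}
  zero_mem' := ⟨1, by rw [A.one]; exact Circuit.IsAut.one C, rfl⟩
  add_mem' := by
    rintro f f' ⟨α, h1, h2⟩ ⟨α', h1', h2'⟩
    refine ⟨α * α', ?_, ?_⟩
    · rw [← A.flip_flip]; exact h1.mul h1'
    · rw [Equiv.Perm.mul_apply, h2', h2]
  smul_mem' := by
    rintro c f ⟨α, h1, h2⟩
    rcases z2_cases c with rfl | rfl
    · rw [zero_smul]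
      exact ⟨1, by rw [A.one]; exact Circuit.IsAut.one C, rfl⟩
    · rw [one_smul]
      exact ⟨α, h1, h2⟩

theorem mem_ZZ {g : C.Gate} {f : Fin h → ZMod 2} :
    f ∈ A.ZZ C g ↔ ∃ α, C.IsAut (A.r 1 f) α ∧ α g = g := Iff.rfl

theorem ZZ_flip {f : Fin h → ZMod 2} {α : Equiv.Perm C.Gate} (hα : C.IsAut (A.r 1 f) α)
    (g : C.Gate) : A.ZZ C (α g) = A.ZZ C g := by
  have key : ∀ {f : Fin h → ZMod 2} {α : Equiv.Perm C.Gate}, C.IsAut (A.r 1 f) α → ∀ g,
      A.ZZ C g ≤ A.ZZ C (α g) := by
    intro f α hα g f' hf'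
    rw [mem_ZZ] at hf' ⊢
    obtain ⟨β, hβ1, hβ2⟩ := hf'
    refine ⟨α * β * α⁻¹, ?_, ?_⟩
    · have h1 : A.r 1 f' = (A.r 1 f ∘ A.r 1 f') ∘ A.r 1 f := by
        rw [A.flip_flip, A.flip_flip, add_comm f f', add_assoc, vec_self, add_zero]
      rw [h1]
      exact (hα.mul hβ1).mul (hα.inv (A.flip_self f))
    · rw [Equiv.Perm.mul_apply, Equiv.Perm.mul_apply, pinv_apply, hβ2]
  refine le_antisymm ?_ (key hα g)
  have h2 := key (hα.inv (A.flip_self f)) (α g)
  rwa [pinv_apply] at h2

theorem ZZ_perm {π : Equiv.Perm (Fin h)} {α : Equiv.Perm C.Gate} (hα : C.IsAut (A.r π 0) α)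
    (g : C.Gate) (f : Fin h → ZMod 2) (hf : f ∈ A.ZZ C (α g)) :
    (fun i => f (π i)) ∈ A.ZZ C g := by
  rw [mem_ZZ] at hf ⊢
  obtain ⟨β, hβ1, hβ2⟩ := hf
  refine ⟨α⁻¹ * (β * α), ?_, ?_⟩
  · rw [← A.conj]
    exact (hα.inv (A.inv π)).mul (hβ1.mul hα)
  · rw [Equiv.Perm.mul_apply, Equiv.Perm.mul_apply, hβ2, pinv_apply]

/-- number of gates of a given kind -/
theorem card_kind (hS : A.Sym C col) [Fintype C.Gate] [DecidableEq C.Gate] (g : C.Gate) :
    Nat.card (perp (A.ZZ C g)) ≤
      (open Classical in (univ.filter (fun g' => A.ZZ C g' = A.ZZ C g)).card) := by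
  classical
  choose al hal using fun f => hS 1 f (fun _ => rfl)
  have hZpos : 0 < Nat.card (A.ZZ C g) := Nat.card_pos
  have h1 : Fintype.card (Fin h → ZMod 2) ≤
      (univ.filter (fun g' => A.ZZ C g' = A.ZZ C g)).card * Nat.card (A.ZZ C g) := by
    have h2 := card_le_mul_card_image_of_maps_to (s := (univ : Finset (Fin h → ZMod 2)))
      (t := univ.filter (fun g' => A.ZZ C g' = A.ZZ C g)) (f := fun f => al f g) (by
        intro f _
        rw [mem_filter]
        exact ⟨mem_univ _, A.ZZ_flip C (hal f) g⟩) (Nat.card (A.ZZ C g)) (by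
        intro g' _
        by_cases hne : (univ.filter (fun f => al f g = g')).Nonempty
        · obtain ⟨f₀, hf₀⟩ := hne
          rw [mem_filter] at hf₀
          have h5 : (univ.filter (fun f => al f g = g')).card =
              Nat.card (univ.filter (fun f => al f g = g')) := by
            rw [Nat.card_eq_fintype_card, Fintype.card_coe]
          rw [h5]
          refine Nat.card_le_card_of_injective
            (fun f => (⟨f.1 + f₀, (al f.1)⁻¹ * al f₀, ?_, ?_⟩ : A.ZZ C g)) ?_
          · rw [← A.flip_flip]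
            exact ((hal f.1).inv (A.flip_self f.1)).mul (hal f₀)
          · have h6 := (mem_filter.1 f.2).2
            rw [Equiv.Perm.mul_apply, Equiv.Perm.inv_eq_iff_eq, hf₀.2, h6]
          · intro f f' hff
            have h6 : f.1 + f₀ = f'.1 + f₀ := congrArg Subtype.val hff
            exact Subtype.ext (add_right_cancel h6)
        · rw [not_nonempty_iff_eq_empty] at hne
          rw [hne, card_empty]
          exact Nat.zero_le _)
    rw [card_univ] at h2
    rw [mul_comm]
    exact h2
  have h3 := card_perp (A.ZZ C g)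
  have h4 : Fintype.card (Fin h → ZMod 2) = 2 ^ Fintype.card (Fin h) := by
    rw [Fintype.card_fun, ZMod.card]
  rw [← h4] at h3
  exact Nat.le_of_mul_le_mul_right (h3.trans h1) hZpos

/-- all vectors which are orthogonal to the flips of some gate -/
noncomputable def WW : Finset (Fin h → ZMod 2) :=
  open Classical in univ.filter (fun u => ∃ g, u ∈ perp (A.ZZ C g))

theorem mem_WW (u : Fin h → ZMod 2) : u ∈ A.WW C ↔ ∃ g, u ∈ perp (A.ZZ C g) := by
  unfold WW
  simp only [mem_filter, mem_univ, true_and]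

theorem card_WW (hS : A.Sym C col) [Fintype C.Gate] : (A.WW C).card ≤ Fintype.card C.Gate := by
  classical
  have h1 : A.WW C ⊆ (univ.image (A.ZZ C)).biUnion
      (fun Z => univ.filter (fun u => u ∈ perp Z)) := by
    intro u hu
    rw [mem_WW] at hu
    obtain ⟨g, hg⟩ := hu
    rw [mem_biUnion]
    exact ⟨A.ZZ C g, mem_image_of_mem _ (mem_univ g), by simpa using hg⟩
  refine (card_le_card h1).trans (card_biUnion_le.trans ?_)
  rw [← card_univ (α := C.Gate), card_eq_sum_card_image (A.ZZ C) univ]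
  refine sum_le_sum fun Z hZ => ?_
  rw [mem_image] at hZ
  obtain ⟨g, _, rfl⟩ := hZ
  have h2 := A.card_kind C col hS g
  have h3 : (univ.filter (fun u => u ∈ perp (A.ZZ C g))).card = Nat.card (perp (A.ZZ C g)) := by
    rw [Nat.card_eq_fintype_card, Fintype.card_subtype]
  rw [h3]
  exact h2

/-- `WW` is closed under swaps. -/
theorem WW_swap (hS : A.Sym C col) (a b : Fin h) (hab : col a = col b) (u : Fin h → ZMod 2)
    (hu : u ∈ A.WW C) : (fun i => u (Equiv.swap a b i)) ∈ A.WW C := by
  rw [mem_WW] at hu ⊢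
  obtain ⟨g, hg⟩ := hu
  obtain ⟨π, hπ⟩ : ∃ π, π = Equiv.swap a b := ⟨_, rfl⟩
  have hππ : ∀ i, π (π i) = i := by
    intro i
    rw [hπ]
    exact Equiv.swap_apply_self a b i
  obtain ⟨α, hα⟩ := hS π 0 (by
    intro i
    rw [hπ]
    by_cases h1 : i = a
    · rw [h1, Equiv.swap_apply_left, hab]
    · by_cases h2 : i = b
      · rw [h2, Equiv.swap_apply_right, hab]
      · rw [Equiv.swap_apply_of_ne_of_ne h1 h2])
  rw [← hπ]
  refine ⟨α g, ?_⟩
  intro f hf
  have h1 := hg _ (A.ZZ_perm C hα g f hf)
  unfold dot at h1 ⊢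
  rw [← Equiv.sum_comp π]
  rw [← h1]
  refine sum_congr rfl fun i _ => ?_
  show u (π (π i)) * f (π i) = u i * f (π i)
  rw [hππ]

/-- Every vector in `WW` is almost constant on the colour classes. -/
theorem class_near (hS : A.Sym C col) [Fintype C.Gate] (u : Fin h → ZMod 2) (hu : u ∈ A.WW C)
    (t : ℕ) (ht : Fintype.card C.Gate < 2 ^ (t + 1)) :
    ∃ x : Fin r → ZMod 2, wt (fun i => u i + x (col i)) ≤ t := by
  classical
  obtain ⟨x, hx⟩ : ∃ x : Fin r → ZMod 2, x = fun c =>
    if (univ.filter (fun i => col i = c ∧ u i = 1)).card ≤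
      (univ.filter (fun i => col i = c ∧ u i = 0)).card then 0 else 1 := ⟨_, rfl⟩
  have hxc : ∀ c, (x c = 0 ∧ (univ.filter (fun i => col i = c ∧ u i = 1)).card ≤
      (univ.filter (fun i => col i = c ∧ u i = 0)).card) ∨
      (x c = 1 ∧ (univ.filter (fun i => col i = c ∧ u i = 0)).card ≤
      (univ.filter (fun i => col i = c ∧ u i = 1)).card) := by
    intro c
    rw [hx]
    by_cases hc : (univ.filter (fun i => col i = c ∧ u i = 1)).card ≤
      (univ.filter (fun i => col i = c ∧ u i = 0)).card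
    · exact Or.inl ⟨if_pos hc, hc⟩
    · exact Or.inr ⟨if_neg hc, (not_le.1 hc).le⟩
  refine ⟨x, ?_⟩
  obtain ⟨M, hM⟩ : ∃ M : Finset (Fin h), M = univ.filter (fun i => u i + x (col i) ≠ 0) :=
    ⟨_, rfl⟩
  have hMm : ∀ i, i ∈ M ↔ u i = x (col i) + 1 := by
    intro i
    rw [hM, mem_filter]
    have h1 : ∀ a b : ZMod 2, a + b ≠ 0 ↔ a = b + 1 := by decide
    rw [h1]
    exact ⟨fun h => h.2, fun h => ⟨mem_univ _, h⟩⟩
  have hMn : ∀ i, i ∉ M ↔ u i = x (col i) := by
    intro i
    rw [hMm]
    have h1 : ∀ a b : ZMod 2, ¬ (a = b + 1) ↔ a = b := by decide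
    exact h1 _ _
  have hle : ∀ c, (univ.filter (fun i => col i = c ∧ i ∈ M)).card ≤
      (univ.filter (fun i => col i = c ∧ i ∉ M)).card := by
    intro c
    have e1 : univ.filter (fun i => col i = c ∧ i ∈ M) =
        univ.filter (fun i => col i = c ∧ u i = x c + 1) := by
      ext i
      rw [mem_filter, mem_filter, hMm]
      constructor
      · rintro ⟨h1, h2, h3⟩; rw [h2] at h3; exact ⟨h1, h2, h3⟩
      · rintro ⟨h1, h2, h3⟩; rw [← h2] at h3; exact ⟨h1, h2, h3⟩
    have e2 : univ.filter (fun i => col i = c ∧ i ∉ M) =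
        univ.filter (fun i => col i = c ∧ u i = x c) := by
      ext i
      rw [mem_filter, mem_filter, hMn]
      constructor
      · rintro ⟨h1, h2, h3⟩; rw [h2] at h3; exact ⟨h1, h2, h3⟩
      · rintro ⟨h1, h2, h3⟩; rw [← h2] at h3; exact ⟨h1, h2, h3⟩
    rw [e1, e2]
    rcases hxc c with ⟨h1, h2⟩ | ⟨h1, h2⟩
    · rw [h1, zero_add]
      exact h2
    · rw [h1]
      have h11 : (1 : ZMod 2) + 1 = 0 := by decide
      rw [h11]
      exact h2
  have hemb : ∀ c, ∃ g : {i // i ∈ univ.filter (fun i => col i = c ∧ i ∈ M)} →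
      {i // i ∈ univ.filter (fun i => col i = c ∧ i ∉ M)}, Function.Injective g := by
    intro c
    obtain ⟨g⟩ := Function.Embedding.nonempty_of_card_le
      (α := {i // i ∈ univ.filter (fun i => col i = c ∧ i ∈ M)})
      (β := {i // i ∈ univ.filter (fun i => col i = c ∧ i ∉ M)}) (by
        rw [Fintype.card_coe, Fintype.card_coe]
        exact hle c)
    exact ⟨g, g.injective⟩
  choose g hg using hemb
  obtain ⟨m, hm⟩ : ∃ m : Fin h → Fin h, m = fun i =>
    if hi : i ∈ M then (g (col i) ⟨i, mem_filter.2 ⟨mem_univ _, rfl, hi⟩⟩).1 else i := ⟨_, rfl⟩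
  have hm1 : ∀ i ∈ M, col (m i) = col i ∧ m i ∉ M := by
    intro i hi
    rw [hm]
    show col (if hi : i ∈ M then _ else i) = col i ∧ (if hi : i ∈ M then _ else i) ∉ M
    rw [dif_pos hi]
    exact (mem_filter.1 (g (col i) ⟨i, mem_filter.2 ⟨mem_univ _, rfl, hi⟩⟩).2).2
  have hm2 : ∀ i ∈ M, ∀ j ∈ M, m i = m j → i = j := by
    intro i hi j hj hij
    have hc : col i = col j := by
      rw [← (hm1 i hi).1, ← (hm1 j hj).1, hij]
    have key : ∀ c (hic : col i = c) (hjc : col j = c),
        (g c ⟨i, mem_filter.2 ⟨mem_univ _, hic, hi⟩⟩).1 =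
        (g c ⟨j, mem_filter.2 ⟨mem_univ _, hjc, hj⟩⟩).1 → i = j := by
      intro c hic hjc heq
      have h1 := hg c (Subtype.ext heq)
      exact congrArg Subtype.val h1
    have e1 : m i = (g (col i) ⟨i, mem_filter.2 ⟨mem_univ _, rfl, hi⟩⟩).1 := by
      rw [hm]
      show (if hi : i ∈ M then _ else i) = _
      rw [dif_pos hi]
    have e2 : ∀ c (hjc : col j = c), m j = (g c ⟨j, mem_filter.2 ⟨mem_univ _, hjc, hj⟩⟩).1 := by
      rintro c rfl
      rw [hm]
      show (if hj : j ∈ M then _ else j) = _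
      rw [dif_pos hj]
    refine key (col i) rfl hc.symm ?_
    rw [← e1, ← e2 (col i) hc.symm]
    exact hij
  obtain ⟨us, hus⟩ : ∃ us : Finset (Fin h) → Fin h → ZMod 2, us = fun S i =>
    u i + (if i ∈ S then 1 else 0) + (if ∃ j ∈ S, m j = i then 1 else 0) := ⟨_, rfl⟩
  have husM : ∀ S, S ⊆ M → us S ∈ A.WW C := by
    intro S
    induction S using Finset.induction_on with
    | empty =>
      intro _
      have h1 : us ∅ = u := by
        funext i
        rw [hus]
        simp
      rw [h1]
      exact hu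
    | insert a S ha ih =>
      intro hS'
      have haM : a ∈ M := hS' (mem_insert_self a S)
      have hSM : S ⊆ M := fun i hi => hS' (mem_insert_of_mem hi)
      have h1 := A.WW_swap C col hS a (m a) (hm1 a haM).1.symm _ (ih hSM)
      have h2 : us (insert a S) = fun i => us S (Equiv.swap a (m a) i) := by
        funext i
        rw [hus]
        show u i + (if i ∈ insert a S then 1 else 0) +
          (if ∃ j ∈ insert a S, m j = i then 1 else 0) =
          u (Equiv.swap a (m a) i) + (if Equiv.swap a (m a) i ∈ S then 1 else 0) +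
          (if ∃ j ∈ S, m j = Equiv.swap a (m a) i then 1 else 0)
        have hma : m a ∉ M := (hm1 a haM).2
        have hne : m a ≠ a := fun h => hma (by rw [h]; exact haM)
        by_cases h3 : i = a
        · rw [h3, Equiv.swap_apply_left, if_pos (mem_insert_self a S),
            if_neg (show ¬ ∃ j ∈ insert a S, m j = a from by
              rintro ⟨j, hj, hja⟩
              exact (hm1 j (hS' hj)).2 (by rw [hja]; exact haM)),
            if_neg (fun h => hma (hSM h)),
            if_neg (show ¬ ∃ j ∈ S, m j = m a from by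
              rintro ⟨j, hj, hja⟩
              have h4 := hm2 j (hSM hj) a haM hja
              rw [h4] at hj
              exact ha hj)]
          rw [(hMm a).1 haM, (hMn (m a)).1 hma, (hm1 a haM).1]
          have h5 : ∀ b : ZMod 2, b + 1 + 1 + 0 = b + 0 + 0 := by decide
          exact h5 _
        · by_cases h4 : i = m a
          · rw [h4, Equiv.swap_apply_right, if_neg (show m a ∉ insert a S from by
                rw [mem_insert]
                rintro (h5 | h5)
                · exact hne h5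
                · exact hma (hSM h5)),
              if_pos (show ∃ j ∈ insert a S, m j = m a from ⟨a, mem_insert_self a S, rfl⟩),
              if_neg ha,
              if_neg (show ¬ ∃ j ∈ S, m j = a from by
                rintro ⟨j, hj, hja⟩
                exact (hm1 j (hSM hj)).2 (by rw [hja]; exact haM))]
            rw [(hMm a).1 haM, (hMn (m a)).1 hma, (hm1 a haM).1]
            have h5 : ∀ b : ZMod 2, b + 0 + 1 = b + 1 + 0 + 0 := by decide
            exact h5 _
          · rw [Equiv.swap_apply_of_ne_of_ne h3 h4]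
            have h5 : i ∈ insert a S ↔ i ∈ S := by
              rw [mem_insert]
              exact ⟨fun h => h.resolve_left h3, Or.inr⟩
            have h6 : (∃ j ∈ insert a S, m j = i) ↔ ∃ j ∈ S, m j = i := by
              constructor
              · rintro ⟨j, hj, hji⟩
                rw [mem_insert] at hj
                rcases hj with rfl | hj
                · exact absurd hji.symm h4
                · exact ⟨j, hj, hji⟩
              · rintro ⟨j, hj, hji⟩
                exact ⟨j, mem_insert_of_mem hj, hji⟩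
            simp only [h5, h6]
      rw [h2]
      exact h1
  have hcard : 2 ^ M.card ≤ (A.WW C).card := by
    rw [← card_powerset]
    refine card_le_card_of_injOn us (fun S hS' => husM S (mem_powerset.1 (mem_coe.1 hS'))) ?_
    intro S hS1 S' hS2 heq
    have hS1' := mem_powerset.1 (mem_coe.1 hS1)
    have hS2' := mem_powerset.1 (mem_coe.1 hS2)
    have key : ∀ i ∈ M, (i ∈ S ↔ i ∈ S') := by
      intro i hi
      have h1 := congrFun heq i
      rw [hus] at h1
      have h2 : u i + (if i ∈ S then 1 else 0) + (if ∃ j ∈ S, m j = i then 1 else 0) =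
        u i + (if i ∈ S' then 1 else 0) + (if ∃ j ∈ S', m j = i then 1 else 0) := h1
      rw [if_neg (show ¬ ∃ j ∈ S, m j = i from by
          rintro ⟨j, hj, hji⟩
          exact (hm1 j (hS1' hj)).2 (by rw [hji]; exact hi)),
        if_neg (show ¬ ∃ j ∈ S', m j = i from by
          rintro ⟨j, hj, hji⟩
          exact (hm1 j (hS2' hj)).2 (by rw [hji]; exact hi)), add_zero, add_zero] at h2
      have h3 := add_left_cancel h2
      by_cases h4 : i ∈ S
      · by_cases h5 : i ∈ S'
        · exact ⟨fun _ => h5, fun _ => h4⟩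
        · rw [if_pos h4, if_neg h5] at h3
          exact absurd h3 (by decide)
      · by_cases h5 : i ∈ S'
        · rw [if_neg h4, if_pos h5] at h3
          exact absurd h3 (by decide)
        · exact ⟨fun h => absurd h h4, fun h => absurd h h5⟩
    ext i
    by_cases hi : i ∈ M
    · exact key i hi
    · exact ⟨fun h => absurd (hS1' h) hi, fun h => absurd (hS2' h) hi⟩
  have h1 : 2 ^ M.card < 2 ^ (t + 1) := (hcard.trans (A.card_WW C col hS)).trans_lt ht
  have h2 := (Nat.pow_lt_pow_iff_right (by norm_num : 1 < 2)).1 h1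
  have h3 : wt (fun i => u i + x (col i)) = M.card := by rw [hM]; rfl
  omega

end Act

/-! ### Twists, for an arbitrary additive function -/

section twists

variable {n : ℕ} {V : Type} [Fintype V] [DecidableEq V] (R : V → Finset (Fin n))
  (ph : (V → ZMod 2) → ZMod 2)

/-- `ph` is additive on the vectors which are mapped to `W` -/
def Addv (W : Submodule (ZMod 2) (Fin n → ZMod 2)) : Prop :=
  ∀ y z : V → ZMod 2, tr R y ∈ W → tr R z ∈ W → ph (y + z) = ph y + ph z

/-- good twists -/
def GoodP (Z : Submodule (ZMod 2) (Fin n → ZMod 2)) (c : V → ZMod 2) : Prop :=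
  ∀ y, tr R y ∈ perp Z → dot y c = ph y

theorem tr_zero : tr R (0 : V → ZMod 2) = 0 := by
  funext i
  refine sum_eq_zero fun j _ => ?_
  split_ifs <;> rfl

theorem exists_goodP (Z : Submodule (ZMod 2) (Fin n → ZMod 2)) (hZ : Addv R ph (perp Z)) :
    ∃ c : V → ZMod 2, GoodP R ph Z c := by
  let Y : Submodule (ZMod 2) (V → ZMod 2) :=
    { carrier := {y | tr R y ∈ perp Z}
      zero_mem' := by
        show tr R 0 ∈ perp Z
        rw [tr_zero]
        exact Submodule.zero_mem _
      add_mem' := by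
        intro a b ha hb
        show tr R (a + b) ∈ perp Z
        rw [tr_add]
        exact Submodule.add_mem _ ha hb
      smul_mem' := by
        intro c a ha
        show tr R (c • a) ∈ perp Z
        rcases z2_cases c with rfl | rfl
        · rw [zero_smul, tr_zero]
          exact Submodule.zero_mem _
        · rw [one_smul]; exact ha }
  have hphi0 : ph (0 : V → ZMod 2) = 0 := by
    have h := hZ 0 0 Y.zero_mem' Y.zero_mem'
    rw [add_zero] at h
    rw [h, z2_self]
  let φ : Y →ₗ[ZMod 2] ZMod 2 :=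
    { toFun := fun y => ph y.1
      map_add' := fun y z => hZ _ _ y.2 z.2
      map_smul' := fun c y => by
        show ph (c • y.1) = c * ph y.1
        rcases z2_cases c with rfl | rfl
        · rw [zero_smul, zero_mul]; exact hphi0
        · rw [one_smul, one_mul] }
  obtain ⟨ψ, hψ⟩ := LinearMap.exists_extend φ
  obtain ⟨c, hc⟩ := exists_dot ψ
  refine ⟨c, fun y hy => ?_⟩
  rw [dot_comm, ← hc]
  exact LinearMap.congr_fun hψ (⟨y, hy⟩ : Y)

theorem goodP_add {Z : Submodule (ZMod 2) (Fin n → ZMod 2)} {c : V → ZMod 2}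
    (hc : GoodP R ph Z c) {f : Fin n → ZMod 2} (hf : f ∈ Z) : GoodP R ph Z (c + AA R f) := by
  intro y hy
  rw [dot_add, adj, hy f hf, add_zero]
  exact hc y hy

theorem goodP_inter {Z Z' : Submodule (ZMod 2) (Fin n → ZMod 2)}
    (hZ' : Addv R ph (perp Z')) {c : V → ZMod 2} (hc : GoodP R ph Z c) :
    ∃ f ∈ Z, GoodP R ph Z' (c + AA R f) := by
  obtain ⟨c', hc'⟩ := exists_goodP R ph Z' hZ'
  have h1 : c + c' ∈ Z.map (AA R) ⊔ Z'.map (AA R) := by
    apply mem_of_dual
    intro y hy
    have hy1 : tr R y ∈ perp Z := by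
      intro f hf
      rw [← adj]
      exact hy _ (Submodule.mem_sup_left (Submodule.mem_map_of_mem hf))
    have hy2 : tr R y ∈ perp Z' := by
      intro f hf
      rw [← adj]
      exact hy _ (Submodule.mem_sup_right (Submodule.mem_map_of_mem hf))
    rw [dot_add, hc y hy1, hc' y hy2, z2_self]
  rw [Submodule.mem_sup] at h1
  obtain ⟨_, ⟨f, hf, rfl⟩, _, ⟨f', hf', rfl⟩, h2⟩ := h1
  refine ⟨f, hf, ?_⟩
  have h3 : c + AA R f = c' + AA R f' := by
    have h4 : c + c' + (c' + AA R f) = AA R f + AA R f' + (c' + AA R f) := by rw [h2]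
    have e1 : c + c' + (c' + AA R f) = c + AA R f := by
      rw [add_assoc, ← add_assoc c' c', vec_self, zero_add]
    have e2 : AA R f + AA R f' + (c' + AA R f) = c' + AA R f' := by
      have : AA R f + AA R f' + (c' + AA R f) = c' + AA R f' + (AA R f + AA R f) := by abel
      rw [this, vec_self, add_zero]
    rw [e1, e2] at h4
    exact h4
  rw [h3]
  exact goodP_add R ph hc' hf'

end twists

end Pool.Agent.T9h47.SE
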