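import Mathlib
import Pool.Agent.T9h47.SE.Act

/-!
# Counting gates for circuits with a product of symmetric groups
-/

set_option autoImplicit false
set_option linter.unusedSectionVars false

namespace Pool.Agent.T9h47.SE

open Finset
open Pool.Agent.T9h47.SC

section cnt

variable {h r : ℕ} (col : Fin h → Fin r)

/-- how often the value `a` occurs in the class `c` -/
def cnt (u : Fin h → ZMod 2) (c : Fin r) (a : ZMod 2) : ℕ :=
  (univ.filter (fun j => col j = c ∧ u j = a)).card

theorem cnt_add (u : Fin h → ZMod 2) (c : Fin r) :
    cnt col u c 0 + cnt col u c 1 = (univ.filter (fun j => col j = c)).card := by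
  unfold cnt
  rw [← card_union_of_disjoint]
  · congr 1
    ext j
    rw [mem_union, mem_filter, mem_filter, mem_filter]
    constructor
    · rintro (⟨h1, h2, _⟩ | ⟨h1, h2, _⟩)
      · exact ⟨h1, h2⟩
      · exact ⟨h1, h2⟩
    · rintro ⟨h1, h2⟩
      rcases z2_cases (u j) with h | h
      · exact Or.inl ⟨h1, h2, h⟩
      · exact Or.inr ⟨h1, h2, h⟩
  · rw [disjoint_filter]
    rintro j _ ⟨_, h1⟩ ⟨_, h2⟩
    rw [h1] at h2
    exact absurd h2 (by decide)

theorem cnt_swap (u : Fin h → ZMod 2) (i j : Fin h) (hij : col i = col j) (c : Fin r)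
    (a : ZMod 2) : cnt col (fun k => u (Equiv.swap i j k)) c a = cnt col u c a := by
  unfold cnt
  refine card_equiv (Equiv.swap i j) ?_
  intro k
  rw [mem_filter, mem_filter]
  have h1 : col (Equiv.swap i j k) = col k := by
    by_cases h1 : k = i
    · rw [h1, Equiv.swap_apply_left, hij]
    · by_cases h2 : k = j
      · rw [h2, Equiv.swap_apply_right, hij]
      · rw [Equiv.swap_apply_of_ne_of_ne h1 h2]
  rw [h1]
  constructor
  · rintro ⟨_, h2⟩
    exact ⟨mem_univ _, h2⟩
  · rintro ⟨_, h2⟩
    exact ⟨mem_univ _, h2⟩

end cnt

namespace Act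

variable {h r : ℕ} {I : Type} (A : Act h I) {K : Type} (C : Circuit K I) (col : Fin h → Fin r)

/-- Vectors with the same numbers of ones in the classes belong to `WW` together. -/
theorem WW_cnt (hS : A.Sym C col) (u' : Fin h → ZMod 2) : ∀ (N : ℕ) (u : Fin h → ZMod 2),
    (univ.filter (fun i => u i ≠ u' i)).card ≤ N → u ∈ A.WW C →
    (∀ c a, cnt col u c a = cnt col u' c a) → u' ∈ A.WW C := by
  intro N
  induction N with
  | zero =>
    intro u hN hu _
    have h1 : u = u' := by
      funext i
      by_contra hi
      have h2 : i ∈ univ.filter (fun i => u i ≠ u' i) := mem_filter.2 ⟨mem_univ _, hi⟩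
      rw [card_eq_zero.1 (Nat.le_zero.1 hN)] at h2
      exact absurd h2 (notMem_empty _)
    rw [← h1]
    exact hu
  | succ N ih =>
    intro u hN hu hc
    by_cases hne : ∃ i, u i ≠ u' i
    · obtain ⟨i, hi⟩ := hne
      obtain ⟨j, hj1, hj2, hj3⟩ : ∃ j, col j = col i ∧ u' j = u i ∧ u j ≠ u i := by
        by_contra hcon
        push Not at hcon
        have hsub : univ.filter (fun j => col j = col i ∧ u' j = u i) ⊆
            univ.filter (fun j => col j = col i ∧ u j = u i) := by
          intro j hj
          rw [mem_filter] at hj ⊢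
          exact ⟨hj.1, hj.2.1, hcon j hj.2.1 hj.2.2⟩
        have heq := eq_of_subset_of_card_le hsub (le_of_eq (hc (col i) (u i)))
        have h1 : i ∈ univ.filter (fun j => col j = col i ∧ u j = u i) :=
          mem_filter.2 ⟨mem_univ _, rfl, rfl⟩
        rw [← heq, mem_filter] at h1
        exact hi h1.2.2.symm
      have h3 : ∀ a b : ZMod 2, a ≠ b → a = b + 1 := by decide
      have hji : u j = u' i := by
        rw [h3 _ _ hj3, h3 _ _ (Ne.symm hi)]
      refine ih (fun k => u (Equiv.swap i j k)) ?_ (A.WW_swap C col hS i j hj1.symm u hu) ?_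
      · have hsub : univ.filter (fun k => u (Equiv.swap i j k) ≠ u' k) ⊆
            (univ.filter (fun k => u k ≠ u' k)).erase i := by
          intro k hk
          rw [mem_filter] at hk
          rw [mem_erase, mem_filter]
          by_cases h1 : k = i
          · exfalso
            apply hk.2
            rw [h1, Equiv.swap_apply_left]
            exact hji
          · refine ⟨h1, mem_univ _, ?_⟩
            by_cases h2 : k = j
            · exfalso
              apply hk.2
              rw [h2, Equiv.swap_apply_right]
              exact hj2.symm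
            · have h4 := hk.2
              rw [Equiv.swap_apply_of_ne_of_ne h1 h2] at h4
              exact h4
        have h1 := card_le_card hsub
        have h2 : i ∈ univ.filter (fun k => u k ≠ u' k) := mem_filter.2 ⟨mem_univ _, hi⟩
        have h4 := card_erase_of_mem h2
        omega
      · intro c a
        rw [cnt_swap col u i j hj1.symm]
        exact hc c a
    · push Not at hne
      have h1 : u = u' := funext hne
      rw [← h1]
      exact hu

/-- **Counting.** -/
theorem prod_choose_le (hS : A.Sym C col) [Fintype C.Gate] (u : Fin h → ZMod 2)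
    (hu : u ∈ A.WW C) :
    ∏ c : Fin r, (univ.filter (fun j => col j = c)).card.choose (cnt col u c 1) ≤
      Fintype.card C.Gate := by
  classical
  refine le_trans ?_ (A.card_WW C col hS)
  have h1 : ∏ c : Fin r, (univ.filter (fun j => col j = c)).card.choose (cnt col u c 1) =
      (Fintype.piFinset (fun c : Fin r => powersetCard (cnt col u c 1)
        (univ.filter (fun j => col j = c)))).card := by
    rw [Fintype.card_piFinset]
    refine prod_congr rfl fun c _ => ?_
    rw [card_powersetCard]
  rw [h1]
  have hmem : ∀ F ∈ Fintype.piFinset (fun c : Fin r => powersetCard (cnt col u c 1)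
      (univ.filter (fun j => col j = c))), ∀ c, F c ⊆ univ.filter (fun j => col j = c) ∧
      (F c).card = cnt col u c 1 := by
    intro F hF c
    rw [Fintype.mem_piFinset] at hF
    exact mem_powersetCard.1 (hF c)
  have hFc : ∀ F ∈ Fintype.piFinset (fun c : Fin r => powersetCard (cnt col u c 1)
      (univ.filter (fun j => col j = c))), ∀ c, univ.filter (fun j => col j = c ∧
      (if j ∈ F (col j) then (1 : ZMod 2) else 0) = 1) = F c := by
    intro F hF c
    ext j
    rw [mem_filter]
    constructor
    · rintro ⟨_, h2, h3⟩
      by_contra h4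
      rw [← h2] at h4
      rw [if_neg h4] at h3
      exact absurd h3 (by decide)
    · intro hj
      have h2 : col j = c := (mem_filter.1 ((hmem F hF c).1 hj)).2
      refine ⟨mem_univ _, h2, ?_⟩
      rw [h2, if_pos hj]
  refine card_le_card_of_injOn (fun F i => if i ∈ F (col i) then 1 else 0) ?_ ?_
  · intro F hF
    rw [mem_coe] at hF
    refine A.WW_cnt C col hS _ _ u le_rfl hu ?_
    have h2 : ∀ c, cnt col u c 1 = cnt col (fun i => if i ∈ F (col i) then 1 else 0) c 1 := by
      intro c
      have h3 : cnt col (fun i => if i ∈ F (col i) then (1 : ZMod 2) else 0) c 1 = (F c).card := by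
        unfold cnt
        rw [hFc F hF c]
      rw [h3]
      exact (hmem F hF c).2.symm
    intro c a
    show cnt col u c a = cnt col (fun i => if i ∈ F (col i) then (1 : ZMod 2) else 0) c a
    rcases z2_cases a with rfl | rfl
    · have h3 := cnt_add col u c
      have h4 := cnt_add col (fun i => if i ∈ F (col i) then (1 : ZMod 2) else 0) c
      have h5 := h2 c
      omega
    · exact h2 c
  · intro F hF F' hF' heq
    rw [mem_coe] at hF hF'
    funext c
    rw [← hFc F hF c, ← hFc F' hF' c]
    congr 1
    funext j
    have h2 := congrFun heq j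
    have h3 : (if j ∈ F (col j) then (1 : ZMod 2) else 0) = if j ∈ F' (col j) then 1 else 0 := h2
    rw [h3]

end Act

end Pool.Agent.T9h47.SE
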