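import Mathlib
import Pool.Agent.T9h47.SE.HN
import Pool.Agent.T9h47.SE.Pair4

/-!
# Systems of polynomial equations and sign changes, with an explicit rate
-/

set_option autoImplicit false
set_option linter.unusedSectionVars false

namespace Pool.Agent.T9h47.SE

open Finset
open Pool.Agent.T9h47.SC

/-- restriction of a section to fewer coordinates -/
theorem section_le {N h m : ℕ} (hmh : m ≤ h) (G : AddSubgroup (Fin N → ZMod 2))
    (e : Fin h ↪ Fin N) (ℓ : (Fin h → ZMod 2) → (Fin N → ZMod 2)) (h1 : ∀ f, ℓ f ∈ G)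
    (h2 : ∀ f v, ℓ f (e v) = f v) (h3 : ℓ 0 = 0) (h4 : ∀ f f', ℓ (f + f') = ℓ f + ℓ f') :
    ∃ (e' : Fin m ↪ Fin N) (ℓ' : (Fin m → ZMod 2) → (Fin N → ZMod 2)),
      (∀ f, ℓ' f ∈ G) ∧ (∀ f v, ℓ' f (e' v) = f v) ∧ ℓ' 0 = 0 ∧
      ∀ f f', ℓ' (f + f') = ℓ' f + ℓ' f' := by
  obtain ⟨pad, hpad⟩ : ∃ pad : (Fin m → ZMod 2) → (Fin h → ZMod 2), pad = fun f i =>
    if hi : i.1 < m then f ⟨i.1, hi⟩ else 0 := ⟨_, rfl⟩
  refine ⟨(Fin.castLEEmb hmh).trans e, fun f => ℓ (pad f), fun f => h1 _, ?_, ?_, ?_⟩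
  · intro f v
    show ℓ (pad f) (e (Fin.castLE hmh v)) = f v
    rw [h2, hpad]
    show (if hi : v.1 < m then f ⟨v.1, hi⟩ else 0) = f v
    rw [dif_pos v.2]
  · show ℓ (pad 0) = 0
    have h5 : pad 0 = 0 := by
      rw [hpad]
      funext i
      show (if hi : i.1 < m then (0 : Fin m → ZMod 2) ⟨i.1, hi⟩ else 0) = 0
      split_ifs <;> rfl
    rw [h5, h3]
  · intro f f'
    show ℓ (pad (f + f')) = ℓ (pad f) + ℓ (pad f')
    have h5 : pad (f + f') = pad f + pad f' := by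
      rw [hpad]
      funext i
      show (if hi : i.1 < m then f ⟨i.1, hi⟩ + f' ⟨i.1, hi⟩ else 0) =
        (if hi : i.1 < m then f ⟨i.1, hi⟩ else 0) + (if hi : i.1 < m then f' ⟨i.1, hi⟩ else 0)
      split_ifs
      · rfl
      · rw [add_zero]
    rw [h5, h4]

/-- **Systems of equations and sign changes**, with an explicit rate. -/
theorem hn_rate (K : Type) [Field K] (hK : (2 : K) ≠ 0) (d M N : ℕ)
    (G : AddSubgroup (Fin N → ZMod 2)) (hd : 2 ≤ d) (hG : 2 ^ d ≤ Nat.card G)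
    (hM : 2 * Nat.log 2 (Nat.card G) ≤ M) :
    ∃ (Ω : Type) (_ : Fintype Ω) (_ : Nonempty Ω)
      (P₀ P₁ : Ω → Fin M → MvPolynomial (Fin N) K),
      (∀ ω q, (P₀ ω q).totalDegree ≤ d ∧ (P₁ ω q).totalDegree ≤ d) ∧
      (∀ ω q, MvPolynomial.eval (fun _ => (1 : K)) (P₀ ω q) = 0) ∧
      (∀ (ω : Ω) (A : Type) [CommRing A] [Algebra K A] [Nontrivial A] (z : Fin N → A),
        ∃ q, MvPolynomial.aeval z (P₁ ω q) ≠ 0) ∧
      ∀ C : Circuit K (Coord M N), SymSign C G →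
        (Nat.card {ω // C.val (coefs (P₀ ω)) C.out ≠ C.val (coefs (P₁ ω)) C.out} : ℝ) ≤
          @Fintype.card C.Gate C.fin * (2 ^ (d + 2) * (6 * (Nat.log 2 (Nat.card G) : ℝ) + 3) ^ 4) /
            ((Nat.card G : ℕ) : ℝ) ^ (1 - 29 / (10 * d) : ℝ) * Fintype.card Ω := by
  obtain ⟨h, e₀, ℓ₀, hcard, hℓ₀1, hℓ₀2, hℓ₀3, hℓ₀4⟩ := exists_section G
  rw [hcard] at hG hM ⊢
  rw [Nat.log_pow (by norm_num)] at hM ⊢
  have hdh : d ≤ h := (Nat.pow_le_pow_iff_right (by norm_num)).1 hG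
  obtain ⟨μ, hμ⟩ : ∃ μ, μ = h / d := ⟨_, rfl⟩
  have hμ0 : 0 < μ := by rw [hμ]; exact Nat.div_pos hdh (by omega)
  have hNh : μ * d ≤ h := by rw [hμ]; exact Nat.div_mul_le_self h d
  have hμ2 : 2 * μ ≤ μ * d := by
    rw [mul_comm]
    exact Nat.mul_le_mul_left μ hd
  obtain ⟨e, ℓ, hℓ1, hℓ2, hℓ3, hℓ4⟩ := section_le hNh G e₀ ℓ₀ hℓ₀1 hℓ₀2 hℓ₀3 hℓ₀4
  obtain ⟨R, c, hR, hc, hC⟩ := gauge_rate d μ hμ0
  obtain ⟨ι⟩ : Nonempty (Fin (2 * μ) ⊕ Fin (μ * d) ↪ Fin M) :=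
    Function.Embedding.nonempty_of_card_le (by
      rw [Fintype.card_sum, Fintype.card_fin, Fintype.card_fin, Fintype.card_fin]
      omega)
  have hmax : max d 2 = d := max_eq_left hd
  refine ⟨Equiv.Perm (Fin (μ * d) × Bool), inferInstance, inferInstance,
    fun π => psys e ι (R π) 0, fun π => psys e ι (R π) (c π),
    fun π q => ⟨?_, ?_⟩, fun π q => ?_, fun π A _ _ _ z => ?_, fun C hS => ?_⟩
  · have h1 := psys_degree (K := K) e ι (R π) 0 d (hR π) q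
    rwa [hmax] at h1
  · have h1 := psys_degree (K := K) e ι (R π) (c π) d (hR π) q
    rwa [hmax] at h1
  · exact psys_sat e ι _ q
  · by_contra hcon
    push Not at hcon
    exact psys_unsat e ι _ hK (c π) (hc π) z hcon
  · have h1 := hC K (Coord M N) C (fun f => signs (ℓ f)) (by rw [hℓ3]; exact signs_zero)
      (fun f f' => by rw [hℓ4]; exact signs_add _ _) (fun f => hS _ (hℓ1 f))
      (fun π c => coefs (psys e ι (R π) c))
      (fun π => gauge_psys e ι (R π) ℓ hℓ2)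
    have h3 : Fintype.card (Equiv.Perm (Fin (μ * d) × Bool)) = (2 * (μ * d)).factorial := by
      rw [Fintype.card_perm, Fintype.card_prod, Fintype.card_fin, Fintype.card_bool, mul_comm]
    have h4 : (((2 ^ h : ℕ) : ℝ)) ^ (1 - 29 / (10 * d) : ℝ) =
        (2 : ℝ) ^ ((1 - 29 / (10 * d) : ℝ) * h) := by
      push_cast
      rw [← Real.rpow_natCast, ← Real.rpow_mul (by norm_num), mul_comm]
    rw [h3, h4]
    apply rate_num d h (by omega) _ _ _ (Nat.cast_nonneg _) (Nat.cast_nonneg _)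
    rw [← hμ]
    exact h1

end Pool.Agent.T9h47.SE
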