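import Mathlib
import Pool.Agent.T9h47.SE.Act
import Pool.Agent.T9h47.SE.Restr

/-!
# Circuits which are symmetric on some of the variables cannot see the charge of a linear system
-/

set_option autoImplicit false
set_option linter.unusedSectionVars false

namespace Pool.Agent.T9h47.SE

open Finset
open Pool.Agent.T9h47.SC

section emb

variable {n h : ℕ} (e : Fin h ↪ Fin n)

theorem range_cases (i : Fin n) : (∃ v, i = e v) ∨ i ∉ Set.range e := by
  by_cases hi : i ∈ Set.range e
  · obtain ⟨v, rfl⟩ := hi
    exact Or.inl ⟨v, rfl⟩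
  · exact Or.inr hi

theorem extP_mul (π π' : Equiv.Perm (Fin h)) : extP e π * extP e π' = extP e (π * π') := by
  ext i
  congr 1
  rw [Equiv.Perm.mul_apply]
  rcases range_cases e i with ⟨v, rfl⟩ | hi
  · rw [extP_apply, extP_apply, extP_apply]
    rfl
  · rw [extP_not e π' i hi, extP_not e π i hi, extP_not e _ i hi]

theorem extP_one : extP e (1 : Equiv.Perm (Fin h)) = 1 := by
  ext i
  congr 1
  rcases range_cases e i with ⟨v, rfl⟩ | hi
  · rw [extP_apply]
    rfl
  · rw [extP_not e _ i hi]
    rfl

theorem extF_comp (π' : Equiv.Perm (Fin h)) (f f' : Fin h → ZMod 2) :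
    (fun i => extF e f' i + extF e f (extP e π' i)) = extF e (fun i => f' i + f (π' i)) := by
  funext i
  rcases range_cases e i with ⟨v, rfl⟩ | hi
  · rw [extP_apply, extF_apply, extF_apply, extF_apply]
  · rw [extP_not e _ i hi, extF_not e _ i hi, extF_not e _ i hi, extF_not e _ i hi, add_zero]

theorem extF_zero : extF e (0 : Fin h → ZMod 2) = 0 := by
  funext i
  rcases range_cases e i with ⟨v, rfl⟩ | hi
  · rw [extF_apply]
    rfl
  · rw [extF_not e _ i hi]
    rfl

/-- the action of the signed permutations of some of the variables on the clauses -/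
noncomputable def act (k : ℕ) : Act h (Cl n k) where
  r π f := ren (extP e π) (extF e f)
  comp π π' f f' := by
    rw [ren_comp, extP_mul, extF_comp]
  one := by
    rw [extP_one, extF_zero, ren_one]

end emb

section

variable {n k h : ℕ} (e : Fin h ↪ Fin n) {V : Type} [Fintype V] [DecidableEq V]
  (R : V → Finset (Fin n)) (hR : ∀ j, (R j).card ≤ k)

/-- the restriction of the rows -/
def RH (j : V) : Finset (Fin h) := univ.filter (fun i => e i ∈ R j)

theorem mem_RH (j : V) (i : Fin h) : i ∈ RH e R j ↔ e i ∈ R j := by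
  unfold RH
  rw [mem_filter]
  exact ⟨fun h => h.2, fun h => ⟨mem_univ _, h⟩⟩

theorem tr_RH (y : V → ZMod 2) (i : Fin h) : tr (RH e R) y i = tr R y (e i) := by
  unfold tr
  refine sum_congr rfl fun j _ => ?_
  simp only [mem_RH]

theorem AA_RH (f : Fin h → ZMod 2) : AA (RH e R) f = AA R (extF e f) := by
  funext j
  rw [AA_apply, AA_apply]
  have h1 : ∑ i ∈ RH e R j, f i = ∑ i ∈ (RH e R j).map e, extF e f i := by
    rw [sum_map]
    exact sum_congr rfl fun i _ => (extF_apply e f i).symm
  rw [h1]
  refine sum_subset ?_ ?_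
  · intro i hi
    rw [mem_map] at hi
    obtain ⟨v, hv, rfl⟩ := hi
    exact (mem_RH e R j v).1 hv
  · intro i hi hni
    apply extF_not
    rintro ⟨v, rfl⟩
    apply hni
    rw [mem_map' e, mem_RH]
    exact hi

include hR in
/-- **Indistinguishability.** -/
theorem indist2 {K : Type} (C : Circuit K (Cl n k)) (b₀ b₁ : K) (ph : (V → ZMod 2) → ZMod 2)
    (hadd : ∀ g, Addv (RH e R) ph (perp ((act e k).ZZ C g)))
    (hunit : ∀ j, ph (Pi.single j 1) = 0) (c₀ : V → ZMod 2) :
    ∃ c : V → ZMod 2, (∀ y, tr R y = 0 → dot y c = ph y) ∧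
      C.val (inp b₀ b₁ (sys R hR (c₀ + c))) C.out = C.val (inp b₀ b₁ (sys R hR c₀)) C.out := by
  classical
  obtain ⟨x, hx⟩ : ∃ x : (V → ZMod 2) → Cl n k → K,
    x = fun c => inp b₀ b₁ (sys R hR (c₀ + c)) := ⟨_, rfl⟩
  have hxc : ∀ c, x c = inp b₀ b₁ (sys R hR (c₀ + c)) := by intro c; rw [hx]
  have hfl : ∀ (c : V → ZMod 2) (f : Fin h → ZMod 2),
      x (c + AA (RH e R) f) ∘ (act e k).r 1 f = x c := by
    intro c f
    funext D
    rw [hxc, hxc, AA_RH]
    show inp b₀ b₁ (sys R hR (c₀ + (c + AA R (extF e f)))) (ren (extP e 1) (extF e f) D) =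
      inp b₀ b₁ (sys R hR (c₀ + c)) D
    rw [extP_one, ← add_assoc]
    unfold inp
    simp only [ren_sys R hR (extF e f) (c₀ + c) D]
  have main := indist_abs C (x 0) x ((act e k).ZZ C) (GoodP (RH e R) ph) (by
      intro g c g' hg
      obtain ⟨f, hf, hgood⟩ := goodP_inter (RH e R) ph (hadd g') hg
      obtain ⟨α, hα, hαg⟩ := hf
      exact ⟨c + AA (RH e R) f, (act e k).r 1 f, α, hgood, hα, hαg, hfl c f,
        fun h' => (act e k).ZZ_flip C hα h'⟩)
    (by
      intro g D c hl hg
      rw [hxc, hxc]
      by_contra hne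
      have hj : ∃ j a, D = cl R hR j a ∧ c j ≠ 0 := by
        by_contra hcon
        push Not at hcon
        apply hne
        have hiff : D ∈ sys R hR (c₀ + c) ↔ D ∈ sys R hR (c₀ + 0) := by
          rw [mem_sys, mem_sys]
          constructor
          · rintro ⟨j, a, h1, h2⟩
            refine ⟨j, a, h1, ?_⟩
            intro h3
            apply h2
            rw [h3]
            show c₀ j + 0 = c₀ j + c j
            rw [hcon j a h1]
          · rintro ⟨j, a, h1, h2⟩
            refine ⟨j, a, h1, ?_⟩
            intro h3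
            apply h2
            rw [h3]
            show c₀ j + c j = c₀ j + 0
            rw [hcon j a h1]
        unfold inp
        simp only [hiff]
      obtain ⟨j, a, rfl, hcj⟩ := hj
      apply hcj
      have h1 : tr (RH e R) (Pi.single j 1) ∈ perp ((act e k).ZZ C g) := by
        intro f hf
        obtain ⟨α, hα, hαg⟩ := hf
        have h2 := hα.lab g
        rw [hαg, hl] at h2
        have h3 : cl R hR j a = ren (extP e 1) (extF e f) (cl R hR j a) := Sum.inl.inj h2
        rw [extP_one] at h3
        have h4 := cl_inj R hR (extF e f) j a h3.symm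
        rw [tr_single]
        unfold dot
        refine sum_eq_zero fun i _ => ?_
        by_cases hi : i ∈ RH e R j
        · have h5 := h4 (e i) ((mem_RH e R j i).1 hi)
          rw [extF_apply] at h5
          rw [h5, mul_zero]
        · show (if i ∈ RH e R j then (1 : ZMod 2) else 0) * f i = 0
          rw [if_neg hi, zero_mul]
      have h2 := hg _ h1
      rw [dot_single, hunit] at h2
      exact h2)
  obtain ⟨c, hc⟩ := exists_goodP (RH e R) ph _ (hadd C.out)
  refine ⟨c, ?_, ?_⟩
  · intro y hy
    refine hc y ?_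
    have h1 : tr (RH e R) y = 0 := by
      funext i
      rw [tr_RH, hy]
      rfl
    rw [h1]
    exact Submodule.zero_mem _
  · have h1 := main (C.rank C.out + 1) C.out (Nat.lt_succ_self _) c hc
    rw [hxc, hxc, add_zero] at h1
    exact h1

/-- A system all of whose linear dependencies are trivial for the right hand side has a
solution. -/
theorem mem_range (c : V → ZMod 2) (hc : ∀ y, tr R y = 0 → dot y c = 0) :
    ∃ a, AA R a = c := by
  have h1 : c ∈ LinearMap.range (AA R) := by
    apply mem_of_dual
    intro y hy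
    apply hc
    funext i
    have h2 := hy _ (LinearMap.mem_range_self (AA R) (Pi.single i 1))
    rw [adj] at h2
    have h3 : dot (tr R y) (Pi.single i 1) = tr R y i := by
      rw [dot_comm, dot_single]
    rw [h3] at h2
    exact h2
  exact h1

end

end Pool.Agent.T9h47.SE
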