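import Mathlib
import Pool.Agent.T9h47.SE.Code
import Pool.Agent.T9h47.SE.Binom

/-!
# Expander walks: the parities are balanced for most starting points
-/

set_option autoImplicit false
set_option linter.unusedSectionVars false

namespace Pool.Agent.T9h47.SE

open Finset
open Pool.Agent.H518R4.UG
open Pool.Agent.H518R4.UG.Walk

/-- mean square bias over the starting points -/
theorem bias2 (V : Type) [Fintype V] [DecidableEq V] [Nonempty V] (d : ℕ) (p : ℝ)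
    (σ : Fin d → Equiv.Perm V) (M : ℕ) (hd : 0 < d) (hp : 0 ≤ p) (hp1 : p < 1)
    (hgap : ∀ F : V → ℂ, ∑ v, F v = 0 →
        ∑ v, ‖((d : ℂ))⁻¹ • ∑ i, F (σ i v)‖ ^ 2 ≤ p ^ 2 * ∑ v, ‖F v‖ ^ 2)
    (W : Type) [Fintype W] (pa : V → W → List V) (hcard : Fintype.card W = d ^ (2 * M))
    (hpa : ∀ (U : V → (ℂ →ₗ[ℂ] ℂ))
      (x : ℂ) (v : V), (TT d σ U)^[M] (fun _ => x) v =
        ((d : ℂ) ^ (2 * M))⁻¹ • ∑ w, (pa v w).foldr (fun v y => U v y) x)
    (y : V → ZMod 2) (hy1 : Fintype.card V ≤ 4 * wt y) (hy2 : 4 * wt y ≤ 3 * Fintype.card V) :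
    ∑ v, (1 - 2 * ((wt (fun w : W => ((pa v w).map y).sum) : ℕ) : ℝ) / Fintype.card W) ^ 2 ≤
      ((1 - (1 - p) ^ 2 * (1 - 1 / 2)) ^ M) ^ 2 * Fintype.card V := by
  classical
  obtain ⟨U, hU⟩ : ∃ U : V → (ℂ →ₗ[ℂ] ℂ), U = fun v => (sgn (y v)) • LinearMap.id := ⟨_, rfl⟩
  have hUn : ∀ v x, ‖U v x‖ = ‖x‖ := by
    intro v x
    rw [hU]
    show ‖sgn (y v) * x‖ = ‖x‖
    rw [norm_mul, norm_sgn, one_mul]
  have hVpos : (0 : ℝ) < Fintype.card V := by exact_mod_cast Fintype.card_pos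
  have hm : ∀ x, ‖((Fintype.card V : ℂ))⁻¹ • ∑ v, U v x‖ ≤ (1 / 2) * ‖x‖ := by
    intro x
    have h1 : ∑ v, U v x = (((Fintype.card V : ℝ) - 2 * wt y : ℝ) : ℂ) * x := by
      rw [hU, ← sum_sgn, sum_mul]
      rfl
    rw [h1, norm_smul, norm_inv, norm_mul, Complex.norm_natCast, Complex.norm_real,
      Real.norm_eq_abs]
    have h2 : |(Fintype.card V : ℝ) - 2 * wt y| ≤ Fintype.card V / 2 := by
      have h3 : (Fintype.card V : ℝ) ≤ 4 * wt y := by exact_mod_cast hy1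
      have h4 : (4 : ℝ) * wt y ≤ 3 * Fintype.card V := by exact_mod_cast hy2
      rw [abs_le]
      constructor <;> linarith
    calc (Fintype.card V : ℝ)⁻¹ * (|(Fintype.card V : ℝ) - 2 * wt y| * ‖x‖) ≤
        (Fintype.card V : ℝ)⁻¹ * (Fintype.card V / 2 * ‖x‖) := by
          apply mul_le_mul_of_nonneg_left _ (by positivity)
          exact mul_le_mul_of_nonneg_right h2 (norm_nonneg _)
      _ = 1 / 2 * ‖x‖ := by field_simp
  have hs : 0 ≤ 1 - (1 - p) ^ 2 * (1 - (1 / 2 : ℝ)) := by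
    have h1 : (1 - p) ^ 2 ≤ 1 := by nlinarith
    nlinarith
  obtain ⟨s, hsdef⟩ : ∃ s, s = 1 - (1 - p) ^ 2 * (1 - (1 / 2 : ℝ)) := ⟨_, rfl⟩
  rw [← hsdef] at hs ⊢
  have hd' : (d : ℂ) ≠ 0 := by exact_mod_cast hd.ne'
  have hiter : ∀ M, nn ((TT d σ U)^[M] (fun _ => (1 : ℂ))) ≤ s ^ M * nn (fun _ : V => (1 : ℂ)) := by
    intro M
    induction M with
    | zero => simp
    | succ M ih =>
      rw [Function.iterate_succ_apply']
      have h7 := TT_le d σ U hd hp hp1 (by norm_num : (0 : ℝ) ≤ 1 / 2) hUn hgap hm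
        ((TT d σ U)^[M] (fun _ => (1 : ℂ)))
      rw [← hsdef] at h7
      calc _ ≤ s * nn ((TT d σ U)^[M] (fun _ => (1 : ℂ))) := h7
        _ ≤ s * (s ^ M * nn (fun _ : V => (1 : ℂ))) := mul_le_mul_of_nonneg_left ih hs
        _ = s ^ (M + 1) * nn (fun _ : V => (1 : ℂ)) := by ring
  have hWpos : (0 : ℝ) < Fintype.card W := by
    rw [hcard]
    have : (0 : ℝ) < (d : ℝ) := by exact_mod_cast hd
    push_cast
    positivity
  have hval : ∀ v, (TT d σ U)^[M] (fun _ => (1 : ℂ)) v =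
      ((1 - 2 * ((wt (fun w : W => ((pa v w).map y).sum) : ℕ) : ℝ) / Fintype.card W : ℝ) : ℂ) := by
    intro v
    rw [hpa U 1 v]
    have h1 : ∑ w, (pa v w).foldr (fun v y => U v y) (1 : ℂ) =
        ∑ w, sgn (((pa v w).map y).sum) := by
      refine sum_congr rfl fun w _ => ?_
      rw [hU]
      exact foldr_sgn y (pa v w)
    rw [h1, sum_sgn (fun w : W => ((pa v w).map y).sum)]
    have h2 : ((d : ℂ) ^ (2 * M)) = ((Fintype.card W : ℝ) : ℂ) := by
      rw [hcard]; push_cast; rfl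
    rw [h2, smul_eq_mul, ← Complex.ofReal_inv, ← Complex.ofReal_mul]
    congr 1
    field_simp
  have h1 : nn ((TT d σ U)^[M] (fun _ => (1 : ℂ))) ^ 2 ≤ (s ^ M * nn (fun _ : V => (1 : ℂ))) ^ 2 :=
    pow_le_pow_left₀ (nn_nonneg _) (hiter M) 2
  rw [mul_pow, nn_const, norm_one, one_pow, mul_one, nn_sq] at h1
  refine le_trans (le_of_eq ?_) h1
  refine sum_congr rfl fun v _ => ?_
  rw [hval v, Complex.norm_real, Real.norm_eq_abs, sq_abs]

/-- **Locally balanced sparse codes.** -/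
theorem exists_loc_code (ε : ℝ) (hε : 0 < ε) : ∃ D M B : ℕ, 0 < D ∧ ((M : ℕ) : ZMod 2) = 0 ∧
    ∀ (q : ℕ) [NeZero q], ∃ (V : Type) (_ : Fintype V) (_ : DecidableEq V) (W : Type)
      (_ : Fintype W) (pa : V → W → List V), Fintype.card V = q ^ 2 ∧ Fintype.card W = D ∧
      (∀ v w, (pa v w).length = M) ∧
      (∀ x, (univ.filter (fun p : V × W => x ∈ pa p.1 p.2)).card ≤ B) ∧
      ∀ y : V → ZMod 2, Fintype.card V ≤ 4 * wt y → 4 * wt y ≤ 3 * Fintype.card V →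
        (2 : ℝ) ^ ((1 - ε) * (D * q ^ 2)) ≤
          ∏ v, ((D.choose (wt (fun w => ((pa v w).map y).sum)) : ℕ) : ℝ) := by
  obtain ⟨d, p, hd, hp, hp1, hG⟩ := p_GRAPH (p_CEXP p_BURG) p_PSD
  -- the degree is at least two
  have hd2 : 2 ≤ d := by
    by_contra hcon
    have hd1 : d = 1 := by omega
    subst hd1
    obtain ⟨σ, hσ⟩ := hG 2
    obtain ⟨F, hF⟩ : ∃ F : ZMod 2 × ZMod 2 → ℂ, F = fun v =>
      if v = (0, 0) then 1 else if v = (1, 0) then -1 else 0 := ⟨_, rfl⟩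
    have hne : ((1, 0) : ZMod 2 × ZMod 2) ≠ (0, 0) := by decide
    have hF0 : ∑ v, F v = 0 := by
      rw [hF, Fintype.sum_eq_add ((0, 0) : ZMod 2 × ZMod 2) (1, 0) (Ne.symm hne)]
      · rw [if_pos rfl, if_neg hne, if_pos rfl]
        norm_num
      · rintro x ⟨h1, h2⟩
        rw [if_neg h1, if_neg h2]
    have h1 := hσ ℂ F hF0
    have h2 : ∀ v, ‖((1 : ℕ) : ℂ)⁻¹ • ∑ i : Fin 1, F (σ i v)‖ ^ 2 = ‖F (σ 0 v)‖ ^ 2 := by
      intro v
      simp
    rw [sum_congr rfl fun v _ => h2 v, Equiv.sum_comp (σ 0) (fun v => ‖F v‖ ^ 2)] at h1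
    have h3 : 0 < ∑ v, ‖F v‖ ^ 2 := by
      refine sum_pos' (fun v _ => by positivity) ⟨(0, 0), mem_univ _, ?_⟩
      rw [hF]
      simp
    have h4 : p ^ 2 < 1 := by nlinarith
    nlinarith
  obtain ⟨s, hs⟩ : ∃ s, s = 1 - (1 - p) ^ 2 * (1 - (1 / 2 : ℝ)) := ⟨_, rfl⟩
  have hs0 : 0 ≤ s := by
    have h1 : (1 - p) ^ 2 ≤ 1 := by nlinarith
    rw [hs]; nlinarith
  have hs1 : s < 1 := by
    have h1 : 0 < (1 - p) ^ 2 := by
      have : 0 < 1 - p := by linarith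
      positivity
    rw [hs]; nlinarith
  obtain ⟨ε', hε'⟩ : ∃ ε', ε' = min (ε / 2) 1 := ⟨_, rfl⟩
  have hε'0 : 0 < ε' := by rw [hε']; positivity
  have hε'1 : ε' ≤ 1 := by rw [hε']; exact min_le_right _ _
  have hε'2 : ε' ≤ ε / 2 := by rw [hε']; exact min_le_left _ _
  obtain ⟨δ, hδ, n₁, hn₁⟩ := choose_large ε' hε'0
  obtain ⟨M₀, hM₀⟩ := exists_pow_lt_of_lt_one (show 0 < 2 * δ * ε' by positivity) hs1
  obtain ⟨M, hM⟩ : ∃ M, M = 2 * (M₀ + n₁) := ⟨_, rfl⟩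
  have hsM : s ^ M ≤ 2 * δ * ε' :=
    (pow_le_pow_of_le_one hs0 hs1.le (by omega)).trans hM₀.le
  obtain ⟨D, hD⟩ : ∃ D, D = d ^ (2 * M) := ⟨_, rfl⟩
  have hDpos : 0 < D := by rw [hD]; positivity
  have hDn : n₁ ≤ D := by
    rw [hD]
    calc n₁ ≤ 2 * M := by omega
      _ ≤ 2 ^ (2 * M) := Nat.lt_two_pow_self.le
      _ ≤ d ^ (2 * M) := Nat.pow_le_pow_left hd2 _
  refine ⟨D, M, M * D, hDpos, ?_, ?_⟩
  · rw [hM]
    push_cast
    have : (2 : ZMod 2) = 0 := by decide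
    rw [this, zero_mul]
  intro q hq
  obtain ⟨σ, hσ⟩ := hG q
  obtain ⟨W, hW, pa, hcard, hlen, hcnt, hpa⟩ := walks' (ZMod q × ZMod q) d σ M
  refine ⟨ZMod q × ZMod q, inferInstance, inferInstance, W, hW, pa, ?_, by rw [hcard, hD], hlen,
    ?_, ?_⟩
  · rw [Fintype.card_prod, ZMod.card]; ring
  · intro x
    rw [hD]
    exact hcnt x
  · intro y hy1 hy2
    have hb := bias2 (ZMod q × ZMod q) d p σ M hd hp hp1 (fun F hF => hσ ℂ F hF) W pa hcard
      (fun U x v => hpa ℂ U x v) y hy1 hy2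
    rw [← hs] at hb
    have hWD : Fintype.card W = D := by rw [hcard, hD]
    have hVc : (Fintype.card (ZMod q × ZMod q) : ℝ) = (q : ℝ) ^ 2 := by
      rw [Fintype.card_prod, ZMod.card]; push_cast; ring
    rw [hWD, hVc] at hb
    have hDR : (0 : ℝ) < D := by exact_mod_cast hDpos
    obtain ⟨w, hw⟩ : ∃ w : ZMod q × ZMod q → ℕ,
      w = fun v => wt (fun a : W => ((pa v a).map y).sum) := ⟨_, rfl⟩
    have hwv : ∀ v, wt (fun a : W => ((pa v a).map y).sum) = w v := by intro v; rw [hw]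
    simp only [hwv] at hb ⊢
    have hwD : ∀ v, w v ≤ D := by
      intro v
      rw [hw, ← hWD]
      exact card_le_univ _
    obtain ⟨Bad, hBad⟩ : ∃ Bad : Finset (ZMod q × ZMod q),
      Bad = univ.filter (fun v => δ * D < |(w v : ℝ) - D / 2|) := ⟨_, rfl⟩
    have hBm : ∀ v, v ∈ Bad ↔ δ * D < |(w v : ℝ) - D / 2| := by
      intro v; rw [hBad, mem_filter]; exact ⟨fun h => h.2, fun h => ⟨mem_univ _, h⟩⟩
    have hBadcard : (Bad.card : ℝ) ≤ ε' * (q : ℝ) ^ 2 := by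
      have h1 : (Bad.card : ℝ) * (4 * δ ^ 2) ≤ ∑ v, (1 - 2 * (w v : ℝ) / D) ^ 2 := by
        calc (Bad.card : ℝ) * (4 * δ ^ 2) = ∑ _v ∈ Bad, 4 * δ ^ 2 := by
              rw [sum_const, nsmul_eq_mul]
          _ ≤ ∑ v ∈ Bad, (1 - 2 * (w v : ℝ) / D) ^ 2 := by
              refine sum_le_sum fun v hv => ?_
              rw [hBm] at hv
              have h2 : (1 - 2 * (w v : ℝ) / D) ^ 2 = 4 * ((w v : ℝ) - D / 2) ^ 2 / D ^ 2 := by
                field_simp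
                ring
              rw [h2, le_div_iff₀ (by positivity)]
              have h3 : (δ * D) ^ 2 ≤ ((w v : ℝ) - D / 2) ^ 2 := by
                rw [← sq_abs ((w v : ℝ) - D / 2)]
                exact pow_le_pow_left₀ (by positivity) hv.le 2
              nlinarith
          _ ≤ _ := sum_le_sum_of_subset_of_nonneg (subset_univ _) (fun v _ _ => sq_nonneg _)
      have h2 : (s ^ M) ^ 2 ≤ 4 * δ ^ 2 * ε' := by
        calc (s ^ M) ^ 2 ≤ (2 * δ * ε') ^ 2 := pow_le_pow_left₀ (by positivity) hsM 2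
          _ = 4 * δ ^ 2 * (ε' * ε') := by ring
          _ ≤ 4 * δ ^ 2 * (ε' * 1) := by
              apply mul_le_mul_of_nonneg_left _ (by positivity)
              exact mul_le_mul_of_nonneg_left hε'1 hε'0.le
          _ = _ := by ring
      have h3 : (Bad.card : ℝ) * (4 * δ ^ 2) ≤ (ε' * (q : ℝ) ^ 2) * (4 * δ ^ 2) := by
        calc (Bad.card : ℝ) * (4 * δ ^ 2) ≤ (s ^ M) ^ 2 * (q : ℝ) ^ 2 := h1.trans hb
          _ ≤ (4 * δ ^ 2 * ε') * (q : ℝ) ^ 2 := mul_le_mul_of_nonneg_right h2 (by positivity)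
          _ = _ := by ring
      exact le_of_mul_le_mul_right h3 (by positivity)
    have h1 : ∀ v ∈ (univ : Finset (ZMod q × ZMod q)),
        (if v ∈ Bad then (1 : ℝ) else 2 ^ ((1 - ε') * D)) ≤ ((D.choose (w v) : ℕ) : ℝ) := by
      intro v _
      split_ifs with hv
      · exact_mod_cast Nat.choose_pos (hwD v)
      · rw [hBm, not_lt] at hv
        exact hn₁ D hDn (w v) hv
    refine le_trans ?_ (prod_le_prod (fun v _ => by split_ifs <;> positivity) h1)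
    rw [prod_ite, prod_const_one, one_mul, prod_const]
    have h2 : (univ.filter (fun v => v ∉ Bad)).card = q ^ 2 - Bad.card := by
      have h4 : univ.filter (fun v => v ∉ Bad) = Badᶜ := by
        ext v
        simp
      rw [h4, card_compl, Fintype.card_prod, ZMod.card]
      ring_nf
    have h3 : (((univ.filter (fun v => v ∉ Bad)).card : ℕ) : ℝ) = (q : ℝ) ^ 2 - Bad.card := by
      have h4 : Bad.card ≤ q ^ 2 := by
        refine (card_le_univ _).trans (le_of_eq ?_)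
        rw [Fintype.card_prod, ZMod.card]; ring
      rw [h2, Nat.cast_sub h4]
      push_cast
      rfl
    have hkey : ∀ N : ℕ, ((2 : ℝ) ^ ((1 - ε') * D)) ^ N = 2 ^ ((1 - ε') * D * N) := by
      intro N
      rw [Real.rpow_mul (by norm_num) ((1 - ε') * D) N, Real.rpow_natCast]
    rw [hkey, h3]
    apply Real.rpow_le_rpow_of_exponent_le (by norm_num)
    have h4 : (1 - ε') * (q : ℝ) ^ 2 ≤ (q : ℝ) ^ 2 - Bad.card := by linarith
    have h5 : 0 ≤ 1 - ε' := by linarith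
    have h6 : (1 - ε) ≤ (1 - ε') * (1 - ε') := by nlinarith
    calc (1 - ε) * (D * (q : ℝ) ^ 2) ≤ ((1 - ε') * (1 - ε')) * (D * (q : ℝ) ^ 2) :=
          mul_le_mul_of_nonneg_right h6 (by positivity)
      _ = (1 - ε') * D * ((1 - ε') * (q : ℝ) ^ 2) := by ring
      _ ≤ (1 - ε') * D * ((q : ℝ) ^ 2 - Bad.card) :=
          mul_le_mul_of_nonneg_left h4 (by positivity)

end Pool.Agent.T9h47.SE
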