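import Mathlib
import Pool.Agent.T9h47.SE.Act2
import Pool.Agent.T9h47.SE.Inst2
import Pool.Agent.T9h47.SE.LocCode

/-!
# Locally symmetric circuits
-/

set_option autoImplicit false
set_option linter.unusedSectionVars false

namespace Pool.Agent.T9h47.SE

open Finset
open Pool.Agent.T9h47.SC

/-- The circuit is symmetric under negating variables in `H` and under renaming variables in `H`
within the classes given by `col`. -/
def SymLoc {K : Type} {n k : ℕ} (C : Circuit K (Cl n k)) (H : Finset (Fin n))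
    (col : Fin n → ℕ) : Prop :=
  ∀ (π : Equiv.Perm (Fin n)) (f : Fin n → ZMod 2), (∀ i, i ∉ H → π i = i ∧ f i = 0) →
    (∀ i, col (π i) = col i) → ∃ α, C.IsAut (ren π f) α

theorem packing {n : ℕ} (H : Finset (Fin n)) (col : Fin n → ℕ) (D : ℕ) (hD : 0 < D) :
    ∃ F : Finset (Finset (Fin n)),
      (∀ S ∈ F, S ⊆ H ∧ S.card = D ∧ ∀ i ∈ S, ∀ j ∈ S, col i = col j) ∧
      (∀ S ∈ F, ∀ S' ∈ F, S ≠ S' → Disjoint S S') ∧
      H.card ≤ D * F.card + (H.image col).card * D := by
  classical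
  obtain ⟨P, hP⟩ : ∃ P : Finset (Finset (Fin n)) → Prop, P = fun F =>
      (∀ S ∈ F, S ⊆ H ∧ S.card = D ∧ ∀ i ∈ S, ∀ j ∈ S, col i = col j) ∧
      (∀ S ∈ F, ∀ S' ∈ F, S ≠ S' → Disjoint S S') := ⟨_, rfl⟩
  have hPi : ∀ F, P F ↔ (∀ S ∈ F, S ⊆ H ∧ S.card = D ∧ ∀ i ∈ S, ∀ j ∈ S, col i = col j) ∧
      (∀ S ∈ F, ∀ S' ∈ F, S ≠ S' → Disjoint S S') := by intro F; rw [hP]
  have hne : (univ.filter P).Nonempty := by
    refine ⟨∅, ?_⟩
    rw [mem_filter, hPi]
    exact ⟨mem_univ _, fun S hS => absurd hS (notMem_empty _),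
      fun S hS => absurd hS (notMem_empty _)⟩
  obtain ⟨F, hF, hmax⟩ := exists_max_image (univ.filter P) card hne
  rw [mem_filter, hPi] at hF
  obtain ⟨_, hF1, hF2⟩ := hF
  refine ⟨F, hF1, hF2, ?_⟩
  obtain ⟨L, hL⟩ : ∃ L, L = H \ F.biUnion id := ⟨_, rfl⟩
  have hLm : ∀ i, i ∈ L ↔ i ∈ H ∧ ∀ S ∈ F, i ∉ S := by
    intro i
    rw [hL, mem_sdiff, mem_biUnion]
    constructor
    · rintro ⟨h1, h2⟩
      exact ⟨h1, fun S hS hi => h2 ⟨S, hS, hi⟩⟩
    · rintro ⟨h1, h2⟩
      refine ⟨h1, ?_⟩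
      rintro ⟨S, hS, hi⟩
      exact h2 S hS hi
  have hsmall : ∀ c, (L.filter (fun i => col i = c)).card ≤ D := by
    intro c
    by_contra hcon
    rw [not_le] at hcon
    obtain ⟨S, hS1, hS2⟩ := exists_subset_card_eq hcon.le
    have hSL : ∀ i ∈ S, i ∈ L ∧ col i = c := fun i hi => mem_filter.1 (hS1 hi)
    have hSn : ∀ S' ∈ F, Disjoint S S' := by
      intro S' hS'
      rw [disjoint_left]
      intro i hi hi'
      exact ((hLm i).1 (hSL i hi).1).2 S' hS' hi'
    have hSF : S ∉ F := by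
      intro h
      have h1 := hSn S h
      rw [disjoint_self_iff_empty] at h1
      rw [h1, card_empty] at hS2
      omega
    have h1 := hmax (insert S F) (by
      rw [mem_filter, hPi]
      refine ⟨mem_univ _, ?_, ?_⟩
      · intro S' hS'
        rw [mem_insert] at hS'
        rcases hS' with rfl | hS'
        · exact ⟨fun i hi => ((hLm i).1 (hSL i hi).1).1, hS2, fun i hi j hj => by
            rw [(hSL i hi).2, (hSL j hj).2]⟩
        · exact hF1 S' hS'
      · intro S₁ h1 S₂ h2 hne'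
        rw [mem_insert] at h1 h2
        rcases h1 with rfl | h1 <;> rcases h2 with rfl | h2
        · exact absurd rfl hne'
        · exact hSn S₂ h2
        · exact (hSn S₁ h1).symm
        · exact hF2 S₁ h1 S₂ h2 hne')
    rw [card_insert_of_notMem hSF] at h1
    omega
  have hLcard : L.card ≤ (H.image col).card * D := by
    have h1 : L ⊆ (H.image col).biUnion (fun c => L.filter (fun i => col i = c)) := by
      intro i hi
      rw [mem_biUnion]
      exact ⟨col i, mem_image_of_mem _ ((hLm i).1 hi).1, mem_filter.2 ⟨hi, rfl⟩⟩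
    refine (card_le_card h1).trans (card_biUnion_le.trans ?_)
    calc ∑ c ∈ H.image col, (L.filter (fun i => col i = c)).card ≤ ∑ _c ∈ H.image col, D :=
          sum_le_sum fun c _ => hsmall c
      _ = (H.image col).card * D := by rw [sum_const, smul_eq_mul]
  have hU : (F.biUnion id).card ≤ D * F.card := by
    refine card_biUnion_le.trans ?_
    calc ∑ S ∈ F, (id S).card ≤ ∑ _S ∈ F, D := sum_le_sum fun S hS => (hF1 S hS).2.1.le
      _ = D * F.card := by rw [sum_const, smul_eq_mul, mul_comm]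
  have h2 : H.card ≤ L.card + (F.biUnion id).card := by
    rw [hL]
    exact card_le_card_sdiff_add_card
  omega

/-- the incidence structure of a family of lists -/
theorem code_of' {V W : Type} [Fintype V] [DecidableEq V] [Fintype W] {n B M : ℕ}
    (pa : V → W → List V) (hlen : ∀ v w, (pa v w).length = M) (hM : (M : ZMod 2) = 0)
    (hcnt : ∀ x, (univ.filter (fun p : V × W => x ∈ pa p.1 p.2)).card ≤ B)
    (e : V × W ↪ Fin n) : ∃ R : V → Finset (Fin n), (∀ j, (R j).card ≤ B) ∧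
      tr R (fun _ => 1) = 0 ∧
      ∀ (y : V → ZMod 2) (ω : V × W), tr R y (e ω) = ((pa ω.1 ω.2).map y).sum := by
  classical
  obtain ⟨R, hR⟩ : ∃ R : V → Finset (Fin n), R = fun j =>
    (univ.filter (fun ω : V × W =>
      (((pa ω.1 ω.2).count j : ℕ) : ZMod 2) ≠ 0)).map e := ⟨_, rfl⟩
  have hRm : ∀ j ω, e ω ∈ R j ↔ (((pa ω.1 ω.2).count j : ℕ) : ZMod 2) ≠ 0 := by
    intro j ω
    rw [hR]
    simp only [mem_map', mem_filter, mem_univ, true_and]
  have htr : ∀ (y : V → ZMod 2) ω, tr R y (e ω) = ((pa ω.1 ω.2).map y).sum := by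
    intro y ω
    rw [← sum_count]
    unfold tr
    refine sum_congr rfl fun j _ => ?_
    by_cases hc : (((pa ω.1 ω.2).count j : ℕ) : ZMod 2) = 0
    · rw [if_neg (fun h => (hRm j ω).1 h hc), hc, zero_mul]
    · rw [if_pos ((hRm j ω).2 hc)]
      rcases z2_cases (((pa ω.1 ω.2).count j : ℕ) : ZMod 2) with h | h
      · exact absurd h hc
      · rw [h, one_mul]
  have htr0 : ∀ (y : V → ZMod 2) i, i ∉ Set.range e → tr R y i = 0 := by
    intro y i hi
    unfold tr
    refine sum_eq_zero fun j _ => ?_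
    rw [if_neg]
    intro h
    rw [hR] at h
    obtain ⟨ω, _, hω⟩ := mem_map.1 h
    exact hi ⟨ω, hω⟩
  refine ⟨R, ?_, ?_, htr⟩
  · intro j
    rw [hR, card_map]
    refine (card_le_card ?_).trans (hcnt j)
    intro ω hω
    rw [mem_filter] at hω ⊢
    refine ⟨mem_univ _, ?_⟩
    by_contra h
    apply hω.2
    rw [List.count_eq_zero.2 h, Nat.cast_zero]
  · funext i
    by_cases hi : i ∈ Set.range e
    · obtain ⟨ω, rfl⟩ := hi
      rw [htr, List.map_const', List.sum_replicate, hlen, nsmul_eq_mul, mul_one, hM]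
      rfl
    · exact htr0 _ i hi

/-- The lower bound for a code. -/
theorem loc_lower {K : Type} {n k : ℕ} (C : Circuit K (Cl n k)) (b₀ b₁ : K) (Acc : Set K)
    (H : Finset (Fin n)) (col : Fin n → ℕ) (hS : SymLoc C H col) {V W : Type} [Fintype V]
    [DecidableEq V] [Fintype W] (D : ℕ) (hW : Fintype.card W = D) (e₂ : V × W ↪ Fin n)
    (he1 : ∀ ω, e₂ ω ∈ H) (he2 : ∀ v w w', col (e₂ (v, w)) = col (e₂ (v, w')))
    (R : V → Finset (Fin n)) (k₀ m : ℕ) (hk : ∀ j, (R j).card ≤ k₀) (hk₀ : k₀ ≤ k)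
    (hm : Fintype.card V * 2 ^ k₀ ≤ m) (hV : 2 ≤ Fintype.card V)
    (hone : tr R (fun _ => 1) = 0) (hD : DecidesSat C b₀ b₁ Acc m)
    (hcode : ∀ y : V → ZMod 2, Fintype.card V ≤ 4 * wt y → 4 * wt y ≤ 3 * Fintype.card V →
      @Fintype.card C.Gate C.fin < ∏ v, D.choose (wt (fun w => tr R y (e₂ (v, w))))) : False := by
  classical
  let _ := C.fin
  obtain ⟨h, hh⟩ : ∃ h, h = Fintype.card (V × W) := ⟨_, rfl⟩
  obtain ⟨e₀⟩ : Nonempty (Fin h ≃ V × W) := Fintype.card_eq.1 (by rw [Fintype.card_fin, hh])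
  obtain ⟨e, he⟩ : ∃ e : Fin h ↪ Fin n, ∀ i, e i = e₂ (e₀ i) :=
    ⟨e₀.toEmbedding.trans e₂, fun _ => rfl⟩
  obtain ⟨r, hr⟩ : ∃ r, r = Fintype.card V := ⟨_, rfl⟩
  obtain ⟨ev⟩ : Nonempty (V ≃ Fin r) := Fintype.card_eq.1 (by rw [Fintype.card_fin, hr])
  obtain ⟨col', hcol'⟩ : ∃ col' : Fin h → Fin r, col' = fun i => ev (e₀ i).1 := ⟨_, rfl⟩
  have hR : ∀ j, (R j).card ≤ k := fun j => (hk j).trans hk₀
  have hsym : (act e k).Sym C col' := by
    intro π f hπ
    refine hS (extP e π) (extF e f) (fun i hi => ?_) ?_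
    · have hni : i ∉ Set.range e := by
        rintro ⟨v, rfl⟩
        rw [he] at hi
        exact hi (he1 _)
      exact ⟨extP_not e π i hni, extF_not e f i hni⟩
    · intro i
      rcases range_cases e i with ⟨v, rfl⟩ | hi
      · rw [extP_apply, he, he]
        have h1 := hπ v
        rw [hcol'] at h1
        have h2 : (e₀ (π v)).1 = (e₀ v).1 := ev.injective h1
        have h3 : e₀ (π v) = ((e₀ v).1, (e₀ (π v)).2) := Prod.ext h2 rfl
        rw [h3]
        exact he2 _ _ _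
      · rw [extP_not e π i hi]
  have hSep : ∀ g, Sep (RH e R) (perp ((act e k).ZZ C g)) := by
    intro g y hy
    by_contra hcon
    rw [not_or, not_lt, not_lt] at hcon
    have h1 := hcode y hcon.1 hcon.2
    have h2 := (act e k).prod_choose_le C col' hsym (tr (RH e R) y)
      (((act e k).mem_WW C _).2 ⟨g, hy⟩)
    have h3 : ∏ v, D.choose (wt (fun w => tr R y (e₂ (v, w)))) =
        ∏ c : Fin r, (univ.filter (fun j => col' j = c)).card.choose
          (cnt col' (tr (RH e R) y) c 1) := by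
      rw [← Equiv.prod_comp ev]
      refine prod_congr rfl fun v _ => ?_
      obtain ⟨j, hj⟩ : ∃ j : W ↪ Fin h, ∀ w, j w = e₀.symm (v, w) :=
        ⟨⟨fun w => e₀.symm (v, w), fun w w' hww => (Prod.ext_iff.1 (e₀.symm.injective hww)).2⟩,
          fun _ => rfl⟩
      have hcj : ∀ i, col' i = ev v ↔ ∃ w, j w = i := by
        intro i
        rw [hcol']
        constructor
        · intro h4
          have h5 : (e₀ i).1 = v := ev.injective h4
          refine ⟨(e₀ i).2, ?_⟩
          rw [hj, ← h5]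
          exact e₀.symm_apply_apply i
        · rintro ⟨w, rfl⟩
          show ev (e₀ (j w)).1 = ev v
          rw [hj, e₀.apply_symm_apply]
      have h4 : (univ.filter (fun i => col' i = ev v)).card = D := by
        have h5 : univ.filter (fun i => col' i = ev v) = (univ : Finset W).map j := by
          ext i
          rw [mem_filter, mem_map, hcj]
          constructor
          · rintro ⟨_, w, hw⟩
            exact ⟨w, mem_univ _, hw⟩
          · rintro ⟨w, _, hw⟩
            exact ⟨mem_univ _, w, hw⟩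
        rw [h5, card_map, card_univ, hW]
      have h5 : cnt col' (tr (RH e R) y) (ev v) 1 = wt (fun w => tr R y (e₂ (v, w))) := by
        have h6 : univ.filter (fun i => col' i = ev v ∧ tr (RH e R) y i = 1) =
            (univ.filter (fun w => tr R y (e₂ (v, w)) ≠ 0)).map j := by
          have h7 : ∀ w, tr (RH e R) y (j w) = tr R y (e₂ (v, w)) := by
            intro w
            rw [tr_RH, he, hj, e₀.apply_symm_apply]
          ext i
          rw [mem_filter, mem_map, hcj]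
          constructor
          · rintro ⟨_, ⟨w, rfl⟩, h8⟩
            refine ⟨w, mem_filter.2 ⟨mem_univ _, ?_⟩, rfl⟩
            rw [← h7, h8]
            decide
          · rintro ⟨w, hw, rfl⟩
            refine ⟨mem_univ _, ⟨w, rfl⟩, ?_⟩
            have h8 := (mem_filter.1 hw).2
            rw [← h7] at h8
            rcases z2_cases (tr (RH e R) y (j w)) with h9 | h9
            · exact absurd h9 h8
            · exact h9
        unfold cnt
        rw [h6, card_map]
        rfl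
      rw [h4, h5]
    omega
  have hunit : ∀ j, phi (Pi.single j 1 : V → ZMod 2) = 0 := by
    intro j
    unfold phi
    rw [wt_single, if_pos (by omega)]
  obtain ⟨c, hc1, hc2⟩ := indist2 e R hR C b₀ b₁ phi
    (fun g y z hy hz => phi_add (RH e R) (hSep g) hy hz) hunit 0
  rw [zero_add] at hc2
  have hcn : ¬ Satisfiable (sys R hR c) := by
    rw [sat_sys]
    rintro ⟨a, ha⟩
    have h2 := hc1 (fun _ => 1) hone
    rw [← ha, adj, hone] at h2
    have h3 : dot (0 : Fin n → ZMod 2) a = 0 := sum_eq_zero fun i _ => zero_mul _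
    rw [h3] at h2
    unfold phi at h2
    rw [wt_one, if_neg (by omega)] at h2
    exact absurd h2 (by decide)
  have hc0 : Satisfiable (sys R hR (0 : V → ZMod 2)) := by
    rw [sat_sys]
    exact ⟨0, map_zero _⟩
  apply hcn
  have hs := sys_card R hR k₀ m hk hm
  rw [← hD _ (hs c), hc2, hD _ (hs 0)]
  exact hc0

/-- **Locally symmetric circuits and the strong exponential time hypothesis.** -/
theorem loc_seth (ε : ℝ) (hε : 0 < ε) : ∃ b k₀ h₀ B : ℕ, ∀ (k n : ℕ) (H : Finset (Fin n))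
    (col : Fin n → ℕ), k₀ ≤ k → h₀ ≤ H.card →
    (∀ i ∈ H, b ≤ (H.filter (fun j => col j = col i)).card) →
    ∀ (K : Type) (C : Circuit K (Cl n k)) (b₀ b₁ : K) (Acc : Set K),
    SymLoc C H col → DecidesSat C b₀ b₁ Acc (B * H.card) →
    (2 : ℝ) ^ ((1 - ε) * H.card) ≤ @Fintype.card C.Gate C.fin := by
  classical
  obtain ⟨δ, hδ⟩ : ∃ δ : ℝ, δ = min (ε / 3) (1 / 2) := ⟨_, rfl⟩
  have hδ0 : 0 < δ := by rw [hδ]; positivity
  have hδ1 : δ ≤ ε / 3 := by rw [hδ]; exact min_le_left _ _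
  have hδ2 : δ ≤ 1 / 2 := by rw [hδ]; exact min_le_right _ _
  obtain ⟨D, M, B, hDpos, hM, hcode⟩ := exists_loc_code δ hδ0
  obtain ⟨m, hm⟩ := exists_nat_ge (1 / δ)
  obtain ⟨Q, hQ⟩ := exists_nat_ge (3 / δ + 2)
  refine ⟨D * m, B, 2 * D * Q ^ 2, 2 ^ B, ?_⟩
  intro k n H col hk hH hcl K C b₀ b₁ Acc hS hD
  let _ := C.fin
  by_contra hcon
  rw [not_le] at hcon
  obtain ⟨F, hF1, hF2, hF3⟩ := packing H col D hDpos
  have hDR : (0 : ℝ) < D := by exact_mod_cast hDpos
  -- the number of classes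
  have hclass : D * m * (H.image col).card ≤ H.card := by
    have h1 : H.card = ∑ c ∈ H.image col, (H.filter (fun j => col j = c)).card :=
      card_eq_sum_card_image col H
    rw [h1]
    calc D * m * (H.image col).card = ∑ _c ∈ H.image col, D * m := by
          rw [sum_const, smul_eq_mul, mul_comm]
      _ ≤ _ := by
          refine sum_le_sum fun c hc => ?_
          obtain ⟨i, hi, rfl⟩ := mem_image.1 hc
          exact hcl i hi
  have hmR : 1 ≤ δ * m := by
    have h1 := hm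
    rw [div_le_iff₀ hδ0] at h1
    linarith
  have hHR : ((H.image col).card : ℝ) * D ≤ δ * H.card := by
    have h1 : (D : ℝ) * m * (H.image col).card ≤ H.card := by exact_mod_cast hclass
    have h2 : 0 ≤ (D : ℝ) * (H.image col).card := by positivity
    calc ((H.image col).card : ℝ) * D = ((D : ℝ) * (H.image col).card) * 1 := by ring
      _ ≤ ((D : ℝ) * (H.image col).card) * (δ * m) := mul_le_mul_of_nonneg_left hmR h2
      _ = δ * ((D : ℝ) * m * (H.image col).card) := by ring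
      _ ≤ δ * H.card := mul_le_mul_of_nonneg_left h1 hδ0.le
  have hDF : (1 - δ) * H.card ≤ D * F.card := by
    have h1 : (H.card : ℝ) ≤ D * F.card + (H.image col).card * D := by exact_mod_cast hF3
    linarith
  obtain ⟨q, hq⟩ : ∃ q, q = Nat.sqrt F.card := ⟨_, rfl⟩
  have hq2 : q ^ 2 ≤ F.card := by rw [hq, pow_two]; exact Nat.sqrt_le _
  have hq3 : F.card < (q + 1) ^ 2 := by rw [hq, pow_two]; exact Nat.lt_succ_sqrt _
  have hqQ : Q ≤ q := by
    rw [hq, Nat.le_sqrt]
    have h1 : (2 * D * Q ^ 2 : ℝ) ≤ H.card := by exact_mod_cast hH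
    have h2 : (D : ℝ) * Q ^ 2 ≤ D * F.card := by
      have h3 : (0 : ℝ) ≤ H.card := Nat.cast_nonneg _
      nlinarith
    have h3 : (Q : ℝ) ^ 2 ≤ F.card := le_of_mul_le_mul_left h2 hDR
    have h4 : Q ^ 2 ≤ F.card := by exact_mod_cast h3
    calc Q * Q = Q ^ 2 := by ring
      _ ≤ F.card := h4
  have hqR : 3 / δ + 2 ≤ (q : ℝ) := hQ.trans (by exact_mod_cast hqQ)
  have h3δ : 0 < 3 / δ := by positivity
  have hq1 : (2 : ℝ) ≤ q := by linarith
  have hq1' : 2 ≤ q := by exact_mod_cast hq1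
  have hqδ : 3 ≤ δ * q := by
    have h1 : 3 / δ ≤ (q : ℝ) := by linarith
    rw [div_le_iff₀ hδ0] at h1
    linarith
  have hqF : (1 - δ) * F.card ≤ (q : ℝ) ^ 2 := by
    have h1 : (F.card : ℝ) ≤ ((q : ℝ) + 1) ^ 2 := by exact_mod_cast hq3.le
    have h2 : ((q : ℝ) + 1) ^ 2 ≤ (1 + δ) * q ^ 2 := by nlinarith
    have h3 : (1 - δ) * F.card ≤ (1 - δ) * ((1 + δ) * (q : ℝ) ^ 2) :=
      mul_le_mul_of_nonneg_left (h1.trans h2) (by linarith)
    have h4 : (1 - δ) * ((1 + δ) * (q : ℝ) ^ 2) = (q : ℝ) ^ 2 - δ ^ 2 * (q : ℝ) ^ 2 := by ring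
    have h5 : 0 ≤ δ ^ 2 * (q : ℝ) ^ 2 := by positivity
    linarith
  have hne : NeZero q := ⟨by omega⟩
  obtain ⟨V, _, _, W, _, pa, hVc, hWc, hlen, hcnt, hy⟩ := hcode q
  -- the embedding
  obtain ⟨j⟩ : Nonempty (V ↪ F) := Function.Embedding.nonempty_of_card_le (by
    rw [hVc, Fintype.card_coe]; exact hq2)
  have hbij : ∀ S : F, Nonempty (W ≃ S.1) := fun S => Fintype.card_eq.1 (by
    rw [hWc, Fintype.card_coe, (hF1 S.1 S.2).2.1])
  obtain ⟨bij⟩ : Nonempty (∀ S : F, W ≃ S.1) := ⟨fun S => (hbij S).some⟩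
  obtain ⟨e₂, he₂⟩ : ∃ e₂ : V × W ↪ Fin n, ∀ ω, e₂ ω = (bij (j ω.1) ω.2).1 := by
    refine ⟨⟨fun ω => (bij (j ω.1) ω.2).1, ?_⟩, fun _ => rfl⟩
    rintro ⟨v, w⟩ ⟨v', w'⟩ heq
    have heq' : (bij (j v) w).1 = (bij (j v') w').1 := heq
    have hjj : j v = j v' := by
      by_contra hne'
      have h1 := hF2 (j v).1 (j v).2 (j v').1 (j v').2 (fun h => hne' (Subtype.ext h))
      rw [disjoint_left] at h1
      exact h1 (bij (j v) w).2 (by rw [heq']; exact (bij (j v') w').2)
    have hvv : v = v' := j.injective hjj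
    subst hvv
    have h1 : bij (j v) w = bij (j v) w' := Subtype.ext heq'
    rw [(bij (j v)).injective h1]
  obtain ⟨R, hR1, hR2, hR3⟩ := code_of' pa hlen hM hcnt e₂
  refine loc_lower C b₀ b₁ Acc H col hS D hWc e₂ ?_ ?_ R B (2 ^ B * H.card) hR1 hk ?_ ?_ hR2 hD ?_
  · intro ω
    rw [he₂]
    exact (hF1 (j ω.1).1 (j ω.1).2).1 (bij (j ω.1) ω.2).2
  · intro v w w'
    rw [he₂, he₂]
    exact (hF1 (j v).1 (j v).2).2.2 _ (bij (j v) w).2 _ (bij (j v) w').2
  · rw [hVc, mul_comm]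
    refine Nat.mul_le_mul_left _ (hq2.trans ?_)
    have hU : (F.biUnion id).card = D * F.card := by
      rw [card_biUnion (t := id) (fun S hS S' hS' hne' => hF2 S hS S' hS' hne')]
      calc ∑ S ∈ F, (id S).card = ∑ _S ∈ F, D := sum_congr rfl fun S hS => (hF1 S hS).2.1
        _ = D * F.card := by rw [sum_const, smul_eq_mul, mul_comm]
    have hsub : F.biUnion id ⊆ H := by
      intro i hi
      rw [mem_biUnion] at hi
      obtain ⟨S, hS, hi⟩ := hi
      exact (hF1 S hS).1 hi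
    have h1 := card_le_card hsub
    rw [hU] at h1
    exact (Nat.le_mul_of_pos_left _ hDpos).trans h1
  · rw [hVc]
    nlinarith
  · intro y hy1 hy2
    have h1 := hy y hy1 hy2
    have h2 : (2 : ℝ) ^ ((1 - ε) * H.card) ≤ 2 ^ ((1 - δ) * (D * (q : ℝ) ^ 2)) := by
      apply Real.rpow_le_rpow_of_exponent_le (by norm_num)
      have h3 : 0 ≤ 1 - δ := by linarith
      have h4 : (1 - δ) * ((1 - δ) * H.card) ≤ (1 - δ) * (D * F.card) :=
        mul_le_mul_of_nonneg_left hDF h3
      have h5 : (D : ℝ) * ((1 - δ) * F.card) ≤ D * (q : ℝ) ^ 2 :=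
        mul_le_mul_of_nonneg_left hqF hDR.le
      have h6 : (1 - δ) * ((1 - δ) * H.card) ≤ D * (q : ℝ) ^ 2 := by
        calc (1 - δ) * ((1 - δ) * H.card) ≤ (1 - δ) * (D * F.card) := h4
          _ = (D : ℝ) * ((1 - δ) * F.card) := by ring
          _ ≤ _ := h5
      have h7 : (1 - δ) * ((1 - δ) * ((1 - δ) * H.card)) ≤ (1 - δ) * (D * (q : ℝ) ^ 2) :=
        mul_le_mul_of_nonneg_left h6 h3
      have h8 : (1 - ε) * H.card ≤ (1 - δ) * ((1 - δ) * ((1 - δ) * H.card)) := by
        have h9 : (1 - ε) ≤ (1 - δ) * ((1 - δ) * (1 - δ)) := by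
          have h10 : 0 ≤ δ ^ 2 * (3 - δ) := mul_nonneg (sq_nonneg _) (by linarith)
          have h11 : (1 - δ) * ((1 - δ) * (1 - δ)) = 1 - 3 * δ + δ ^ 2 * (3 - δ) := by ring
          rw [h11]; linarith
        calc (1 - ε) * H.card ≤ ((1 - δ) * ((1 - δ) * (1 - δ))) * H.card :=
              mul_le_mul_of_nonneg_right h9 (Nat.cast_nonneg _)
          _ = _ := by ring
      linarith
    have h3 : ∀ v, (fun w => ((pa v w).map y).sum) = fun w => tr R y (e₂ (v, w)) := by
      intro v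
      funext w
      exact (hR3 y (v, w)).symm
    simp only [h3] at h1
    have h4 : ((Fintype.card C.Gate : ℕ) : ℝ) <
        ∏ v, ((D.choose (wt (fun w => tr R y (e₂ (v, w)))) : ℕ) : ℝ) :=
      lt_of_lt_of_le hcon (h2.trans h1)
    exact_mod_cast h4

end Pool.Agent.T9h47.SE
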