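import Mathlib
import Pool.Agent.T9h47.SE.Pair4

/-!
# The lower bound with an explicit rate: deciding satisfiability
-/

set_option autoImplicit false
set_option linter.unusedSectionVars false

namespace Pool.Agent.T9h47.SE

open Finset
open Pool.Agent.T9h47.SC

theorem seth_worst (k n : ℕ) (G : AddSubgroup (Fin n → ZMod 2)) (hk : 1 ≤ k)
    (hG : 2 ^ k ≤ Nat.card G) (K : Type) (C : Circuit K (Cl n k)) (b₀ b₁ : K) (Acc : Set K)
    (hS : SymNeg C G) (hD : DecidesSat C b₀ b₁ Acc (2 ^ (k + 1) * Nat.log 2 (Nat.card G))) :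
    ((Nat.card G : ℕ) : ℝ) ^ (1 - 29 / (10 * k) : ℝ) ≤
      @Fintype.card C.Gate C.fin * (2 ^ (k + 2) * (6 * (Nat.log 2 (Nat.card G) : ℝ) + 3) ^ 4) := by
  obtain ⟨Ω, _, _, φ₀, φ₁, h1, h2⟩ := seth_rate k n G hk hG
  have h3 := h2 K C b₀ b₁ hS
  have h4 : Nat.card {ω // C.val (inp b₀ b₁ (φ₀ ω)) C.out ≠ C.val (inp b₀ b₁ (φ₁ ω)) C.out} =
      Fintype.card Ω := by
    rw [← Nat.card_eq_fintype_card]
    refine Nat.card_congr (Equiv.subtypeUnivEquiv fun ω => ?_)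
    intro heq
    obtain ⟨h5, h6, h7, h8⟩ := h1 ω
    apply h6
    rw [← hD _ h8, ← heq, hD _ h7]
    exact h5
  rw [h4] at h3
  have hΩ : (0 : ℝ) < Fintype.card Ω := by exact_mod_cast Fintype.card_pos
  have h5 : 1 ≤ @Fintype.card C.Gate C.fin *
      (2 ^ (k + 2) * (6 * (Nat.log 2 (Nat.card G) : ℝ) + 3) ^ 4) /
      ((Nat.card G : ℕ) : ℝ) ^ (1 - 29 / (10 * k) : ℝ) := by
    refine le_of_mul_le_mul_right ?_ hΩ
    rw [one_mul]
    exact h3
  have hGpos : (0 : ℝ) < ((Nat.card G : ℕ) : ℝ) := by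
    have : 0 < Nat.card G := lt_of_lt_of_le (by positivity) hG
    exact_mod_cast this
  rw [le_div_iff₀ (Real.rpow_pos_of_pos hGpos _), one_mul] at h5
  exact h5

end Pool.Agent.T9h47.SE
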