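import Mathlib
import Pool.Agent.T9h47.SE.Twist

/-!
# Random permutations and intersections of sets
-/

set_option autoImplicit false
set_option linter.unusedSectionVars false

namespace Pool.Agent.T9h47.SE

open Finset

section into

variable {n : ℕ}

theorem perm_into_step (A S : Finset (Fin n)) (s : Fin n) (hs : s ∉ S) :
    n * (univ.filter (fun π : Equiv.Perm (Fin n) => ∀ x ∈ insert s S, π x ∈ A)).card ≤
      A.card * (univ.filter (fun π : Equiv.Perm (Fin n) => ∀ x ∈ S, π x ∈ A)).card := by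
  classical
  obtain ⟨P, hP⟩ : ∃ P, P = univ.filter (fun π : Equiv.Perm (Fin n) => ∀ x ∈ S, π x ∈ A) :=
    ⟨_, rfl⟩
  obtain ⟨Q, hQ⟩ : ∃ Q, Q = univ.filter
    (fun π : Equiv.Perm (Fin n) => ∀ x ∈ insert s S, π x ∈ A) := ⟨_, rfl⟩
  rw [← hP, ← hQ]
  have hPm : ∀ π, π ∈ P ↔ ∀ x ∈ S, π x ∈ A := by intro π; rw [hP, mem_filter]; simp
  have hQm : ∀ π, π ∈ Q ↔ π s ∈ A ∧ ∀ x ∈ S, π x ∈ A := by
    intro π; rw [hQ, mem_filter]; simp
  -- all other positions are as good as `s`
  have h1 : ∀ x ∈ Sᶜ, (P.filter (fun π => π x ∈ A)).card = Q.card := by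
    intro x hx
    rw [mem_compl] at hx
    refine card_bij (fun π _ => π * Equiv.swap x s) ?_ ?_ ?_
    · intro π hπ
      rw [mem_filter, hPm] at hπ
      rw [hQm]
      constructor
      · rw [Equiv.Perm.mul_apply, Equiv.swap_apply_right]
        exact hπ.2
      · intro z hz
        have hzx : z ≠ x := fun h => hx (by rw [← h]; exact hz)
        have hzs : z ≠ s := fun h => hs (by rw [← h]; exact hz)
        rw [Equiv.Perm.mul_apply, Equiv.swap_apply_of_ne_of_ne hzx hzs]
        exact hπ.1 z hz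
    · intro π _ π' _ h
      exact mul_right_cancel h
    · intro π hπ
      rw [hQm] at hπ
      refine ⟨π * Equiv.swap x s, ?_, ?_⟩
      · rw [mem_filter, hPm]
        constructor
        · intro z hz
          have hzx : z ≠ x := fun h => hx (by rw [← h]; exact hz)
          have hzs : z ≠ s := fun h => hs (by rw [← h]; exact hz)
          rw [Equiv.Perm.mul_apply, Equiv.swap_apply_of_ne_of_ne hzx hzs]
          exact hπ.2 z hz
        · rw [Equiv.Perm.mul_apply, Equiv.swap_apply_left]
          exact hπ.1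
      · rw [mul_assoc, Equiv.swap_mul_self, mul_one]
  -- double counting
  have h2 : ∑ x ∈ Sᶜ, (P.filter (fun π => π x ∈ A)).card =
      ∑ π ∈ P, (Sᶜ.filter (fun x => π x ∈ A)).card := by
    simp only [card_filter]
    exact sum_comm
  have h3 : ∀ π ∈ P, (Sᶜ.filter (fun x => π x ∈ A)).card + S.card = A.card := by
    intro π hπ
    rw [hPm] at hπ
    have e1 : (univ.filter (fun x => π x ∈ A)).card = A.card := by
      refine card_bij (fun x _ => π x) (fun x hx => (mem_filter.1 hx).2) ?_ ?_
      · intro x _ y _ h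
        exact π.injective h
      · intro y hy
        exact ⟨π.symm y, by rw [mem_filter]; exact ⟨mem_univ _, by simpa using hy⟩, by simp⟩
    rw [← e1]
    have e2 : univ.filter (fun x => π x ∈ A) = Sᶜ.filter (fun x => π x ∈ A) ∪ S := by
      ext x
      rw [mem_filter, mem_union, mem_filter, mem_compl]
      constructor
      · rintro ⟨_, h⟩
        by_cases hx : x ∈ S
        · exact Or.inr hx
        · exact Or.inl ⟨hx, h⟩
      · rintro (⟨_, h⟩ | h)
        · exact ⟨mem_univ _, h⟩
        · exact ⟨mem_univ _, hπ x h⟩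
    rw [e2, card_union_of_disjoint]
    rw [disjoint_left]
    intro x hx hx'
    exact (mem_compl.1 (mem_filter.1 hx).1) hx'
  have hSn : S.card < n := by
    have h := card_lt_card (show S ⊂ univ from (ssubset_univ_iff).2 (fun h => hs (h ▸ mem_univ s)))
    rwa [card_univ, Fintype.card_fin] at h
  have hAn : A.card ≤ n := by
    have h := card_le_univ A
    rwa [Fintype.card_fin] at h
  by_cases hPe : P = ∅
  · have hQe : Q.card = 0 := by
      rw [card_eq_zero, eq_empty_iff_forall_notMem]
      intro π hπ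
      have h4 : π ∈ P := (hPm π).2 ((hQm π).1 hπ).2
      rw [hPe] at h4
      exact notMem_empty _ h4
    rw [hQe, mul_zero]
    exact Nat.zero_le _
  · obtain ⟨π₀, hπ₀⟩ := nonempty_iff_ne_empty.2 hPe
    have hSA : S.card ≤ A.card := by
      have h4 := h3 π₀ hπ₀
      omega
    have h5 : (n - S.card) * Q.card = (A.card - S.card) * P.card := by
      have e1 : ∑ x ∈ Sᶜ, (P.filter (fun π => π x ∈ A)).card = (n - S.card) * Q.card := by
        rw [sum_congr rfl h1, sum_const, smul_eq_mul, card_compl, Fintype.card_fin]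
      have e2 : ∑ π ∈ P, (Sᶜ.filter (fun x => π x ∈ A)).card = (A.card - S.card) * P.card := by
        have e3 : ∀ π ∈ P, (Sᶜ.filter (fun x => π x ∈ A)).card = A.card - S.card := by
          intro π hπ
          have h4 := h3 π hπ
          omega
        rw [sum_congr rfl e3, sum_const, smul_eq_mul, mul_comm]
      rw [← e1, ← e2, h2]
    obtain ⟨a, ha⟩ : ∃ a, A.card = S.card + a := ⟨A.card - S.card, by omega⟩
    obtain ⟨b, hb⟩ : ∃ b, n = S.card + b := ⟨n - S.card, by omega⟩
    have hbpos : 0 < b := by omega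
    have hab : a ≤ b := by omega
    have e1 : n - S.card = b := by omega
    have e2 : A.card - S.card = a := by omega
    rw [e1, e2] at h5
    have h6 : b * (n * Q.card) ≤ b * (A.card * P.card) := by
      calc b * (n * Q.card) = n * (b * Q.card) := by ring
        _ = n * (a * P.card) := by rw [h5]
        _ = (n * a) * P.card := by ring
        _ ≤ (b * A.card) * P.card := by
            refine Nat.mul_le_mul_right _ ?_
            rw [ha]
            nth_rewrite 1 [hb]
            nlinarith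
        _ = b * (A.card * P.card) := by ring
    exact le_of_mul_le_mul_left h6 hbpos

/-- permutations which take `S` into `A` -/
theorem perm_into (A S : Finset (Fin n)) :
    (univ.filter (fun π : Equiv.Perm (Fin n) => ∀ x ∈ S, π x ∈ A)).card * n ^ S.card ≤
      A.card ^ S.card * n.factorial := by
  classical
  induction S using Finset.induction_on with
  | empty =>
    rw [card_empty, pow_zero, pow_zero, mul_one, one_mul]
    refine (card_le_univ _).trans ?_
    rw [Fintype.card_perm, Fintype.card_fin]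
  | insert s S hs ih =>
    have h1 := perm_into_step A S s hs
    rw [card_insert_of_notMem hs, pow_succ, pow_succ]
    calc _ = (n * (univ.filter
          (fun π : Equiv.Perm (Fin n) => ∀ x ∈ insert s S, π x ∈ A)).card) * n ^ S.card := by ring
      _ ≤ (A.card * (univ.filter (fun π : Equiv.Perm (Fin n) => ∀ x ∈ S, π x ∈ A)).card) *
          n ^ S.card := Nat.mul_le_mul_right _ h1
      _ = A.card * ((univ.filter (fun π : Equiv.Perm (Fin n) => ∀ x ∈ S, π x ∈ A)).card *
          n ^ S.card) := by ring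
      _ ≤ A.card * (A.card ^ S.card * n.factorial) := Nat.mul_le_mul_left _ ih
      _ = _ := by ring

/-- moment generating function of the size of an intersection -/
theorem mgf (hn : 0 < n) (A B : Finset (Fin n)) (z : ℝ) (hz : 0 ≤ z) :
    ∑ π : Equiv.Perm (Fin n), (1 + z) ^ (B.filter (fun x => π x ∈ A)).card ≤
      n.factorial * (1 + z * ((A.card : ℝ) / n)) ^ B.card := by
  classical
  have hnR : (0 : ℝ) < n := by exact_mod_cast hn
  have h1 : ∀ π : Equiv.Perm (Fin n), (1 + z) ^ (B.filter (fun x => π x ∈ A)).card =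
      ∑ S ∈ B.powerset, if (∀ x ∈ S, π x ∈ A) then z ^ S.card else 0 := by
    intro π
    have h2 := Finset.sum_pow_mul_eq_add_pow z 1 (B.filter (fun x => π x ∈ A))
    rw [add_comm, ← h2, ← sum_filter]
    have h3 : (B.filter (fun x => π x ∈ A)).powerset =
        B.powerset.filter (fun S => ∀ x ∈ S, π x ∈ A) := by
      ext S
      rw [mem_powerset, mem_filter, mem_powerset]
      constructor
      · intro h
        exact ⟨h.trans (filter_subset _ _), fun x hx => (mem_filter.1 (h hx)).2⟩
      · rintro ⟨h1, h2⟩ x hx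
        exact mem_filter.2 ⟨h1 hx, h2 x hx⟩
    rw [h3]
    refine sum_congr rfl fun S _ => ?_
    rw [one_pow, mul_one]
  simp only [h1]
  rw [sum_comm]
  have h4 : ∀ S ∈ B.powerset, ∑ π : Equiv.Perm (Fin n),
      (if (∀ x ∈ S, π x ∈ A) then z ^ S.card else 0) ≤
        n.factorial * ((z * ((A.card : ℝ) / n)) ^ S.card * 1 ^ (B.card - S.card)) := by
    intro S _
    rw [← sum_filter, sum_const, nsmul_eq_mul, one_pow, mul_one, mul_pow, div_pow]
    have h5 := perm_into A S
    have h6 : (((univ.filter (fun π : Equiv.Perm (Fin n) => ∀ x ∈ S, π x ∈ A)).card : ℕ) : ℝ) *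
        (n : ℝ) ^ S.card ≤ (A.card : ℝ) ^ S.card * n.factorial := by exact_mod_cast h5
    have h7 : (0 : ℝ) < (n : ℝ) ^ S.card := by positivity
    have h8 : (((univ.filter (fun π : Equiv.Perm (Fin n) => ∀ x ∈ S, π x ∈ A)).card : ℕ) : ℝ) ≤
        (A.card : ℝ) ^ S.card / (n : ℝ) ^ S.card * n.factorial := by
      rw [div_mul_eq_mul_div, le_div_iff₀ h7]
      exact h6
    calc _ ≤ ((A.card : ℝ) ^ S.card / (n : ℝ) ^ S.card * n.factorial) * z ^ S.card :=
          mul_le_mul_of_nonneg_right h8 (by positivity)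
      _ = _ := by ring
  refine (sum_le_sum h4).trans ?_
  rw [← mul_sum, Finset.sum_pow_mul_eq_add_pow, add_comm]

theorem tail_upper (hn : 0 < n) (A B : Finset (Fin n)) (t : ℝ) (ht : 0 ≤ t) (ht2 : t ≤ 2 * n) :
    ((univ.filter (fun π : Equiv.Perm (Fin n) =>
      (A.card : ℝ) / n * B.card + t ≤ (B.filter (fun x => π x ∈ A)).card)).card : ℝ) ≤
      Real.exp (-(t ^ 2 / (4 * n))) * n.factorial := by
  classical
  have hnR : (0 : ℝ) < n := by exact_mod_cast hn
  obtain ⟨l, hl⟩ : ∃ l : ℝ, l = t / (2 * n) := ⟨_, rfl⟩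
  have hl0 : 0 ≤ l := by rw [hl]; positivity
  have hl1 : l ≤ 1 := by
    rw [hl, div_le_one (by positivity)]
    exact ht2
  obtain ⟨z, hz⟩ : ∃ z : ℝ, z = Real.exp l - 1 := ⟨_, rfl⟩
  have hz0 : 0 ≤ z := by
    rw [hz]
    have h1 := Real.add_one_le_exp l
    linarith
  have hz1 : z ≤ l + l ^ 2 := by
    have h1 := Real.abs_exp_sub_one_sub_id_le (show |l| ≤ 1 by rw [abs_of_nonneg hl0]; exact hl1)
    have h2 := (abs_le.1 h1).2
    rw [hz]
    linarith
  have hexp : 1 + z = Real.exp l := by rw [hz]; ring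
  obtain ⟨p, hp⟩ : ∃ p : ℝ, p = (A.card : ℝ) / n := ⟨_, rfl⟩
  have hp0 : 0 ≤ p := by rw [hp]; positivity
  have hp1 : p ≤ 1 := by
    rw [hp, div_le_one hnR]
    have h := card_le_univ A
    rw [Fintype.card_fin] at h
    exact_mod_cast h
  have hm := mgf hn A B z hz0
  rw [hexp, ← hp] at hm
  rw [← hp]
  have hB : (B.card : ℝ) ≤ n := by
    have h := card_le_univ B
    rw [Fintype.card_fin] at h
    exact_mod_cast h
  obtain ⟨F, hF⟩ : ∃ F, F = univ.filter (fun π : Equiv.Perm (Fin n) =>
      p * B.card + t ≤ (B.filter (fun x => π x ∈ A)).card) := ⟨_, rfl⟩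
  rw [← hF]
  have h1 : (F.card : ℝ) * Real.exp (l * (p * B.card + t)) ≤
      ∑ π : Equiv.Perm (Fin n), Real.exp l ^ (B.filter (fun x => π x ∈ A)).card := by
    rw [← nsmul_eq_mul, ← sum_const]
    refine (sum_le_sum (g := fun π : Equiv.Perm (Fin n) =>
      Real.exp l ^ (B.filter (fun x => π x ∈ A)).card) ?_).trans
      (sum_le_sum_of_subset_of_nonneg (subset_univ _) (fun _ _ _ => by positivity))
    intro π hπ
    rw [hF, mem_filter] at hπ
    rw [← Real.exp_nat_mul]
    apply Real.exp_le_exp.2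
    rw [mul_comm _ l]
    exact mul_le_mul_of_nonneg_left hπ.2 hl0
  have h2 : (1 + z * p) ^ B.card ≤ Real.exp ((l + l ^ 2) * (p * B.card)) := by
    have h3 : 1 + z * p ≤ Real.exp ((l + l ^ 2) * p) := by
      have h4 := Real.add_one_le_exp ((l + l ^ 2) * p)
      have h5 : z * p ≤ (l + l ^ 2) * p := mul_le_mul_of_nonneg_right hz1 hp0
      linarith
    calc (1 + z * p) ^ B.card ≤ Real.exp ((l + l ^ 2) * p) ^ B.card :=
          pow_le_pow_left₀ (by positivity) h3 _
      _ = Real.exp ((l + l ^ 2) * (p * B.card)) := by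
          rw [← Real.exp_nat_mul]
          congr 1
          ring
  have h3 : (F.card : ℝ) * Real.exp (l * (p * B.card + t)) ≤
      n.factorial * Real.exp ((l + l ^ 2) * (p * B.card)) :=
    h1.trans (hm.trans (mul_le_mul_of_nonneg_left h2 (Nat.cast_nonneg _)))
  have h4 : (F.card : ℝ) ≤ n.factorial * (Real.exp ((l + l ^ 2) * (p * B.card)) *
      Real.exp (-(l * (p * B.card + t)))) := by
    rw [Real.exp_neg, ← mul_assoc, ← div_eq_mul_inv, le_div_iff₀ (Real.exp_pos _)]
    exact h3
  rw [← Real.exp_add] at h4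
  refine h4.trans ?_
  rw [mul_comm]
  apply mul_le_mul_of_nonneg_right _ (Nat.cast_nonneg _)
  apply Real.exp_le_exp.2
  have h5 : l ^ 2 * (p * B.card) ≤ l ^ 2 * n := by
    apply mul_le_mul_of_nonneg_left _ (sq_nonneg _)
    calc p * B.card ≤ 1 * n := mul_le_mul hp1 hB (Nat.cast_nonneg _) zero_le_one
      _ = n := one_mul _
  have h6 : l ^ 2 * n - l * t = -(t ^ 2 / (4 * n)) := by
    rw [hl]
    field_simp
    ring
  have h7 : (l + l ^ 2) * (p * B.card) + -(l * (p * B.card + t)) =
      l ^ 2 * (p * B.card) - l * t := by ring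
  rw [h7, ← h6]
  linarith

theorem tail_lower (hn : 0 < n) (A B : Finset (Fin n)) (t : ℝ) (ht : 0 ≤ t) (ht2 : t ≤ 2 * n) :
    ((univ.filter (fun π : Equiv.Perm (Fin n) =>
      ((B.filter (fun x => π x ∈ A)).card : ℝ) ≤ (A.card : ℝ) / n * B.card - t)).card : ℝ) ≤
      Real.exp (-(t ^ 2 / (4 * n))) * n.factorial := by
  classical
  have hnR : (0 : ℝ) < n := by exact_mod_cast hn
  have h1 := tail_upper hn Aᶜ B t ht ht2
  refine le_trans ?_ h1
  have h2 : univ.filter (fun π : Equiv.Perm (Fin n) =>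
      ((B.filter (fun x => π x ∈ A)).card : ℝ) ≤ (A.card : ℝ) / n * B.card - t) ⊆
      univ.filter (fun π : Equiv.Perm (Fin n) =>
      ((Aᶜ.card : ℕ) : ℝ) / n * B.card + t ≤ (B.filter (fun x => π x ∈ Aᶜ)).card) := by
    intro π hπ
    rw [mem_filter] at hπ ⊢
    refine ⟨mem_univ _, ?_⟩
    have h3 : (B.filter (fun x => π x ∈ A)).card + (B.filter (fun x => π x ∈ Aᶜ)).card =
        B.card := by
      rw [← card_filter_add_card_filter_not (s := B) (fun x => π x ∈ A)]
      congr 2
      refine filter_congr fun x _ => ?_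
      rw [mem_compl]
    have h4 : (((B.filter (fun x => π x ∈ A)).card : ℕ) : ℝ) +
        ((B.filter (fun x => π x ∈ Aᶜ)).card : ℕ) = B.card := by exact_mod_cast h3
    have h5 : ((Aᶜ.card : ℕ) : ℝ) = n - A.card := by
      have h := card_le_univ A
      rw [Fintype.card_fin] at h
      rw [card_compl, Fintype.card_fin, Nat.cast_sub h]
    have h6 : ((Aᶜ.card : ℕ) : ℝ) / n * B.card = B.card - (A.card : ℝ) / n * B.card := by
      rw [h5]
      field_simp
    rw [h6]
    have h7 := hπ.2
    linarith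
  exact_mod_cast card_le_card h2

/-- one random permutation for many sets -/
theorem exists_step {Y : Type} (Yv : Finset Y) (hn : 0 < n) (A B : Y → Finset (Fin n)) (t : ℝ)
    (ht : 0 ≤ t) (ht2 : t ≤ 2 * n) (hY : (Yv.card : ℝ) * (2 * Real.exp (-(t ^ 2 / (4 * n)))) < 1) :
    ∃ π : Equiv.Perm (Fin n), ∀ y ∈ Yv,
      |(((B y).filter (fun x => π x ∈ A y)).card : ℝ) - ((A y).card : ℝ) / n * (B y).card| ≤ t := by
  classical
  by_contra hcon
  push Not at hcon
  have hcov : (univ : Finset (Equiv.Perm (Fin n))) ⊆ Yv.biUnion (fun y =>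
      (univ.filter (fun π : Equiv.Perm (Fin n) =>
        ((A y).card : ℝ) / n * (B y).card + t ≤ ((B y).filter (fun x => π x ∈ A y)).card)) ∪
      (univ.filter (fun π : Equiv.Perm (Fin n) =>
        (((B y).filter (fun x => π x ∈ A y)).card : ℝ) ≤ ((A y).card : ℝ) / n * (B y).card - t)))
      := by
    intro π _
    obtain ⟨y, hy, hlt⟩ := hcon π
    rw [mem_biUnion]
    refine ⟨y, hy, ?_⟩
    rw [mem_union, mem_filter, mem_filter]
    rcases lt_abs.1 hlt with h | h
    · left
      exact ⟨mem_univ _, by linarith⟩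
    · right
      exact ⟨mem_univ _, by linarith⟩
  have h1 := (card_le_card hcov).trans card_biUnion_le
  rw [card_univ, Fintype.card_perm, Fintype.card_fin] at h1
  have h2 : ((n.factorial : ℕ) : ℝ) ≤ ∑ y ∈ Yv,
      (2 * Real.exp (-(t ^ 2 / (4 * n))) * n.factorial) := by
    have h3 : ((n.factorial : ℕ) : ℝ) ≤ ((∑ y ∈ Yv, ((univ.filter (fun π : Equiv.Perm (Fin n) =>
        ((A y).card : ℝ) / n * (B y).card + t ≤ ((B y).filter (fun x => π x ∈ A y)).card)) ∪
      (univ.filter (fun π : Equiv.Perm (Fin n) =>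
        (((B y).filter (fun x => π x ∈ A y)).card : ℝ) ≤
          ((A y).card : ℝ) / n * (B y).card - t))).card : ℕ) : ℝ) := by exact_mod_cast h1
    refine h3.trans ?_
    push_cast
    refine sum_le_sum fun y _ => ?_
    have h4 := tail_upper hn (A y) (B y) t ht ht2
    have h5 := tail_lower hn (A y) (B y) t ht ht2
    have h6 : ((((univ.filter (fun π : Equiv.Perm (Fin n) =>
        ((A y).card : ℝ) / n * (B y).card + t ≤ ((B y).filter (fun x => π x ∈ A y)).card)) ∪
      (univ.filter (fun π : Equiv.Perm (Fin n) =>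
        (((B y).filter (fun x => π x ∈ A y)).card : ℝ) ≤
          ((A y).card : ℝ) / n * (B y).card - t))).card : ℕ) : ℝ) ≤
        ((univ.filter (fun π : Equiv.Perm (Fin n) =>
        ((A y).card : ℝ) / n * (B y).card + t ≤
          ((B y).filter (fun x => π x ∈ A y)).card)).card : ℝ) +
        ((univ.filter (fun π : Equiv.Perm (Fin n) =>
        (((B y).filter (fun x => π x ∈ A y)).card : ℝ) ≤
          ((A y).card : ℝ) / n * (B y).card - t)).card : ℝ) := by
      exact_mod_cast card_union_le _ _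
    linarith
  rw [sum_const, nsmul_eq_mul] at h2
  have hf : (0 : ℝ) < ((n.factorial : ℕ) : ℝ) := by exact_mod_cast n.factorial_pos
  have h3 : (Yv.card : ℝ) * (2 * Real.exp (-(t ^ 2 / (4 * n))) * n.factorial) =
      ((Yv.card : ℝ) * (2 * Real.exp (-(t ^ 2 / (4 * n))))) * n.factorial := by ring
  rw [h3] at h2
  have h4 := mul_lt_mul_of_pos_right hY hf
  linarith

end into

end Pool.Agent.T9h47.SE
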