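import Mathlib
import Pool.Agent.T9h47.SE.Rate1
import Pool.Agent.T9h47.SE.Gauge

/-!
# Sparse codes with a sharp rate
-/

set_option autoImplicit false
set_option linter.unusedSectionVars false

namespace Pool.Agent.T9h47.SE

open Finset
open Pool.Agent.T9h47.SC

section binom

theorem choose_quad_step (n w : ℕ) (δ : ℝ) (hδ0 : 0 ≤ δ) (hδ : δ ≤ 1 / 6)
    (hw : (n : ℝ) / 2 - δ * n ≤ w) (j : ℕ) :
    ((n.choose (w + j) : ℕ) : ℝ) ≤ (1 + 6 * δ) ^ j * (n.choose w : ℕ) := by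
  induction j with
  | zero => simp
  | succ j ih =>
    have h1 : (n.choose (w + j + 1) : ℕ) * (w + j + 1) = n.choose (w + j) * (n - (w + j)) :=
      Nat.choose_succ_right_eq n (w + j)
    have hn0 : (0 : ℝ) ≤ n := Nat.cast_nonneg n
    have h2 : ((n.choose (w + j + 1) : ℕ) : ℝ) * ((w : ℝ) + j + 1) ≤
        ((n.choose (w + j) : ℕ) : ℝ) * ((1 + 6 * δ) * ((w : ℝ) + j + 1)) := by
      have h3 : ((n - (w + j) : ℕ) : ℝ) ≤ (1 + 6 * δ) * ((w : ℝ) + j + 1) := by
        rcases le_total (w + j) n with h | h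
        · rw [Nat.cast_sub h]
          push_cast
          have hj : (0 : ℝ) ≤ j := Nat.cast_nonneg j
          have h4 : (1 + 6 * δ) * ((n : ℝ) / 2 - δ * n) ≤ (1 + 6 * δ) * ((w : ℝ) + j + 1) :=
            mul_le_mul_of_nonneg_left (by linarith) (by linarith)
          have h5 : (1 + 6 * δ) * ((n : ℝ) / 2 - δ * n) =
              n / 2 + δ * n + δ * n * (1 - 6 * δ) := by ring
          have h6 : 0 ≤ δ * n * (1 - 6 * δ) :=
            mul_nonneg (mul_nonneg hδ0 hn0) (by linarith)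
          linarith
        · rw [Nat.sub_eq_zero_of_le h, Nat.cast_zero]
          positivity
      have h4 : ((n.choose (w + j + 1) : ℕ) : ℝ) * ((w : ℝ) + j + 1) =
          ((n.choose (w + j) : ℕ) : ℝ) * ((n - (w + j) : ℕ) : ℝ) := by exact_mod_cast h1
      rw [h4]
      exact mul_le_mul_of_nonneg_left h3 (Nat.cast_nonneg _)
    have hpos : (0 : ℝ) < (w : ℝ) + j + 1 := by positivity
    have h5 : ((n.choose (w + j + 1) : ℕ) : ℝ) ≤ (1 + 6 * δ) * ((n.choose (w + j) : ℕ) : ℝ) := by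
      have h6 : ((n.choose (w + j + 1) : ℕ) : ℝ) * ((w : ℝ) + j + 1) ≤
          ((1 + 6 * δ) * ((n.choose (w + j) : ℕ) : ℝ)) * ((w : ℝ) + j + 1) := by
        calc _ ≤ _ := h2
          _ = _ := by ring
      exact le_of_mul_le_mul_right h6 hpos
    calc ((n.choose (w + (j + 1)) : ℕ) : ℝ) ≤ (1 + 6 * δ) * ((n.choose (w + j) : ℕ) : ℝ) := h5
      _ ≤ (1 + 6 * δ) * ((1 + 6 * δ) ^ j * (n.choose w : ℕ)) :=
          mul_le_mul_of_nonneg_left ih (by linarith)
      _ = (1 + 6 * δ) ^ (j + 1) * (n.choose w : ℕ) := by ring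

theorem choose_quad (n w : ℕ) (δ : ℝ) (hδ0 : 0 ≤ δ) (hδ : δ ≤ 1 / 6)
    (hw : |(w : ℝ) - n / 2| ≤ δ * n) :
    (2 : ℝ) ^ n * Real.exp (-(6 * δ ^ 2 * n)) ≤ ((n : ℝ) + 1) * (n.choose w : ℕ) := by
  have key : ∀ w : ℕ, 2 * w ≤ n → |(w : ℝ) - n / 2| ≤ δ * n →
      (2 : ℝ) ^ n * Real.exp (-(6 * δ ^ 2 * n)) ≤ ((n : ℝ) + 1) * (n.choose w : ℕ) := by
    intro w hw2 hw
    rw [abs_le] at hw
    have h1 := choose_quad_step n w δ hδ0 hδ (by linarith [hw.1]) (n / 2 - w)
    have h2 : w + (n / 2 - w) = n / 2 := by omega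
    rw [h2] at h1
    have h3 := middle n
    have hexp : ((n / 2 - w : ℕ) : ℝ) ≤ δ * n := by
      rw [Nat.cast_sub (by omega)]
      have : ((n / 2 : ℕ) : ℝ) ≤ n / 2 := Nat.cast_div_le
      linarith [hw.1]
    have h4 : (1 + 6 * δ) ^ (n / 2 - w) ≤ Real.exp (6 * δ ^ 2 * n) := by
      calc (1 + 6 * δ) ^ (n / 2 - w) ≤ Real.exp (6 * δ) ^ (n / 2 - w) := by
            refine pow_le_pow_left₀ (by linarith) ?_ _
            have := Real.add_one_le_exp (6 * δ)
            linarith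
        _ = Real.exp (((n / 2 - w : ℕ) : ℝ) * (6 * δ)) := (Real.exp_nat_mul _ _).symm
        _ ≤ Real.exp (6 * δ ^ 2 * n) := by
            apply Real.exp_le_exp.2
            calc ((n / 2 - w : ℕ) : ℝ) * (6 * δ) ≤ δ * n * (6 * δ) :=
                  mul_le_mul_of_nonneg_right hexp (by linarith)
              _ = 6 * δ ^ 2 * n := by ring
    have h5 : (2 : ℝ) ^ n ≤ ((n : ℝ) + 1) * (Real.exp (6 * δ ^ 2 * n) * (n.choose w : ℕ)) := by
      refine h3.trans (mul_le_mul_of_nonneg_left ?_ (by positivity))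
      exact h1.trans (mul_le_mul_of_nonneg_right h4 (Nat.cast_nonneg _))
    rw [Real.exp_neg, ← div_eq_mul_inv, div_le_iff₀ (Real.exp_pos _)]
    calc (2 : ℝ) ^ n ≤ _ := h5
      _ = _ := by ring
  rcases le_total (2 * w) n with h | h
  · exact key w h hw
  · have hwn : w ≤ n := by
      rw [abs_le] at hw
      have hn0 : (0 : ℝ) ≤ n := Nat.cast_nonneg n
      have h1 : (w : ℝ) ≤ n := by nlinarith [hw.2]
      exact_mod_cast h1
    rw [← Nat.choose_symm hwn]
    apply key (n - w) (by omega)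
    rw [Nat.cast_sub hwn]
    have h2 : ((n : ℝ) - w) - n / 2 = -((w : ℝ) - n / 2) := by ring
    rw [h2, abs_neg]
    exact hw

end binom

section code

theorem wt_add_eq {J : Type} [Fintype J] (u v : J → ZMod 2) :
    wt (u + v) + 2 * ((univ.filter (fun j => v j ≠ 0)).filter (fun j => u j ≠ 0)).card =
      wt u + wt v := by
  unfold wt
  rw [filter_filter]
  simp only [card_filter]
  rw [mul_sum, ← sum_add_distrib, ← sum_add_distrib]
  refine sum_congr rfl fun j _ => ?_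
  show (if u j + v j ≠ 0 then 1 else 0) + 2 * (if (v j ≠ 0 ∧ u j ≠ 0) then 1 else 0) =
    (if u j ≠ 0 then 1 else 0) + (if v j ≠ 0 then 1 else 0)
  have h5 : ∀ a b : ZMod 2, ((if a + b ≠ 0 then 1 else 0) + 2 * (if (b ≠ 0 ∧ a ≠ 0) then 1 else 0) :
    ℕ) = (if a ≠ 0 then 1 else 0) + (if b ≠ 0 then 1 else 0) := by decide
  exact h5 (u j) (v j)

theorem wt_perm {N : ℕ} (v : Fin N → ZMod 2) (π : Equiv.Perm (Fin N)) :
    wt (fun i => v (π i)) = wt v := by
  unfold wt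
  refine card_bij (fun i _ => π i) ?_ ?_ ?_
  · intro i hi
    rw [mem_filter] at hi ⊢
    exact ⟨mem_univ _, hi.2⟩
  · intro i _ j _ hij
    exact π.injective hij
  · intro j hj
    rw [mem_filter] at hj
    refine ⟨π.symm j, ?_, by simp⟩
    rw [mem_filter]
    refine ⟨mem_univ _, ?_⟩
    simpa using hj.2

/-- permutations chosen one after the other -/
theorem exists_list {N : ℕ} {Y : Type} (Yv : Finset Y) (v : Y → Fin N → ZMod 2) (hN : 0 < N)
    (t : ℝ) (ht : 0 ≤ t) (ht2 : t ≤ 2 * N)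
    (hY : (Yv.card : ℝ) * (2 * Real.exp (-(t ^ 2 / (4 * N)))) < 1)
    (hp : ∀ y ∈ Yv, |1 - 2 * ((wt (v y) : ℝ) / N)| ≤ 1 / 2) (M : ℕ) :
    ∃ L : List (Equiv.Perm (Fin N)), L.length = M ∧ ∀ y ∈ Yv,
      |((wt (fun i => (L.map (fun π => v y (π i))).sum) : ℕ) : ℝ) - N / 2| ≤
        (1 / 2) ^ M * (N / 2) + 4 * t := by
  classical
  have hNR : (0 : ℝ) < N := by exact_mod_cast hN
  induction M with
  | zero =>
    refine ⟨[], rfl, fun y _ => ?_⟩
    have h2 : wt (fun i : Fin N => ((([] : List (Equiv.Perm (Fin N))).map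
        (fun π => v y (π i))).sum : ZMod 2)) = 0 := by
      unfold wt
      rw [card_eq_zero, filter_eq_empty_iff]
      intro i _ hne
      exact hne rfl
    rw [h2, Nat.cast_zero, zero_sub, abs_neg, abs_of_pos (by positivity), pow_zero, one_mul]
    linarith
  | succ M ih =>
    obtain ⟨L, hL, hLy⟩ := ih
    obtain ⟨u, hu⟩ : ∃ u : Y → Fin N → ZMod 2, ∀ y, u y = fun i =>
      (L.map (fun π => v y (π i))).sum := ⟨_, fun _ => rfl⟩
    obtain ⟨π, hπ⟩ := exists_step Yv hN (fun y => univ.filter (fun i => v y i ≠ 0))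
      (fun y => univ.filter (fun i => u y i ≠ 0)) t ht ht2 hY
    refine ⟨π :: L, by rw [List.length_cons, hL], fun y hy => ?_⟩
    have h1 := hLy y hy
    have h2 := hπ y hy
    have h3 : (fun i => ((π :: L).map (fun π => v y (π i))).sum) =
        (fun i => v y (π i)) + u y := by
      funext i
      rw [List.map_cons, List.sum_cons, hu]
      rfl
    rw [h3]
    have h4 := wt_add_eq (fun i => v y (π i)) (u y)
    rw [wt_perm] at h4
    obtain ⟨X, hX⟩ : ∃ X : ℕ, X = ((univ.filter (fun j => u y j ≠ 0)).filter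
      (fun j => v y (π j) ≠ 0)).card := ⟨_, rfl⟩
    rw [← hX] at h4
    have h5 : ((univ.filter (fun i => u y i ≠ 0)).filter
        (fun x => π x ∈ univ.filter (fun i => v y i ≠ 0))).card = X := by
      rw [hX]
      congr 1
      refine filter_congr fun x _ => ?_
      rw [mem_filter]
      exact ⟨fun h => h.2, fun h => ⟨mem_univ _, h⟩⟩
    rw [h5] at h2
    have h6 : ((univ.filter (fun i => v y i ≠ 0)).card : ℝ) = (wt (v y) : ℕ) := rfl
    have h7 : ((univ.filter (fun i => u y i ≠ 0)).card : ℝ) = (wt (u y) : ℕ) := rfl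
    rw [h6, h7] at h2
    have h8 : (wt (fun i => (L.map (fun π => v y (π i))).sum) : ℝ) = (wt (u y) : ℕ) := by
      rw [hu]
    rw [h8] at h1
    obtain ⟨a, ha⟩ : ∃ a : ℝ, a = ((wt (v y) : ℕ) : ℝ) := ⟨_, rfl⟩
    obtain ⟨b, hb⟩ : ∃ b : ℝ, b = ((wt (u y) : ℕ) : ℝ) := ⟨_, rfl⟩
    obtain ⟨x, hx⟩ : ∃ x : ℝ, x = (X : ℝ) := ⟨_, rfl⟩
    obtain ⟨w, hw⟩ : ∃ w : ℝ, w = ((wt ((fun i => v y (π i)) + u y) : ℕ) : ℝ) := ⟨_, rfl⟩
    have h9 : w + 2 * x = a + b := by
      rw [hw, hx, ha, hb]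
      exact_mod_cast h4
    rw [← hw]
    rw [← ha, ← hb, ← hx] at h2
    rw [← hb] at h1
    have hp' := hp y hy
    rw [← ha] at hp'
    obtain ⟨p, hpp⟩ : ∃ p : ℝ, p = a / N := ⟨_, rfl⟩
    have hap : a = p * N := by rw [hpp]; field_simp
    rw [← hpp] at h2 hp'
    have h10 : w - N / 2 = (1 - 2 * p) * (b - N / 2) - 2 * (x - p * b) := by
      have : w = a + b - 2 * x := by linarith
      rw [this, hap]
      ring
    rw [h10]
    calc |(1 - 2 * p) * (b - N / 2) - 2 * (x - p * b)|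
        ≤ |(1 - 2 * p) * (b - N / 2)| + |2 * (x - p * b)| := abs_sub _ _
      _ = |1 - 2 * p| * |b - N / 2| + 2 * |x - p * b| := by
          rw [abs_mul, abs_mul, abs_two]
      _ ≤ 1 / 2 * ((1 / 2) ^ M * (N / 2) + 4 * t) + 2 * t := by
          refine add_le_add (mul_le_mul hp' h1 (abs_nonneg _) (by norm_num)) ?_
          linarith
      _ = (1 / 2) ^ (M + 1) * (N / 2) + 4 * t := by ring

end code

end Pool.Agent.T9h47.SE
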