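import Mathlib
import Pool.Agent.T9h47.SE.Twist

/-!
# Robust pieces of graphs, and additive functions
-/

set_option autoImplicit false
set_option linter.unusedSectionVars false

namespace Pool.Agent.T9h47.SE

open Finset

section robust

variable {V Ω : Type} [DecidableEq V] [DecidableEq Ω] (s t : Ω → V) (S : Finset Ω)

/-- the edges inside a set of vertices -/
def inside (A : Finset V) : Finset Ω := S.filter (fun ω => s ω ∈ A ∧ t ω ∈ A)

/-- the edges between two sets of vertices -/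
def cross (A B : Finset V) : Finset Ω :=
  S.filter (fun ω => (s ω ∈ A ∧ t ω ∈ B) ∨ (s ω ∈ B ∧ t ω ∈ A))

theorem inside_split (A B : Finset V) :
    (inside s t S A).card ≤ (inside s t S B).card + (inside s t S (A \ B)).card +
      (cross s t S B (A \ B)).card := by
  have h1 : inside s t S A ⊆ (inside s t S B ∪ inside s t S (A \ B)) ∪ cross s t S B (A \ B) := by
    intro ω hω
    unfold inside at hω
    rw [mem_filter] at hω
    obtain ⟨hS, hs, ht⟩ := hω
    unfold inside cross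
    simp only [mem_union, mem_filter, mem_sdiff]
    by_cases h1 : s ω ∈ B <;> by_cases h2 : t ω ∈ B
    · exact Or.inl (Or.inl ⟨hS, h1, h2⟩)
    · exact Or.inr ⟨hS, Or.inl ⟨h1, ht, h2⟩⟩
    · exact Or.inr ⟨hS, Or.inr ⟨⟨hs, h1⟩, h2⟩⟩
    · exact Or.inl (Or.inr ⟨hS, ⟨hs, h1⟩, ⟨ht, h2⟩⟩)
  refine (card_le_card h1).trans ((card_union_le _ _).trans ?_)
  exact Nat.add_le_add_right (card_union_le _ _) _

/-- **Robust pieces.** A dense subgraph of a graph with the expander mixing property contains a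
large piece all of whose balanced cuts are large. -/
theorem exists_robust [Fintype V] [Nonempty V] (D δ σ : ℝ) (hD : 0 < D) (hδ : 0 < δ)
    (hσ : σ ≤ δ / 4)
    (hmix : ∀ A : Finset V, ((inside s t S A).card : ℝ) ≤
      D * ((A.card : ℝ) ^ 2 / Fintype.card V + σ * A.card))
    (hS : δ * D * Fintype.card V ≤ S.card) :
    ∃ A : Finset V, δ / 4 * Fintype.card V ≤ A.card ∧ ∀ B ⊆ A, A.card ≤ 4 * B.card →
      4 * B.card ≤ 3 * A.card →
      3 / 256 * δ ^ 3 * D * Fintype.card V ≤ (cross s t S B (A \ B)).card := by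
  classical
  obtain ⟨N, hN⟩ : ∃ N : ℝ, N = (Fintype.card V : ℝ) := ⟨_, rfl⟩
  rw [← hN] at hmix hS ⊢
  have hNpos : 0 < N := by rw [hN]; exact_mod_cast Fintype.card_pos
  obtain ⟨β, hβ⟩ : ∃ β, β = δ * D / 2 := ⟨_, rfl⟩
  have hβpos : 0 < β := by rw [hβ]; positivity
  obtain ⟨F, hF⟩ : ∃ F : Finset (Finset V), F = univ.filter (fun A => A.Nonempty ∧
    β * A.card + β * (A.card : ℝ) ^ 2 / N ≤ (inside s t S A).card) := ⟨_, rfl⟩
  have hFm : ∀ A, A ∈ F ↔ (A.Nonempty ∧
    β * A.card + β * (A.card : ℝ) ^ 2 / N ≤ (inside s t S A).card) := by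
    intro A; rw [hF, mem_filter]; exact ⟨fun h => h.2, fun h => ⟨mem_univ _, h⟩⟩
  have hne : F.Nonempty := by
    refine ⟨univ, (hFm _).2 ⟨univ_nonempty, ?_⟩⟩
    have h1 : inside s t S univ = S := by
      unfold inside
      rw [filter_true_of_mem]
      intro ω _
      exact ⟨mem_univ _, mem_univ _⟩
    rw [h1, card_univ, ← hN]
    have h2 : β * N ^ 2 / N = β * N := by field_simp
    rw [h2]
    calc β * N + β * N = δ * D * N := by rw [hβ]; ring
      _ ≤ S.card := hS
  obtain ⟨A, hA, hmin⟩ := exists_min_image F card hne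
  rw [hFm] at hA
  obtain ⟨hA1, hA2⟩ := hA
  have hapos : (0 : ℝ) < A.card := by exact_mod_cast hA1.card_pos
  obtain ⟨a, ha⟩ : ∃ a : ℝ, a = A.card := ⟨_, rfl⟩
  rw [← ha] at hapos
  have hbig : δ / 4 * N ≤ a := by
    have h1 := hA2.trans (hmix A)
    rw [← ha] at h1
    have h2 : β * a + β * a ^ 2 / N = (β * (1 + a / N)) * a := by ring
    have h3 : D * (a ^ 2 / N + σ * a) = (D * (a / N + σ)) * a := by ring
    rw [h2, h3] at h1
    have h4 := le_of_mul_le_mul_right h1 hapos
    have h5 : 0 ≤ a / N := by positivity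
    have h6 : β ≤ D * (a / N + σ) := by
      refine le_trans ?_ h4
      nlinarith
    have h7 : δ / 2 ≤ a / N + σ := by
      have h8 : D * (δ / 2) ≤ D * (a / N + σ) := by
        calc D * (δ / 2) = β := by rw [hβ]; ring
          _ ≤ _ := h6
      exact le_of_mul_le_mul_left h8 hD
    have h8 : δ / 4 ≤ a / N := by linarith
    rwa [le_div_iff₀ hNpos] at h8
  refine ⟨A, by rw [← ha]; exact hbig, ?_⟩
  intro B hB hB1 hB2
  have hBpos : 0 < B.card := by
    have := hA1.card_pos
    omega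
  have hBlt : B.card < A.card := by
    have := hA1.card_pos
    omega
  have hCcard : (A \ B).card = A.card - B.card := card_sdiff_of_subset hB
  obtain ⟨b, hb⟩ : ∃ b : ℝ, b = B.card := ⟨_, rfl⟩
  have hC : (((A \ B).card : ℕ) : ℝ) = a - b := by
    rw [hCcard, Nat.cast_sub hBlt.le, ha, hb]
  have h1 : ((inside s t S B).card : ℝ) < β * b + β * b ^ 2 / N := by
    by_contra hcon
    rw [not_lt, hb] at hcon
    have h2 := hmin B ((hFm B).2 ⟨card_pos.1 hBpos, hcon⟩)
    omega
  have h2 : ((inside s t S (A \ B)).card : ℝ) < β * (a - b) + β * (a - b) ^ 2 / N := by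
    by_contra hcon
    rw [not_lt, ← hC] at hcon
    have h3 := hmin (A \ B) ((hFm _).2 ⟨card_pos.1 (by omega), hcon⟩)
    omega
  have h3 : ((inside s t S A).card : ℝ) ≤ (inside s t S B).card + (inside s t S (A \ B)).card +
      (cross s t S B (A \ B)).card := by exact_mod_cast inside_split s t S A B
  rw [← ha] at hA2
  have hb1 : a ≤ 4 * b := by rw [ha, hb]; exact_mod_cast hB1
  have hb2 : 4 * b ≤ 3 * a := by rw [ha, hb]; exact_mod_cast hB2
  have h4 : 2 * β * (b * (a - b)) / N ≤ (cross s t S B (A \ B)).card := by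
    have h5 : β * a + β * a ^ 2 / N - (β * b + β * b ^ 2 / N) -
        (β * (a - b) + β * (a - b) ^ 2 / N) = 2 * β * (b * (a - b)) / N := by
      field_simp
      ring
    linarith
  refine le_trans ?_ h4
  have h5 : 3 / 16 * a ^ 2 ≤ b * (a - b) := by nlinarith
  have h6 : 3 / 16 * (δ / 4 * N) ^ 2 ≤ b * (a - b) := by
    refine le_trans ?_ h5
    have : (δ / 4 * N) ^ 2 ≤ a ^ 2 := pow_le_pow_left₀ (by positivity) hbig 2
    linarith
  rw [le_div_iff₀ hNpos]
  calc 3 / 256 * δ ^ 3 * D * N * N = 2 * β * (3 / 16 * (δ / 4 * N) ^ 2) := by rw [hβ]; ring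
    _ ≤ 2 * β * (b * (a - b)) := mul_le_mul_of_nonneg_left h6 (by positivity)

end robust

section phi

variable {V : Type} [Fintype V] [DecidableEq V] (A : Finset V)

/-- the number of nonzero entries in `A` -/
def wA (y : V → ZMod 2) : ℕ := (A.filter (fun j => y j ≠ 0)).card

/-- the majority value in `A` -/
def maj (y : V → ZMod 2) : ZMod 2 := if 2 * wA A y ≤ A.card then 0 else 1

theorem wA_add (y z : V → ZMod 2) : wA A (y + z) ≤ wA A y + wA A z := by
  unfold wA
  refine (card_le_card ?_).trans (card_union_le _ _)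
  intro j hj
  rw [mem_filter] at hj
  rw [mem_union, mem_filter, mem_filter]
  by_contra hcon
  rw [not_or] at hcon
  apply hj.2
  have h1 : y j = 0 := by
    by_contra h
    exact hcon.1 ⟨hj.1, h⟩
  have h2 : z j = 0 := by
    by_contra h
    exact hcon.2 ⟨hj.1, h⟩
  show y j + z j = 0
  rw [h1, h2, add_zero]

theorem wA_sum (y z : V → ZMod 2) : wA A (y + z) + (wA A y + wA A z) ≤ 2 * A.card := by
  unfold wA
  have hs : ∀ y : V → ZMod 2, (A.filter (fun j => y j ≠ 0)).card =
      ∑ j ∈ A, if y j ≠ 0 then 1 else 0 := fun y => by rw [card_filter]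
  rw [hs, hs, hs, ← sum_add_distrib, ← sum_add_distrib, mul_comm, ← smul_eq_mul, ← sum_const]
  refine sum_le_sum fun j _ => ?_
  have h5 : ∀ a b : ZMod 2, ((if a + b ≠ 0 then 1 else 0) + ((if a ≠ 0 then 1 else 0) +
    (if b ≠ 0 then 1 else 0)) : ℕ) ≤ 2 := by decide
  exact h5 (y j) (z j)

theorem maj_add {y z : V → ZMod 2}
    (hy : 4 * wA A y < A.card ∨ 3 * A.card < 4 * wA A y)
    (hz : 4 * wA A z < A.card ∨ 3 * A.card < 4 * wA A z)
    (hyz : 4 * wA A (y + z) < A.card ∨ 3 * A.card < 4 * wA A (y + z)) :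
    maj A (y + z) = maj A y + maj A z := by
  have h1 := wA_add A y z
  have h2 := wA_add A (y + z) z
  have h3 := wA_add A (y + z) y
  have h4 := wA_sum A y z
  have e2 : y + z + z = y := by rw [add_assoc, vec_self, add_zero]
  have e3 : y + z + y = z := by rw [add_comm y z, add_assoc, vec_self, add_zero]
  rw [e2] at h2
  rw [e3] at h3
  unfold maj
  rcases hy with h | h <;> rcases hz with h' | h' <;> rcases hyz with h'' | h''
  · rw [if_pos (by omega), if_pos (by omega), if_pos (by omega), add_zero]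
  · omega
  · omega
  · rw [if_neg (by omega), if_pos (by omega), if_neg (by omega), zero_add]
  · omega
  · rw [if_neg (by omega), if_neg (by omega), if_pos (by omega), add_zero]
  · rw [if_pos (by omega), if_neg (by omega), if_neg (by omega)]
    decide
  · omega

end phi

section classes

variable {h r : ℕ} (col : Fin h → Fin r)

/-- the functions which are constant on the colour classes -/
def CF : Submodule (ZMod 2) (Fin h → ZMod 2) :=
  LinearMap.range (LinearMap.funLeft (ZMod 2) (ZMod 2) col)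

theorem mem_CF (κ : Fin h → ZMod 2) : κ ∈ CF col ↔ ∃ x : Fin r → ZMod 2, (fun i => x (col i)) = κ :=
  Iff.rfl

theorem wt_sum_le {ι : Type} (s : Finset ι) (f : ι → Fin h → ZMod 2) :
    wt (∑ i ∈ s, f i) ≤ ∑ i ∈ s, wt (f i) := by
  classical
  induction s using Finset.induction_on with
  | empty =>
    rw [sum_empty, sum_empty]
    unfold wt
    rw [Nat.le_zero, card_eq_zero, filter_eq_empty_iff]
    intro i _ h4
    exact h4 rfl
  | insert a s ha ih =>
    rw [sum_insert ha, sum_insert ha]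
    exact (wt_add _ _).trans (Nat.add_le_add_left ih _)

theorem wt_smul_le (c : ZMod 2) (f : Fin h → ZMod 2) : wt (c • f) ≤ wt f := by
  rcases z2_cases c with rfl | rfl
  · rw [zero_smul]
    unfold wt
    rw [filter_false_of_mem]
    · exact Nat.zero_le _
    · intro i _ h4
      exact h4 rfl
  · rw [one_smul]

variable {V : Type} [Fintype V] [DecidableEq V] (T : (V → ZMod 2) →ₗ[ZMod 2] (Fin h → ZMod 2))
  (t : ℕ)

/-- the class functions which are close to the image of `T` -/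
def XX : Set (Fin h → ZMod 2) := {κ | κ ∈ CF col ∧ ∃ y, wt (T y + κ) ≤ t}

/-- A linear choice of preimages. -/
theorem exists_lift : ∃ L : (Fin h → ZMod 2) →ₗ[ZMod 2] (V → ZMod 2),
    ∀ κ ∈ Submodule.span (ZMod 2) (XX col T t), wt (T (L κ) + κ) ≤ r * t := by
  classical
  obtain ⟨b, hb1, hb2, hb3⟩ := exists_linearIndependent (ZMod 2) (XX col T t)
  have hbfin : b.Finite := Set.toFinite b
  obtain ⟨s, hs⟩ : ∃ s : Finset (Fin h → ZMod 2), (s : Set (Fin h → ZMod 2)) = b :=
    ⟨hbfin.toFinset, hbfin.coe_toFinset⟩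
  have hsX : ∀ a ∈ s, a ∈ XX col T t := fun a ha => hb1 (by rw [← hs]; exact mem_coe.2 ha)
  choose lift hlift using fun a : XX col T t => a.2.2
  obtain ⟨L, hL⟩ : ∃ L : (Fin h → ZMod 2) →ₗ[ZMod 2] (V → ZMod 2),
      ∀ a (ha : a ∈ s), L a = lift ⟨a, hsX a ha⟩ := by
    have hb4 : LinearIndepOn (ZMod 2) id b := hb3
    let B := Module.Basis.extend hb4
    refine ⟨B.constr (ZMod 2) (fun i => if hi : i.1 ∈ s then lift ⟨i.1, hsX _ hi⟩ else 0), ?_⟩
    intro a ha
    have hab : a ∈ b := by rw [← hs]; exact mem_coe.2 ha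
    have hae : a ∈ hb4.extend (Set.subset_univ b) := Module.Basis.subset_extend hb4 hab
    have h1 : B ⟨a, hae⟩ = a := Module.Basis.extend_apply_self hb4 ⟨a, hae⟩
    have h2 := B.constr_basis (ZMod 2)
      (fun i => if hi : i.1 ∈ s then lift ⟨i.1, hsX _ hi⟩ else 0) ⟨a, hae⟩
    rw [h1] at h2
    rw [h2, dif_pos ha]
  have hcard : s.card ≤ r := by
    have hx : ∀ a : b, ∃ x : Fin r → ZMod 2, (fun i => x (col i)) = a.1 :=
      fun a => (hb1 a.2).1
    choose x hx using hx
    have hli : LinearIndependent (ZMod 2) x := by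
      apply LinearIndependent.of_comp (LinearMap.funLeft (ZMod 2) (ZMod 2) col)
      have h1 : (LinearMap.funLeft (ZMod 2) (ZMod 2) col) ∘ x = Subtype.val := by
        funext a
        exact hx a
      rw [h1]
      exact hb3
    have hbf : Fintype b := hbfin.fintype
    have h2 := hli.fintype_card_le_finrank
    rw [Module.finrank_fin_fun] at h2
    have h3 : s.card = Fintype.card b := by
      rw [← Nat.card_eq_fintype_card, ← hs, Nat.card_eq_fintype_card]
      exact (Fintype.card_coe s).symm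
    omega
  refine ⟨L, ?_⟩
  intro κ hκ
  rw [← hb2, ← hs] at hκ
  obtain ⟨f, _, hf⟩ := (Submodule.mem_span_finset).1 hκ
  have h1 : T (L κ) + κ = ∑ a ∈ s, f a • (T (L a) + a) := by
    conv_lhs => rw [← hf]
    rw [map_sum, map_sum, ← sum_add_distrib]
    refine sum_congr rfl fun a _ => ?_
    rw [map_smul, map_smul, smul_add]
  rw [h1]
  refine (wt_sum_le s _).trans ?_
  calc ∑ a ∈ s, wt (f a • (T (L a) + a)) ≤ ∑ _a ∈ s, t := by
        refine sum_le_sum fun a ha => (wt_smul_le _ _).trans ?_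
        rw [hL a ha]
        exact hlift ⟨a, hsX a ha⟩
    _ = s.card * t := by rw [sum_const, smul_eq_mul]
    _ ≤ r * t := Nat.mul_le_mul_right _ hcard

variable (A : Finset V) (L : (Fin h → ZMod 2) →ₗ[ZMod 2] (V → ZMod 2))

/-- the additive function -/
noncomputable def phB (y : V → ZMod 2) : ZMod 2 :=
  open Classical in
  if hex : ∃ κ, κ ∈ CF col ∧ wt (T y + κ) ≤ t then maj A (y + L hex.choose) else 0

theorem phB_eq (htiny : ∀ κ ∈ CF col, wt κ ≤ 3 * t → κ = 0) (y : V → ZMod 2)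
    (κ : Fin h → ZMod 2) (hκ : κ ∈ CF col) (hy : wt (T y + κ) ≤ t) :
    phB col T t A L y = maj A (y + L κ) := by
  have hex : ∃ κ, κ ∈ CF col ∧ wt (T y + κ) ≤ t := ⟨κ, hκ, hy⟩
  unfold phB
  rw [dif_pos hex]
  have h1 := hex.choose_spec
  have h2 : hex.choose + κ = 0 := by
    refine htiny _ (Submodule.add_mem _ h1.1 hκ) ?_
    have h3 : hex.choose + κ = (T y + hex.choose) + (T y + κ) := by
      have : (T y + hex.choose) + (T y + κ) = (hex.choose + κ) + (T y + T y) := by abel
      rw [this, vec_self, add_zero]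
    rw [h3]
    refine (wt_add _ _).trans ?_
    omega
  have h3 : hex.choose = κ := by
    have h4 : hex.choose + κ + κ = κ := by rw [h2, zero_add]
    rw [add_assoc, vec_self, add_zero] at h4
    exact h4
  rw [h3]

/-- **The function is additive.** -/
theorem phB_add (htiny : ∀ κ ∈ CF col, wt κ ≤ 3 * t → κ = 0)
    (hL : ∀ κ ∈ Submodule.span (ZMod 2) (XX col T t), wt (T (L κ) + κ) ≤ r * t)
    (hA : ∀ y, wt (T y) ≤ (r + 1) * t → 4 * wA A y < A.card ∨ 3 * A.card < 4 * wA A y)
    {y z : V → ZMod 2} (hy : ∃ κ ∈ CF col, wt (T y + κ) ≤ t)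
    (hz : ∃ κ ∈ CF col, wt (T z + κ) ≤ t) (hyz : ∃ κ ∈ CF col, wt (T (y + z) + κ) ≤ t) :
    phB col T t A L (y + z) = phB col T t A L y + phB col T t A L z := by
  obtain ⟨κ₁, hκ₁, h1⟩ := hy
  obtain ⟨κ₂, hκ₂, h2⟩ := hz
  obtain ⟨κ₃, hκ₃, h3⟩ := hyz
  have h4 : κ₁ + κ₂ + κ₃ = 0 := by
    refine htiny _ (Submodule.add_mem _ (Submodule.add_mem _ hκ₁ hκ₂) hκ₃) ?_
    have h5 : κ₁ + κ₂ + κ₃ = ((T y + κ₁) + (T z + κ₂)) + (T (y + z) + κ₃) := by
      rw [map_add]
      have : ((T y + κ₁) + (T z + κ₂)) + (T y + T z + κ₃) =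
        (κ₁ + κ₂ + κ₃) + ((T y + T z) + (T y + T z)) := by abel
      rw [this, vec_self, add_zero]
    rw [h5]
    have h6 := wt_add ((T y + κ₁) + (T z + κ₂)) (T (y + z) + κ₃)
    have h7 := wt_add (T y + κ₁) (T z + κ₂)
    omega
  have h5 : κ₃ = κ₁ + κ₂ := by
    have h6 : κ₁ + κ₂ + κ₃ + κ₃ = κ₃ := by rw [h4, zero_add]
    rw [add_assoc, vec_self, add_zero] at h6
    exact h6.symm
  rw [phB_eq col T t A L htiny y κ₁ hκ₁ h1, phB_eq col T t A L htiny z κ₂ hκ₂ h2,
    phB_eq col T t A L htiny _ κ₃ hκ₃ h3]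
  have hw : ∀ y κ, κ ∈ CF col → wt (T y + κ) ≤ t → wt (T (y + L κ)) ≤ (r + 1) * t := by
    intro y κ hκ hy
    have h6 := hL κ (Submodule.subset_span ⟨hκ, y, hy⟩)
    have h7 : T (y + L κ) = (T y + κ) + (T (L κ) + κ) := by
      rw [map_add]
      have : (T y + κ) + (T (L κ) + κ) = (T y + T (L κ)) + (κ + κ) := by abel
      rw [this, vec_self, add_zero]
    rw [h7]
    refine (wt_add _ _).trans ?_
    calc _ ≤ t + r * t := Nat.add_le_add hy h6
      _ = (r + 1) * t := by ring
  have h8 : y + z + L κ₃ = (y + L κ₁) + (z + L κ₂) := by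
    rw [h5, map_add]
    abel
  have h9 := hw _ κ₃ hκ₃ h3
  rw [h8] at h9 ⊢
  exact maj_add A (hA _ (hw y κ₁ hκ₁ h1)) (hA _ (hw z κ₂ hκ₂ h2)) (hA _ h9)

end classes

end Pool.Agent.T9h47.SE
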