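import Mathlib
import Pool.Agent.T9h47.SE.Code
import Pool.Agent.T9h47.SE.Rob

/-!
# Tseitin systems on powers of expanders
-/

set_option autoImplicit false
set_option linter.unusedSectionVars false

namespace Pool.Agent.T9h47.SE

open Finset
open Pool.Agent.H518R4.UG

/-- walks as permutations -/
theorem wperms (V : Type) [Fintype V] (d : ℕ) (p : ℝ) (σ : Fin d → Equiv.Perm V)
    (hgap : ∀ F : V → ℂ, ∑ v, F v = 0 →
        ∑ v, ‖((d : ℂ))⁻¹ • ∑ i, F (σ i v)‖ ^ 2 ≤ p ^ 2 * ∑ v, ‖F v‖ ^ 2) (M : ℕ) :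
    ∃ (W : Type) (_ : Fintype W) (τ : W → Equiv.Perm V), Fintype.card W = d ^ M ∧
      ∀ F : V → ℂ, ∑ v, F v = 0 →
        ∑ v, ‖((d : ℂ) ^ M)⁻¹ • ∑ w, F (τ w v)‖ ^ 2 ≤ (p ^ M) ^ 2 * ∑ v, ‖F v‖ ^ 2 := by
  induction M with
  | zero =>
    refine ⟨Unit, inferInstance, fun _ => 1, by simp, ?_⟩
    intro F _
    simp
  | succ M ih =>
    obtain ⟨W, hW, τ, hcard, hτ⟩ := ih
    refine ⟨Fin d × W, inferInstance, fun q => τ q.2 * σ q.1, ?_, ?_⟩
    · rw [Fintype.card_prod, Fintype.card_fin, hcard]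
      ring
    · intro F hF
      obtain ⟨G, hG⟩ : ∃ G : V → ℂ, G = fun u => ((d : ℂ) ^ M)⁻¹ • ∑ w, F (τ w u) := ⟨_, rfl⟩
      have hG0 : ∑ u, G u = 0 := by
        rw [hG]
        show ∑ u, ((d : ℂ) ^ M)⁻¹ • ∑ w, F (τ w u) = 0
        rw [← smul_sum, sum_comm]
        have h1 : ∀ w, ∑ u, F (τ w u) = 0 := fun w => by
          rw [Equiv.sum_comp (τ w) F]
          exact hF
        rw [sum_congr rfl fun w _ => h1 w, sum_const_zero, smul_zero]
      have h1 : ∀ v, ((d : ℂ) ^ (M + 1))⁻¹ • ∑ q : Fin d × W, F ((τ q.2 * σ q.1) v) =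
          (d : ℂ)⁻¹ • ∑ i, G (σ i v) := by
        intro v
        rw [hG, Fintype.sum_prod_type]
        show _ = (d : ℂ)⁻¹ • ∑ i, ((d : ℂ) ^ M)⁻¹ • ∑ w, F (τ w (σ i v))
        rw [← smul_sum, smul_smul, ← mul_inv, ← pow_succ']
        rfl
      rw [sum_congr rfl fun v _ => by rw [h1 v]]
      refine (hgap G hG0).trans ?_
      have h2 : ∑ v, ‖G v‖ ^ 2 ≤ (p ^ M) ^ 2 * ∑ v, ‖F v‖ ^ 2 := by
        rw [hG]
        exact hτ F hF
      calc p ^ 2 * ∑ v, ‖G v‖ ^ 2 ≤ p ^ 2 * ((p ^ M) ^ 2 * ∑ v, ‖F v‖ ^ 2) :=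
            mul_le_mul_of_nonneg_left h2 (sq_nonneg p)
        _ = (p ^ (M + 1)) ^ 2 * ∑ v, ‖F v‖ ^ 2 := by ring

/-- the mixing property -/
theorem mixing (V : Type) [Fintype V] [DecidableEq V] [Nonempty V] (W : Type) [Fintype W]
    (τ : W → Equiv.Perm V) (D s : ℝ) (hD : (Fintype.card W : ℝ) = D) (hDpos : 0 < D)
    (hs : 0 ≤ s)
    (hgap : ∀ F : V → ℂ, ∑ v, F v = 0 →
        ∑ v, ‖((D : ℂ))⁻¹ • ∑ w, F (τ w v)‖ ^ 2 ≤ s ^ 2 * ∑ v, ‖F v‖ ^ 2) (A : Finset V) :
    ((univ.filter (fun ω : V × W => ω.1 ∈ A ∧ τ ω.2 ω.1 ∈ A)).card : ℝ) ≤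
      D * ((A.card : ℝ) ^ 2 / Fintype.card V + s * A.card) := by
  obtain ⟨N, hN⟩ : ∃ N : ℝ, N = (Fintype.card V : ℝ) := ⟨_, rfl⟩
  obtain ⟨a, ha⟩ : ∃ a : ℝ, a = (A.card : ℝ) := ⟨_, rfl⟩
  rw [← hN, ← ha]
  have hNpos : 0 < N := by rw [hN]; exact_mod_cast Fintype.card_pos
  have ha0 : 0 ≤ a := by rw [ha]; exact Nat.cast_nonneg _
  obtain ⟨F, hF⟩ : ∃ F : V → ℝ, F = fun v => (if v ∈ A then 1 else 0) - a / N := ⟨_, rfl⟩
  have hind : ∑ v : V, (if v ∈ A then (1 : ℝ) else 0) = a := by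
    rw [sum_boole, ha]
    congr 2
    ext v
    simp
  have hF0 : ∑ v, F v = 0 := by
    rw [hF]
    show ∑ v, ((if v ∈ A then (1 : ℝ) else 0) - a / N) = 0
    rw [sum_sub_distrib, hind, sum_const, card_univ, nsmul_eq_mul, ← hN]
    field_simp
    ring
  have hF2 : ∑ v, F v ^ 2 ≤ a := by
    have h1 : ∀ v, F v ^ 2 = (1 - 2 * (a / N)) * (if v ∈ A then (1 : ℝ) else 0) +
        (a / N) ^ 2 := by
      intro v
      rw [hF]
      show ((if v ∈ A then (1 : ℝ) else 0) - a / N) ^ 2 = _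
      split_ifs <;> ring
    rw [sum_congr rfl fun v _ => h1 v, sum_add_distrib, ← mul_sum, hind, sum_const, card_univ,
      nsmul_eq_mul, ← hN]
    have h2 : (1 - 2 * (a / N)) * a + N * (a / N) ^ 2 = a - a ^ 2 / N := by
      field_simp
      ring
    rw [h2]
    have : 0 ≤ a ^ 2 / N := by positivity
    linarith
  obtain ⟨G, hG⟩ : ∃ G : V → ℝ, G = fun v => D⁻¹ * ∑ w, F (τ w v) := ⟨_, rfl⟩
  have hG2 : ∑ v, G v ^ 2 ≤ s ^ 2 * a := by
    have h1 := hgap (fun v => (F v : ℂ)) (by rw [← Complex.ofReal_sum, hF0]; rfl)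
    have h2 : ∀ v, ‖((D : ℂ))⁻¹ • ∑ w, (F (τ w v) : ℂ)‖ ^ 2 = G v ^ 2 := by
      intro v
      have h3 : ((D : ℂ))⁻¹ • ∑ w, (F (τ w v) : ℂ) = ((G v : ℝ) : ℂ) := by
        rw [hG, smul_eq_mul]
        push_cast
        rfl
      rw [h3, Complex.norm_real, Real.norm_eq_abs, sq_abs]
    have h4 : ∀ v, ‖(F v : ℂ)‖ ^ 2 = F v ^ 2 := by
      intro v
      rw [Complex.norm_real, Real.norm_eq_abs, sq_abs]
    rw [sum_congr rfl fun v _ => h2 v, sum_congr rfl fun v _ => h4 v] at h1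
    exact h1.trans (mul_le_mul_of_nonneg_left hF2 (sq_nonneg s))
  have hGA : ∑ v ∈ A, G v ≤ s * a := by
    have h1 : (∑ v ∈ A, G v) ^ 2 ≤ (s * a) ^ 2 := by
      calc (∑ v ∈ A, G v) ^ 2 ≤ (A.card : ℝ) * ∑ v ∈ A, G v ^ 2 := sq_sum_le_card_mul_sum_sq
        _ ≤ a * ∑ v, G v ^ 2 := by
            rw [← ha]
            refine mul_le_mul_of_nonneg_left ?_ ha0
            exact sum_le_sum_of_subset_of_nonneg (subset_univ _) (fun v _ _ => sq_nonneg _)
        _ ≤ a * (s ^ 2 * a) := mul_le_mul_of_nonneg_left hG2 ha0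
        _ = (s * a) ^ 2 := by ring
    exact (abs_le_of_sq_le_sq' h1 (mul_nonneg hs ha0)).2
  have hcount : ((univ.filter (fun ω : V × W => ω.1 ∈ A ∧ τ ω.2 ω.1 ∈ A)).card : ℝ) =
      ∑ v ∈ A, ∑ w, (if τ w v ∈ A then (1 : ℝ) else 0) := by
    rw [← sum_product']
    rw [card_filter]
    push_cast
    rw [← sum_filter_add_sum_filter_not (univ : Finset (V × W)) (fun ω => ω.1 ∈ A)]
    have h1 : ∑ x ∈ (univ : Finset (V × W)).filter (fun ω => ¬ ω.1 ∈ A),
        (if x.1 ∈ A ∧ τ x.2 x.1 ∈ A then (1 : ℝ) else 0) = 0 := by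
      refine sum_eq_zero fun x hx => ?_
      rw [mem_filter] at hx
      rw [if_neg (fun h => hx.2 h.1)]
    rw [h1, add_zero]
    have h2 : (univ : Finset (V × W)).filter (fun ω => ω.1 ∈ A) = A ×ˢ (univ : Finset W) := by
      ext ω
      simp
    rw [h2]
    refine sum_congr rfl fun x hx => ?_
    rw [mem_product] at hx
    simp only [hx.1, true_and]
  have hrow : ∀ v, ∑ w, (if τ w v ∈ A then (1 : ℝ) else 0) = D * (a / N) + D * G v := by
    intro v
    have h1 : ∑ w, (if τ w v ∈ A then (1 : ℝ) else 0) = ∑ w, (F (τ w v) + a / N) := by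
      refine sum_congr rfl fun w _ => ?_
      rw [hF]
      show _ = ((if τ w v ∈ A then (1 : ℝ) else 0) - a / N) + a / N
      ring
    rw [h1, sum_add_distrib, sum_const, card_univ, nsmul_eq_mul, hD, hG]
    show _ = D * (a / N) + D * (D⁻¹ * ∑ w, F (τ w v))
    rw [← mul_assoc, mul_inv_cancel₀ hDpos.ne', one_mul, add_comm]
  rw [hcount, sum_congr rfl fun v _ => hrow v, sum_add_distrib, sum_const, nsmul_eq_mul, ← ha,
    ← mul_sum]
  have h5 : a * (D * (a / N)) = D * (a ^ 2 / N) := by ring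
  rw [h5, mul_add]
  have h6 := mul_le_mul_of_nonneg_left hGA hDpos.le
  linarith

/-- the rows of the system -/
theorem rows {V W : Type} [Fintype V] [DecidableEq V] [Fintype W] {n : ℕ}
    (τ : W → Equiv.Perm V) (e : V × W ↪ Fin n) :
    ∃ R : V → Finset (Fin n), (∀ j, (R j).card ≤ 2 * Fintype.card W) ∧
      (∀ (y : V → ZMod 2) ω, tr R y (e ω) = y ω.1 + y (τ ω.2 ω.1)) ∧
      ∀ (y : V → ZMod 2) i, i ∉ Set.range e → tr R y i = 0 := by
  classical
  obtain ⟨R, hR⟩ : ∃ R : V → Finset (Fin n), R = fun j =>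
    (univ.filter (fun ω : V × W => (ω.1 = j ∧ τ ω.2 ω.1 ≠ j) ∨ (ω.1 ≠ j ∧ τ ω.2 ω.1 = j))).map
      e := ⟨_, rfl⟩
  have hRm : ∀ j ω, e ω ∈ R j ↔ ((ω.1 = j ∧ τ ω.2 ω.1 ≠ j) ∨ (ω.1 ≠ j ∧ τ ω.2 ω.1 = j)) := by
    intro j ω
    rw [hR]
    simp only [mem_map', mem_filter, mem_univ, true_and]
  refine ⟨R, ?_, ?_, ?_⟩
  · intro j
    rw [hR, card_map]
    have hsub : (univ.filter (fun ω : V × W =>
        (ω.1 = j ∧ τ ω.2 ω.1 ≠ j) ∨ (ω.1 ≠ j ∧ τ ω.2 ω.1 = j))) ⊆
        (univ.filter (fun ω : V × W => ω.1 = j)) ∪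
        (univ.filter (fun ω : V × W => τ ω.2 ω.1 = j)) := by
      intro ω hω
      rw [mem_filter] at hω
      rw [mem_union, mem_filter, mem_filter]
      rcases hω.2 with h | h
      · exact Or.inl ⟨mem_univ _, h.1⟩
      · exact Or.inr ⟨mem_univ _, h.2⟩
    have h1 : (univ.filter (fun ω : V × W => ω.1 = j)).card ≤ Fintype.card W := by
      rw [← card_univ]
      refine card_le_card_of_injOn (fun p => p.2) (fun _ _ => mem_coe.2 (mem_univ _)) ?_
      rintro ⟨v, w⟩ hp ⟨v', w'⟩ hp' heq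
      rw [mem_coe, mem_filter] at hp hp'
      exact Prod.ext (hp.2.trans hp'.2.symm) heq
    have h2 : (univ.filter (fun ω : V × W => τ ω.2 ω.1 = j)).card ≤ Fintype.card W := by
      rw [← card_univ]
      refine card_le_card_of_injOn (fun p => p.2) (fun _ _ => mem_coe.2 (mem_univ _)) ?_
      rintro ⟨v, w⟩ hp ⟨v', w'⟩ hp' heq
      rw [mem_coe, mem_filter] at hp hp'
      have hw : w = w' := heq
      subst hw
      have h3 : τ w v = τ w v' := hp.2.trans hp'.2.symm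
      rw [(τ w).injective h3]
    refine (card_le_card hsub).trans ((card_union_le _ _).trans ?_)
    omega
  · intro y ω
    unfold tr
    have h1 : ∀ j, (if e ω ∈ R j then y j else 0) = (if ω.1 = j then y j else 0) +
        (if τ ω.2 ω.1 = j then y j else 0) := by
      intro j
      have h2 := hRm j ω
      by_cases ha : ω.1 = j <;> by_cases hb : τ ω.2 ω.1 = j
      · rw [if_neg (fun h => by rcases h2.1 h with h | h; exacts [h.2 hb, h.1 ha]), if_pos ha,
          if_pos hb, z2_self]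
      · rw [if_pos (h2.2 (Or.inl ⟨ha, hb⟩)), if_pos ha, if_neg hb, add_zero]
      · rw [if_pos (h2.2 (Or.inr ⟨ha, hb⟩)), if_neg ha, if_pos hb, zero_add]
      · rw [if_neg (fun h => by rcases h2.1 h with h | h; exacts [ha h.1, hb h.2]), if_neg ha,
          if_neg hb, add_zero]
    rw [sum_congr rfl fun j _ => h1 j, sum_add_distrib, sum_ite_eq, sum_ite_eq,
      if_pos (mem_univ _), if_pos (mem_univ _)]
  · intro y i hi
    unfold tr
    refine sum_eq_zero fun j _ => ?_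
    rw [if_neg]
    intro h
    rw [hR] at h
    obtain ⟨ω, _, hω⟩ := mem_map.1 h
    exact hi ⟨ω, hω⟩

/-- **Tseitin systems with robust pieces.** -/
theorem exists_tseitin (δ : ℝ) (hδ : 0 < δ) : ∃ (k : ℕ) (η : ℝ), 0 < η ∧ η ≤ δ ∧
    ∃ n₀ : ℕ, ∀ n : ℕ, n₀ ≤ n →
    ∃ (V : Type) (_ : Fintype V) (_ : DecidableEq V) (R : V → Finset (Fin n)),
      Nonempty V ∧ Fintype.card V ≤ n ∧ (∀ j, (R j).card ≤ k) ∧
      tr R (fun _ => 1) = 0 ∧ (∀ y : V → ZMod 2, tr R y = 0 → y = 0 ∨ y = fun _ => 1) ∧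
      ∀ (h : ℕ) (e : Fin h ↪ Fin n), δ * n ≤ h → ∃ A : Finset V, 2 ≤ A.card ∧
        ∀ y : V → ZMod 2, ((wt (fun i => tr R y (e i)) : ℕ) : ℝ) < η * n →
          4 * wA A y < A.card ∨ 3 * A.card < 4 * wA A y := by
  classical
  obtain ⟨d, p, hd, hp, hp1, hG⟩ := p_GRAPH (p_CEXP p_BURG) p_PSD
  obtain ⟨δ', hδ'⟩ : ∃ δ', δ' = δ / 2 := ⟨_, rfl⟩
  have hδ'pos : 0 < δ' := by rw [hδ']; positivity
  obtain ⟨M, hM⟩ := exists_pow_lt_of_lt_one (show 0 < min (δ' / 4) (1 / 4) by positivity) hp1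
  obtain ⟨s, hs⟩ : ∃ s, s = p ^ M := ⟨_, rfl⟩
  have hs0 : 0 ≤ s := by rw [hs]; positivity
  have hs1 : s ≤ δ' / 4 := by rw [hs]; exact hM.le.trans (min_le_left _ _)
  have hs2 : s ≤ 1 / 4 := by rw [hs]; exact hM.le.trans (min_le_right _ _)
  obtain ⟨D, hD⟩ : ∃ D, D = d ^ M := ⟨_, rfl⟩
  have hDpos : 0 < D := by rw [hD]; positivity
  obtain ⟨ε, hε⟩ : ∃ ε, ε = min (δ / 2) (1 / 2) := ⟨_, rfl⟩
  have hεpos : 0 < ε := by rw [hε]; positivity
  obtain ⟨Q₀, hQ₀⟩ := exists_nat_ge (3 / ε + 2 + 8 / δ')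
  refine ⟨2 * D, min (3 / 512 * δ' ^ 3) δ, by positivity, min_le_right _ _, Q₀ ^ 2 * D,
    fun n hn => ?_⟩
  obtain ⟨q, hq⟩ : ∃ q, q = Nat.sqrt (n / D) := ⟨_, rfl⟩
  have hqQ : Q₀ ≤ q := by
    rw [hq, Nat.le_sqrt]
    rw [Nat.le_div_iff_mul_le hDpos]
    calc Q₀ * Q₀ * D = Q₀ ^ 2 * D := by ring
      _ ≤ n := hn
  have hq2 : q ^ 2 * D ≤ n := by
    have h1 : q * q ≤ n / D := by rw [hq]; exact Nat.sqrt_le _
    have h2 := (Nat.le_div_iff_mul_le hDpos).1 h1
    calc q ^ 2 * D = q * q * D := by ring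
      _ ≤ n := h2
  have hq3 : n < (q + 1) ^ 2 * D := by
    have h1 : n / D < (q + 1) * (q + 1) := by rw [hq]; exact Nat.lt_succ_sqrt _
    have h2 := (Nat.div_lt_iff_lt_mul hDpos).1 h1
    calc n < (q + 1) * (q + 1) * D := h2
      _ = (q + 1) ^ 2 * D := by ring
  have hqR : 3 / ε + 2 + 8 / δ' ≤ (q : ℝ) := hQ₀.trans (by exact_mod_cast hqQ)
  have h3ε : 0 < 3 / ε := by positivity
  have h8δ : 0 < 8 / δ' := by positivity
  have hq1 : (2 : ℝ) ≤ q := by linarith
  have hq1' : 2 ≤ q := by exact_mod_cast hq1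
  have hqε : 3 ≤ ε * q := by
    have h1 : 3 / ε ≤ (q : ℝ) := by linarith
    rw [div_le_iff₀ hεpos] at h1
    linarith
  have hqδ : 8 ≤ δ' * q := by
    have h1 : 8 / δ' ≤ (q : ℝ) := by linarith
    rw [div_le_iff₀ hδ'pos] at h1
    linarith
  have hne : NeZero q := ⟨by omega⟩
  obtain ⟨σ, hσ⟩ := hG q
  obtain ⟨W, hW, τ, hcard, hτ⟩ := wperms (ZMod q × ZMod q) d p σ (fun F hF => hσ ℂ F hF) M
  have hVcard : Fintype.card (ZMod q × ZMod q) = q ^ 2 := by
    rw [Fintype.card_prod, ZMod.card]; ring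
  have hWD : Fintype.card W = D := by rw [hcard, hD]
  have hΩ : Fintype.card ((ZMod q × ZMod q) × W) = q ^ 2 * D := by
    rw [Fintype.card_prod, hWD, hVcard]
  obtain ⟨e⟩ : Nonempty (((ZMod q × ZMod q) × W) ↪ Fin n) := by
    apply Function.Embedding.nonempty_of_card_le
    rw [hΩ, Fintype.card_fin]
    exact hq2
  have hDR : (0 : ℝ) < D := by exact_mod_cast hDpos
  have hD1 : (1 : ℝ) ≤ D := by exact_mod_cast hDpos
  have hmix : ∀ A : Finset (ZMod q × ZMod q),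
      ((univ.filter (fun ω : (ZMod q × ZMod q) × W => ω.1 ∈ A ∧ τ ω.2 ω.1 ∈ A)).card : ℝ) ≤
      D * ((A.card : ℝ) ^ 2 / Fintype.card (ZMod q × ZMod q) + s * A.card) := by
    intro A
    refine mixing (ZMod q × ZMod q) W τ D s (by rw [hWD]) hDR hs0 ?_ A
    intro F hF
    have h1 := hτ F hF
    rw [hs]
    have h2 : ((D : ℝ) : ℂ) = (d : ℂ) ^ M := by rw [hD]; push_cast; ring
    rw [h2]
    exact h1
  obtain ⟨R, hR1, hR2, hR3⟩ := rows τ e
  rw [hWD] at hR1
  have hNpos : (0 : ℝ) < Fintype.card (ZMod q × ZMod q) := by exact_mod_cast Fintype.card_pos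
  refine ⟨ZMod q × ZMod q, inferInstance, inferInstance, R, inferInstance, ?_, hR1, ?_, ?_, ?_⟩
  · rw [hVcard]
    calc q ^ 2 = q ^ 2 * 1 := (mul_one _).symm
      _ ≤ q ^ 2 * D := Nat.mul_le_mul_left _ hDpos
      _ ≤ n := hq2
  · funext i
    by_cases hi : i ∈ Set.range e
    · obtain ⟨ω, rfl⟩ := hi
      rw [hR2]
      exact z2_self _
    · exact hR3 _ i hi
  · -- connectivity
    intro y hy
    have hinv : ∀ v w, y (τ w v) = y v := by
      intro v w
      have h1 := congrFun hy (e (v, w))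
      rw [hR2] at h1
      have h2 : ∀ a b : ZMod 2, a + b = 0 → b = a := by decide
      exact h2 _ _ h1
    have key : ∀ A : Finset (ZMod q × ZMod q), (∀ v w, v ∈ A → τ w v ∈ A) → 0 < A.card →
        (1 : ℝ) - s ≤ A.card / Fintype.card (ZMod q × ZMod q) := by
      intro A hA hpos
      have h1 := hmix A
      have h2 : univ.filter (fun ω : (ZMod q × ZMod q) × W => ω.1 ∈ A ∧ τ ω.2 ω.1 ∈ A) =
          A ×ˢ (univ : Finset W) := by
        ext ω
        rw [mem_filter, mem_product]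
        constructor
        · rintro ⟨_, h3, _⟩
          exact ⟨h3, mem_univ _⟩
        · rintro ⟨h3, _⟩
          exact ⟨mem_univ _, h3, hA _ _ h3⟩
      rw [h2, card_product, card_univ, hWD] at h1
      push_cast at h1
      have hap : (0 : ℝ) < A.card := by exact_mod_cast hpos
      have h3 : (D : ℝ) * (((A.card : ℝ)) ^ 2 / Fintype.card (ZMod q × ZMod q) + s * A.card) =
          (A.card : ℝ) * D * ((A.card : ℝ) / Fintype.card (ZMod q × ZMod q) + s) := by ring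
      rw [h3] at h1
      have h4 : (A.card : ℝ) * D * 1 ≤
          (A.card : ℝ) * D * ((A.card : ℝ) / Fintype.card (ZMod q × ZMod q) + s) := by
        rw [mul_one]; exact h1
      have h5 := le_of_mul_le_mul_left h4 (by positivity)
      linarith
    obtain ⟨A, hA⟩ : ∃ A, A = (univ : Finset (ZMod q × ZMod q)).filter (fun v => y v = 1) :=
      ⟨_, rfl⟩
    have hAm : ∀ v, v ∈ A ↔ y v = 1 := by intro v; rw [hA]; simp
    by_cases hA0 : A.card = 0
    · left
      rw [card_eq_zero] at hA0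
      funext v
      rcases z2_cases (y v) with h | h
      · exact h
      · exact absurd ((hAm v).2 h) (by rw [hA0]; exact notMem_empty _)
    by_cases hA1 : Aᶜ.card = 0
    · right
      rw [card_eq_zero] at hA1
      funext v
      have h1 : v ∉ Aᶜ := by rw [hA1]; exact notMem_empty _
      rw [mem_compl, not_not] at h1
      exact (hAm v).1 h1
    exfalso
    have h1 := key A (fun v w hv => by rw [hAm] at hv ⊢; rw [hinv, hv]) (by omega)
    have h2 := key Aᶜ (fun v w hv => by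
      rw [mem_compl, hAm] at hv ⊢
      rw [hinv]
      exact hv) (by omega)
    have h3 : (A.card : ℝ) + Aᶜ.card = Fintype.card (ZMod q × ZMod q) := by
      exact_mod_cast card_add_card_compl A
    have h4 : (A.card : ℝ) / Fintype.card (ZMod q × ZMod q) +
        Aᶜ.card / Fintype.card (ZMod q × ZMod q) = 1 := by
      rw [← add_div, h3, div_self hNpos.ne']
    linarith
  · -- robust pieces
    intro h e₁ hh
    obtain ⟨S, hS⟩ : ∃ S : Finset ((ZMod q × ZMod q) × W),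
      S = univ.filter (fun ω => e ω ∈ Set.range e₁) := ⟨_, rfl⟩
    have hSm : ∀ ω, ω ∈ S ↔ e ω ∈ Set.range e₁ := by intro ω; rw [hS]; simp
    obtain ⟨N, hN⟩ : ∃ N : ℝ, N = ((q ^ 2 * D : ℕ) : ℝ) := ⟨_, rfl⟩
    have hN' : N = (q : ℝ) ^ 2 * D := by rw [hN]; push_cast; ring
    have hNn : N ≤ n := by rw [hN]; exact_mod_cast hq2
    have hnN : (n : ℝ) ≤ ((q : ℝ) + 1) ^ 2 * D := by
      have : n ≤ (q + 1) ^ 2 * D := hq3.le
      exact_mod_cast this
    have hN0 : 0 ≤ N := by rw [hN]; positivity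
    have hgap : (n : ℝ) - N ≤ ε * n := by
      have h1 : (n : ℝ) - N ≤ 3 * q * D := by
        rw [hN']
        nlinarith
      have h2 : 3 * (q : ℝ) * D ≤ ε * N := by
        rw [hN']
        have h3 : 3 * ((q : ℝ) * D) ≤ (ε * q) * ((q : ℝ) * D) :=
          mul_le_mul_of_nonneg_right hqε (by positivity)
        calc 3 * (q : ℝ) * D = 3 * ((q : ℝ) * D) := by ring
          _ ≤ (ε * q) * ((q : ℝ) * D) := h3
          _ = ε * ((q : ℝ) ^ 2 * D) := by ring
      have h3 : ε * N ≤ ε * n := mul_le_mul_of_nonneg_left hNn hεpos.le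
      linarith
    have hScard : (h : ℝ) ≤ S.card + (n - N) := by
      have h1 : (univ : Finset (Fin h)).map e₁ ⊆ (S.map e) ∪ ((univ : Finset _).map e)ᶜ := by
        intro i hi
        rw [mem_map] at hi
        obtain ⟨j, _, rfl⟩ := hi
        rw [mem_union]
        by_cases h2 : e₁ j ∈ Set.range e
        · obtain ⟨ω, hω⟩ := h2
          left
          rw [mem_map]
          exact ⟨ω, (hSm ω).2 ⟨j, hω.symm⟩, hω⟩
        · right
          rw [mem_compl, mem_map]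
          rintro ⟨ω, _, hω⟩
          exact h2 ⟨ω, hω⟩
      have h2 := (card_le_card h1).trans (card_union_le _ _)
      rw [card_map, card_map, card_univ, Fintype.card_fin, card_compl, card_map, card_univ,
        Fintype.card_fin, hΩ] at h2
      have h3 : (((n - q ^ 2 * D : ℕ)) : ℝ) = n - N := by
        rw [Nat.cast_sub hq2, hN]
      have h4 : (h : ℝ) ≤ S.card + ((n - q ^ 2 * D : ℕ) : ℝ) := by exact_mod_cast h2
      rw [h3] at h4
      exact h4
    have hε1 : ε ≤ δ / 2 := by rw [hε]; exact min_le_left _ _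
    have hε2 : ε ≤ 1 / 2 := by rw [hε]; exact min_le_right _ _
    have hn0 : (0 : ℝ) ≤ n := Nat.cast_nonneg n
    have hSbig : δ' * D * Fintype.card (ZMod q × ZMod q) ≤ S.card := by
      have h1 : δ' * D * Fintype.card (ZMod q × ZMod q) = δ' * N := by
        rw [hVcard, hN']; push_cast; ring
      rw [h1]
      have h2 : δ' * N ≤ δ' * n := mul_le_mul_of_nonneg_left hNn hδ'pos.le
      have h3 : ε * n ≤ δ / 2 * n := mul_le_mul_of_nonneg_right hε1 hn0
      rw [hδ'] at h2 ⊢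
      linarith
    obtain ⟨A, hA1, hA2⟩ := exists_robust (fun ω : (ZMod q × ZMod q) × W => ω.1)
      (fun ω => τ ω.2 ω.1) S D δ' s hDR hδ'pos hs1 (by
        intro A
        refine le_trans ?_ (hmix A)
        have h1 : inside (fun ω : (ZMod q × ZMod q) × W => ω.1) (fun ω => τ ω.2 ω.1) S A ⊆
            univ.filter (fun ω : (ZMod q × ZMod q) × W => ω.1 ∈ A ∧ τ ω.2 ω.1 ∈ A) := by
          intro ω hω
          unfold inside at hω
          rw [mem_filter] at hω
          exact mem_filter.2 ⟨mem_univ _, hω.2⟩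
        exact_mod_cast card_le_card h1) hSbig
    refine ⟨A, ?_, ?_⟩
    · rw [hVcard] at hA1
      push_cast at hA1
      have h1 : (2 : ℝ) ≤ A.card := by
        refine le_trans ?_ hA1
        have h2 : 8 * (q : ℝ) ≤ (δ' * q) * q := mul_le_mul_of_nonneg_right hqδ (by positivity)
        nlinarith
      exact_mod_cast h1
    · intro y hy
      by_contra hcon
      rw [not_or, not_lt, not_lt] at hcon
      obtain ⟨B, hB⟩ : ∃ B, B = A.filter (fun j => y j ≠ 0) := ⟨_, rfl⟩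
      have hBc : B.card = wA A y := by rw [hB]; rfl
      have h1 := hA2 B (by rw [hB]; exact filter_subset _ _) (by rw [hBc]; exact hcon.1)
        (by rw [hBc]; exact hcon.2)
      have h2 : (cross (fun ω : (ZMod q × ZMod q) × W => ω.1) (fun ω => τ ω.2 ω.1) S B
          (A \ B)).card ≤ wt (fun i => tr R y (e₁ i)) := by
        unfold wt
        rw [← card_map e, ← card_map e₁]
        refine card_le_card ?_
        intro i hi
        rw [mem_map] at hi ⊢
        obtain ⟨ω, hω, rfl⟩ := hi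
        unfold cross at hω
        rw [mem_filter] at hω
        obtain ⟨hωS, hω2⟩ := hω
        obtain ⟨j, hj⟩ := (hSm ω).1 hωS
        refine ⟨j, ?_, hj⟩
        rw [mem_filter]
        refine ⟨mem_univ _, ?_⟩
        show tr R y (e₁ j) ≠ 0
        rw [hj, hR2]
        have hin : ∀ v, v ∈ B → y v = 1 := by
          intro v hv
          rw [hB, mem_filter] at hv
          rcases z2_cases (y v) with h3 | h3
          · exact absurd h3 hv.2
          · exact h3
        have hout : ∀ v, v ∈ A \ B → y v = 0 := by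
          intro v hv
          rw [mem_sdiff, hB, mem_filter] at hv
          by_contra h3
          exact hv.2 ⟨hv.1, h3⟩
        rcases hω2 with ⟨h3, h4⟩ | ⟨h3, h4⟩
        · rw [hin _ h3, hout _ h4]; decide
        · rw [hout _ h3, hin _ h4]; decide
      have h3 : ((wt (fun i => tr R y (e₁ i)) : ℕ) : ℝ) < 3 / 512 * δ' ^ 3 * n :=
        lt_of_lt_of_le hy (mul_le_mul_of_nonneg_right (min_le_left _ _) hn0)
      have h4 : ((cross (fun ω : (ZMod q × ZMod q) × W => ω.1) (fun ω => τ ω.2 ω.1) S B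
          (A \ B)).card : ℝ) ≤ wt (fun i => tr R y (e₁ i)) := by exact_mod_cast h2
      have h5 : 3 / 256 * δ' ^ 3 * D * Fintype.card (ZMod q × ZMod q) =
          3 / 256 * δ' ^ 3 * N := by
        rw [hVcard, hN']; push_cast; ring
      have h6 : (1 : ℝ) / 2 * n ≤ N := by
        have : ε * n ≤ 1 / 2 * n := mul_le_mul_of_nonneg_right hε2 hn0
        linarith
      have h7 : 3 / 512 * δ' ^ 3 * n ≤ 3 / 256 * δ' ^ 3 * N := by
        calc 3 / 512 * δ' ^ 3 * n = 3 / 256 * δ' ^ 3 * (1 / 2 * n) := by ring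
          _ ≤ 3 / 256 * δ' ^ 3 * N := mul_le_mul_of_nonneg_left h6 (by positivity)
      rw [h5] at h1
      linarith

end Pool.Agent.T9h47.SE
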