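import Mathlib
import Pool.Agent.T9h47.SC.Circ

/-!
# The union of the circuits given by some witnesses
-/

set_option autoImplicit false
set_option linter.unusedSectionVars false

namespace Pool.Agent.T9h47.SE

open Finset
open Pool.Agent.T9h47.SC

section

variable {K I J : Type} (C : Circuit K (I ⊕ J)) (b : K) (Acc : Set K) (W : Finset (J → K))

/-- the gates -/
abbrev UG : Type := Option (W × C.Gate)

/-- the label of a gate in the circuit for the witness `w` -/
def ulab (w : J → K) : (I ⊕ J) ⊕ ((ℕ → Multiset K) → K) →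
    I ⊕ ((ℕ → Multiset (Option K)) → Option K)
  | Sum.inl (Sum.inl i) => Sum.inl i
  | Sum.inl (Sum.inr j) => Sum.inr (fun _ => some (w j))
  | Sum.inr f => Sum.inr (fun m => some (f (fun r => (m r).map (fun o => o.getD b))))

open Classical in
/-- the operation of the output -/
noncomputable def oop (m : ℕ → Multiset (Option K)) : Option K :=
  if ∃ a ∈ Acc, some a ∈ m 0 then none else some b

/-- the children of the output -/
def okid : W ↪ ℕ × UG C W :=
  ⟨fun w => (0, some (w, C.out)), fun w w' h => by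
    have h1 := (Prod.ext_iff.1 h).2
    exact (Prod.ext_iff.1 (Option.some.inj h1)).1⟩

/-- the children of another gate -/
def ukid (w : W) : ℕ × C.Gate ↪ ℕ × UG C W :=
  ⟨fun q => (q.1, some (w, q.2)), fun q q' h => by
    have h1 := (Prod.ext_iff.1 h).2
    exact Prod.ext (Prod.ext_iff.1 h).1 (Prod.ext_iff.1 (Option.some.inj h1)).2⟩

theorem okid_apply (w : W) : okid C W w = (0, some (w, C.out)) := rfl

theorem ukid_apply (w : W) (q : ℕ × C.Gate) : ukid C W w q = (q.1, some (w, q.2)) := rfl

/-- the ranks -/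
def urank : UG C W → ℕ
  | none => C.rank C.out + 1
  | some p => C.rank p.2

/-- the labels -/
noncomputable def ulabel : UG C W → I ⊕ ((ℕ → Multiset (Option K)) → Option K)
  | none => Sum.inr (oop b Acc)
  | some p => ulab b p.1.1 (C.lab p.2)

/-- the children -/
def ukids : UG C W → Finset (ℕ × UG C W)
  | none => (univ : Finset W).map (okid C W)
  | some p => (C.kids p.2).map (ukid C W p.1)

theorem mem_ukids_none (r : ℕ) (h : UG C W) :
    (r, h) ∈ ukids C W none ↔ r = 0 ∧ ∃ w, h = some (w, C.out) := by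
  show (r, h) ∈ (univ : Finset W).map (okid C W) ↔ _
  rw [mem_map]
  constructor
  · rintro ⟨w, _, hw⟩
    exact ⟨(Prod.ext_iff.1 hw).1.symm, w, (Prod.ext_iff.1 hw).2.symm⟩
  · rintro ⟨rfl, w, rfl⟩
    exact ⟨w, mem_univ _, rfl⟩

theorem mem_ukids_some (w : W) (g : C.Gate) (r : ℕ) (h : UG C W) :
    (r, h) ∈ ukids C W (some (w, g)) ↔ ∃ k, (r, k) ∈ C.kids g ∧ h = some (w, k) := by
  show (r, h) ∈ (C.kids g).map (ukid C W w) ↔ _
  rw [mem_map]
  constructor
  · rintro ⟨⟨r', k⟩, hk, hw⟩
    have h1 : r' = r := (Prod.ext_iff.1 hw).1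
    subst h1
    exact ⟨k, hk, (Prod.ext_iff.1 hw).2.symm⟩
  · rintro ⟨k, hk, rfl⟩
    exact ⟨(r, k), hk, rfl⟩

theorem urank_lt (g : UG C W) (p : ℕ × UG C W) (hp : p ∈ ukids C W g) :
    urank C W p.2 < urank C W g := by
  obtain ⟨r, h⟩ := p
  rcases g with _ | ⟨w, g⟩
  · rw [mem_ukids_none] at hp
    obtain ⟨_, w, rfl⟩ := hp
    exact Nat.lt_succ_self _
  · rw [mem_ukids_some] at hp
    obtain ⟨k, hk, rfl⟩ := hp
    exact C.rank_lt g (r, k) hk

/-- the circuit which is the disjunction of the circuits for the witnesses in `W` -/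
noncomputable def uni : Circuit (Option K) I where
  Gate := UG C W
  fin := by
    have := C.fin
    exact inferInstance
  rank := urank C W
  lab := ulabel C b Acc W
  kids := ukids C W
  out := none
  rank_lt := urank_lt C W

theorem uni_card : @Fintype.card (uni C b Acc W).Gate (uni C b Acc W).fin =
    W.card * @Fintype.card C.Gate C.fin + 1 := by
  let _ := C.fin
  have h1 : @Fintype.card (uni C b Acc W).Gate (uni C b Acc W).fin =
      Fintype.card (Option (W × C.Gate)) := rfl
  rw [h1, Fintype.card_option, Fintype.card_prod, Fintype.card_coe]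

/-- the values -/
noncomputable def uval (x : I → Option K) (g : UG C W) : Option K := (uni C b Acc W).val x g

theorem uni_inl (x : I → Option K) (g : UG C W) (i : I) (h : ulabel C b Acc W g = Sum.inl i) :
    uval C b Acc W x g = x i :=
  (uni C b Acc W).val_inl x g i h

theorem uni_inr (x : I → Option K) (g : UG C W) (f : (ℕ → Multiset (Option K)) → Option K)
    (h : ulabel C b Acc W g = Sum.inr f) :
    uval C b Acc W x g = f fun r => ((ukids C W g).filter (fun p => p.1 = r)).val.map
      (fun p => uval C b Acc W x p.2) :=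
  (uni C b Acc W).val_inr x g f h

theorem uni_val (x : I → K) (w : W) : ∀ (m : ℕ) (g : C.Gate), C.rank g < m →
    uval C b Acc W (fun i => some (x i)) (some (w, g)) =
      some (C.val (Sum.elim x w.1) g) := by
  intro m
  induction m with
  | zero => intro g hg; exact absurd hg (Nat.not_lt_zero _)
  | succ m ih =>
    intro g hg
    rcases hl : C.lab g with (i | j) | f
    · have h1 : ulabel C b Acc W (some (w, g)) = Sum.inl i := by
        show ulab b w.1 (C.lab g) = _
        rw [hl]
        rfl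
      rw [uni_inl C b Acc W _ _ i h1, C.val_inl _ g _ hl]
      rfl
    · have h1 : ulabel C b Acc W (some (w, g)) = Sum.inr (fun _ => some (w.1 j)) := by
        show ulab b w.1 (C.lab g) = _
        rw [hl]
        rfl
      rw [uni_inr C b Acc W _ _ _ h1, C.val_inl _ g _ hl]
      rfl
    · have h1 : ulabel C b Acc W (some (w, g)) =
          Sum.inr (fun m => some (f (fun r => (m r).map (fun o => o.getD b)))) := by
        show ulab b w.1 (C.lab g) = _
        rw [hl]
        rfl
      rw [uni_inr C b Acc W _ _ _ h1, C.val_inr _ g f hl]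
      congr 2
      funext r
      show Multiset.map (fun o => o.getD b) (Multiset.map
        (fun p => uval C b Acc W (fun i => some (x i)) p.2)
        ((ukids C W (some (w, g))).filter (fun p => p.1 = r)).val) = _
      have h2 : (ukids C W (some (w, g))).filter (fun p => p.1 = r) =
          ((C.kids g).filter (fun p => p.1 = r)).map (ukid C W w) := by
        show ((C.kids g).map (ukid C W w)).filter (fun p => p.1 = r) = _
        rw [filter_map]
        rfl
      rw [h2, Finset.map_val, Multiset.map_map, Multiset.map_map]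
      refine Multiset.map_congr rfl ?_
      rintro ⟨r', k⟩ hk
      have hk' : (r', k) ∈ C.kids g := (mem_filter.1 hk).1
      show (uval C b Acc W (fun i => some (x i)) (some (w, k))).getD b = _
      rw [ih k ((C.rank_lt g _ hk').trans_le (Nat.lt_succ_iff.1 hg))]
      rfl

theorem uni_out (x : I → K) : (uni C b Acc W).val (fun i => some (x i)) (uni C b Acc W).out = none ↔
    ∃ w ∈ W, C.val (Sum.elim x w) C.out ∈ Acc := by
  have h1 : (uni C b Acc W).val (fun i => some (x i)) (uni C b Acc W).out =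
      oop b Acc fun r => ((ukids C W none).filter (fun p => p.1 = r)).val.map
        (fun p => uval C b Acc W (fun i => some (x i)) p.2) :=
    uni_inr C b Acc W (fun i => some (x i)) none (oop b Acc) rfl
  have h2 : ∀ a : K, (some a ∈ ((ukids C W none).filter (fun p => p.1 = 0)).val.map
      (fun p => uval C b Acc W (fun i => some (x i)) p.2)) ↔
      ∃ w ∈ W, C.val (Sum.elim x w) C.out = a := by
    intro a
    rw [Multiset.mem_map]
    constructor
    · rintro ⟨⟨r, p⟩, hp, hpa⟩
      have hp' := (mem_filter.1 hp).1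
      rw [mem_ukids_none] at hp'
      obtain ⟨_, w, rfl⟩ := hp'
      refine ⟨w.1, w.2, ?_⟩
      have h3 := uni_val C b Acc W x w _ C.out (Nat.lt_succ_self _)
      have h4 : uval C b Acc W (fun i => some (x i)) (some (w, C.out)) = some a :=
        hpa
      rw [h3] at h4
      exact Option.some.inj h4
    · rintro ⟨w, hw, rfl⟩
      refine ⟨(0, some (⟨w, hw⟩, C.out)), ?_, ?_⟩
      · refine mem_filter.2 ⟨?_, rfl⟩
        rw [mem_ukids_none]
        exact ⟨rfl, _, rfl⟩
      · exact uni_val C b Acc W x ⟨w, hw⟩ _ C.out (Nat.lt_succ_self _)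
  rw [h1]
  unfold oop
  constructor
  · intro h6
    by_contra hcon
    rw [if_neg] at h6
    · exact absurd h6 (Option.some_ne_none _)
    · rintro ⟨a, ha, h7⟩
      obtain ⟨w, hw, rfl⟩ := (h2 a).1 h7
      exact hcon ⟨w, hw, ha⟩
  · rintro ⟨w, hw, hwa⟩
    rw [if_pos]
    exact ⟨_, hwa, (h2 _).2 ⟨w, hw, rfl⟩⟩

/-- the permutation of the witnesses -/
def wperm (θ : Equiv.Perm J) (hθ : ∀ w : J → K, w ∘ θ ∈ W ↔ w ∈ W) : Equiv.Perm W :=
  (Equiv.arrowCongr θ (Equiv.refl K)).subtypeEquiv (fun w => by
    have h1 : (Equiv.arrowCongr θ (Equiv.refl K)) w ∘ θ = w := by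
      funext j
      show w (θ.symm (θ j)) = w j
      rw [Equiv.symm_apply_apply]
    rw [← hθ ((Equiv.arrowCongr θ (Equiv.refl K)) w), h1])

theorem wperm_apply (θ : Equiv.Perm J) (hθ : ∀ w : J → K, w ∘ θ ∈ W ↔ w ∈ W) (w : W) (j : J) :
    (wperm W θ hθ w).1 (θ j) = w.1 j := by
  show w.1 (θ.symm (θ j)) = w.1 j
  rw [Equiv.symm_apply_apply]

theorem uni_aut (π : I → I) (θ : Equiv.Perm J) (α : Equiv.Perm C.Gate)
    (hα : C.IsAut (Sum.map π θ) α) (hθ : ∀ w : J → K, w ∘ θ ∈ W ↔ w ∈ W) :
    ∃ β, (uni C b Acc W).IsAut π β := by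
  obtain ⟨Θ, hΘ⟩ : ∃ Θ : Equiv.Perm W, Θ = wperm W θ hθ := ⟨_, rfl⟩
  have hΘj : ∀ (w : W) j, (Θ w).1 (θ j) = w.1 j := by
    intro w j
    rw [hΘ]
    exact wperm_apply W θ hθ w j
  obtain ⟨β, hβ⟩ : ∃ β : Equiv.Perm (UG C W),
    β = Equiv.optionCongr (Equiv.prodCongr Θ α) := ⟨_, rfl⟩
  have hβn : β none = none := by rw [hβ]; rfl
  have hβs : ∀ w g, β (some (w, g)) = some (Θ w, α g) := by intro w g; rw [hβ]; rfl
  have hlab : ∀ g, ulabel C b Acc W (β g) = Sum.map π id (ulabel C b Acc W g) := by
    rintro (_ | ⟨w, g⟩)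
    · rw [hβn]
      rfl
    · rw [hβs]
      show ulab b (Θ w).1 (C.lab (α g)) = Sum.map π id (ulab b w.1 (C.lab g))
      rw [hα.lab g]
      rcases C.lab g with (i | j) | f
      · rfl
      · show Sum.inr (fun _ => some ((Θ w).1 (θ j))) = Sum.inr (fun _ => some (w.1 j))
        rw [hΘj]
      · rfl
  have hkids : ∀ g r h, (r, β h) ∈ ukids C W (β g) ↔ (r, h) ∈ ukids C W g := by
    rintro (_ | ⟨w, g⟩) r h
    · rw [hβn, mem_ukids_none, mem_ukids_none]
      constructor
      · rintro ⟨h1, w, hw⟩
        refine ⟨h1, Θ.symm w, ?_⟩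
        apply β.injective
        rw [hw, hβs, Equiv.apply_symm_apply, hα.out]
      · rintro ⟨h1, w, rfl⟩
        refine ⟨h1, Θ w, ?_⟩
        rw [hβs, hα.out]
    · rw [hβs, mem_ukids_some, mem_ukids_some]
      constructor
      · rintro ⟨k, hk, hw⟩
        refine ⟨α.symm k, ?_, ?_⟩
        · have h3 := hα.kids g r (α.symm k)
          rw [Equiv.apply_symm_apply] at h3
          exact h3.1 hk
        · apply β.injective
          rw [hw, hβs, Equiv.apply_symm_apply]
      · rintro ⟨k, hk, rfl⟩
        refine ⟨α k, (hα.kids g r k).2 hk, ?_⟩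
        rw [hβs]
  exact ⟨β, ⟨hβn, hlab, hkids⟩⟩

end

end Pool.Agent.T9h47.SE
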