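import Mathlib
import Pool.Agent.T9h47.SE.SatDef

/-!
# Symmetric circuits with witnesses: definitions
-/

set_option autoImplicit false

namespace Pool.Agent.T9h47.SE

open Finset
open Pool.Agent.T9h47.SC

/-- The circuit is symmetric under renaming and negating the variables in `H`, where the renaming
preserves the colours; this may also permute the witness coordinates, and the set of witnesses `W`
is closed under it. -/
def SymWit {K J : Type} {n k r : ℕ} (C : Circuit K (Cl n k ⊕ J)) (H : Finset (Fin n))
    (col : Fin n → Fin r) (W : Finset (J → K)) : Prop :=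
  ∀ (π : Equiv.Perm (Fin n)) (f : Fin n → ZMod 2), (∀ i, i ∉ H → π i = i ∧ f i = 0) →
    (∀ i, col (π i) = col i) →
    ∃ (θ : Equiv.Perm J) (α : Equiv.Perm C.Gate), C.IsAut (Sum.map (ren π f) θ) α ∧
      ∀ w : J → K, w ∘ θ ∈ W ↔ w ∈ W

end Pool.Agent.T9h47.SE
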