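import Mathlib
import Pool.Agent.T9h47.SE.Tse
import Pool.Agent.T9h47.SE.Inst2
import Pool.Agent.T9h47.SE.Uni
import Pool.Agent.T9h47.SE.WitDef

/-!
# Nondeterministic circuits whose witnesses colour the variables
-/

set_option autoImplicit false
set_option linter.unusedSectionVars false

namespace Pool.Agent.T9h47.SE

open Finset
open Pool.Agent.T9h47.SC

/-- The circuit is symmetric under renaming and negating the variables in `H`, where the renaming
preserves the colours. -/
def SymCol {K : Type} {n k r : ℕ} (C : Circuit K (Cl n k)) (H : Finset (Fin n))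
    (col : Fin n → Fin r) : Prop :=
  ∀ (π : Equiv.Perm (Fin n)) (f : Fin n → ZMod 2), (∀ i, i ∉ H → π i = i ∧ f i = 0) →
    (∀ i, col (π i) = col i) → ∃ α, C.IsAut (ren π f) α

/-- The lower bound for circuits without witnesses. -/
theorem tseitin_lower (δ : ℝ) (hδ : 0 < δ) : ∃ (η : ℝ) (k₀ n₀ B : ℕ), 0 < η ∧
    ∀ (k n : ℕ), k₀ ≤ k → n₀ ≤ n → ∃ φ : Set (Cl n k), φ.ncard ≤ B * n ∧ ¬ Satisfiable φ ∧
    ∀ (K : Type) (C : Circuit K (Cl n k)) (b₀ b₁ : K) (H : Finset (Fin n)) (r : ℕ)
      (col : Fin n → Fin r) (t : ℕ), SymCol C H col → δ * n ≤ H.card → k₀ ≤ t →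
      4 * r * t ≤ η * n → @Fintype.card C.Gate C.fin < 2 ^ (t + 1) →
      ∃ ψ : Set (Cl n k), ψ.ncard ≤ B * n ∧ Satisfiable ψ ∧
        C.val (inp b₀ b₁ ψ) C.out = C.val (inp b₀ b₁ φ) C.out := by
  classical
  obtain ⟨k₀, η, hη, hηδ, n₁, hT⟩ := exists_tseitin (δ / 2) (by positivity)
  refine ⟨η, k₀, max n₁ 1, 2 ^ k₀, hη, ?_⟩
  intro k n hk hn
  obtain ⟨V, _, _, R, hVne, hVn, hRk, hone, hker, hrob⟩ := hT n ((le_max_left _ _).trans hn)
  have hn1 : 1 ≤ n := (le_max_right _ _).trans hn
  have hnR : (1 : ℝ) ≤ n := by exact_mod_cast hn1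
  have hR : ∀ j, (R j).card ≤ k := fun j => (hRk j).trans hk
  obtain ⟨v₀⟩ := hVne
  obtain ⟨c₀, hc₀⟩ : ∃ c₀ : V → ZMod 2, c₀ = Pi.single v₀ 1 := ⟨_, rfl⟩
  have hcard : ∀ c : V → ZMod 2, (sys R hR c).ncard ≤ 2 ^ k₀ * n := by
    intro c
    refine sys_card R hR k₀ _ hRk ?_ c
    rw [mul_comm]
    exact Nat.mul_le_mul_left _ hVn
  refine ⟨sys R hR c₀, hcard c₀, ?_, ?_⟩
  · rw [sat_sys]
    rintro ⟨a, ha⟩
    have h1 := adj R (fun _ => 1) a
    rw [hone, ha, hc₀, dot_comm, dot_single] at h1
    have h2 : dot (0 : Fin n → ZMod 2) a = 0 := sum_eq_zero fun i _ => zero_mul _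
    rw [h2] at h1
    exact absurd h1 (by decide)
  · intro K C b₀ b₁ H₀ r col t hS hH₀ hkt hrt hsize
    let _ := C.fin
    have hr1 : 1 ≤ r := (Nat.zero_le _).trans_lt (col ⟨0, by omega⟩).2
    have hrR : (1 : ℝ) ≤ r := by exact_mod_cast hr1
    have htR : (0 : ℝ) ≤ t := Nat.cast_nonneg t
    -- remove the small colour classes
    obtain ⟨H, hH⟩ : ∃ H : Finset (Fin n),
      H = H₀.filter (fun i => 3 * t < (H₀.filter (fun j => col j = col i)).card) := ⟨_, rfl⟩
    have hHm : ∀ i, i ∈ H ↔ i ∈ H₀ ∧ 3 * t < (H₀.filter (fun j => col j = col i)).card := by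
      intro i; rw [hH, mem_filter]
    have hHsub : H ⊆ H₀ := by rw [hH]; exact filter_subset _ _
    have hdiff : H₀.card ≤ H.card + r * (3 * t) := by
      have h1 : H₀ \ H ⊆ univ.biUnion (fun c : Fin r =>
          if (H₀.filter (fun j => col j = c)).card ≤ 3 * t then H₀.filter (fun j => col j = c)
          else ∅) := by
        intro i hi
        rw [mem_sdiff, hHm, not_and, not_lt] at hi
        rw [mem_biUnion]
        refine ⟨col i, mem_univ _, ?_⟩
        rw [if_pos (hi.2 hi.1), mem_filter]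
        exact ⟨hi.1, rfl⟩
      have h2 : (H₀ \ H).card ≤ r * (3 * t) := by
        refine (card_le_card h1).trans (card_biUnion_le.trans ?_)
        calc ∑ c : Fin r, (if (H₀.filter (fun j => col j = c)).card ≤ 3 * t then
            H₀.filter (fun j => col j = c) else ∅).card ≤ ∑ _c : Fin r, 3 * t := by
              refine sum_le_sum fun c _ => ?_
              split_ifs with hc
              · exact hc
              · rw [card_empty]; exact Nat.zero_le _
          _ = r * (3 * t) := by rw [sum_const, card_univ, Fintype.card_fin, smul_eq_mul]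
      have h3 := card_le_card_sdiff_add_card (s := H₀) (t := H)
      omega
    have hHbig : δ / 2 * n ≤ H.card := by
      have h1 : (H₀.card : ℝ) ≤ H.card + r * (3 * t) := by exact_mod_cast hdiff
      have h2 : η * n ≤ δ / 2 * n := mul_le_mul_of_nonneg_right hηδ (by positivity)
      have h3 : (0 : ℝ) ≤ r * t := by positivity
      have h4 : (r : ℝ) * (3 * t) ≤ 4 * r * t := by nlinarith
      linarith
    obtain ⟨e, he⟩ : ∃ e : Fin H.card ↪ Fin n, Set.range e = H :=
      ⟨(H.orderEmbOfFin rfl).toEmbedding, H.range_orderEmbOfFin rfl⟩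
    have heH : ∀ v, e v ∈ H := fun v => by
      have : e v ∈ Set.range e := ⟨v, rfl⟩
      rw [he] at this
      exact mem_coe.1 this
    obtain ⟨A, hA2, hA⟩ := hrob H.card e hHbig
    obtain ⟨col', hcol'⟩ : ∃ col' : Fin H.card → Fin r, col' = fun v => col (e v) := ⟨_, rfl⟩
    -- the circuit is symmetric under the action
    have hsym : (act e k).Sym C col' := by
      intro π f hπ
      have hr : ∀ i, i ∉ H₀ → i ∉ Set.range e := by
        rintro i hi ⟨v, rfl⟩
        exact hi (hHsub (heH v))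
      refine hS (extP e π) (extF e f) (fun i hi =>
        ⟨extP_not e π i (hr i hi), extF_not e f i (hr i hi)⟩) ?_
      intro i
      rcases range_cases e i with ⟨v, rfl⟩ | hi
      · rw [extP_apply]
        have h1 := hπ v
        rw [hcol'] at h1
        exact h1
      · rw [extP_not e π i hi]
    -- no small classes
    have htiny : ∀ κ ∈ CF col', wt κ ≤ 3 * t → κ = 0 := by
      intro κ hκ hwt
      obtain ⟨x, hx⟩ := (mem_CF col' κ).1 hκ
      by_contra hne
      have h1 : ∃ v, κ v ≠ 0 := by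
        by_contra hcon
        push Not at hcon
        exact hne (funext hcon)
      obtain ⟨v, hv⟩ := h1
      have h2 : (H₀.filter (fun j => col j = col (e v))).card ≤ wt κ := by
        unfold wt
        rw [← card_map e]
        refine card_le_card ?_
        intro j hj
        rw [mem_filter] at hj
        have hjH : j ∈ H := by
          rw [hHm]
          refine ⟨hj.1, ?_⟩
          rw [hj.2]
          exact ((hHm _).1 (heH v)).2
        have hjr : j ∈ Set.range e := by rw [he]; exact mem_coe.2 hjH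
        obtain ⟨w, rfl⟩ := hjr
        rw [mem_map' e, mem_filter]
        refine ⟨mem_univ _, ?_⟩
        rw [← hx] at hv ⊢
        have h3 : col' w = col' v := by rw [hcol']; exact hj.2
        show x (col' w) ≠ 0
        rw [h3]
        exact hv
      have h3 := ((hHm _).1 (heH v)).2
      omega
    -- the linear map
    obtain ⟨T, hT'⟩ : ∃ T : (V → ZMod 2) →ₗ[ZMod 2] (Fin H.card → ZMod 2),
        ∀ y, T y = tr (RH e R) y := by
      refine ⟨{ toFun := fun y => tr (RH e R) y
                map_add' := fun y z => tr_add _ _ _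
                map_smul' := ?_ }, fun y => rfl⟩
      intro c y
      rcases z2_cases c with rfl | rfl
      · rw [zero_smul, tr_zero]
        exact (zero_smul _ _).symm
      · rw [one_smul]
        exact (one_smul _ _).symm
    have hTe : ∀ y, T y = fun i => tr R y (e i) := by
      intro y
      rw [hT']
      funext i
      exact tr_RH e R y i
    have hAw : ∀ y, wt (T y) ≤ (r + 1) * t → 4 * wA A y < A.card ∨ 3 * A.card < 4 * wA A y := by
      intro y hy
      refine hA y ?_
      rw [← hTe]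
      have h1 : ((wt (T y) : ℕ) : ℝ) ≤ (r + 1) * t := by exact_mod_cast hy
      have h3 : (0 : ℝ) < η * n := by positivity
      have h4 : (r + 1 : ℝ) * t ≤ 2 * r * t := by nlinarith
      linarith
    obtain ⟨L, hL⟩ := exists_lift col' T t
    obtain ⟨ph, hph⟩ : ∃ ph, ph = phB col' T t A L := ⟨_, rfl⟩
    have hadd : ∀ g, Addv (RH e R) ph (perp ((act e k).ZZ C g)) := by
      intro g y z hy hz
      have hnear : ∀ y : V → ZMod 2, tr (RH e R) y ∈ perp ((act e k).ZZ C g) →
          ∃ κ ∈ CF col', wt (T y + κ) ≤ t := by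
        intro y hy
        obtain ⟨x, hx⟩ := (act e k).class_near C col' hsym (T y) (((act e k).mem_WW C _).2 ⟨g, by
          rw [hT']; exact hy⟩) t hsize
        exact ⟨fun i => x (col' i), (mem_CF col' _).2 ⟨x, rfl⟩, hx⟩
      rw [hph]
      refine phB_add col' T t A L htiny hL hAw (hnear y hy) (hnear z hz) (hnear _ ?_)
      rw [tr_add]
      exact Submodule.add_mem _ hy hz
    have hsmall : ∀ y, wt (T y) ≤ t → ph y = maj A y := by
      intro y hy
      rw [hph, phB_eq col' T t A L htiny y 0 (Submodule.zero_mem _) (by rw [add_zero]; exact hy),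
        map_zero, add_zero]
    have hunit : ∀ j, ph (Pi.single j 1) = 0 := by
      intro j
      have h1 : wt (T (Pi.single j 1)) ≤ k₀ := by
        rw [hTe]
        refine le_trans ?_ (hRk j)
        unfold wt
        rw [← card_map e]
        refine card_le_card ?_
        intro i hi
        rw [mem_map] at hi
        obtain ⟨v, hv, rfl⟩ := hi
        rw [mem_filter] at hv
        have h2 : tr R (Pi.single j 1) (e v) ≠ 0 := hv.2
        rw [tr_single] at h2
        by_contra hcon
        apply h2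
        show (if e v ∈ R j then (1 : ZMod 2) else 0) = 0
        rw [if_neg hcon]
      rw [hsmall _ (h1.trans hkt)]
      have h2 : wA A (Pi.single j 1 : V → ZMod 2) ≤ 1 := by
        unfold wA
        rw [card_le_one]
        intro a ha b hb
        rw [mem_filter] at ha hb
        have key : ∀ i, (Pi.single j 1 : V → ZMod 2) i ≠ 0 → i = j := by
          intro i hi
          by_contra hij
          exact hi (Pi.single_eq_of_ne hij _)
        rw [key a ha.2, key b hb.2]
      unfold maj
      rw [if_pos (by omega)]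
    obtain ⟨c, hc1, hc2⟩ := indist2 e R hR C b₀ b₁ ph hadd hunit c₀
    refine ⟨sys R hR (c₀ + c), hcard _, ?_, hc2⟩
    rw [sat_sys]
    apply mem_range
    intro y hy
    rcases hker y hy with rfl | rfl
    · exact sum_eq_zero fun i _ => zero_mul _
    · have h1 : T (fun _ => 1) = 0 := by
        rw [hTe, hone]
        rfl
      have h2 : ph (fun _ => 1) = 1 := by
        have h3 : wt (T (fun _ => 1)) = 0 := by
          rw [h1]
          unfold wt
          rw [card_eq_zero, filter_eq_empty_iff]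
          intro i _ h4
          exact h4 rfl
        rw [hsmall _ (by omega)]
        have h4 : wA A (fun _ : V => (1 : ZMod 2)) = A.card := by
          unfold wA
          rw [filter_true_of_mem]
          intro j _
          show (1 : ZMod 2) ≠ 0
          decide
        unfold maj
        rw [h4, if_neg (by omega)]
      rw [dot_add, hc1 _ hy, h2, hc₀, dot_comm, dot_single]
      decide

/-- **Nondeterministic circuits.** -/
theorem wit_lower (δ : ℝ) (hδ : 0 < δ) : ∃ (c : ℝ) (k₀ n₀ B : ℕ), 0 < c ∧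
    ∀ (k n : ℕ), k₀ ≤ k → n₀ ≤ n → ∃ φ : Set (Cl n k), φ.ncard ≤ B * n ∧ ¬ Satisfiable φ ∧
    ∀ (K J : Type) (C : Circuit K (Cl n k ⊕ J)) (b₀ b₁ : K) (Acc : Set K) (H : Finset (Fin n))
      (r : ℕ) (col : Fin n → Fin r) (W : Finset (J → K)), δ * n ≤ H.card → r ≤ c * n →
      SymWit C H col W →
      (∀ w ∈ W, ∀ ψ : Set (Cl n k), ψ.ncard ≤ B * n → Satisfiable ψ →
        C.val (Sum.elim (inp b₀ b₁ ψ) w) C.out ∉ Acc) →
      (∃ w ∈ W, C.val (Sum.elim (inp b₀ b₁ φ) w) C.out ∈ Acc) →
      (2 : ℝ) ^ (c * n / r) ≤ W.card * @Fintype.card C.Gate C.fin := by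
  obtain ⟨η, k₀, n₀, B, hη, hmain⟩ := tseitin_lower δ hδ
  obtain ⟨c, hc⟩ : ∃ c : ℝ, c = η / (4 * (k₀ + 2)) := ⟨_, rfl⟩
  have hk0 : (0 : ℝ) ≤ k₀ := Nat.cast_nonneg _
  have hcpos : 0 < c := by rw [hc]; positivity
  refine ⟨c, k₀, max n₀ 1, B, hcpos, ?_⟩
  intro k n hk hn
  obtain ⟨φ, h1, h2, h3⟩ := hmain k n hk ((le_max_left _ _).trans hn)
  have hn1 : 1 ≤ n := (le_max_right _ _).trans hn
  refine ⟨φ, h1, h2, ?_⟩
  intro K J C b₀ b₁ Acc H r col W hH hr hS hsound hacc
  let _ := C.fin
  by_contra hcon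
  rw [not_le] at hcon
  have hr1 : 1 ≤ r := (Nat.zero_le _).trans_lt (col ⟨0, by omega⟩).2
  have hrR : (1 : ℝ) ≤ r := by exact_mod_cast hr1
  have hrpos : (0 : ℝ) < r := by linarith
  obtain ⟨q, hq⟩ : ∃ q : ℝ, q = n / r := ⟨_, rfl⟩
  have hq1 : 1 ≤ c * q := by
    rw [hq, ← mul_div_assoc, le_div_iff₀ hrpos, one_mul]
    exact hr
  have hcq : η * q / 4 = (k₀ + 2) * (c * q) := by
    rw [hc]
    field_simp
  have hq0 : 0 < q := by
    by_contra h
    rw [not_lt] at h
    nlinarith
  obtain ⟨t, ht⟩ : ∃ t : ℕ, t = ⌊η * q / 4⌋₊ := ⟨_, rfl⟩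
  have ht1 : (t : ℝ) ≤ η * q / 4 := by rw [ht]; exact Nat.floor_le (by positivity)
  have ht2 : η * q / 4 < t + 1 := by rw [ht]; exact Nat.lt_floor_add_one _
  have hkt : k₀ ≤ t := by
    have h4 : (k₀ : ℝ) + 2 < t + 1 := by nlinarith
    have h5 : (k₀ : ℝ) < t := by linarith
    exact (by exact_mod_cast h5 : k₀ < t).le
  have hct : c * q ≤ t := by
    have h4 : 2 * (c * q) ≤ η * q / 4 := by rw [hcq]; nlinarith
    linarith
  have hinp : ∀ ψ : Set (Cl n k), inp (some b₀) (some b₁) ψ = fun i => some (inp b₀ b₁ ψ i) := by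
    intro ψ
    funext i
    unfold inp
    split_ifs <;> rfl
  have hsym : SymCol (uni C b₀ Acc W) H col := by
    intro π f hπ hπ2
    obtain ⟨θ, α, hα, hθ⟩ := hS π f hπ hπ2
    exact uni_aut C b₀ Acc W _ θ α hα hθ
  obtain ⟨ψ, h4, h5, h6⟩ := h3 (Option K) (uni C b₀ Acc W) (some b₀) (some b₁) H r col t hsym hH
    hkt (by
      have h7 : (4 * r * t : ℝ) ≤ 4 * r * (η * q / 4) :=
        mul_le_mul_of_nonneg_left ht1 (by positivity)
      have h8 : 4 * r * (η * q / 4) = η * n := by rw [hq]; field_simp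
      linarith) (by
      rw [uni_card]
      have h7 : (2 : ℝ) ^ (c * n / r) ≤ 2 ^ t := by
        rw [← Real.rpow_natCast]
        apply Real.rpow_le_rpow_of_exponent_le (by norm_num)
        rw [mul_div_assoc, ← hq]
        exact hct
      have h8 : (W.card : ℝ) * (Fintype.card C.Gate : ℕ) < 2 ^ t := lt_of_lt_of_le hcon h7
      have h9 : W.card * Fintype.card C.Gate < 2 ^ t := by exact_mod_cast h8
      have h10 : 0 < 2 ^ t := by positivity
      rw [pow_succ]
      omega)
  rw [hinp, hinp] at h6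
  have h7 := (uni_out C b₀ Acc W (inp b₀ b₁ φ)).2 hacc
  rw [← h6] at h7
  obtain ⟨w, hw, hwa⟩ := (uni_out C b₀ Acc W (inp b₀ b₁ ψ)).1 h7
  exact hsound w hw ψ h4 h5 hwa

end Pool.Agent.T9h47.SE
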